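import Pool.Agent.P.MP_3c2f8c_gt.Qu.Morita

/-! QU-9: the reduced characteristic polynomial. -/

namespace Pool.Agent.P.MP_3c2f8c_gt

open Matrix Polynomial

variable {a b : ℤ} {R S : Type} [CommRing R] [CommRing S] {E : Type} [Field E] [CharZero E]
  {ι κ μ : Type} [Fintype ι] [DecidableEq ι] [Fintype κ] [DecidableEq κ]
  [NeZero a] [NeZero b]

namespace RCharAux

omit [NeZero a] [NeZero b] [Fintype ι] in
theorem bc_one (φ : R →+* S) : bc φ (1 : Matrix ι ι (Q a b R)) = 1 :=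
  Matrix.map_one _ (map_zero _) (map_one _)

omit [NeZero a] [NeZero b] in
theorem bc_sub (φ : R →+* S) {ν : Type} (g h : Matrix μ ν (Q a b R)) :
    bc φ (g - h) = bc φ g - bc φ h :=
  Matrix.map_sub _ (map_sub _) _ _

omit [NeZero a] [NeZero b] [DecidableEq ι] in
theorem bc_mul (φ : R →+* S) {ν : Type} (g : Matrix μ ι (Q a b R)) (h : Matrix ι ν (Q a b R)) :
    bc φ (g * h) = bc φ g * bc φ h :=
  Matrix.map_mul

omit [NeZero a] [NeZero b] in
theorem mor_smul {s t : R} (h : (b : R) = s ^ 2 - a * t ^ 2) {ν : Type} (c : R)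
    (g : Matrix μ ν (Q a b R)) : mor (spEmb a b h) (c • g) = c • mor (spEmb a b h) g := by
  ext ⟨i, k⟩ ⟨j, l⟩
  simp only [mor, Matrix.comp_apply, Matrix.map_apply, Matrix.smul_apply, spEmb_smul]

omit [NeZero a] [NeZero b] in
theorem mor_bc {s t : R} (h : (b : R) = s ^ 2 - a * t ^ 2) (φ : R →+* S)
    (h' : (b : S) = φ s ^ 2 - a * φ t ^ 2) {ν : Type} (g : Matrix μ ν (Q a b R)) :
    mor (spEmb a b h') (bc φ g) = (mor (spEmb a b h) g).map φ := by
  ext ⟨i, k⟩ ⟨j, l⟩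
  simp only [mor, Matrix.comp_apply, Matrix.map_apply, spEmb_qmap h φ h']

end RCharAux

open RCharAux

omit [NeZero a] [NeZero b] in
theorem rchar_bc (φ : R →+* S) (g : Matrix ι ι (Q a b R)) :
    rchar (bc φ g) = (rchar g).map φ := by
  have h : (mapRingHom φ).comp C = C.comp φ := by
    ext x; simp
  unfold rchar
  rw [← coe_mapRingHom, ← nrd_bc, bc_sub, bc_smul, bc_one, bc_bc, bc_bc, h, coe_mapRingHom,
    Polynomial.map_X]

theorem rchar_eq_charpoly [Algebra ℚ R] {s t : R} (h : (b : R) = s ^ 2 - a * t ^ 2)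
    (g : Matrix ι ι (Q a b R)) : rchar g = (mor (spEmb a b h) g).charpoly := by
  have h' : (b : R[X]) = C s ^ 2 - a * C t ^ 2 := by
    have := congrArg (C : R →+* R[X]) h
    simpa using this
  unfold rchar
  rw [nrd_eq_det h', mor_sub, mor_smul, mor_one, mor_bc h C h', Matrix.charpoly, charmatrix]
  congr 1
  ext i j
  simp [Matrix.one_apply, Matrix.diagonal_apply]

theorem rchar_of_conj [Algebra ℚ R] {g g' u : Matrix ι ι (Q a b R)} (hu : IsUnit u)
    (h : u * g = g' * u) : rchar g = rchar g' := by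
  obtain ⟨v, hv⟩ := hu.exists_right_inv
  have h1 : bc C u * ((X : R[X]) • (1 : Matrix ι ι (Q a b R[X])) - bc C g) =
      ((X : R[X]) • (1 : Matrix ι ι (Q a b R[X])) - bc C g') * bc C u := by
    rw [Matrix.mul_sub, Matrix.sub_mul, ← bc_mul, ← bc_mul, h, Matrix.mul_smul, Matrix.smul_mul,
      Matrix.mul_one, Matrix.one_mul]
  have h2 := congrArg nrd h1
  rw [nrd_mul, nrd_mul] at h2
  have h3 : nrd (bc (C : R →+* R[X]) u) * nrd (bc C v) = 1 := by
    rw [← nrd_mul, ← bc_mul, hv, bc_one, nrd_one]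
  unfold rchar
  linear_combination nrd (bc (C : R →+* R[X]) v) * h2 -
    (nrd ((X : R[X]) • (1 : Matrix ι ι (Q a b R[X])) - bc C g) -
      nrd ((X : R[X]) • (1 : Matrix ι ι (Q a b R[X])) - bc C g')) * h3

theorem regP_map {K L : Type} [Field K] [Field L] (φ : K →+* L) (χ : K[X]) :
    RegP (χ.map φ) ↔ RegP χ := by
  have h1 : (χ.map φ).eval 1 = φ (χ.eval 1) := by
    rw [eval_map, ← eval₂_at_apply, map_one]
  have h2 : (χ.map φ).eval (-1) = φ (χ.eval (-1)) := by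
    rw [eval_map, ← eval₂_at_apply, map_neg, map_one]
  unfold RegP
  rw [separable_map, h1, h2, _root_.map_ne_zero, _root_.map_ne_zero]

namespace RCharAux

omit [NeZero b] in
theorem exists_st : ∃ s t : ℂ, (b : ℂ) = s ^ 2 - a * t ^ 2 := by
  obtain ⟨ω, hω⟩ := IsAlgClosed.exists_eq_mul_self (a : ℂ)
  have ha : (a : ℂ) ≠ 0 := Int.cast_ne_zero.2 (NeZero.ne a)
  have h0 : ω ≠ 0 := fun h => ha (by rw [hω, h, mul_zero])
  refine ⟨(b + 1) / 2, (b - 1) / (2 * ω), ?_⟩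
  rw [hω]
  field_simp
  ring

/-- The splitting over the complex numbers. -/
noncomputable def phi {s t : ℂ} (h : (b : ℂ) = s ^ 2 - a * t ^ 2) (ι : Type) [Fintype ι]
    [DecidableEq ι] : Matrix ι ι (Q a b ℚ) →ₐ[ℚ] Matrix (ι × Fin 2) (ι × Fin 2) ℂ :=
  RingHom.toRatAlgHom
    { toFun := fun g => mor (spEmb a b h) (bc (ra ℂ) g)
      map_one' := by rw [bc_one, mor_one]
      map_mul' := fun x y => by rw [bc_mul, mor_mul]
      map_zero' := by
        have := mor_sub (spEmb a b h) (bc (ra ℂ) (0 : Matrix ι ι (Q a b ℚ))) (bc (ra ℂ) 0)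
        rw [← bc_sub, sub_self, sub_self] at this
        exact this
      map_add' := fun x y => by
        rw [← mor_add]
        congr 1
        exact Matrix.map_add _ (map_add _) _ _ }

omit [NeZero a] [NeZero b] in
theorem phi_apply {s t : ℂ} (h : (b : ℂ) = s ^ 2 - a * t ^ 2) (g : Matrix ι ι (Q a b ℚ)) :
    phi h ι g = mor (spEmb a b h) (bc (ra ℂ) g) := rfl

theorem phi_injective {s t : ℂ} (h : (b : ℂ) = s ^ 2 - a * t ^ 2) :
    Function.Injective (phi h ι) := fun _ _ hxy =>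
  bc_injective (ra ℂ).injective ((mor_bijective h).1 hxy)

theorem map_rchar {s t : ℂ} (h : (b : ℂ) = s ^ 2 - a * t ^ 2) (g : Matrix ι ι (Q a b ℚ)) :
    (rchar g).map (ra ℂ) = (phi h ι g).charpoly := by
  rw [← rchar_bc, rchar_eq_charpoly h, phi_apply]

theorem det_phi {s t : ℂ} (h : (b : ℂ) = s ^ 2 - a * t ^ 2) (g : Matrix ι ι (Q a b ℚ)) :
    (phi h ι g).det = ra ℂ (nrd g) := by
  rw [← nrd_bc, nrd_eq_det h, phi_apply]

theorem aeval_rchar (g : Matrix ι ι (Q a b ℚ)) : aeval g (rchar g) = 0 := by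
  obtain ⟨s, t, h⟩ := exists_st (a := a) (b := b)
  apply phi_injective h
  rw [map_zero, ← aeval_algHom_apply, ← aeval_map_algebraMap ℂ, map_rchar h,
    Matrix.aeval_self_charpoly]

theorem rchar_conjTranspose (g : Matrix ι ι (Q a b ℚ)) : rchar gᴴ = rchar g := by
  unfold rchar
  rw [← nrd_conjTranspose, bc_conjTranspose, conjTranspose_sub, conjTranspose_conjTranspose]
  congr 2
  ext i j <;> by_cases h : i = j <;> simp [h, eq_comm]

/-- The polynomial `X^N m(X + 1/X)`. -/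
noncomputable def hom (N : ℕ) (m : ℚ[X]) : ℚ[X] :=
  ∑ k ∈ Finset.range (N + 1), m.coeff k • (X ^ (N - k) * (X ^ 2 + 1) ^ k)

theorem aeval_hom {A : Type} [Ring A] [Algebra ℚ A] {x y : A} (hxy : x * y = 1) (hyx : y * x = 1)
    {N : ℕ} {m : ℚ[X]} (hm : m.natDegree ≤ N) :
    aeval x (hom N m) = x ^ N * aeval (x + y) m := by
  have hc : Commute x (x + y) := (Commute.refl x).add_right (hxy.trans hyx.symm)
  have h2 : x ^ 2 + 1 = x * (x + y) := by rw [mul_add, hxy, sq]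
  rw [aeval_eq_sum_range' (Nat.lt_succ_of_le hm), Finset.mul_sum, hom, map_sum]
  refine Finset.sum_congr rfl fun k hk => ?_
  have hk' : k ≤ N := Nat.lt_succ_iff.1 (Finset.mem_range.1 hk)
  rw [map_smul, mul_smul_comm, map_mul, map_pow, map_pow, map_add, map_pow, aeval_X, map_one, h2,
    hc.mul_pow, ← mul_assoc, ← pow_add, Nat.sub_add_cancel hk']

theorem eval_hom {z : ℚ} (hz : z ≠ 0) {N : ℕ} {m : ℚ[X]} (hm : m.natDegree ≤ N) :
    (hom N m).eval z = z ^ N * m.eval (z + z⁻¹) := by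
  have := aeval_hom (mul_inv_cancel₀ hz) (inv_mul_cancel₀ hz) hm
  simpa only [coe_aeval_eq_eval] using this

theorem natDegree_sq : (X ^ 2 + 1 : ℚ[X]).natDegree ≤ 2 := by
  compute_degree

theorem reflect_pow (n : ℕ) : reflect (2 * n) ((X ^ 2 + 1 : ℚ[X]) ^ n) = (X ^ 2 + 1) ^ n := by
  induction n with
  | zero => simp
  | succ n ih =>
    have h1 : ((X ^ 2 + 1 : ℚ[X]) ^ n).natDegree ≤ 2 * n := by
      rw [mul_comm]
      exact natDegree_pow_le_of_le n natDegree_sq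
    rw [pow_succ, mul_add, mul_one, reflect_mul _ _ h1 natDegree_sq, ih, reflect_add,
      reflect_monomial, reflect_one, revAt_le le_rfl, Nat.sub_self, pow_zero, add_comm 1]

theorem exists_hom (N : ℕ) : ∀ χ : ℚ[X], χ.natDegree ≤ 2 * N → reflect (2 * N) χ = χ →
    ∃ m : ℚ[X], m.natDegree ≤ N ∧ m.coeff N = χ.coeff (2 * N) ∧ χ = hom N m := by
  induction N with
  | zero =>
    intro χ h _
    refine ⟨χ, h, rfl, ?_⟩
    rw [eq_C_of_natDegree_le_zero h]
    simp [hom, smul_eq_C_mul]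
  | succ N ih =>
    intro χ hd hr
    have h1 : ((X ^ 2 + 1 : ℚ[X]) ^ (N + 1)).natDegree ≤ 2 * (N + 1) := by
      rw [mul_comm]
      exact natDegree_pow_le_of_le _ natDegree_sq
    have h0 : ((X ^ 2 + 1 : ℚ[X]) ^ (N + 1)).coeff 0 = 1 := by
      rw [coeff_zero_eq_eval_zero]; simp
    obtain ⟨ψ, hψ⟩ : ∃ ψ, ψ = χ - C (χ.coeff 0) * (X ^ 2 + 1 : ℚ[X]) ^ (N + 1) := ⟨_, rfl⟩
    have hψr : reflect (2 * (N + 1)) ψ = ψ := by
      rw [hψ, reflect_sub, reflect_C_mul, reflect_pow, hr]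
    have hψc : ∀ i, ψ.coeff (revAt (2 * (N + 1)) i) = ψ.coeff i := fun i => by
      rw [← coeff_reflect, hψr]
    have hψ0 : ψ.coeff 0 = 0 := by
      rw [hψ, coeff_sub, coeff_C_mul, h0, mul_one, sub_self]
    have hψd : ψ.natDegree ≤ 2 * (N + 1) := by
      rw [hψ]
      exact (natDegree_sub_le _ _).trans (max_le hd ((natDegree_C_mul_le _ _).trans h1))
    have hχ0 : χ.coeff (2 * (N + 1)) = χ.coeff 0 := by
      conv_rhs => rw [← hr, coeff_reflect, revAt_le (Nat.zero_le _), Nat.sub_zero]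
    obtain ⟨m, hm1, -, hm3⟩ := ih ψ.divX (by
      rw [natDegree_le_iff_coeff_eq_zero]
      intro i hi
      rw [coeff_divX]
      rcases Nat.lt_or_ge (2 * (N + 1)) (i + 1) with h | h
      · exact coeff_eq_zero_of_natDegree_lt (hψd.trans_lt h)
      · rw [← hψc, revAt_le h, show 2 * (N + 1) - (i + 1) = 0 by omega, hψ0]) (by
      ext i
      rw [coeff_reflect, coeff_divX, coeff_divX]
      rcases le_or_gt i (2 * N) with h | h
      · rw [← hψc (i + 1), revAt_le h, revAt_le (by omega)]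
        congr 1
        omega
      · rw [revAt_eq_self_of_lt h])
    refine ⟨m + monomial (N + 1) (χ.coeff 0), ?_, ?_, ?_⟩
    · exact (natDegree_add_le _ _).trans (max_le (by omega) (natDegree_monomial_le _))
    · rw [coeff_add, coeff_monomial_same, coeff_eq_zero_of_natDegree_lt (by omega), zero_add, hχ0]
    · have h3 : ψ = X * hom N m := by
        rw [← hm3]
        conv_lhs => rw [← X_mul_divX_add ψ, hψ0, C_0, add_zero]
      rw [hom, Finset.sum_range_succ, coeff_add, coeff_monomial_same,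
        coeff_eq_zero_of_natDegree_lt (p := m) (by omega), zero_add, Nat.sub_self, pow_zero,
        one_mul, smul_eq_C_mul, ← sub_eq_iff_eq_add, ← hψ, h3, hom, Finset.mul_sum]
      refine Finset.sum_congr rfl fun k hk => ?_
      have hk' : k ≤ N := Nat.lt_succ_iff.1 (Finset.mem_range.1 hk)
      rw [coeff_add, coeff_monomial_of_ne _ (by omega), add_zero, mul_smul_comm, ← mul_assoc,
        ← pow_succ', Nat.succ_sub hk']

theorem natDegree_rchar (g : Matrix ι ι (Q a b ℚ)) :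
    (rchar g).Monic ∧ (rchar g).natDegree = 2 * Fintype.card ι := by
  obtain ⟨s, t, h⟩ := exists_st (a := a) (b := b)
  constructor
  · rw [(ra ℂ).injective.monic_map_iff, map_rchar h]
    exact Matrix.charpoly_monic _
  · rw [← natDegree_map (ra ℂ), map_rchar h, Matrix.charpoly_natDegree_eq_dim, Fintype.card_prod,
      Fintype.card_fin, mul_comm]

omit [NeZero a] [NeZero b] in
theorem exists_eig {n : Type} [Fintype n] [DecidableEq n] (G : Matrix n n ℂ) {z : ℂ}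
    (hz : G.charpoly.eval z = 0) : ∃ w, w ≠ 0 ∧ G *ᵥ w = z • w := by
  rw [Matrix.eval_charpoly] at hz
  obtain ⟨w, hw0, hw⟩ := Matrix.exists_mulVec_eq_zero_iff.2 hz
  refine ⟨w, hw0, ?_⟩
  rw [Matrix.sub_mulVec, sub_eq_zero] at hw
  rw [← hw]
  ext i
  simp [Matrix.scalar_apply, Matrix.mulVec_diagonal]

omit [NeZero a] [NeZero b] in
theorem pow_mulVec_eig {n : Type} [Fintype n] [DecidableEq n] {G : Matrix n n ℂ} {z : ℂ}
    {w : n → ℂ} (h : G *ᵥ w = z • w) (k : ℕ) : (G ^ k) *ᵥ w = z ^ k • w := by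
  induction k with
  | zero => simp
  | succ k ih => rw [pow_succ, ← Matrix.mulVec_mulVec, h, Matrix.mulVec_smul, ih, smul_smul, pow_succ']

omit [NeZero a] [NeZero b] in
theorem exists_vec {N : ℕ} {G G' : Matrix (Fin N × Fin 2) (Fin N × Fin 2) ℂ} (h1 : G' * G = 1)
    {m : ℚ[X]} (hd : m.natDegree = N) (hs : m.Separable) (h2 : m.eval 2 ≠ 0)
    (h3 : m.eval (-2) ≠ 0) (hχ : (hom N m).map (ra ℂ) = G.charpoly) :
    ∃ v : Fin N × Fin 2 → ℂ, (Matrix.of fun x y : Fin N × Fin 2 =>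
      (((G + G') ^ (y.1 : ℕ)) *ᵥ ((G ^ (y.2 : ℕ)) *ᵥ v)) x).det ≠ 0 := by
  classical
  have hs' : (m.map (ra ℂ)).Separable := hs.map
  have hcard : (m.map (ra ℂ)).roots.toFinset.card = N := by
    rw [Multiset.toFinset_card_of_nodup (nodup_roots hs'),
      ← (IsAlgClosed.splits _).natDegree_eq_card_roots, natDegree_map, hd]
  obtain ⟨t, ht, htr⟩ : ∃ t : Fin N → ℂ, Function.Injective t ∧ ∀ j, aeval (t j) m = 0 := by
    refine ⟨fun j => ((Finset.equivFinOfCardEq hcard).symm j : ℂ),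
      Subtype.coe_injective.comp (Finset.equivFinOfCardEq hcard).symm.injective, fun j => ?_⟩
    have := ((Finset.equivFinOfCardEq hcard).symm j).2
    rw [Multiset.mem_toFinset, mem_roots hs'.ne_zero, IsRoot.def, eval_map_algebraMap] at this
    exact this
  have hl : ∀ j, ∃ l : ℂ, l ≠ 0 ∧ l + l⁻¹ = t j ∧ l ≠ l⁻¹ := fun j => by
    obtain ⟨d, hd⟩ := IsAlgClosed.exists_eq_mul_self (t j ^ 2 - 4)
    have e1 : (t j + d) / 2 * ((t j - d) / 2) = 1 := by linear_combination (1 / 4 : ℂ) * hd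
    have e2 : ((t j + d) / 2)⁻¹ = (t j - d) / 2 := inv_eq_of_mul_eq_one_right e1
    refine ⟨(t j + d) / 2, left_ne_zero_of_mul_eq_one e1, by rw [e2]; ring, ?_⟩
    rw [e2]
    intro e3
    have e4 : d = 0 := by linear_combination e3
    have e5 : (t j - 2) * (t j + 2) = 0 := by
      rw [e4] at hd
      linear_combination hd
    rcases mul_eq_zero.1 e5 with e6 | e6
    · apply h2
      have e7 : t j = algebraMap ℚ ℂ 2 := by
        rw [map_ofNat]
        linear_combination e6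
      have := htr j
      rwa [e7, aeval_algebraMap_apply_eq_algebraMap_eval, map_eq_zero] at this
    · apply h3
      have e7 : t j = algebraMap ℚ ℂ (-2) := by
        rw [map_neg, map_ofNat]
        linear_combination e6
      have := htr j
      rwa [e7, aeval_algebraMap_apply_eq_algebraMap_eval, map_eq_zero] at this
  choose l hl0 hl1 hl2 using hl
  obtain ⟨ν, hν0, hν1⟩ : ∃ ν : Fin N × Fin 2 → ℂ, (∀ j, ν (j, 0) = l j) ∧
      ∀ j, ν (j, 1) = (l j)⁻¹ := ⟨fun x => ![l x.1, (l x.1)⁻¹] x.2, fun _ => rfl, fun _ => rfl⟩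
  have hν : ∀ x, ν x ≠ 0 ∧ ν x + (ν x)⁻¹ = t x.1 := by
    rintro ⟨j, q⟩
    fin_cases q
    · exact ⟨(hν0 j).symm ▸ hl0 j, (hν0 j).symm ▸ hl1 j⟩
    · refine ⟨(hν1 j).symm ▸ inv_ne_zero (hl0 j), ?_⟩
      show ν (j, 1) + (ν (j, 1))⁻¹ = t j
      rw [hν1, inv_inv, add_comm, hl1]
  have hinj : Function.Injective ν := by
    rintro ⟨j, q⟩ ⟨j', q'⟩ he
    have e1 : j = j' := ht (by
      have a1 := (hν (j, q)).2
      have a2 := (hν (j', q')).2
      rw [he] at a1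
      exact a1.symm.trans a2)
    subst e1
    fin_cases q <;> fin_cases q'
    · rfl
    · exact absurd ((hν0 j).symm.trans (he.trans (hν1 j))) (hl2 j)
    · exact absurd ((hν0 j).symm.trans (he.symm.trans (hν1 j))) (hl2 j)
    · rfl
  have hw : ∀ x, ∃ w, w ≠ 0 ∧ G *ᵥ w = ν x • w := fun x => exists_eig G (by
    rw [← hχ, eval_map_algebraMap,
      aeval_hom (mul_inv_cancel₀ (hν x).1) (inv_mul_cancel₀ (hν x).1) hd.le, (hν x).2, htr,
      mul_zero])
  choose w hw0 hw using hw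
  have hli : LinearIndependent ℂ w :=
    Module.End.eigenvectors_linearIndependent' (Matrix.toLin' G) ν hinj w fun x =>
      ⟨Module.End.mem_eigenspace_iff.2 (by rw [Matrix.toLin'_apply, hw]), hw0 x⟩
  have hB : ∀ x, (G + G') *ᵥ w x = t x.1 • w x := fun x => by
    have e1 : G' *ᵥ w x = (ν x)⁻¹ • w x := by
      have e2 : G' *ᵥ (G *ᵥ w x) = w x := by rw [Matrix.mulVec_mulVec, h1, Matrix.one_mulVec]
      rw [hw, Matrix.mulVec_smul] at e2
      rw [eq_inv_smul_iff₀ (hν x).1, e2]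
    rw [Matrix.add_mulVec, hw, e1, ← add_smul, (hν x).2]
  refine ⟨∑ x, w x, fun hdet => ?_⟩
  obtain ⟨c, hc0, hc⟩ := Matrix.exists_mulVec_eq_zero_iff.2 hdet
  have hsum : ∑ x, (∑ y : Fin N × Fin 2, c y * t x.1 ^ (y.1 : ℕ) * ν x ^ (y.2 : ℕ)) • w x = 0 := by
    rw [← hc]
    ext i
    simp only [Matrix.mulVec_sum, pow_mulVec_eig (hw _), Matrix.mulVec_smul, pow_mulVec_eig (hB _)]
    simp only [Matrix.mulVec, dotProduct, Matrix.of_apply, Finset.sum_apply, Pi.smul_apply,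
      smul_eq_mul, Finset.sum_mul]
    rw [Finset.sum_comm]
    refine Finset.sum_congr rfl fun y _ => Finset.sum_congr rfl fun x _ => by ring
  have hz := Fintype.linearIndependent_iff.1 hli _ hsum
  have hp : ∀ j, ∑ k : Fin N, c (k, 0) * t j ^ (k : ℕ) = 0 ∧
      ∑ k : Fin N, c (k, 1) * t j ^ (k : ℕ) = 0 := fun j => by
    have a1 := hz (j, 0)
    have a2 := hz (j, 1)
    simp only [Fintype.sum_prod_type, Fin.sum_univ_two, Fin.val_zero, Fin.val_one, pow_zero,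
      pow_one, mul_one, Finset.sum_add_distrib, ← Finset.sum_mul, hν0, hν1] at a1 a2
    have a3 : ∑ k : Fin N, c (k, 1) * t j ^ (k : ℕ) = 0 :=
      (mul_eq_zero.1 (by linear_combination a1 - a2)).resolve_right (sub_ne_zero.2 (hl2 j))
    rw [a3, zero_mul, add_zero] at a1
    exact ⟨a1, a3⟩
  have b0 := Matrix.eq_zero_of_forall_index_sum_mul_pow_eq_zero ht fun j => (hp j).1
  have b1 := Matrix.eq_zero_of_forall_index_sum_mul_pow_eq_zero ht fun j => (hp j).2
  apply hc0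
  ext ⟨k, q⟩
  fin_cases q
  · exact congrFun b0 k
  · exact congrFun b1 k

/-- The matrix with columns `β^k e`. -/
def cm {A : Type} [Ring A] {N : ℕ} (β : Matrix (Fin N) (Fin N) A) (e : Fin N → A) :
    Matrix (Fin N) (Fin N) A := Matrix.of fun i k : Fin N => ((β ^ (k : ℕ)) *ᵥ e) i

omit [NeZero a] [NeZero b] in
theorem bc_pow (φ : R →+* S) (β : Matrix ι ι (Q a b R)) (k : ℕ) :
    bc φ (β ^ k) = bc φ β ^ k := map_pow (qmap a b φ).mapMatrix β k

omit [NeZero a] [NeZero b] in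
theorem bc_cm (φ : R →+* S) {N : ℕ} (β : Matrix (Fin N) (Fin N) (Q a b R)) (e : Fin N → Q a b R) :
    bc φ (cm β e) = cm (bc φ β) fun i => qmap a b φ (e i) := by
  refine Matrix.ext fun i k => ?_
  show qmap a b φ (((β ^ (k : ℕ)) *ᵥ e) i) = ((bc φ β ^ (k : ℕ)) *ᵥ fun i => qmap a b φ (e i)) i
  rw [← bc_pow]
  exact RingHom.map_mulVec _ _ _ _

theorem exists_unit_cm {N : ℕ} (β : Matrix (Fin N) (Fin N) (Q a b ℚ)) (e : Fin N → Q a b ℂ)
    (he : nrd (cm (bc (ra ℂ) β) e) ≠ 0) : ∃ e', IsUnit (cm β e') := by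
  obtain ⟨g, hg⟩ : ∃ g : Fin N → Q a b (MvPolynomial (Fin N × Fin 4) ℚ), ∀ i,
      g i = ⟨MvPolynomial.X (i, 0), MvPolynomial.X (i, 1), MvPolynomial.X (i, 2),
        MvPolynomial.X (i, 3)⟩ := ⟨_, fun _ => rfl⟩
  have hF : nrd (cm (bc (ra (MvPolynomial (Fin N × Fin 4) ℚ)) β) g) ≠ 0 := by
    intro h0
    apply he
    have := nrd_bc (MvPolynomial.eval₂Hom (ra ℂ) fun x : Fin N × Fin 4 =>
      ![(e x.1).re, (e x.1).imI, (e x.1).imJ, (e x.1).imK] x.2)
      (cm (bc (ra (MvPolynomial (Fin N × Fin 4) ℚ)) β) g)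
    rw [h0, map_zero, bc_cm, bc_bc, Subsingleton.elim (RingHom.comp _ _) (ra ℂ)] at this
    refine Eq.trans ?_ this
    congr 2
    ext i <;> simp [hg, qmap]
  by_contra hne
  apply hF
  apply MvPolynomial.funext
  intro x
  rw [map_zero, ← nrd_bc, bc_cm, bc_bc, Subsingleton.elim (RingHom.comp _ _) (RingHom.id ℚ)]
  have hb : bc (RingHom.id ℚ) β = β := by
    ext i j <;> simp [qmap]
  rw [hb]
  by_contra h0
  exact hne ⟨_, (isUnit_iff_nrd _).2 h0⟩

end RCharAux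

theorem exists_pal {H : Matrix ι ι (Q a b ℚ)} (hu : IsUnit H) (γ : Un H) (h1 : nrd γ.1.1 = 1) :
    ∃ m, Pal (Fintype.card ι) m (rchar γ.1.1) := by
  obtain ⟨s, t, h⟩ := exists_st (a := a) (b := b)
  have hγ : γ.1.1ᴴ * H * γ.1.1 = H := γ.2
  generalize γ.1 = u at hγ h1 ⊢
  have e1 : H * (u⁻¹).1 = u.1ᴴ * H := by
    conv_lhs => rw [← hγ, Matrix.mul_assoc, Units.mul_inv, Matrix.mul_one]
  have e2 : rchar (u⁻¹).1 = rchar u.1 := (rchar_of_conj hu e1).trans (rchar_conjTranspose _)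
  obtain ⟨hm, hd⟩ := natDegree_rchar u.1
  have e0 : phi h ι u.1 * phi h ι (u⁻¹).1 = 1 := by rw [← map_mul, u.mul_inv, map_one]
  have e3 : (phi h ι u.1)⁻¹ = phi h ι (u⁻¹).1 := Matrix.inv_eq_right_inv e0
  have e5 := Matrix.charpoly_inv (phi h ι u.1) (u.isUnit.map (phi h ι))
  rw [e3, ← map_rchar h, e2, det_phi, h1, map_one, Ring.inverse_one, ← Matrix.reverse_charpoly,
    ← map_rchar h, reverse, natDegree_map, hd, reflect_map, Fintype.card_prod, Fintype.card_fin,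
    mul_comm _ 2, pow_mul, neg_one_sq, one_pow, C_1, one_mul, one_mul] at e5
  have e4 : reflect (2 * Fintype.card ι) (rchar u.1) = rchar u.1 :=
    Polynomial.map_injective (ra ℂ) (ra ℂ).injective e5.symm
  obtain ⟨m, hm1, hm2, hm3⟩ := exists_hom _ _ hd.le e4
  have hm4 : m.coeff (Fintype.card ι) = 1 := by rw [hm2, ← hd, hm.coeff_natDegree]
  exact ⟨m, monic_of_natDegree_le_of_coeff_eq_one _ hm1 hm4,
    natDegree_eq_of_le_of_coeff_ne_zero hm1 (by rw [hm4]; exact one_ne_zero), hm3⟩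

theorem Pal.separable {N : ℕ} {m χ : ℚ[X]} (h : Pal N m χ) (hr : RegP χ) :
    m.Separable ∧ m.eval 2 ≠ 0 ∧ m.eval (-2) ≠ 0 := by
  obtain ⟨hm, hd, hχ⟩ := h
  have hχ' : χ = hom N m := hχ
  obtain ⟨hs, h1, h2⟩ := hr
  refine ⟨?_, fun h0 => h1 ?_, fun h0 => h2 ?_⟩
  · rw [PerfectField.separable_iff_squarefree]
    rintro p ⟨q, hq⟩
    have hp0 : p ≠ 0 := fun h0 => hm.ne_zero (by rw [hq, h0, zero_mul, zero_mul])
    have hq0 : q ≠ 0 := fun h0 => hm.ne_zero (by rw [hq, h0, mul_zero])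
    have hN : N = p.natDegree + p.natDegree + q.natDegree := by
      rw [← hd, hq, natDegree_mul (mul_ne_zero hp0 hp0) hq0, natDegree_mul hp0 hp0]
    have he : χ = hom p.natDegree p * hom p.natDegree p * hom q.natDegree q := by
      apply eq_of_infinite_eval_eq
      refine (Set.finite_singleton (0 : ℚ)).infinite_compl.mono fun z hz => ?_
      have hz' : z ≠ 0 := hz
      show _ = _
      rw [hχ', eval_mul, eval_mul, eval_hom hz' hd.le, eval_hom hz' le_rfl, eval_hom hz' le_rfl,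
        hq, hN, eval_mul, eval_mul]
      ring
    obtain ⟨c, hc, hc'⟩ := Polynomial.isUnit_iff.1 (hs.squarefree _ ⟨_, he⟩)
    have e1 := eval_hom (z := 2) two_ne_zero (le_refl p.natDegree)
    have e2 := eval_hom (z := 2⁻¹) (inv_ne_zero two_ne_zero) (le_refl p.natDegree)
    rw [← hc', eval_C] at e1 e2
    rw [inv_inv, add_comm] at e2
    have e3 : p.eval (2 + 2⁻¹) ≠ 0 := fun h0 => hc.ne_zero (by rw [e1, h0, mul_zero])
    have e4 : (2 : ℚ) ^ p.natDegree = 2⁻¹ ^ p.natDegree := mul_right_cancel₀ e3 (e1.symm.trans e2)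
    have e5 : p.natDegree = 0 := by
      by_contra hne
      have a1 : (1 : ℚ) < 2 ^ p.natDegree := one_lt_pow₀ (by norm_num) hne
      have a2 : (2⁻¹ : ℚ) ^ p.natDegree < 1 := pow_lt_one₀ (by norm_num) (by norm_num) hne
      linarith
    rw [eq_C_of_natDegree_eq_zero e5] at hp0 ⊢
    exact isUnit_C.2 (IsUnit.mk0 _ fun h0 => hp0 (by rw [h0, C_0]))
  · rw [hχ', eval_hom one_ne_zero hd.le, inv_one, one_add_one_eq_two, h0, mul_zero]
  · rw [hχ', eval_hom (by norm_num) hd.le, show (-1 : ℚ) + (-1)⁻¹ = -2 by norm_num, h0, mul_zero]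

theorem Pal.aeval_eq_zero {γ : (Matrix ι ι (Q a b ℚ))ˣ} {m : ℚ[X]}
    (h : Pal (Fintype.card ι) m (rchar γ.1)) : aeval (γ.1 + (γ⁻¹).1) m = 0 := by
  have h1 := aeval_rchar γ.1
  have h2 : rchar γ.1 = hom (Fintype.card ι) m := h.2.2
  rw [h2, aeval_hom γ.mul_inv γ.inv_mul h.2.1.le] at h1
  exact (γ.isUnit.pow _).mul_right_eq_zero.1 h1

theorem exists_cyclic {r : ℕ} {γ : (Matrix (Fin (r + 1)) (Fin (r + 1)) (Q a b ℚ))ˣ} {m : ℚ[X]}
    (h : Pal (r + 1) m (rchar γ.1)) (hr : RegP (rchar γ.1)) :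
    ∃ e : Fin (r + 1) → Q a b ℚ,
      IsUnit (Matrix.of fun i k : Fin (r + 1) => (((γ.1 + (γ⁻¹).1) ^ (k : ℕ)) *ᵥ e) i) := by
  obtain ⟨s, t, hst⟩ := exists_st (a := a) (b := b)
  obtain ⟨h1, h2, h3⟩ := h.separable hr
  have h4 : rchar γ.1 = hom (r + 1) m := h.2.2
  obtain ⟨v, hv⟩ := exists_vec (G := phi hst _ γ.1) (G' := phi hst _ (γ⁻¹).1)
    (by rw [← map_mul, γ.inv_mul, map_one]) h.2.1 h1 h2 h3 (by rw [← h4, map_rchar hst])
  obtain ⟨e, he⟩ := (mor_bijective (μ := Fin (r + 1)) (ν := Unit) hst).2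
    (Matrix.of fun x y => ((phi hst _ γ.1 ^ (y.2 : ℕ)) *ᵥ v) x)
  refine exists_unit_cm (γ.1 + (γ⁻¹).1) (fun i => e i ()) ?_
  rw [nrd_eq_det hst]
  refine fun h0 => hv (Eq.trans ?_ h0)
  congr 1
  ext ⟨i, p⟩ ⟨k, q⟩
  have e1 := congrFun (congrFun
    (mor_mul (spEmb a b hst) (bc (ra ℂ) ((γ.1 + (γ⁻¹).1) ^ (k : ℕ))) e) (i, p)) ((), q)
  rw [he, ← phi_apply, map_pow, map_add, bc_pow] at e1
  exact e1.symm

end Pool.Agent.P.MP_3c2f8c_gt
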