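import Pool.Agent.P.MP_3c2f8c_gt.Defs
import Pool.Agent.P.MP_3c2f8c_gt.NT.Defs

/-!
Definitions for the algebraic part: quaternions, reduced norms, Morita theory, skew-hermitian
forms, the models of regular elements, local data.
-/

namespace Pool.Agent.P.MP_3c2f8c_gt

open Matrix Polynomial
open scoped Quaternion

instance factPrimes (p : Nat.Primes) : Fact p.1.Prime := ⟨p.2⟩

/-- The prime `3`. -/
def p3 : Nat.Primes := ⟨3, by norm_num⟩
/-- The prime `5`. -/
def p5 : Nat.Primes := ⟨5, by norm_num⟩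
/-- The prime `7`. -/
def p7 : Nat.Primes := ⟨7, by norm_num⟩
/-- The prime `11`. -/
def p11 : Nat.Primes := ⟨11, by norm_num⟩
/-- The prime `19`. -/
def p19 : Nat.Primes := ⟨19, by norm_num⟩

section Basic

variable {a b : ℤ} {R S : Type} [CommRing R] [CommRing S] {ι κ : Type}

/-- The reduced norm of a quaternion. -/
def nr (z : Q a b R) : R :=
  z.re ^ 2 - a * z.imI ^ 2 - b * z.imJ ^ 2 + a * b * z.imK ^ 2

/-- The square of a pure quaternion, as a scalar. -/
def sqp (z : Q a b R) : R := (z * z).re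

/-- Change of the base ring for matrices of quaternions. -/
abbrev bc (φ : R →+* S) (g : Matrix ι κ (Q a b R)) : Matrix ι κ (Q a b S) := g.map (qmap a b φ)

/-- A matrix of scalars as a matrix of quaternions. -/
abbrev cst (a b : ℤ) (M : Matrix ι κ R) : Matrix ι κ (Q a b R) := M.map (algebraMap R (Q a b R))

/-- The standard embedding into `2 × 2` matrices over `R[√a]`. -/
def stdEmb (a b : ℤ) (R : Type) [CommRing R] :
    Q a b R →+* Matrix (Fin 2) (Fin 2) (QuadraticAlgebra R (a : R) 0) where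
  toFun z := !![⟨z.re, z.imI⟩, ⟨z.imJ, z.imK⟩; ⟨b * z.imJ, -(b * z.imK)⟩, ⟨z.re, -z.imI⟩]
  map_one' := by
    ext i j <;> fin_cases i <;> fin_cases j <;> simp <;> rfl
  map_mul' x y := by
    ext i j <;> fin_cases i <;> fin_cases j <;>
      simp [Matrix.mul_apply, Fin.sum_univ_two] <;> ring
  map_zero' := by
    ext i j <;> fin_cases i <;> fin_cases j <;> simp
  map_add' x y := by
    ext i j <;> fin_cases i <;> fin_cases j <;> simp <;> ring

/-- The splitting attached to a solution of `b = s² - a t²`. -/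
def spEmb (a b : ℤ) {s t : R} (h : (b : R) = s ^ 2 - a * t ^ 2) :
    Q a b R →+* Matrix (Fin 2) (Fin 2) R where
  toFun z := !![z.re + s * z.imJ + a * t * z.imK, a * z.imI - a * t * z.imJ - a * s * z.imK;
    z.imI + t * z.imJ + s * z.imK, z.re - s * z.imJ - a * t * z.imK]
  map_one' := by
    ext i j; fin_cases i <;> fin_cases j <;> simp
  map_mul' x y := by
    ext i j; fin_cases i <;> fin_cases j <;> simp [Matrix.mul_apply, Fin.sum_univ_two]
    · linear_combination (x.imJ * y.imJ - a * x.imK * y.imK) * h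
    · linear_combination (a * x.imK * y.imJ - a * x.imJ * y.imK) * h
    · linear_combination (x.imK * y.imJ - x.imJ * y.imK) * h
    · linear_combination (x.imJ * y.imJ - a * x.imK * y.imK) * h
  map_zero' := by
    ext i j; fin_cases i <;> fin_cases j <;> simp
  map_add' x y := by
    ext i j; fin_cases i <;> fin_cases j <;> simp <;> ring

/-- Replace every quaternion entry by a `2 × 2` block. -/
def mor (f : Q a b R →+* Matrix (Fin 2) (Fin 2) S) (g : Matrix ι κ (Q a b R)) :
    Matrix (ι × Fin 2) (κ × Fin 2) S :=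
  Matrix.comp ι κ (Fin 2) (Fin 2) S (g.map f)

variable [Fintype ι] [DecidableEq ι]

/-- The reduced norm of a matrix of quaternions. -/
def nrd (g : Matrix ι ι (Q a b R)) : R := (mor (stdEmb a b R) g).det.re

/-- The reduced characteristic polynomial. -/
noncomputable def rchar (g : Matrix ι ι (Q a b R)) : R[X] :=
  nrd ((X : R[X]) • (1 : Matrix ι ι (Q a b R[X])) - bc C g)

/-- The block diagonal matrix with blocks `!![0, 1; -1, 0]`. -/
def Jm (ι S : Type) [DecidableEq ι] [CommRing S] : Matrix (ι × Fin 2) (ι × Fin 2) S :=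
  Matrix.comp ι ι (Fin 2) (Fin 2) S (diagonal fun _ => !![0, 1; -1, 0])

/-- The symmetric matrix attached to a skew-hermitian matrix by a splitting. -/
def gram (f : Q a b R →+* Matrix (Fin 2) (Fin 2) S) (H : Matrix ι ι (Q a b R)) :
    Matrix (ι × Fin 2) (ι × Fin 2) S := Jm ι S * mor f H

/-- The sesquilinear form with Gram matrix `H`. -/
def hf {A : Type} [Ring A] [StarRing A] (H : Matrix ι ι A) (u v : ι → A) : A :=
  star u ⬝ᵥ H *ᵥ v

/-- The map `v ↦ v - y s' h(y, v)`. -/
def sig {A : Type} [Ring A] [StarRing A] (H : Matrix ι ι A) (y : ι → A) (s' : A) : Matrix ι ι A :=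
  1 - vecMulVec (fun i => y i * s') (star y ᵥ* H)

/-- The generators `v ↦ v - y s⁻¹ h(y, v)` with `s - s* = h(y, y)` of the unitary group. -/
def SigSet {A : Type} [Ring A] [StarRing A] (H : Matrix ι ι A) : Set (Un H) :=
  {g | ∃ (y : ι → A) (s s' : A), s * s' = 1 ∧ s' * s = 1 ∧ s - star s = hf H y y ∧
    g.1.1 = sig H y s'}

/-- The block matrix with blocks `x` and `M`. -/
def bd {A : Type} [Zero A] {r : ℕ} (x : A) (M : Matrix (Fin r) (Fin r) A) :
    Matrix (Fin (r + 1)) (Fin (r + 1)) A :=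
  Matrix.of (Fin.cons (Fin.cons x 0) fun i => Fin.cons 0 (M i))

/-- `H'` is obtained from `H` by an invertible change of basis `g`. -/
def IsIsom {A : Type} [Ring A] [StarRing A] (H H' g : Matrix ι ι A) : Prop :=
  IsUnit g ∧ gᴴ * H * g = H'

/-- Base change on unitary groups. -/
def locU (φ : R →+* S) (H : Matrix ι ι (Q a b R)) : Un H →* Un (bc φ H) :=
  ((Units.map (qmap a b φ).mapMatrix.toMonoidHom).comp (Un H).subtype).codRestrict _ fun g => by
    have h : g.1.1ᴴ * H * g.1.1 = H := g.2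
    have hs : ∀ z, qmap a b φ (star z) = star (qmap a b φ z) := fun z => by
      ext <;> simp [qmap]
    show (bc φ g.1.1)ᴴ * bc φ H * bc φ g.1.1 = bc φ H
    rw [← conjTranspose_map (qmap a b φ) hs, ← Matrix.map_mul, ← Matrix.map_mul, h]

/-- Quaternions over a commutative ring of matrices as matrices of quaternions. -/
def jm (a b : ℤ) {F : Type} [CommRing F] (l : F →+* Matrix ι ι R) :
    Q a b F →+* Matrix ι ι (Q a b R) where
  toFun y := Matrix.of fun i k => ⟨l y.re i k, l y.imI i k, l y.imJ i k, l y.imK i k⟩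
  map_one' := by
    ext i k <;> by_cases h : i = k <;> simp [h, Matrix.one_apply]
  map_mul' x y := by
    have hs : ∀ (f : ι → Q a b R), (∑ j, f j).re = ∑ j, (f j).re ∧
        (∑ j, f j).imI = ∑ j, (f j).imI ∧ (∑ j, f j).imJ = ∑ j, (f j).imJ ∧
        (∑ j, f j).imK = ∑ j, (f j).imK := fun f =>
      ⟨map_sum (QuaternionAlgebra.reₗ _ _ _) f _, map_sum (QuaternionAlgebra.imIₗ _ _ _) f _,
        map_sum (QuaternionAlgebra.imJₗ _ _ _) f _, map_sum (QuaternionAlgebra.imKₗ _ _ _) f _⟩
    have hc : ∀ (c : ℤ) (u v : F) (i k : ι), l (c * u * v) i k = ∑ j, c * l u i j * l v j k := by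
      intro c u v i k
      rw [mul_assoc, ← zsmul_eq_mul, map_zsmul, map_mul, Matrix.smul_apply, Matrix.mul_apply,
        Finset.smul_sum]
      exact Finset.sum_congr rfl fun j _ => by rw [zsmul_eq_mul, mul_assoc]
    have hc2 : ∀ (u v : F) (i k : ι), l (a * b * u * v) i k = ∑ j, a * b * l u i j * l v j k := by
      intro u v i k
      have := hc (a * b) u v i k
      simpa using this
    have h1 : ∀ (u v : F) (i k : ι), l (u * v) i k = ∑ j, l u i j * l v j k := by
      intro u v i k
      rw [map_mul, Matrix.mul_apply]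
    ext i k <;>
      simp only [Matrix.mul_apply, (hs _).1, (hs _).2.1, (hs _).2.2.1, (hs _).2.2.2, of_apply,
        QuaternionAlgebra.re_mul, QuaternionAlgebra.imI_mul, QuaternionAlgebra.imJ_mul,
        QuaternionAlgebra.imK_mul, zero_mul, add_zero, map_add, map_sub,
        Matrix.add_apply, Matrix.sub_apply, hc2, hc, h1, Finset.sum_add_distrib,
        Finset.sum_sub_distrib]
  map_zero' := by
    ext i k <;> simp
  map_add' x y := by
    ext i k <;> simp

end Basic

/-- The orthogonal group of the symmetric matrix `S`. -/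
def Ort {κ E : Type} [Fintype κ] [DecidableEq κ] [CommRing E] (S : Matrix κ κ E) :
    Subgroup (Matrix κ κ E)ˣ where
  carrier := {g | g.1ᵀ * S * g.1 = S}
  one_mem' := by simp
  mul_mem' := by
    intro g h hg hh
    simp only [Set.mem_ofPred_eq] at hg hh ⊢
    calc (g * h).1ᵀ * S * (g * h).1 = h.1ᵀ * (g.1ᵀ * S * g.1) * h.1 := by
          simp only [Units.val_mul, transpose_mul, Matrix.mul_assoc]
      _ = S := by rw [hg, hh]
  inv_mem' := by
    intro g hg
    simp only [Set.mem_ofPred_eq] at hg ⊢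
    calc (g⁻¹).1ᵀ * S * (g⁻¹).1 = (g⁻¹).1ᵀ * (g.1ᵀ * S * g.1) * (g⁻¹).1 := by rw [hg]
      _ = (g.1 * (g⁻¹).1)ᵀ * S * (g.1 * (g⁻¹).1) := by
          simp only [transpose_mul, Matrix.mul_assoc]
      _ = S := by rw [← Units.val_mul, mul_inv_cancel]; simp

/-- The bilinear form with Gram matrix `S`. -/
def qf {κ E : Type} [Fintype κ] [CommRing E] (S : Matrix κ κ E) (u v : κ → E) : E :=
  u ⬝ᵥ S *ᵥ v

/-- The reflection in the vector `v`. -/
def refl {κ E : Type} [Fintype κ] [DecidableEq κ] [Field E] (S : Matrix κ κ E) (v : κ → E) :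
    Matrix κ κ E := 1 - (2 / qf S v v) • vecMulVec v (v ᵥ* S)

/-- The split symmetric matrix of size `2N`. -/
def hypW (N : ℕ) (E : Type) [CommRing E] : Matrix (Fin N × Fin 2) (Fin N × Fin 2) E :=
  Matrix.of fun i j => if j = (i.1, i.2.rev) then 1 else 0

/-- Distinct roots, different from `1` and `-1`. -/
def RegP {K : Type} [CommRing K] (χ : K[X]) : Prop :=
  χ.Separable ∧ χ.eval 1 ≠ 0 ∧ χ.eval (-1) ≠ 0

/-- `χ(X) = X^N m(X + 1/X)` with `m` monic of degree `N`. -/
def Pal (N : ℕ) (m χ : ℚ[X]) : Prop :=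
  m.Monic ∧ m.natDegree = N ∧
    χ = ∑ k ∈ Finset.range (N + 1), m.coeff k • (X ^ (N - k) * (X ^ 2 + 1) ^ k)

/-- Pure quaternions, all but the last with negative square and the same orientation, the last
with positive square: over the reals the form has signature `(2r+1, 1)`. -/
def LorData {a b : ℤ} {K : Type} [Field K] [LinearOrder K] {r : ℕ} (x : Fin (r + 1) → Q a b K) :
    Prop :=
  (∀ j, (x j).re = 0) ∧ 0 < sqp (x (Fin.last r)) ∧
    ∀ j, j ≠ Fin.last r → sqp (x j) < 0 ∧ 0 < (x j).imK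

/-- The algebra `(a, b)` over `ℚ` is indefinite and ramified exactly at the primes in `S`. -/
structure Ram (a b : ℤ) (S : Finset Nat.Primes) : Prop where
  a_pos : 0 < a
  b_pos : 0 < b
  div : ∀ p : Nat.Primes, p ∈ S ↔ ¬ IsNm (a : ℚ_[p]) (b : ℚ_[p])
  ne : S.Nonempty

/-- The algebra `(a, b')` is split outside `S'` and isomorphic to `(a, b)` at the primes of `S'`. -/
structure Twist (a b b' : ℤ) (S' : Finset Nat.Primes) : Prop where
  ne : b' ≠ 0
  off : ∀ p : Nat.Primes, p ∉ S' → IsNm (a : ℚ_[p]) (b' : ℚ_[p])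
  on : ∀ p : Nat.Primes, p ∈ S' → IsNm (a : ℚ_[p]) ((b : ℚ_[p]) * b')

/-- The sign `-1` on `S'`, `1` elsewhere. -/
def eps (S' : Finset Nat.Primes) (p : Nat.Primes) : ℤ := if p ∈ S' then -1 else 1

/-- The inclusion of `ℚ`. -/
abbrev ra (E : Type) [Ring E] [Algebra ℚ E] : ℚ →+* E := algebraMap ℚ E

/-- The forms `H` and `H'` are isometric at all places, with reduced norms `± c` at the primes
of `S`, the sign being `-1` exactly on `S'`. -/
structure LocIso {a b : ℤ} {ι : Type} [Fintype ι] [DecidableEq ι] (S S' : Finset Nat.Primes)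
    (H H' : Matrix ι ι (Q a b ℚ)) (c : ℚ) : Prop where
  fin : ∀ p : Nat.Primes, ∃ g, IsIsom (bc (ra ℚ_[p]) H) (bc (ra ℚ_[p]) H') g ∧
    (p ∈ S → nrd g = eps S' p * c)
  real : ∃ g, IsIsom (bc (ra ℝ) H) (bc (ra ℝ) H') g

section Model

variable {r : ℕ}

/-- `C` is the companion matrix of `m`, self-adjoint for the symmetric invertible matrix `W`. -/
structure Cyc (C W : Matrix (Fin (r + 1)) (Fin (r + 1)) ℚ) (m : ℚ[X]) : Prop where
  monic : m.Monic
  deg : m.natDegree = r + 1
  aeval_eq : aeval C m = 0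
  pow : ∀ k : Fin (r + 1), (C ^ (k : ℕ)) *ᵥ Pi.single 0 1 = Pi.single k 1
  symm : Wᵀ = W
  unit : IsUnit W
  adj : Cᵀ * W = W * C

/-- The commutative algebra generated by `C` over `R`. -/
abbrev FF (R : Type) [CommRing R] [Algebra ℚ R] (C : Matrix (Fin (r + 1)) (Fin (r + 1)) ℚ) :
    Type := Algebra.adjoin R {C.map (ra R)}

/-- The generator. -/
def ffT (R : Type) [CommRing R] [Algebra ℚ R] (C : Matrix (Fin (r + 1)) (Fin (r + 1)) ℚ) :
    FF R C := ⟨C.map (ra R), Algebra.self_mem_adjoin_singleton R _⟩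

/-- The inclusion into matrices. -/
def ffV (R : Type) [CommRing R] [Algebra ℚ R] (C : Matrix (Fin (r + 1)) (Fin (r + 1)) ℚ) :
    FF R C →+* Matrix (Fin (r + 1)) (Fin (r + 1)) R :=
  (Algebra.adjoin R {C.map (ra R)}).val.toRingHom

/-- Base change from `ℚ` to `R`. -/
def ffM (R : Type) [CommRing R] [Algebra ℚ R] (C : Matrix (Fin (r + 1)) (Fin (r + 1)) ℚ) :
    FF ℚ C →+* FF R C :=
  ((ra R).mapMatrix.comp (ffV ℚ C)).codRestrict (Algebra.adjoin R {C.map (ra R)}) fun f => by
    obtain ⟨f, hf⟩ := f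
    show f.map (ra R) ∈ _
    induction hf using Algebra.adjoin_induction with
    | mem x hx =>
      rw [Set.mem_singleton_iff.1 hx]
      exact Algebra.self_mem_adjoin_singleton R _
    | algebraMap c =>
      have : (algebraMap ℚ (Matrix (Fin (r + 1)) (Fin (r + 1)) ℚ) c).map (ra R) =
          algebraMap R (Matrix (Fin (r + 1)) (Fin (r + 1)) R) (ra R c) := by
        ext i j
        by_cases h : i = j <;> simp [Matrix.algebraMap_matrix_apply, h]
      rw [this]
      exact Subalgebra.algebraMap_mem _ _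
    | add x y _ _ hx hy =>
      rw [Matrix.map_add _ (map_add _)]
      exact add_mem hx hy
    | mul x y _ _ hx hy =>
      rw [Matrix.map_mul]
      exact mul_mem hx hy

end Model

section Local

variable {a b : ℤ} {ι : Type} [Fintype ι] [DecidableEq ι]

instance quatTop {R : Type} [TopologicalSpace R] {c₁ c₂ c₃ : R} :
    TopologicalSpace ℍ[R, c₁, c₂, c₃] :=
  TopologicalSpace.induced (QuaternionAlgebra.equivTuple c₁ c₂ c₃) inferInstance

theorem continuous_quat {R X : Type} [TopologicalSpace R] [TopologicalSpace X] {c₁ c₂ c₃ : R}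
    {f : X → ℍ[R, c₁, c₂, c₃]} : Continuous f ↔ (Continuous fun x => (f x).re) ∧
      (Continuous fun x => (f x).imI) ∧ (Continuous fun x => (f x).imJ) ∧
      Continuous fun x => (f x).imK := by
  rw [continuous_induced_rng, continuous_pi_iff]
  simp only [Fin.forall_fin_succ, IsEmpty.forall_iff, and_true]
  rfl

instance quatTopRing {R : Type} [CommRing R] [TopologicalSpace R] [IsTopologicalRing R]
    {c₁ c₂ c₃ : R} : IsTopologicalRing ℍ[R, c₁, c₂, c₃] := by
  obtain ⟨h1, h2, h3, h4⟩ := (continuous_quat (f := fun x : ℍ[R, c₁, c₂, c₃] => x)).1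
    continuous_id
  exact
    { continuous_add := continuous_quat.2 (by
        simp only [QuaternionAlgebra.re_add, QuaternionAlgebra.imI_add, QuaternionAlgebra.imJ_add,
          QuaternionAlgebra.imK_add]
        refine ⟨?_, ?_, ?_, ?_⟩ <;> fun_prop)
      continuous_mul := continuous_quat.2 (by
        simp only [QuaternionAlgebra.re_mul, QuaternionAlgebra.imI_mul, QuaternionAlgebra.imJ_mul,
          QuaternionAlgebra.imK_mul]
        refine ⟨?_, ?_, ?_, ?_⟩ <;> fun_prop)
      continuous_neg := continuous_quat.2 (by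
        simp only [QuaternionAlgebra.re_neg, QuaternionAlgebra.imI_neg, QuaternionAlgebra.imJ_neg,
          QuaternionAlgebra.imK_neg]
        refine ⟨?_, ?_, ?_, ?_⟩ <;> fun_prop) }

/-- Quaternions with `p`-integral coordinates. -/
noncomputable def intQ (a b : ℤ) (p : ℕ) [Fact p.Prime] : Subring (Q a b ℚ_[p]) :=
  (qmap a b (PadicInt.Coe.ringHom (p := p))).range

/-- Matrices with `p`-integral entries. -/
def IntM {p : ℕ} [Fact p.Prime] {κ : Type} (g : Matrix ι κ (Q a b ℚ_[p])) : Prop :=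
  ∀ i j, g i j ∈ intQ a b p

/-- The unit `g` and its inverse are `p`-integral. -/
def IntU {p : ℕ} [Fact p.Prime] (g : (Matrix ι ι (Q a b ℚ_[p]))ˣ) : Prop :=
  IntM g.1 ∧ IntM (g⁻¹).1

omit [DecidableEq ι] in
theorem IntM.mul {p : ℕ} [Fact p.Prime] {g h : Matrix ι ι (Q a b ℚ_[p])} (hg : IntM g)
    (hh : IntM h) : IntM (g * h) := fun i j => by
  rw [Matrix.mul_apply]
  exact sum_mem fun k _ => mul_mem (hg i k) (hh k j)

omit [Fintype ι] in
theorem intM_one {p : ℕ} [Fact p.Prime] : IntM (1 : Matrix ι ι (Q a b ℚ_[p])) := fun i j => by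
  rw [Matrix.one_apply]
  split_ifs
  exacts [one_mem _, zero_mem _]

/-- The integral points of the unitary group. -/
def K0 {p : ℕ} [Fact p.Prime] (H : Matrix ι ι (Q a b ℚ_[p])) : Subgroup (Un H) where
  carrier := {g | IntU g.1}
  one_mem' := ⟨intM_one, by simpa using intM_one⟩
  mul_mem' := fun {g h} hg hh => ⟨hg.1.mul hh.1, by
    simpa only [Subgroup.coe_mul, _root_.mul_inv_rev, Units.val_mul] using hh.2.mul hg.2⟩
  inv_mem' := fun {g} hg => ⟨hg.2, by simpa using hg.1⟩

/-- All real coordinates of all entries are bounded by `C`. -/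
def BdR (C : ℝ) {κ : Type} (g : Matrix ι κ (Q a b ℝ)) : Prop :=
  ∀ i j, |(g i j).re| ≤ C ∧ |(g i j).imI| ≤ C ∧ |(g i j).imJ| ≤ C ∧ |(g i j).imK| ≤ C

/-- Compact open subgroups. -/
def CO {G : Type} [Group G] [TopologicalSpace G] (K : Subgroup G) : Prop :=
  IsCompact (K : Set G) ∧ IsOpen (K : Set G)

/-- The intersection of all subgroups of finite index. -/
def fiRes (G : Type) [Group G] : Subgroup G := ⨅ (H : Subgroup G) (_ : H.FiniteIndex), H

end Local

end Pool.Agent.P.MP_3c2f8c_gt
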