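import Pool.Agent.P.MP_3c2f8c_gt.Qu.Morita
import Pool.Agent.P.MP_3c2f8c_gt.An.Geom

/-! QU-5: the real place. -/

set_option linter.unusedSectionVars false

namespace Pool.Agent.P.MP_3c2f8c_gt

open Matrix Polynomial

variable {a b : ℤ} {R S : Type} [CommRing R] [CommRing S] {E : Type} [Field E] [CharZero E]
  {ι κ μ : Type} [Fintype ι] [DecidableEq ι] [Fintype κ] [DecidableEq κ]
  [NeZero a] [NeZero b]

namespace RealAux

theorem two_pos {p q r : ℝ} (hp : 0 < p) (hd : 0 < p * r - q ^ 2) :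
    ∃ R : Matrix (Fin 2) (Fin 2) ℝ, !![p, q; q, r] = Rᵀ * diagonal ![1, 1] * R := by
  obtain ⟨u, hu0, rfl⟩ : ∃ u : ℝ, u ≠ 0 ∧ p = u ^ 2 :=
    ⟨√p, (Real.sqrt_pos.2 hp).ne', (Real.sq_sqrt hp.le).symm⟩
  obtain ⟨w, hw⟩ : ∃ w : ℝ, w ^ 2 = u ^ 2 * r - q ^ 2 := ⟨_, Real.sq_sqrt hd.le⟩
  refine ⟨!![u, q / u; 0, w / u], ?_⟩
  ext i j
  fin_cases i <;> fin_cases j <;> simp [Matrix.mul_apply, Fin.sum_univ_two] <;> field_simp
  linear_combination -hw

theorem two_neg {p q r : ℝ} (hd : p * r - q ^ 2 < 0) :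
    ∃ R : Matrix (Fin 2) (Fin 2) ℝ, !![p, q; q, r] = Rᵀ * diagonal ![-1, 1] * R := by
  obtain ⟨w, hw0, hw⟩ : ∃ w : ℝ, w ≠ 0 ∧ w ^ 2 - 2 * q * w + p * r = 0 := by
    have h1 : 0 < √(q ^ 2 - p * r) := Real.sqrt_pos.2 (by linarith)
    have h2 := Real.sq_sqrt (show 0 ≤ q ^ 2 - p * r by linarith)
    rcases le_total 0 q with h | h
    · exact ⟨q + √(q ^ 2 - p * r), by positivity, by linear_combination h2⟩
    · exact ⟨q - √(q ^ 2 - p * r), by linarith |> ne_of_lt, by linear_combination h2⟩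
  refine ⟨!![(p - 1) / 2, (w - r / w) / 2; (p + 1) / 2, (w + r / w) / 2], ?_⟩
  ext i j
  fin_cases i <;> fin_cases j <;> simp [Matrix.mul_apply, Fin.sum_univ_two] <;> field_simp
  · ring
  · linear_combination (-2) * hw
  · linear_combination (-2) * hw
  · ring

theorem sq_sqrt (hb : 0 < b) : (b : ℝ) = √b ^ 2 - a * 0 ^ 2 := by
  rw [Real.sq_sqrt (by exact_mod_cast hb.le)]
  ring

theorem J_sp (hb : 0 < b) {z : Q a b ℝ} (hz : z.re = 0) :
    !![0, 1; -1, 0] * spEmb a b (sq_sqrt hb) z =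
      !![z.imI + √b * z.imK, -(√b * z.imJ); -(√b * z.imJ), a * (√b * z.imK - z.imI)] := by
  ext i j
  fin_cases i <;> fin_cases j <;> simp [spEmb, Matrix.mul_apply, Fin.sum_univ_two, hz]
  ring

theorem det_sp (hb : 0 < b) {z : Q a b ℝ} (hz : z.re = 0) :
    (z.imI + √b * z.imK) * (a * (√b * z.imK - z.imI)) - (-(√b * z.imJ)) ^ 2 = -sqp z := by
  have h : √(b : ℝ) ^ 2 = b := Real.sq_sqrt (by exact_mod_cast hb.le)
  rw [sqp_of_pure hz, nr, hz]
  linear_combination (a * z.imK ^ 2 - z.imJ ^ 2) * h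

theorem sp_pos (ha : 0 < a) (hb : 0 < b) {z : Q a b ℝ} (hz : z.re = 0) (h1 : sqp z < 0)
    (h2 : 0 < z.imK) : ∃ R : Matrix (Fin 2) (Fin 2) ℝ,
      !![0, 1; -1, 0] * spEmb a b (sq_sqrt hb) z = Rᵀ * diagonal ![1, 1] * R := by
  have hd := det_sp hb hz
  have ha' : (0 : ℝ) < a := by exact_mod_cast ha
  have hs : 0 < √(b : ℝ) * z.imK := mul_pos (Real.sqrt_pos.2 (by exact_mod_cast hb)) h2
  rw [J_sp hb hz]
  refine two_pos ?_ (by linarith)
  by_contra h
  have : (z.imI + √b * z.imK) * (a * (√b * z.imK - z.imI)) ≤ 0 :=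
    mul_nonpos_of_nonpos_of_nonneg (not_lt.1 h) (mul_nonneg ha'.le (by linarith))
  linarith [sq_nonneg (-(√(b : ℝ) * z.imJ))]

theorem exists_R (ha : 0 < a) (hb : 0 < b) {r : ℕ} {x : Fin (r + 1) → Q a b ℝ} (hx : LorData x) :
    ∃ R : Fin (r + 1) → Matrix (Fin 2) (Fin 2) ℝ, ∀ j, (R j).det ≠ 0 ∧
      !![0, 1; -1, 0] * spEmb a b (sq_sqrt hb) (x j) =
        (R j)ᵀ * diagonal ![if j = Fin.last r then -1 else 1, 1] * R j := by
  have key : ∀ j, ∃ R : Matrix (Fin 2) (Fin 2) ℝ, !![0, 1; -1, 0] * spEmb a b (sq_sqrt hb) (x j) =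
      Rᵀ * diagonal ![if j = Fin.last r then -1 else 1, 1] * R := fun j => by
    split_ifs with hj
    · rw [J_sp hb (hx.1 j)]
      refine two_neg ?_
      rw [det_sp hb (hx.1 j), hj]
      exact neg_neg_of_pos hx.2.1
    · exact sp_pos ha hb (hx.1 j) (hx.2.2 j hj).1 (hx.2.2 j hj).2
  choose R hR using key
  refine ⟨R, fun j => ⟨fun h0 => ?_, hR j⟩⟩
  have h1 := congrArg det (hR j)
  rw [J_sp hb (hx.1 j), det_mul, h0, mul_zero, det_fin_two_of, ← sq, det_sp hb (hx.1 j),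
    neg_eq_zero] at h1
  by_cases hj : j = Fin.last r
  · exact hx.2.1.ne' (hj ▸ h1)
  · exact (hx.2.2 j hj).1.ne h1

theorem form_two (R : Matrix (Fin 2) (Fin 2) ℝ) (e : ℝ) (w : Fin 2 → ℝ) :
    w ⬝ᵥ (Rᵀ * diagonal ![e, 1] * R) *ᵥ w = e * (R *ᵥ w) 0 ^ 2 + (R *ᵥ w) 1 ^ 2 := by
  simp [Matrix.mul_apply, mulVec, dotProduct, Fin.sum_univ_two]
  ring

/-- Block diagonal matrices. -/
def blk (d : ι → Matrix (Fin 2) (Fin 2) ℝ) : Matrix (ι × Fin 2) (ι × Fin 2) ℝ :=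
  Matrix.comp ι ι (Fin 2) (Fin 2) ℝ (diagonal d)

theorem blk_mul (d d' : ι → Matrix (Fin 2) (Fin 2) ℝ) :
    blk d * blk d' = blk fun i => d i * d' i := by
  rw [blk, blk, blk, ← diagonal_mul_diagonal]
  exact (map_mul (Matrix.compRingEquiv ι (Fin 2) ℝ) _ _).symm

theorem blk_transpose (d : ι → Matrix (Fin 2) (Fin 2) ℝ) : (blk d)ᵀ = blk fun i => (d i)ᵀ := by
  ext ⟨i, k⟩ ⟨j, l⟩
  by_cases h : i = j
  · subst h
    simp [blk]
  · simp [blk, h, Ne.symm h]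

theorem blk_diagonal (d : ι → Fin 2 → ℝ) :
    blk (fun i => diagonal (d i)) = diagonal fun p : ι × Fin 2 => d p.1 p.2 := by
  ext ⟨i, k⟩ ⟨j, l⟩
  by_cases h : i = j
  · subst h
    simp [blk, diagonal_apply]
  · simp [blk, h]

theorem gram_diagonal (f : Q a b ℝ →+* Matrix (Fin 2) (Fin 2) ℝ) (x : ι → Q a b ℝ) :
    gram f (diagonal x) = blk fun i => !![0, 1; -1, 0] * f (x i) := by
  rw [← blk_mul, gram, mor, diagonal_map (map_zero f)]
  rfl

theorem lor_iff {n : ℕ} (M : Matrix (Fin (n + 1)) (Fin (n + 1)) ℝ) :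
    (∀ u v, lor (M *ᵥ u) (M *ᵥ v) = lor u v) ↔
      Mᵀ * diagonal (fun i => if i = 0 then -1 else 1) * M =
        diagonal fun i => if i = 0 then -1 else 1 := by
  have h1 : ∀ u v : Fin (n + 1) → ℝ,
      lor u v = u ⬝ᵥ diagonal (fun i => if i = 0 then -1 else 1) *ᵥ v := fun u v => by
    simp [lor, dotProduct, mulVec_diagonal, Fin.sum_univ_succ]
    ring
  have h2 : ∀ u v, lor (M *ᵥ u) (M *ᵥ v) =
      u ⬝ᵥ (Mᵀ * diagonal (fun i => if i = 0 then -1 else 1) * M) *ᵥ v := fun u v => by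
    rw [h1, ← mulVec_mulVec, ← mulVec_mulVec, dotProduct_mulVec u, vecMul_transpose]
  refine ⟨fun h => ?_, fun h u v => by rw [h2, h, h1]⟩
  ext i j
  have := h (Pi.single i 1) (Pi.single j 1)
  rw [h2, h1] at this
  simpa only [mulVec_single_one, single_one_dotProduct, col_apply] using this

end RealAux

open RealAux

theorem exists_psi (ha : 0 < a) (hb : 0 < b) {m : ℕ} (x : Fin (2 * m + 1) → Q a b ℝ)
    (hx : LorData x) :
    ∃ ψ : Matrix (Fin (2 * m + 1)) (Fin (2 * m + 1)) (Q a b ℝ) ≃ₐ[ℝ]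
        Matrix (Fin (4 * m + 1 + 1)) (Fin (4 * m + 1 + 1)) ℝ,
      (∀ g, gᴴ * diagonal x * g = diagonal x ↔ ∀ u v, lor (ψ g *ᵥ u) (ψ g *ᵥ v) = lor u v) ∧
      ∀ g, (ψ g).det = nrd g := by
  obtain ⟨R, hR⟩ := exists_R ha hb hx
  have h := sq_sqrt (a := a) hb
  have r1 : blk R * blk (fun j => (R j)⁻¹) = 1 := by
    rw [blk_mul, ← diagonal_one, ← blk_diagonal fun _ _ => 1]
    exact congrArg blk (funext fun j => mul_nonsing_inv _ (hR j).1.isUnit)
  have r2 := mul_eq_one_comm.1 r1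
  have hS : gram (spEmb a b h) (diagonal x) = (blk R)ᵀ *
      diagonal (fun p => if p = (Fin.last (2 * m), 0) then -1 else 1) * blk R := by
    rw [gram_diagonal, funext fun j => (hR j).2, ← blk_mul, ← blk_mul, blk_transpose,
      blk_diagonal]
    congr 3
    funext ⟨j, k⟩
    fin_cases k <;> simp
  generalize blk (fun j => (R j)⁻¹) = T' at r1 r2
  generalize blk R = T at r1 r2 hS
  obtain ⟨e, he⟩ : ∃ e : Fin (2 * m + 1) × Fin 2 ≃ Fin (4 * m + 1 + 1),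
      e (Fin.last _, 0) = 0 := by
    have e₀ : Fin (2 * m + 1) × Fin 2 ≃ Fin (4 * m + 1 + 1) :=
      Fintype.equivFinOfCardEq (by simp; ring)
    exact ⟨e₀.trans (Equiv.swap (e₀ (Fin.last _, 0)) 0), by simp⟩
  let φ : Matrix (Fin (2 * m + 1)) (Fin (2 * m + 1)) (Q a b ℝ) →ₐ[ℝ]
      Matrix (Fin (2 * m + 1) × Fin 2) (Fin (2 * m + 1) × Fin 2) ℝ :=
    AlgHom.mk' (RingHom.mk'
      { toFun := fun g => T * mor (spEmb a b h) g * T'
        map_one' := by rw [mor_one, mul_one, r1]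
        map_mul' := fun g g' => by
          rw [mor_mul]
          simp only [mul_assoc]
          rw [← mul_assoc T' T, r2, one_mul] }
      fun g g' => by simp [mor_add, mul_add, add_mul]) fun c g => by
        have : mor (spEmb a b h) (c • g) = c • mor (spEmb a b h) g := by
          ext ⟨i, k⟩ ⟨j, l⟩
          simp [mor, spEmb_smul]
        show T * mor _ (c • g) * T' = c • (T * mor _ g * T')
        rw [this, mul_smul_comm, smul_mul_assoc]
  have hφ : ∀ g, φ g = T * mor (spEmb a b h) g * T' := fun _ => rfl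
  have c1 : ∀ M, T' * (T * M * T') * T = M := fun M => by
    rw [mul_assoc, mul_assoc, r2, mul_one, ← mul_assoc, r2, one_mul]
  have c2 : ∀ M, T * (T' * M * T) * T' = M := fun M => by
    rw [mul_assoc, mul_assoc, r1, mul_one, ← mul_assoc, r1, one_mul]
  have bij : Function.Bijective φ :=
    (Function.bijective_iff_has_inverse.2 ⟨fun M => T' * M * T, c1, c2⟩ :
      Function.Bijective fun M => T * M * T').comp (mor_bijective h)
  refine ⟨(AlgEquiv.ofBijective φ bij).trans (reindexAlgEquiv ℝ ℝ e), fun g => ?_, fun g => ?_⟩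
  · have e1 : (diagonal fun i => if i = 0 then -1 else 1 :
        Matrix (Fin (4 * m + 1 + 1)) (Fin (4 * m + 1 + 1)) ℝ) = (diagonal fun p =>
          if p = (Fin.last (2 * m), 0) then -1 else 1).submatrix e.symm e.symm := by
      rw [submatrix_diagonal_equiv]
      congr 1
      funext i
      simp only [Function.comp, Equiv.symm_apply_eq, he]
    rw [← (gram_injective h).eq_iff, gram_conj, hS, lor_iff, e1]
    simp only [AlgEquiv.trans_apply, AlgEquiv.ofBijective_apply, coe_reindexAlgEquiv,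
      reindex_apply, transpose_submatrix, submatrix_mul_equiv, hφ]
    rw [← reindex_apply, ← reindex_apply, (reindex e e).injective.eq_iff]
    generalize mor (spEmb a b h) g = A
    generalize (diagonal fun p => if p = (Fin.last (2 * m), 0) then -1 else 1 :
      Matrix (Fin (2 * m + 1) × Fin 2) (Fin (2 * m + 1) × Fin 2) ℝ) = D
    have t1 : T'ᵀ * Tᵀ = 1 := by rw [← transpose_mul, r1, transpose_one]
    have t2 : Tᵀ * T'ᵀ = 1 := by rw [← transpose_mul, r2, transpose_one]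
    have k : (T * A * T')ᵀ * D * (T * A * T') = T'ᵀ * (Aᵀ * (Tᵀ * D * T) * A) * T' := by
      simp only [transpose_mul, mul_assoc]
    rw [k]
    refine ⟨fun h1 => ?_, fun h1 => ?_⟩
    · rw [h1, mul_assoc, mul_assoc, r1, mul_one, ← mul_assoc, t1, one_mul]
    · conv_rhs => rw [← h1]
      rw [← mul_assoc Tᵀ, ← mul_assoc Tᵀ, t2, one_mul, mul_assoc _ T', r2, mul_one]
  · rw [AlgEquiv.trans_apply, AlgEquiv.ofBijective_apply, coe_reindexAlgEquiv, det_reindex_self,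
      hφ, nrd_eq_det h, det_mul_comm, ← mul_assoc, r2, one_mul]

theorem lor_value (ha : 0 < a) (hb : 0 < b) {r : ℕ} {x : Fin (r + 1) → Q a b ℝ} (hx : LorData x)
    {v : Fin (r + 1) → Q a b ℝ} (hv : ∀ z : Q a b ℝ, (∀ i, v i * z = 0) → z = 0)
    {y : Q a b ℝ} (hy : y.re = 0) (hy1 : sqp y < 0) (hy2 : 0 < y.imK) {c : ℝ} (hc : c ≤ 0) :
    hf (diagonal x) v v ≠ c • y := by
  intro h0
  obtain ⟨R, hR⟩ := exists_R ha hb hx
  obtain ⟨R', hR'⟩ := sp_pos ha hb hy hy1 hy2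
  set f := spEmb a b (sq_sqrt (a := a) hb) with hf'
  obtain ⟨ξ, hξ, hξ'⟩ : ∃ ξ : Fin 2 → ℝ, ξ ≠ 0 ∧
      (R (Fin.last r) *ᵥ f (v (Fin.last r)) *ᵥ ξ) 0 = 0 := by
    rw [funext fun ξ => congrArg (fun w : Fin 2 → ℝ => ξ ≠ 0 ∧ w 0 = 0) (mulVec_mulVec ξ _ _)]
    generalize R (Fin.last r) * f (v (Fin.last r)) = M
    by_cases h : M 0 0 = 0
    · exact ⟨![1, 0], by simp, by simp [mulVec, dotProduct, h]⟩
    · exact ⟨![M 0 1, -M 0 0], by simp [h], by simp [mulVec, dotProduct, mul_comm]⟩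
  have e1 : !![0, 1; -1, 0] * f (hf (diagonal x) v v) =
      ∑ j, (f (v j))ᵀ * (!![0, 1; -1, 0] * f (x j)) * f (v j) := by
    simp only [hf, dotProduct, mulVec_diagonal, map_sum, map_mul, Finset.mul_sum, Pi.star_apply,
      ← mul_assoc, hf', spEmb_star]
  have e2 := congrArg (fun M => ξ ⬝ᵥ M *ᵥ ξ) e1
  have e3 : ∀ j, ξ ⬝ᵥ ((f (v j))ᵀ * (!![0, 1; -1, 0] * f (x j)) * f (v j)) *ᵥ ξ =
      (R j *ᵥ f (v j) *ᵥ ξ) 0 ^ 2 + (R j *ᵥ f (v j) *ᵥ ξ) 1 ^ 2 := fun j => by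
    rw [← mulVec_mulVec, ← mulVec_mulVec, dotProduct_mulVec ξ, vecMul_transpose, (hR j).2,
      form_two]
    split_ifs with hj
    · rw [hj, hξ']
      ring
    · ring
  simp only [h0, hf', spEmb_smul, mul_smul_comm, smul_mulVec, dotProduct_smul, smul_eq_mul,
    sum_mulVec, dotProduct_sum] at e2
  simp only [← hf', e3, hR', form_two] at e2
  have e4 : ∑ j, ((R j *ᵥ f (v j) *ᵥ ξ) 0 ^ 2 + (R j *ᵥ f (v j) *ᵥ ξ) 1 ^ 2) = 0 :=
    le_antisymm (e2 ▸ mul_nonpos_of_nonpos_of_nonneg hc (by positivity))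
      (Finset.sum_nonneg fun _ _ => by positivity)
  have e5 : ∀ j, f (v j) *ᵥ ξ = 0 := fun j => by
    have := (Finset.sum_eq_zero_iff_of_nonneg fun _ _ => by positivity).1 e4 j (Finset.mem_univ j)
    refine eq_zero_of_mulVec_eq_zero (hR j).1 (funext fun k => ?_)
    obtain ⟨h0', h1'⟩ := (add_eq_zero_iff_of_nonneg (sq_nonneg _) (sq_nonneg _)).1 this
    fin_cases k
    exacts [(pow_eq_zero_iff two_ne_zero).1 h0', (pow_eq_zero_iff two_ne_zero).1 h1']
  have hb' := spEmb_bijective (sq_sqrt (a := a) hb)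
  obtain ⟨z, hz⟩ := hb'.2 (Matrix.of fun i _ => ξ i)
  have z0 := hv z fun i => hb'.1 (by
    rw [map_mul, hz, map_zero]
    ext k l
    exact congrFun (e5 i) k)
  rw [z0, map_zero] at hz
  exact hξ (funext fun i => (congrFun (congrFun hz i) 0).symm)

omit [NeZero a] [NeZero b] in
theorem LorData.map {K K' : Type} [Field K] [LinearOrder K] [IsStrictOrderedRing K] [Field K']
    [LinearOrder K'] [IsStrictOrderedRing K'] (φ : K →+* K') (hφ : StrictMono φ) {r : ℕ}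
    {x : Fin (r + 1) → Q a b K} (hx : LorData x) : LorData fun j => qmap a b φ (x j) := by
  refine ⟨fun j => ?_, ?_, fun j hj => ⟨?_, ?_⟩⟩
  · exact (congrArg φ (hx.1 j)).trans (map_zero φ)
  · simpa only [sqp_qmap, map_zero] using hφ hx.2.1
  · simpa only [sqp_qmap, map_zero] using hφ (hx.2.2 j hj).1
  · exact (map_zero φ).symm.trans_lt (hφ (hx.2.2 j hj).2)

omit [NeZero a] [NeZero b] in
theorem LorData.tail {K : Type} [Field K] [LinearOrder K] {r : ℕ} {x : Fin (r + 2) → Q a b K}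
    (hx : LorData x) : LorData fun j : Fin (r + 1) => x j.succ :=
  ⟨fun _ => hx.1 _, hx.2.1, fun _ hj => hx.2.2 _ fun h =>
    hj (Fin.succ_injective _ (h.trans (Fin.succ_last _).symm))⟩

omit [NeZero a] [NeZero b] in
theorem LorData.skew {K : Type} [Field K] [LinearOrder K] {r : ℕ} {x : Fin (r + 1) → Q a b K}
    (hx : LorData x) : (diagonal x)ᴴ = -diagonal x ∧ IsUnit (diagonal x) := by
  constructor
  · rw [diagonal_conjTranspose, diagonal_neg]
    exact congrArg diagonal (funext fun j => star_of_pure (hx.1 j))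
  · refine (Pi.isUnit_iff.2 fun j => (isUnit_iff_nr _).2 (Ne.isUnit fun h => ?_)).map
      (diagonalRingHom _ _)
    have h1 : sqp (x j) = 0 := by rw [sqp_of_pure (hx.1 j), h, neg_zero]
    by_cases hj : j = Fin.last r
    · exact hx.2.1.ne' (hj ▸ h1)
    · exact (hx.2.2 j hj).1.ne h1

omit [NeZero a] [NeZero b] in
theorem Ram.div_rat {S : Finset Nat.Primes} (hR : Ram a b S) : ¬ IsNm (a : ℚ) (b : ℚ) := by
  obtain ⟨p, hp⟩ := hR.ne
  exact fun h => (hR.div p).1 hp (by simpa using h.map (ra ℚ_[p]))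

theorem LorData.aniso {S : Finset Nat.Primes} (hR : Ram a b S) {r : ℕ}
    {x : Fin (r + 2) → Q a b ℚ} (hx : LorData x) (v : Fin (r + 2) → Q a b ℚ) (hv : v ≠ 0) :
    hf (diagonal x) v v ≠ 0 := by
  intro h0
  have hx' := hx.map (ra ℝ) Rat.cast_strictMono
  obtain ⟨i, hi⟩ := Function.ne_iff.1 hv
  have hu := (isUnit_of_div hR.div_rat hi).map (qmap a b (ra ℝ))
  have h1 := hx'.2.2 0 (Fin.last_pos' (n := r + 1)).ne
  refine lor_value hR.a_pos hR.b_pos hx' (v := fun i => qmap a b (ra ℝ) (v i))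
    (fun z hz => hu.mul_right_eq_zero.1 (hz i)) (hx'.1 0) h1.1 h1.2 le_rfl ?_
  rw [← bc_diagonal, hf_bc, h0, map_zero, zero_smul]

/-- Coordinates are bounded in terms of the real matrix and conversely. -/
theorem bdR_of_psi {n : ℕ} (ψ : Matrix ι ι (Q a b ℝ) ≃ₐ[ℝ] Matrix (Fin n) (Fin n) ℝ) (C : ℝ) :
    ∃ C' : ℝ, (∀ g, (∀ i j, |ψ g i j| ≤ C) → BdR C' g) ∧
      ∀ g, BdR C g → ∀ i j, |ψ g i j| ≤ C' := by
  let c : Matrix ι ι (Q a b ℝ) ≃ₗ[ℝ] ι → ι → Fin 4 → ℝ :=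
    (ofLinearEquiv ℝ).symm.trans (LinearEquiv.piCongrRight fun _ => LinearEquiv.piCongrRight
      fun _ => QuaternionAlgebra.linearEquivTuple _ _ _)
  let T : (ι → ι → Fin 4 → ℝ) ≃L[ℝ] Fin n → Fin n → ℝ :=
    ((c.symm.trans ψ.toLinearEquiv).trans (ofLinearEquiv ℝ).symm).toContinuousLinearEquiv
  have hT : ∀ g i j, T (c g) i j = ψ g i j := fun g i j => by simp [T]
  have n1 := norm_nonneg (T : (ι → ι → Fin 4 → ℝ) →L[ℝ] Fin n → Fin n → ℝ)
  have n2 := norm_nonneg (T.symm : (Fin n → Fin n → ℝ) →L[ℝ] ι → ι → Fin 4 → ℝ)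
  have n3 := abs_nonneg C
  refine ⟨‖(T : (ι → ι → Fin 4 → ℝ) →L[ℝ] Fin n → Fin n → ℝ)‖ * |C| +
    ‖(T.symm : (Fin n → Fin n → ℝ) →L[ℝ] ι → ι → Fin 4 → ℝ)‖ * |C|, fun g hg i j => ?_,
    fun g hg i j => ?_⟩
  · have h1 : ‖T (c g)‖ ≤ |C| := (pi_norm_le_iff_of_nonneg n3).2 fun i =>
      (pi_norm_le_iff_of_nonneg n3).2 fun j => by
        rw [hT]
        exact (hg i j).trans (le_abs_self C)
    have h2 := (T.symm : (Fin n → Fin n → ℝ) →L[ℝ] ι → ι → Fin 4 → ℝ).le_opNorm_of_le h1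
    rw [ContinuousLinearEquiv.coe_coe, T.symm_apply_apply] at h2
    have h3 := fun k => (((norm_le_pi_norm (c g i j) k).trans (norm_le_pi_norm (c g i) j)).trans
      ((norm_le_pi_norm (c g) i).trans h2)).trans (le_add_of_nonneg_left (mul_nonneg n1 n3))
    exact ⟨h3 0, h3 1, h3 2, h3 3⟩
  · have h1 : ‖c g‖ ≤ |C| := (pi_norm_le_iff_of_nonneg n3).2 fun i =>
      (pi_norm_le_iff_of_nonneg n3).2 fun j => (pi_norm_le_iff_of_nonneg n3).2 fun k => by
        refine le_trans ?_ (le_abs_self C)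
        fin_cases k
        exacts [(hg i j).1, (hg i j).2.1, (hg i j).2.2.1, (hg i j).2.2.2]
    have h2 := (T : (ι → ι → Fin 4 → ℝ) →L[ℝ] Fin n → Fin n → ℝ).le_opNorm_of_le h1
    rw [← hT]
    exact (((norm_le_pi_norm (T (c g) i) j).trans (norm_le_pi_norm (T (c g)) i)).trans h2).trans
      (le_add_of_nonneg_right (mul_nonneg n2 n3))

end Pool.Agent.P.MP_3c2f8c_gt
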