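import Pool.Agent.P.MP_3c2f8c_gt.Qu.Model

/-! QU-14: the Hasse principle for conjugacy of regular elements. -/

namespace Pool.Agent.P.MP_3c2f8c_gt

open Matrix

variable {a b : ℤ} [NeZero a] [NeZero b] {T : Finset Nat.Primes}

namespace ConjAux

open Polynomial

variable {r : ℕ} {C W : Matrix (Fin (r + 1)) (Fin (r + 1)) ℚ} {m : ℚ[X]}
  {R : Type} [CommRing R] [Algebra ℚ R]

omit [NeZero a] [NeZero b] in
theorem star_comm {F : Type} [CommRing F] {ζ₁ ζ₂ u : Q a b F} (h₁ : ζ₁.re = 0) (h₂ : ζ₂.re = 0)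
    (hu : ζ₂ * u = u * ζ₁) : star u * ζ₂ = ζ₁ * star u := by
  have := congrArg star hu
  rwa [star_mul, star_mul, star_of_pure h₁, star_of_pure h₂, mul_neg, neg_mul, neg_inj] at this

omit [NeZero a] [NeZero b] in
theorem conj_form {F : Type} [CommRing F] {ζ₁ ζ₂ y : Q a b F} (f : F) (hy : y * ζ₁ = ζ₂ * y) :
    star y * (f • ζ₂) * y = (f * nr y) • ζ₁ := by
  rw [mul_smul_comm, smul_mul_assoc, mul_assoc, ← hy, ← mul_assoc, star_mul_eq_nr,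
    ← Algebra.smul_def, smul_smul]

omit [NeZero a] [NeZero b] in
theorem smul_cancel {F : Type} [CommRing F] {ζ : Q a b F} (hd : IsUnit (sqp ζ))
    {c c' : F} (e : c • ζ = c' • ζ) : c = c' := by
  have := congrArg (fun z : Q a b F => (z * ζ).re) e
  simp only [smul_mul_assoc, QuaternionAlgebra.re_smul, smul_eq_mul] at this
  exact hd.mul_right_cancel this

omit [NeZero a] [NeZero b] in
theorem conj_mul {F : Type} [CommRing F] {ζ₁ ζ₂ u : Q a b F} (hu : ζ₂ * u = u * ζ₁) (k s t : F) :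
    k • ((algebraMap F (Q a b F) s + t • ζ₂) * u) * ζ₁ =
      ζ₂ * k • ((algebraMap F (Q a b F) s + t • ζ₂) * u) := by
  rw [smul_mul_assoc, mul_smul_comm, mul_assoc, ← hu, ← mul_assoc, ← mul_assoc, add_mul, mul_add,
    Algebra.commutes, smul_mul_assoc, mul_smul_comm]

/-- A local conjugator gives a local norm. -/
theorem loc_norm (h : Cyc C W m) {H P₁ P₂ g γ₁ γ₂ : Matrix (Fin (r + 1)) (Fin (r + 1)) (Q a b R)}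
    {ζ₁ ζ₂ u : Q a b (FF R C)} {f₁ f₂ : FF R C} (z₁ : ζ₁.re = 0) (z₂ : ζ₂.re = 0)
    (d₁ : sqp ζ₁ = ffT R C ^ 2 - 4) (d₂ : sqp ζ₂ = ffT R C ^ 2 - 4)
    (hd : IsUnit (ffT R C ^ 2 - 4)) (hu : ζ₂ * u = u * ζ₁)
    (i₁ : IsIsom H (cst a b (W.map (ra R)) * jm a b (ffV R C) (f₁ • ζ₁)) P₁)
    (i₂ : IsIsom H (cst a b (W.map (ra R)) * jm a b (ffV R C) (f₂ • ζ₂)) P₂)
    (c₁ : (γ₁ + γ₁) * P₁ = P₁ * jm a b (ffV R C) (algebraMap _ _ (ffT R C) + ζ₁))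
    (c₂ : (γ₂ + γ₂) * P₂ = P₂ * jm a b (ffV R C) (algebraMap _ _ (ffT R C) + ζ₂))
    (hg : gᴴ * H * g = H) (hc : g * γ₁ = γ₂ * g) :
    IsNm (ffT R C ^ 2 - 4) (f₁ * f₂ * nr u) := by
  obtain ⟨P', p1, p2, -⟩ := i₂.symm
  have e1 : jm a b (ffV R C) (algebraMap _ _ (ffT R C) + ζ₂) * P' = P' * (γ₂ + γ₂) := by
    rw [← one_mul (jm a b (ffV R C) _), ← p2, mul_assoc P', ← c₂, mul_assoc, mul_assoc, p1,
      mul_one]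
  obtain ⟨y, hy, hy'⟩ := h.intertwine z₁ z₂ d₁ d₂ (X := P' * g * P₁) (by
    rw [mul_assoc _ P₁, ← c₁, ← mul_assoc, ← mul_assoc, ← mul_assoc, e1, mul_assoc P' g,
      mul_assoc P' _ g, mul_add g, add_mul γ₂, hc])
  have e2 : P₂ * jm a b (ffV R C) y = g * P₁ := by
    rw [hy, ← mul_assoc, ← mul_assoc, p1, one_mul]
  have e3 : star y * (f₂ • ζ₂) * y = f₁ • ζ₁ := by
    apply h.cst_mul_injective
    rw [← h.isom_jm, ← i₂.2, ← i₁.2]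
    calc (jm a b (ffV R C) y)ᴴ * (P₂ᴴ * H * P₂) * jm a b (ffV R C) y
        = (P₂ * jm a b (ffV R C) y)ᴴ * H * (P₂ * jm a b (ffV R C) y) := by
          simp only [conjTranspose_mul, mul_assoc]
      _ = P₁ᴴ * (gᴴ * H * g) * P₁ := by simp only [e2, conjTranspose_mul, mul_assoc]
      _ = _ := by rw [hg]
  rw [conj_form f₂ hy'] at e3
  have e4 := smul_cancel (d₁ ▸ hd) e3
  obtain ⟨s, t, hst⟩ := comm_pure (y := y * star u) z₂ (d₂ ▸ hd) (by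
    rw [mul_assoc, star_comm z₁ z₂ hu, ← mul_assoc, hy', mul_assoc])
  have e5 := congrArg nr hst
  rw [nr_mul, nr_star, nr_add_smul z₂, d₂] at e5
  exact ⟨f₂ * s, f₂ * t, by linear_combination f₂ ^ 2 * e5 - f₂ * nr u * e4⟩

/-- The base change of a model. -/
theorem loc_norm' (h : Cyc C W m) {H P₁ P₂ : Matrix (Fin (r + 1)) (Fin (r + 1)) (Q a b ℚ)}
    {γ₁ γ₂ : Un H} {ζ₁ ζ₂ u : Q a b (FF ℚ C)} {f₁ f₂ : FF ℚ C} (z₁ : ζ₁.re = 0) (z₂ : ζ₂.re = 0)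
    (d₁ : sqp ζ₁ = ffT ℚ C ^ 2 - 4) (d₂ : sqp ζ₂ = ffT ℚ C ^ 2 - 4)
    (hd : IsUnit (ffT ℚ C ^ 2 - 4)) (hu : ζ₂ * u = u * ζ₁)
    (i₁ : IsIsom H (cst a b (W.map (ra ℚ)) * jm a b (ffV ℚ C) (f₁ • ζ₁)) P₁)
    (i₂ : IsIsom H (cst a b (W.map (ra ℚ)) * jm a b (ffV ℚ C) (f₂ • ζ₂)) P₂)
    (c₁ : (γ₁.1.1 + γ₁.1.1) * P₁ = P₁ * jm a b (ffV ℚ C) (algebraMap _ _ (ffT ℚ C) + ζ₁))
    (c₂ : (γ₂.1.1 + γ₂.1.1) * P₂ = P₂ * jm a b (ffV ℚ C) (algebraMap _ _ (ffT ℚ C) + ζ₂))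
    {E : Type} [Field E] [Algebra ℚ E] (hc : IsConj (locU (ra E) H γ₁) (locU (ra E) H γ₂))
    {L : Type} [CommRing L] (φ : E →+* L) (ψ : FF ℚ C →+* L) :
    IsNm (ψ (ffT ℚ C ^ 2 - 4)) (ψ (f₁ * f₂ * nr u)) := by
  obtain ⟨g, hg⟩ := isConj_iff.1 hc
  have hg' : g.1.1 * bc (ra E) γ₁.1.1 = bc (ra E) γ₂.1.1 * g.1.1 :=
    congrArg (fun x : Un (bc (ra E) H) => x.1.1) (mul_inv_eq_iff_eq_mul.1 hg)
  have eT : ffM E C (ffT ℚ C ^ 2 - 4) = ffT E C ^ 2 - 4 := by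
    rw [map_sub, map_pow, ffM_ffT, map_ofNat]
  have zz : ∀ {ζ : Q a b (FF ℚ C)}, ζ.re = 0 → (qmap a b (ffM E C) ζ).re = 0 := fun {ζ} hz => by
    show ffM E C ζ.re = 0
    rw [hz, map_zero]
  have ii : ∀ {P f ζ}, IsIsom H (cst a b (W.map (ra ℚ)) * jm a b (ffV ℚ C) (f • ζ)) P →
      IsIsom (bc (ra E) H) (cst a b (W.map (ra E)) *
        jm a b (ffV E C) (ffM E C f • qmap a b (ffM E C) ζ)) (bc (ra E) P) := fun {P f ζ} hi => by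
    have := hi.bc (ra E)
    rwa [bc_model, qmap_smul] at this
  have cc : ∀ {γ P ζ}, (γ + γ) * P = P * jm a b (ffV ℚ C) (algebraMap _ _ (ffT ℚ C) + ζ) →
      (bc (ra E) γ + bc (ra E) γ) * bc (ra E) P = bc (ra E) P *
        jm a b (ffV E C) (algebraMap _ _ (ffT E C) + qmap a b (ffM E C) ζ) := fun {γ P ζ} hi => by
    rw [← ffM_ffT, ← qmap_algebraMap, ← map_add, jm_ffM, ← Matrix.map_mul, ← hi, Matrix.map_mul,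
      Matrix.map_add _ (map_add _)]
  obtain ⟨s, t, hst⟩ := loc_norm h (u := qmap a b (ffM E C) u) (zz z₁) (zz z₂)
    (by rw [sqp_qmap, d₁, eT]) (by rw [sqp_qmap, d₂, eT]) (eT ▸ hd.map (ffM E C))
    (by rw [← map_mul, hu, map_mul]) (ii i₁) (ii i₂) (cc c₁) (cc c₂) g.2 hg'
  obtain ⟨χ, hχ⟩ := h.lift φ ψ
  rw [nr_qmap, ← map_mul, ← map_mul, ← eT] at hst
  refine ⟨χ s, χ t, ?_⟩
  rw [← hχ, ← hχ, hst, map_sub, map_mul, map_pow, map_pow]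

/-- A global norm gives a global conjugator. -/
theorem glob (h : Cyc C W m) {H P₁ P₂ : Matrix (Fin (r + 1)) (Fin (r + 1)) (Q a b ℚ)}
    {γ₁ γ₂ : Un H} {ζ₁ ζ₂ y : Q a b (FF ℚ C)} {f₁ f₂ : FF ℚ C}
    (i₁ : IsIsom H (cst a b (W.map (ra ℚ)) * jm a b (ffV ℚ C) (f₁ • ζ₁)) P₁)
    (i₂ : IsIsom H (cst a b (W.map (ra ℚ)) * jm a b (ffV ℚ C) (f₂ • ζ₂)) P₂)
    (c₁ : (γ₁.1.1 + γ₁.1.1) * P₁ = P₁ * jm a b (ffV ℚ C) (algebraMap _ _ (ffT ℚ C) + ζ₁))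
    (c₂ : (γ₂.1.1 + γ₂.1.1) * P₂ = P₂ * jm a b (ffV ℚ C) (algebraMap _ _ (ffT ℚ C) + ζ₂))
    (hy : IsUnit y) (hy' : y * ζ₁ = ζ₂ * y) (hn : f₂ * nr y = f₁) : IsConj γ₁ γ₂ := by
  obtain ⟨P', p1, p2, i₃⟩ := i₁.symm
  have i₄ : IsIsom (cst a b (W.map (ra ℚ)) * jm a b (ffV ℚ C) (f₂ • ζ₂))
      (cst a b (W.map (ra ℚ)) * jm a b (ffV ℚ C) (f₁ • ζ₁)) (jm a b (ffV ℚ C) y) :=
    ⟨hy.map _, by rw [h.isom_jm, conj_form f₂ hy', hn]⟩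
  obtain ⟨⟨g, hg⟩, i₅⟩ := (i₂.trans i₄).trans i₃
  refine isConj_iff.2 ⟨⟨g, by rwa [← hg] at i₅⟩, mul_inv_eq_iff_eq_mul.2 (Subtype.ext (Units.ext ?_))⟩
  show g.1 * γ₁.1.1 = γ₂.1.1 * g.1
  have e1 : P' * (γ₁.1.1 + γ₁.1.1) = jm a b (ffV ℚ C) (algebraMap _ _ (ffT ℚ C) + ζ₁) * P' := by
    rw [← one_mul (jm a b (ffV ℚ C) _), ← p2, mul_assoc P', ← c₁, mul_assoc, mul_assoc, p1,
      mul_one]
  have e2 : g.1 * (γ₁.1.1 + γ₁.1.1) = (γ₂.1.1 + γ₂.1.1) * g.1 := by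
    rw [hg, mul_assoc, e1, ← mul_assoc, ← mul_assoc, ← mul_assoc, c₂, mul_assoc P₂ (jm _ _ _ y),
      mul_assoc P₂ _ (jm _ _ _ y), ← map_mul, ← map_mul, mul_add, add_mul, hy', Algebra.commutes]
  rw [← two_smul ℚ, ← two_smul ℚ, mul_smul_comm, smul_mul_assoc] at e2
  exact smul_right_injective _ two_ne_zero e2

end ConjAux

open ConjAux in
theorem conj_of_local (hR : Ram a b T) {r : ℕ} {H : Matrix (Fin (r + 1)) (Fin (r + 1)) (Q a b ℚ)}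
    (hH : Hᴴ = -H) (hu : IsUnit H) (γ₁ γ₂ : Un H) (hr : RegP (rchar γ₁.1.1))
    (hloc : ∀ p : Nat.Primes, IsConj (locU (ra ℚ_[p]) H γ₁) (locU (ra ℚ_[p]) H γ₂))
    (hre : IsConj (locU (ra ℝ) H γ₁) (locU (ra ℝ) H γ₂)) : IsConj γ₁ γ₂ := by
  have hdiv : ¬ IsNm (a : ℚ) (b : ℚ) := by
    rintro ⟨x, y, e⟩
    obtain ⟨p, hp⟩ := hR.ne
    exact (hR.div p).1 hp ⟨x, y, by exact_mod_cast congrArg (Rat.cast : ℚ → ℚ_[p]) e⟩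
  have hχ : rchar γ₁.1.1 = rchar γ₂.1.1 := by
    obtain ⟨g, hg⟩ := isConj_iff.1 hre
    have hg' : g.1.1 * bc (ra ℝ) γ₁.1.1 = bc (ra ℝ) γ₂.1.1 * g.1.1 :=
      congrArg (fun x : Un (bc (ra ℝ) H) => x.1.1) (mul_inv_eq_iff_eq_mul.1 hg)
    have := rchar_of_conj g.1.isUnit hg'
    rw [rchar_bc, rchar_bc] at this
    exact Polynomial.map_injective _ (ra ℝ).injective this
  obtain ⟨m, hm⟩ := exists_pal hu γ₁ (nrd_eq_one_of_div hdiv hH hu γ₁)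
  rw [Fintype.card_fin] at hm
  obtain ⟨C, W, h⟩ := exists_cyc hm.1 hm.2.1
  obtain ⟨hs, h2, h2'⟩ := hm.separable hr
  obtain ⟨P₁, ζ₁, f₁, z₁, d₁, u₁, i₁, c₁⟩ := exists_model hH hu γ₁ hm hr h
  obtain ⟨P₂, ζ₂, f₂, z₂, d₂, u₂, i₂, c₂⟩ := exists_model hH hu γ₂ (hχ ▸ hm) (hχ ▸ hr) h
  rw [two_smul] at c₁ c₂
  have hd := h.isUnit_disc h2 h2'
  have : Module.Finite ℚ (FF ℚ C) := ff_finite
  have : IsReduced (FF ℚ C) := h.isReduced hs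
  have : IsArtinianRing (FF ℚ C) := IsArtinianRing.of_finite ℚ _
  obtain ⟨u, hu1, hu2⟩ := exists_conj_red z₂ z₁ (d₂.trans d₁.symm) (d₂ ▸ hd)
  have hn := (isUnit_iff_nr u).1 hu1
  obtain ⟨s, t, hst⟩ := etale_norm hd ((u₁.mul u₂).mul hn)
    ⟨fun p _ L _ ψ φ => loc_norm' h z₁ z₂ d₁ d₂ hd hu2 i₁ i₂ c₁ c₂ (hloc ⟨p, Fact.out⟩) φ ψ,
      fun ψ => loc_norm' h z₁ z₂ d₁ d₂ hd hu2 i₁ i₂ c₁ c₂ hre (RingHom.id ℝ) ψ⟩
  obtain ⟨k, hk⟩ := (u₂.mul hn).exists_right_inv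
  have e : f₂ * nr (k • ((algebraMap _ _ s + t • ζ₂) * u)) = f₁ := by
    rw [nr_smul, nr_mul, nr_add_smul z₂, d₂, ← hst]
    linear_combination f₁ * (f₂ * nr u * k + 1) * hk
  exact glob h i₁ i₂ c₁ c₂ ((isUnit_iff_nr _).2 (isUnit_of_mul_isUnit_right (e ▸ u₁)))
    (conj_mul hu2 k s t) e

end Pool.Agent.P.MP_3c2f8c_gt
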