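import Pool.Agent.P.MP_3c2f8c_gt.Qu.Morita
import Pool.Agent.P.MP_3c2f8c_gt.NT.HM
import Pool.Agent.P.MP_3c2f8c_gt.NT.WA

/-! QU-7: values of skew-hermitian forms over the rationals. -/

namespace Pool.Agent.P.MP_3c2f8c_gt

open Matrix

namespace HP2Aux

variable {a b : ℤ} {ι : Type} [Fintype ι] [DecidableEq ι]

section Ring

variable {R : Type} [CommRing R] {s t : R} (h : (b : R) = s ^ 2 - a * t ^ 2)

theorem gram_apply {S : Type} [CommRing S] (f : Q a b R →+* Matrix (Fin 2) (Fin 2) S)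
    (H : Matrix ι ι (Q a b R)) (i j : ι) (k l : Fin 2) :
    gram f H (i, k) (j, l) = ((!![0, 1; -1, 0] : Matrix (Fin 2) (Fin 2) S) * f (H i j)) k l := by
  simp only [gram, Jm, mor, Matrix.mul_apply, Fintype.sum_prod_type, Matrix.comp_apply,
    Matrix.map_apply]
  rw [Finset.sum_eq_single i]
  · simp only [diagonal_apply_eq]
  · intro j _ hj
    simp [diagonal_apply_ne _ (Ne.symm hj)]
  · simp

/-- The vector with blocks `f (e i) v`. -/
def vec (e : ι → Q a b R) (v : Fin 2 → R) : ι × Fin 2 → R :=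
  fun ik => (spEmb a b h (e ik.1) *ᵥ v) ik.2

theorem vec_form (H : Matrix ι ι (Q a b R)) (e : ι → Q a b R) (v : Fin 2 → R) :
    vec h e v ⬝ᵥ gram (spEmb a b h) H *ᵥ vec h e v =
      v ⬝ᵥ !![0, 1; -1, 0] *ᵥ spEmb a b h (hf H e e) *ᵥ v := by
  have h1 : vec h e v ⬝ᵥ gram (spEmb a b h) H *ᵥ vec h e v = ∑ i, ∑ j,
      (spEmb a b h (e i) *ᵥ v) ⬝ᵥ
        ((!![0, 1; -1, 0] : Matrix (Fin 2) (Fin 2) R) * spEmb a b h (H i j)) *ᵥ
          spEmb a b h (e j) *ᵥ v := by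
    simp only [dotProduct, Fintype.sum_prod_type]
    refine Finset.sum_congr rfl fun i _ => ?_
    rw [Finset.sum_comm]
    refine Finset.sum_congr rfl fun k _ => ?_
    rw [← Finset.mul_sum]
    congr 1
    simp only [mulVec, dotProduct, Fintype.sum_prod_type, gram_apply, vec]
  have h2 : hf H e e = ∑ i, ∑ j, star (e i) * (H i j * e j) := by
    simp only [hf, dotProduct, mulVec, Finset.mul_sum, Pi.star_apply]
  rw [h1, h2, map_sum, sum_mulVec, mulVec_sum, dotProduct_sum]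
  refine Finset.sum_congr rfl fun i _ => ?_
  rw [map_sum, sum_mulVec, mulVec_sum, dotProduct_sum]
  refine Finset.sum_congr rfl fun j _ => ?_
  rw [map_mul, map_mul, mulVec_mulVec, mulVec_mulVec, ← Matrix.mul_assoc, spEmb_star h,
    Matrix.mul_assoc, Matrix.mul_assoc, ← mulVec_mulVec v (spEmb a b h (e i))ᵀ,
    dotProduct_mulVec v, vecMul_transpose]

omit [DecidableEq ι] in
theorem of_vec_eq_zero (H : Matrix ι ι (Q a b R)) (e : ι → Q a b R) (v : Fin 2 → R)
    (h0 : vec h e v = 0) : spEmb a b h (hf H e e) *ᵥ v = 0 := by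
  have h2 : hf H e e = ∑ i, ∑ j, star (e i) * H i j * e j := by
    simp only [hf, dotProduct, mulVec, Finset.mul_sum, Pi.star_apply, mul_assoc]
  have h3 : ∀ j, spEmb a b h (e j) *ᵥ v = 0 := fun j => funext fun k => congrFun h0 (j, k)
  rw [h2, map_sum, sum_mulVec]
  refine Finset.sum_eq_zero fun i _ => ?_
  rw [map_sum, sum_mulVec]
  refine Finset.sum_eq_zero fun j _ => ?_
  rw [map_mul, ← mulVec_mulVec, h3, mulVec_zero]

theorem det_spEmb (z : Q a b R) : (spEmb a b h z).det = nr z := by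
  simp only [spEmb, RingHom.coe_mk, MonoidHom.coe_mk, OneHom.coe_mk, det_fin_two_of, nr]
  linear_combination (z.imJ ^ 2 - a * z.imK ^ 2) * h

theorem form_eq (v w : Fin 2 → R) :
    v ⬝ᵥ (!![0, 1; -1, 0] : Matrix (Fin 2) (Fin 2) R) *ᵥ w = v 0 * w 1 - v 1 * w 0 := by
  simp [dotProduct, mulVec, Fin.sum_univ_two]
  ring

theorem gram_map {S : Type} [CommRing S] (φ : R →+* S) (h' : (b : S) = φ s ^ 2 - a * φ t ^ 2)
    (H : Matrix ι ι (Q a b R)) :
    (gram (spEmb a b h) H).map φ = gram (spEmb a b h') (bc φ H) := by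
  ext ⟨i, k⟩ ⟨j, l⟩
  have hJ : (!![0, 1; -1, 0] : Matrix (Fin 2) (Fin 2) S) =
      (!![0, 1; -1, 0] : Matrix (Fin 2) (Fin 2) R).map φ := by
    ext i j
    fin_cases i <;> fin_cases j <;> simp
  have hb : bc φ H i j = qmap a b φ (H i j) := rfl
  rw [Matrix.map_apply, gram_apply, gram_apply, hb, spEmb_qmap h φ h', hJ,
    ← Matrix.map_mul, Matrix.map_apply]

omit [Fintype ι] [DecidableEq ι] in
theorem bc_skew {S : Type} [CommRing S] (φ : R →+* S) {H : Matrix ι ι (Q a b R)}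
    (hH : Hᴴ = -H) : (bc φ H)ᴴ = -bc φ H := by
  rw [← bc_conjTranspose, hH]
  exact Matrix.map_neg _ (map_neg _) _

end Ring

theorem isoM_of_value {L : Type} [Field L] {s t : L} (h : (b : L) = s ^ 2 - a * t ^ 2)
    (H : Matrix ι ι (Q a b L)) (e : ι → Q a b L) {v : Fin 2 → L} (hv : v ≠ 0) {ω : L}
    (hω : ω ≠ 0) (he : spEmb a b h (hf H e e) *ᵥ v = ω • v) : IsoM (gram (spEmb a b h) H) := by
  refine ⟨vec h e v, fun h0 => hv ?_, ?_⟩
  · have h1 := of_vec_eq_zero h H e v h0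
    rw [he] at h1
    exact (smul_eq_zero.1 h1).resolve_left hω
  · rw [vec_form, he, form_eq]
    simp only [Pi.smul_apply, smul_eq_mul]
    ring

theorem parallel {L : Type} [Field L] {v w : Fin 2 → L} (hv : v ≠ 0)
    (h : v 0 * w 1 - v 1 * w 0 = 0) : ∃ c : L, w = c • v := by
  by_cases h0 : v 0 = 0
  · have h1 : v 1 ≠ 0 := fun h1 => hv (by
      ext i
      fin_cases i
      exacts [h0, h1])
    refine ⟨w 1 / v 1, ?_⟩
    ext i
    fin_cases i
    · show w 0 = w 1 / v 1 * v 0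
      field_simp
      linear_combination -h
    · show w 1 = w 1 / v 1 * v 1
      field_simp
  · refine ⟨w 0 / v 0, ?_⟩
    ext i
    fin_cases i
    · show w 0 = w 0 / v 0 * v 0
      field_simp
    · show w 1 = w 0 / v 0 * v 1
      field_simp
      linear_combination h

theorem div_rat {T : Finset Nat.Primes} (hR : Ram a b T) : ¬ IsNm (a : ℚ) (b : ℚ) := by
  intro h
  obtain ⟨p, hp⟩ := hR.ne
  refine (hR.div p).1 hp ?_
  simpa using h.map (ra ℚ_[p])

theorem core [NeZero a] [NeZero b] (hdiv : ¬ IsNm (a : ℚ) (b : ℚ)) {H : Matrix ι ι (Q a b ℚ)}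
    (hH : Hᴴ = -H) (hι : 2 ≤ Fintype.card ι) {x : Q a b ℚ} (hx : x.re = 0) (hx0 : sqp x < 0)
    (hloc : ∀ p : Nat.Primes, ∃ e, hf (bc (ra ℚ_[p]) H) e e = qmap a b (ra ℚ_[p]) x)
    {K : Type} [Field K] [NumberField K] (h2 : Module.finrank ℚ K = 2) {ω : K}
    (hω : ω ^ 2 = ra K (sqp x)) :
    ∃ (v : ι → Q a b ℚ) (c : ℚ), v ≠ 0 ∧ hf H v v = c • x := by
  have hω0 : ω ≠ 0 := by
    rintro rfl
    have : ra K (sqp x) = 0 := by rw [← hω]; simp
    exact hx0.ne ((map_eq_zero _).1 this)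
  have hz : nr (algebraMap K (Q a b K) ω + (-1 : K) • qmap a b (ra K) x) = 0 := by
    rw [nr_add_smul (by simp [qmap, hx]), sqp_qmap, hω]
    ring
  have hz0 : algebraMap K (Q a b K) ω + (-1 : K) • qmap a b (ra K) x ≠ 0 := fun h0 => by
    have := congrArg QuaternionAlgebra.re h0
    simp [qmap, hx] at this
    exact hω0 this
  obtain ⟨s, t, h⟩ := isNm_of_nr_eq_zero hz0 hz
  obtain ⟨v, hv, hv'⟩ := Matrix.exists_mulVec_eq_zero_iff.2 ((det_spEmb h _).trans hz)
  have hxv : spEmb a b h (qmap a b (ra K) x) *ᵥ v = ω • v := by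
    rw [map_add, Algebra.algebraMap_eq_smul_one, spEmb_smul, spEmb_smul, map_one, add_mulVec,
      smul_mulVec, smul_mulVec, one_mulVec, neg_one_smul, add_neg_eq_zero] at hv'
    exact hv'.symm
  have hK : IsEmpty (K →+* ℝ) := ⟨fun φ => by
    have h1 : φ ω ^ 2 = (sqp x : ℚ) := by
      rw [← map_pow, hω]
      simp
    have h3 : ((sqp x : ℚ) : ℝ) < 0 := by exact_mod_cast hx0
    nlinarith [sq_nonneg (φ ω)]⟩
  have hS := gram_symm h (bc_skew (ra K) hH)
  have hiso : IsoM (gram (spEmb a b h) (bc (ra K) H)) := by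
    rcases hι.eq_or_lt with hc | hc
    · refine hm4M (by rw [Fintype.card_prod, ← hc]; rfl) _ hS ⟨?_, fun ψ => (hK.false ψ).elim⟩
      intro p hp L _ ψ χ
      obtain ⟨e, he⟩ := hloc ⟨p, hp.out⟩
      have h' : (b : L) = ψ s ^ 2 - a * ψ t ^ 2 := by
        have := congrArg ψ h
        simpa using this
      have hχ : χ.comp (ra ℚ_[p]) = ψ.comp (ra K) := RingHom.ext_rat _ _
      have he' := hf_bc χ (bc (ra ℚ_[p]) H) e e
      rw [he, bc_bc, qmap_qmap] at he'
      erw [hχ] at he'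
      rw [← bc_bc, ← qmap_qmap] at he'
      show IsoM ((gram (spEmb a b h) (bc (ra K) H)).map ψ)
      rw [gram_map h ψ h']
      refine isoM_of_value h' _ (fun i => qmap a b χ (e i)) (v := ψ ∘ v) ?_ (ω := ψ ω)
        ((map_ne_zero ψ).2 hω0) ?_
      · intro h0
        exact hv (funext fun i => (map_eq_zero ψ).1 (congrFun h0 i))
      · rw [he', spEmb_qmap h ψ h']
        ext i
        rw [← RingHom.map_mulVec, hxv]
        simp
    · refine hm5M hK ?_ _ hS
      rw [Fintype.card_prod, Fintype.card_fin]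
      omega
  let A : Q a b ℚ →ₗ[ℚ] (Fin 2 → K) :=
    { toFun := fun z => spEmb a b h (qmap a b (ra K) z) *ᵥ v
      map_add' := fun y z => by rw [map_add, map_add, add_mulVec]
      map_smul' := fun c z => by
        rw [qmap_smul, spEmb_smul, smul_mulVec, RingHom.id_apply, algebraMap_smul] }
  have hA : ∀ z, A z = spEmb a b h (qmap a b (ra K) z) *ᵥ v := fun _ => rfl
  have hinj : Function.Injective A := by
    rw [injective_iff_map_eq_zero]
    intro z hz
    by_contra hz0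
    obtain ⟨z', hz'⟩ := (isUnit_of_div hdiv hz0).exists_left_inv
    apply hv
    have h1 : spEmb a b h (qmap a b (ra K) (z' * z)) *ᵥ v = 0 := by
      rw [map_mul, map_mul, ← mulVec_mulVec, ← hA z, hz, mulVec_zero]
    rwa [hz', map_one, map_one, one_mulVec] at h1
  have hsurj : Function.Surjective A := by
    refine (LinearMap.injective_iff_surjective_of_finrank_eq_finrank ?_).1 hinj
    rw [QuaternionAlgebra.finrank_eq_four, Module.finrank_pi_fintype]
    simp [h2]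
  obtain ⟨u, hu0, hu⟩ := hiso
  choose e he using fun i => hsurj fun k => u (i, k)
  have hue : u = vec h (fun i => qmap a b (ra K) (e i)) v := by
    ext ⟨i, k⟩
    exact (congrFun (he i) k).symm
  have he0 : e ≠ 0 := by
    rintro rfl
    apply hu0
    ext ⟨i, k⟩
    have := congrFun (he i) k
    simpa using this.symm
  rw [hue, vec_form, hf_bc, form_eq] at hu
  obtain ⟨l, hl⟩ := parallel hv hu
  have hcomm : hf H e e * x = x * hf H e e := by
    apply hinj
    rw [hA, hA, map_mul, map_mul, map_mul, map_mul, ← mulVec_mulVec, ← mulVec_mulVec, hxv, hl,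
      mulVec_smul, mulVec_smul, hxv, hl, smul_comm]
  obtain ⟨c0, c, hc⟩ := comm_pure hx (isUnit_iff_ne_zero.2 hx0.ne) hcomm
  have hp : (hf H e e).re = 0 := pure_of_star (hf_star hH e e)
  refine ⟨e, c, he0, ?_⟩
  have h0 : c0 = 0 := by
    rw [hc] at hp
    simpa [hx] using hp
  rw [hc, h0, map_zero, zero_add]

theorem approx {κ : Type} [Fintype κ] (P : Finset Nat.Primes)
    (y : ∀ p : Nat.Primes, κ → ℚ_[p]) (U : ∀ p : Nat.Primes, Set (κ → ℚ_[p]))
    (hU : ∀ p, U p ∈ nhds (y p)) (r : κ → ℝ) (V : Set (κ → ℝ)) (hV : V ∈ nhds r) :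
    ∃ x : κ → ℚ, (∀ p ∈ P, (fun k => (x k : ℚ_[p])) ∈ U p) ∧ (fun k => (x k : ℝ)) ∈ V := by
  choose ε hε hεU using fun p => Metric.mem_nhds_iff.1 (hU p)
  obtain ⟨η, hη, hηV⟩ := Metric.mem_nhds_iff.1 hV
  obtain ⟨δ, hδ, hδη, hδε⟩ : ∃ δ : ℝ, 0 < δ ∧ δ ≤ η ∧ ∀ p ∈ P, δ ≤ ε p := by
    induction P using Finset.induction_on with
    | empty => exact ⟨η, hη, le_rfl, by simp⟩
    | insert q P _ ih =>
      obtain ⟨δ, h1, h2, h3⟩ := ih
      refine ⟨min δ (ε q), lt_min h1 (hε q), (min_le_left _ _).trans h2, fun p hp => ?_⟩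
      rcases Finset.mem_insert.1 hp with rfl | hp
      exacts [min_le_right _ _, (min_le_left _ _).trans (h3 p hp)]
  choose x hx hx' using fun k => rat_approx P (fun p => y p k) (r k) hδ
  refine ⟨x, fun p hp => hεU p ?_, hηV ?_⟩
  · rw [Metric.mem_ball, dist_pi_lt_iff (hε p)]
    intro k
    rw [dist_eq_norm]
    exact (hx k p hp).trans_le (hδε p hp)
  · rw [Metric.mem_ball, dist_pi_lt_iff hη]
    intro k
    rw [Real.dist_eq]
    exact (hx' k).trans_le hδη

/-- The vector of quaternions with the given coordinates. -/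
def mk (a b : ℤ) {R : Type} [CommRing R] (c : ι × Fin 4 → R) : ι → Q a b R :=
  fun i => ⟨c (i, 0), c (i, 1), c (i, 2), c (i, 3)⟩

omit [Fintype ι] [DecidableEq ι] in
theorem mk_surj {R : Type} [CommRing R] (w : ι → Q a b R) : ∃ c, mk a b c = w :=
  ⟨fun k => ![(w k.1).re, (w k.1).imI, (w k.1).imJ, (w k.1).imK] k.2, rfl⟩

omit [DecidableEq ι] in
theorem cont {R : Type} [CommRing R] [TopologicalSpace R] [IsTopologicalRing R]
    (H : Matrix ι ι (Q a b R)) :
    Continuous fun c : ι × Fin 4 → R => sqp (hf H (mk a b c) (mk a b c)) := by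
  have h1 : ∀ i, Continuous fun c : ι × Fin 4 → R => mk a b c i := fun i =>
    continuous_quat.2 ⟨continuous_apply _, continuous_apply _, continuous_apply _,
      continuous_apply _⟩
  have h2 : ∀ i, Continuous fun c : ι × Fin 4 → R => star (mk a b c i) := fun i =>
    continuous_quat.2 (by
      simp only [mk, QuaternionAlgebra.star_mk]
      refine ⟨?_, ?_, ?_, ?_⟩ <;> fun_prop)
  have h3 : Continuous fun c : ι × Fin 4 → R => hf H (mk a b c) (mk a b c) := by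
    simp only [hf, dotProduct, mulVec, Pi.star_apply]
    exact continuous_finsetSum _ fun i _ => (h2 i).mul
      (continuous_finsetSum _ fun j _ => continuous_const.mul (h1 j))
  exact (continuous_quat.1 (h3.mul h3)).1

omit [DecidableEq ι] in
theorem cast_val {R : Type} [Field R] [CharZero R] (H : Matrix ι ι (Q a b ℚ))
    (x : ι × Fin 4 → ℚ) : ((sqp (hf H (mk a b x) (mk a b x)) : ℚ) : R) =
      sqp (hf (bc (ra R) H) (mk a b fun k => (x k : R)) (mk a b fun k => (x k : R))) := by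
  classical
  have h1 : (mk a b fun k => (x k : R)) = fun i => qmap a b (ra R) (mk a b x i) := rfl
  rw [h1, hf_bc, sqp_qmap]
  rfl

theorem nonsq_nhds (p : ℕ) [Fact p.Prime] {y : ℚ_[p]} (hy : ¬ IsSquare y) :
    {z : ℚ_[p] | ¬ IsSquare z} ∈ nhds y := by
  obtain ⟨L, -, hL, -, -⟩ := exists_padicLF p
  have hy0 : y ≠ 0 := by
    rintro rfl
    exact hy IsSquare.zero
  have h4 : (4 : ℚ_[p]) ≠ 0 := by norm_num
  have hc : Continuous fun z : ℚ_[p] => ‖(z / y - 1) / 4‖ := by fun_prop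
  have ho : {z : ℚ_[p] | ‖(z / y - 1) / 4‖ < 1} ∈ nhds y :=
    (isOpen_lt hc continuous_const).mem_nhds (by simp [hy0])
  refine Filter.mem_of_superset (Filter.inter_mem ho (isOpen_ne.mem_nhds hy0)) ?_
  rintro z ⟨hz, hz0⟩ ⟨w, hw⟩
  have h1 : L.v (z / y - 1) < L.v 4 := by
    have h2 := (hL _).2 hz
    rwa [map_div₀, div_lt_one₀ (zero_lt_iff.2 ((map_ne_zero L.v).2 h4))] at h2
  obtain ⟨u, hu⟩ := L.isSquare_of_lt h1
  have hu0 : u ≠ 0 := by
    rintro rfl
    exact div_ne_zero hz0 hy0 (by rw [hu, mul_zero])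
  refine hy ⟨w / u, ?_⟩
  rw [div_mul_div_comm, ← hw, ← hu]
  have hz0' : z ≠ 0 := hz0
  field_simp

theorem fin_int {n : ℤ} (hn : n ≠ 0) : {p : Nat.Primes | ‖(n : ℚ_[p])‖ ≠ 1}.Finite := by
  refine ((Set.finite_Iic n.natAbs).preimage (f := fun p : Nat.Primes => p.1)
    Subtype.val_injective.injOn).subset fun (p : Nat.Primes) hp => ?_
  have h1 : ‖(n : ℚ_[p])‖ < 1 := lt_of_le_of_ne (Padic.norm_int_le_one n) hp
  rw [Padic.norm_intCast_lt_one_iff] at h1
  exact Nat.le_of_dvd (Int.natAbs_pos.2 hn) (Int.natCast_dvd.1 h1)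

theorem fin_rat {q : ℚ} (hq : q ≠ 0) : {p : Nat.Primes | ‖(q : ℚ_[p])‖ ≠ 1}.Finite := by
  refine ((fin_int (Rat.num_ne_zero.2 hq)).union
    (fin_int (n := q.den) (Int.natCast_ne_zero.2 q.den_ne_zero))).subset fun p hp => ?_
  by_contra h
  simp only [Set.mem_union, Set.mem_ofPred_eq, not_or, not_not, Int.cast_natCast] at h
  apply hp
  rw [Rat.cast_def, norm_div, h.1, h.2, div_one]

end HP2Aux

variable {a b : ℤ} [NeZero a] [NeZero b] {T : Finset Nat.Primes} {ι : Type} [Fintype ι]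
  [DecidableEq ι]

theorem exists_mul_value (hR : Ram a b T) {H : Matrix ι ι (Q a b ℚ)} (hH : Hᴴ = -H)
    (hι : 2 ≤ Fintype.card ι) {x : Q a b ℚ} (hx : x.re = 0) (hx0 : sqp x < 0)
    (hloc : ∀ p : Nat.Primes, ∃ e, hf (bc (ra ℚ_[p]) H) e e = qmap a b (ra ℚ_[p]) x) :
    ∃ (v : ι → Q a b ℚ) (c : ℚ), v ≠ 0 ∧ hf H v v = c • x := by
  have hs : ¬ IsSquare (sqp x) := by
    rintro ⟨r, hr⟩
    nlinarith [mul_self_nonneg r]
  obtain ⟨K, _, _, inst, q, hq⟩ := MP_9ec3f0_nt.SY.exists_quad_ext ℚ _ hs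
  obtain rfl : inst = DivisionRing.toRatAlgebra := Subsingleton.elim _ _
  exact HP2Aux.core (HP2Aux.div_rat hR) hH hι hx hx0 hloc q.finrank_eq (hq ▸ q.r_sq)

theorem exists_good_value {H : Matrix ι ι (Q a b ℚ)} (hH : Hᴴ = -H) (hu : IsUnit H)
    (hι : 2 ≤ Fintype.card ι) (hre : ∃ w, 0 < sqp (hf (bc (ra ℝ) H) w w))
    (P : Finset Nat.Primes) :
    ∃ v : ι → Q a b ℚ, 0 < sqp (hf H v v) ∧
      ∀ p ∈ P, ¬ IsSquare ((sqp (hf H v v) : ℚ) : ℚ_[p]) := by
  have h1 : ∀ p : Nat.Primes, ∃ c : ι × Fin 4 → ℚ_[p], ¬ IsSquare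
      (sqp (hf (bc (ra ℚ_[p]) H) (HP2Aux.mk a b c) (HP2Aux.mk a b c))) := fun p => by
    obtain ⟨L, -⟩ := exists_padicLF p
    obtain ⟨w, hw⟩ := exists_nonsquare_value L (HP2Aux.bc_skew (ra ℚ_[p]) hH)
      (hu.map (qmap a b (ra ℚ_[p])).mapMatrix) hι
    obtain ⟨c, rfl⟩ := HP2Aux.mk_surj w
    exact ⟨c, hw⟩
  choose y hy using h1
  obtain ⟨w, hw⟩ := hre
  obtain ⟨r, rfl⟩ := HP2Aux.mk_surj w
  obtain ⟨x, hx, hx'⟩ := HP2Aux.approx P y _
    (fun p => (HP2Aux.cont (bc (ra ℚ_[p]) H)).continuousAt.preimage_mem_nhds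
      (HP2Aux.nonsq_nhds p (hy p))) r _
    ((HP2Aux.cont (bc (ra ℝ) H)).continuousAt.preimage_mem_nhds (Ioi_mem_nhds hw))
  refine ⟨HP2Aux.mk a b x, ?_, fun p hp => ?_⟩
  · have h2 : (0 : ℝ) < (sqp (hf H (HP2Aux.mk a b x) (HP2Aux.mk a b x)) : ℚ) := by
      rw [HP2Aux.cast_val]
      exact hx'
    exact_mod_cast h2
  · rw [HP2Aux.cast_val]
    exact hx p hp

theorem finite_not_isNm {d c : ℚ} (hd : d ≠ 0) (hc : c ≠ 0) :
    {p : Nat.Primes | ¬ IsNm (d : ℚ_[p]) (c : ℚ_[p])}.Finite := by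
  refine (((HP2Aux.fin_rat hd).union (HP2Aux.fin_rat hc)).union
    (HP2Aux.fin_int (n := 2) two_ne_zero)).subset fun p hp => ?_
  by_contra h
  simp only [Set.mem_union, Set.mem_ofPred_eq, not_or, not_not, Int.cast_ofNat] at h
  obtain ⟨L, -, -, hL, -⟩ := exists_padicLF p
  exact hp (L.isNm_of_unit ((hL _).2 h.2) ((hL _).2 h.1.1) ((hL _).2 h.1.2))

end Pool.Agent.P.MP_3c2f8c_gt
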