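import Pool.Agent.P.MP_3c2f8c_gt.Qu.HP1
import Pool.Agent.P.MP_3c2f8c_gt.Qu.HP2
import Pool.Agent.P.MP_3c2f8c_gt.Qu.Real

/-! QU-8: the refined Hasse principle. -/

namespace Pool.Agent.P.MP_3c2f8c_gt

open Matrix

namespace HP3Aux

section General

variable {A : Type} [Ring A] [StarRing A] {ι : Type} [Fintype ι] [DecidableEq ι]

theorem skew {H H' g : Matrix ι ι A} (h : IsIsom H H' g) (hH : Hᴴ = -H) : H'ᴴ = -H' := by
  rw [← h.2, conjTranspose_mul, conjTranspose_mul, conjTranspose_conjTranspose, hH]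
  simp only [Matrix.neg_mul, Matrix.mul_neg, Matrix.mul_assoc]

theorem unit {H H' g : Matrix ι ι A} (h : IsIsom H H' g) (hH : IsUnit H) : IsUnit H' := by
  rw [← h.2]
  exact (h.1.star.mul hH).mul h.1

theorem value {H H' g : Matrix ι ι A} (h : IsIsom H H' g) (v : ι → A) :
    ∃ w, hf H w w = hf H' v v := ⟨g *ᵥ v, by rw [hf_mulVec, h.2]⟩

theorem value' {H H' g : Matrix ι ι A} (h : IsIsom H H' g) (v : ι → A) :
    ∃ w, hf H' w w = hf H v v := by
  obtain ⟨g', -, -, h'⟩ := h.symm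
  exact value h' v

theorem hf_single (H : Matrix ι ι A) (i : ι) : hf H (Pi.single i 1) (Pi.single i 1) = H i i := by
  simp [hf, Pi.star_single]

omit [DecidableEq ι] in
theorem hf_mul (H : Matrix ι ι A) (w : ι → A) (q : A) :
    hf H (fun i => w i * q) (fun i => w i * q) = star q * hf H w w * q := by
  simp only [hf, dotProduct, mulVec, Pi.star_apply, star_mul, Finset.mul_sum, Finset.sum_mul,
    mul_assoc]

theorem hf_bd {r : ℕ} (x : A) (M : Matrix (Fin r) (Fin r) A) (p : A) (w : Fin r → A) :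
    hf (bd x M) (Fin.cons p w) (Fin.cons p w) = star p * x * p + hf M w w := by
  simp [hf, dotProduct, mulVec, bd, Fin.sum_univ_succ, mul_assoc]

theorem hf_two (x y : A) (v : Fin 2 → A) :
    hf (diagonal ![x, y]) v v = star (v 0) * x * v 0 + star (v 1) * y * v 1 := by
  simp [hf, dotProduct, mulVec_diagonal, Fin.sum_univ_two, mul_assoc]

omit [StarRing A] in
theorem one_bd (g : Matrix (Fin 1) (Fin 1) A) : g = bd (g 0 0) 1 := by
  ext i j
  fin_cases i
  fin_cases j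
  rfl

omit [StarRing A] in
theorem two_bd (x : A) (M : Matrix (Fin 1) (Fin 1) A) : bd x M = diagonal ![x, M 0 0] := by
  rw [diagonal_cons]
  congr 1
  ext i j
  fin_cases i
  fin_cases j
  rfl

end General

variable {a b : ℤ} {E : Type} [Field E] [CharZero E]

theorem pure_hf {ι : Type} [Fintype ι] [DecidableEq ι] {H : Matrix ι ι (Q a b E)} (hH : Hᴴ = -H)
    (w : ι → Q a b E) : (hf H w w).re = 0 := pure_of_star (hf_star hH w w)

theorem sqp_conj {y : Q a b E} (hy : y.re = 0) (u : Q a b E) :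
    sqp (star u * y * u) = nr u ^ 2 * sqp y := by
  have h : (star u * y * u).re = 0 := pure_of_star (by
    rw [star_mul, star_mul, star_star, star_of_pure hy]
    simp only [neg_mul, mul_neg, mul_assoc])
  rw [sqp_of_pure h, sqp_of_pure hy, nr_mul, nr_mul, nr_star]
  ring

omit [CharZero E] in
theorem skew_bc {ι : Type} [Fintype ι] [DecidableEq ι] (φ : ℚ →+* E)
    {H : Matrix ι ι (Q a b ℚ)} (hH : Hᴴ = -H) : (bc φ H)ᴴ = -bc φ H := by
  rw [← bc_conjTranspose, hH]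
  exact Matrix.map_neg _ (map_neg _) _

omit [CharZero E] in
theorem unit_bc {ι : Type} [Fintype ι] [DecidableEq ι] (φ : ℚ →+* E)
    {H : Matrix ι ι (Q a b ℚ)} (hH : IsUnit H) : IsUnit (bc φ H) :=
  hH.map (qmap a b φ).mapMatrix

variable [NeZero a] [NeZero b]

theorem skew_unit {r : ℕ} {x : Fin (r + 1) → Q a b ℚ} (hx : LorData x)
    {H : Matrix (Fin (r + 1)) (Fin (r + 1)) (Q a b ℚ)} {g}
    (h : IsIsom (bc (ra ℝ) (diagonal x)) (bc (ra ℝ) H) g) : Hᴴ = -H ∧ IsUnit H := by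
  constructor
  · apply bc_injective (ra ℝ).injective
    rw [bc_conjTranspose, skew h (skew_bc _ hx.skew.1)]
    exact (Matrix.map_neg _ (map_neg _) _).symm
  · have := (isUnit_iff_nrd _).1 (unit h (unit_bc _ hx.skew.2))
    rw [nrd_bc] at this
    exact (isUnit_iff_nrd _).2 ((map_ne_zero _).1 this)

theorem cancel_loc (φ : ℚ →+* E) {r : ℕ} {x : Fin (r + 2) → Q a b ℚ} (hx : LorData x)
    {M : Matrix (Fin (r + 1)) (Fin (r + 1)) (Q a b E)} {g}
    (h : IsIsom (bc φ (diagonal x)) (bd (qmap a b φ (x 0)) M) g) :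
    ∃ g₀, IsIsom (bc φ (diagonal fun j : Fin (r + 1) => x j.succ)) M g₀ ∧
      (¬ IsNm (a : E) (b : E) → nrd g₀ = nrd g) := by
  have hu := hx.skew.2
  rw [diagonal_cons] at hu
  rw [diagonal_cons, bc_bd] at h
  refine cancel ?_ ((isUnit_of_bd hu).1.map _) (skew_bc φ hx.tail.skew.1)
    (unit_bc φ hx.tail.skew.2) h
  show φ (x 0).re = 0
  rw [hx.1 0, map_zero]

end HP3Aux

open HP3Aux

variable {a b : ℤ} [NeZero a] [NeZero b] {T : Finset Nat.Primes}

theorem represent (hR : Ram a b T) {r : ℕ} {x : Fin (r + 2) → Q a b ℚ} (hx : LorData x)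
    {H : Matrix (Fin (r + 2)) (Fin (r + 2)) (Q a b ℚ)}
    (hloc : ∀ p : Nat.Primes, ∃ g, IsIsom (bc (ra ℚ_[p]) (diagonal x)) (bc (ra ℚ_[p]) H) g)
    (hre : ∃ g, IsIsom (bc (ra ℝ) (diagonal x)) (bc (ra ℝ) H) g) : ∃ v, hf H v v = x 0 := by
  obtain ⟨g, hg⟩ := hre
  obtain ⟨hH, hu⟩ := skew_unit hx hg
  have hdiv := hR.div_rat
  obtain ⟨hx1, hx2⟩ := hx.2.2 0 (Fin.last_pos.ne)
  have hx0 : x 0 ≠ 0 := fun h => by
    rw [h] at hx2
    exact lt_irrefl _ hx2
  have hval : ∀ {E : Type} [Field E] (φ : ℚ →+* E) {H' g'},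
      IsIsom (bc φ (diagonal x)) H' g' → ∃ e, hf H' e e = qmap a b φ (x 0) := fun φ H' g' h => by
    obtain ⟨e, he⟩ := value' h (Pi.single 0 1)
    refine ⟨e, ?_⟩
    rw [he, hf_single, bc_diagonal, diagonal_apply_eq]
  obtain ⟨v, c, hv, hc⟩ := exists_mul_value hR hH (by simp) (hx.1 0) hx1 fun p => by
    obtain ⟨g', hg'⟩ := hloc p
    exact hval _ hg'
  have hx' := hx.map (ra ℝ) Rat.cast_strictMono
  have hc0 : 0 < c := by
    by_contra hc0
    have h1 := hx'.2.2 0 (Fin.last_pos.ne)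
    refine lor_value hR.a_pos hR.b_pos hx' (v := g *ᵥ fun i => qmap a b (ra ℝ) (v i))
      (fun z hz => ?_) (hx'.1 0) h1.1 h1.2 (c := ra ℝ c) (Rat.cast_nonpos.2 (not_lt.1 hc0)) ?_
    · obtain ⟨i, hi⟩ := Function.ne_iff.1 hv
      have h2 : g *ᵥ (fun i => qmap a b (ra ℝ) (v i) * z) = 0 := by
        funext j
        rw [Pi.zero_apply, ← hz j]
        simp only [mulVec, dotProduct, Finset.sum_mul, mul_assoc]
      obtain ⟨g', -, h3, -⟩ := hg.symm
      have h4 := congrArg (g' *ᵥ ·) h2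
      simp only [mulVec_mulVec, h3, one_mulVec, mulVec_zero] at h4
      exact (((isUnit_of_div hdiv hi).map (qmap a b (ra ℝ))).mul_right_eq_zero).1 (congrFun h4 i)
    · rw [hf_mulVec, ← bc_diagonal, hg.2, hf_bc, hc, qmap_smul]
  obtain ⟨k, M, hk⟩ := exists_bd hdiv hH (v := v) (by rw [hc]; exact smul_ne_zero hc0.ne' hx0)
  rw [hc] at hk
  have hM := (skew_of_bd (skew hk hH)).2
  have hMu := (isUnit_of_bd (unit hk hu)).2
  have hw : ∃ w, 0 < sqp (hf (bc (ra ℝ) M) w w) := by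
    have h1 := hg.trans (hk.bc (ra ℝ))
    rw [bc_bd, qmap_smul] at h1
    have hc1 : (0 : ℝ) < ra ℝ c := Rat.cast_pos.2 hc0
    have hs : (√(ra ℝ c))⁻¹ ≠ 0 := inv_ne_zero (Real.sqrt_pos.2 hc1).ne'
    have h2 : IsIsom (bd (ra ℝ c • qmap a b (ra ℝ) (x 0)) (bc (ra ℝ) M))
        (bd (qmap a b (ra ℝ) (x 0)) (bc (ra ℝ) M)) (bd ((√(ra ℝ c))⁻¹ • 1) 1) := by
      refine IsIsom.bd (by
        rw [← Algebra.algebraMap_eq_smul_one]
        exact (IsUnit.mk0 _ hs).map _) ?_ ⟨isUnit_one, by simp⟩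
      rw [QuaternionAlgebra.star_smul', star_one, smul_mul_assoc, one_mul, mul_smul_comm, mul_one,
        smul_smul, smul_smul, ← mul_inv, Real.mul_self_sqrt hc1.le, inv_mul_cancel₀ hc1.ne',
        one_smul]
    obtain ⟨g₀, h3, -⟩ := cancel_loc _ hx (h1.trans h2)
    obtain ⟨w, hw⟩ := value' h3 (Pi.single (Fin.last r) 1)
    refine ⟨w, ?_⟩
    rw [hw, hf_single, bc_diagonal, diagonal_apply_eq]
    exact hx'.2.1
  have key : ∃ w, 0 < sqp (hf M w w) ∧ ∀ p : Nat.Primes,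
      IsSquare ((sqp (hf M w w) : ℚ) : ℚ_[p]) → IsNm ((sqp (x 0) : ℚ) : ℚ_[p]) (c : ℚ_[p]) := by
    rcases r with _ | r
    · have hy : (M 0 0).re = 0 := hf_single M 0 ▸ pure_hf hM _
      have hy' : ∀ {E : Type} [Field E] (φ : ℚ →+* E) {z : Q a b ℚ}, z.re = 0 →
          (qmap a b φ z).re = 0 := fun φ z hz => by
        show φ z.re = 0
        rw [hz, map_zero]
      have hpos : 0 < sqp (M 0 0) := by
        obtain ⟨w, hw⟩ := hw
        have e : hf (bc (ra ℝ) M) w w = star (w 0) * qmap a b (ra ℝ) (M 0 0) * w 0 := by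
          simp [hf, dotProduct, mulVec, mul_assoc]
        rw [e, sqp_conj (hy' _ hy), sqp_qmap] at hw
        exact Rat.cast_pos.1 (pos_of_mul_pos_right hw (sq_nonneg _))
      refine ⟨Pi.single 0 1, by rwa [hf_single], fun p hp => ?_⟩
      rw [hf_single] at hp
      obtain ⟨g', hg'⟩ := hloc p
      obtain ⟨e, he⟩ := hval _ (hg'.trans (hk.bc _))
      rw [bc_bd, qmap_smul, two_bd] at he
      have h1 := isNm_of_rep_two (hy' _ (hx.1 0)) (hy' _ hy)
        (by rw [sqp_qmap]; exact (map_ne_zero _).2 hx1.ne)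
        (by rw [sqp_qmap]; exact (map_ne_zero _).2 hpos.ne')
        (by rw [sqp_qmap, eq_ratCast]; exact hp) ((map_ne_zero _).2 hc0.ne') he
      rwa [sqp_qmap, eq_ratCast, eq_ratCast] at h1
    · obtain ⟨w, h1, h2⟩ := exists_good_value hM hMu (by simp) hw
        (finite_not_isNm hx1.ne hc0.ne').toFinset
      refine ⟨w, h1, fun p hp => ?_⟩
      by_contra h3
      exact h2 p ((Set.Finite.mem_toFinset _).2 h3) hp
  obtain ⟨w, h1, h2⟩ := key
  obtain ⟨u, hu⟩ := rep_two (hx.1 0) (pure_hf hM w) hx1 h1 hc0 h2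
  obtain ⟨v', hv'⟩ := value hk (Fin.cons (u 0) fun i => w i * u 1)
  exact ⟨v', by rw [hv', hf_bd, hf_mul, ← hf_two, hu]⟩

/-- The refined Hasse principle for skew-hermitian forms. -/
theorem hp (hR : Ram a b T) {r : ℕ} {x : Fin (r + 1) → Q a b ℚ} (hx : LorData x)
    {H : Matrix (Fin (r + 1)) (Fin (r + 1)) (Q a b ℚ)} {c : ℚ}
    (h : LocIso T ∅ (diagonal x) H c) : ∃ g, IsIsom (diagonal x) H g := by
  induction r generalizing c with
  | zero =>
    obtain ⟨g, h1, h2⟩ := hp_one hR (x' := H 0 0) (c := c) (hx.1 0) hx.2.1 fun p => by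
      obtain ⟨g, hg, hn⟩ := h.fin p
      refine ⟨g 0 0, (isUnit_of_bd (one_bd g ▸ hg.1)).1, ?_, fun hp => ?_⟩
      · have := congrFun (congrFun hg.2 0) 0
        simpa [Matrix.mul_apply] using this
      · have := hn hp
        rw [one_bd g, nrd_bd, nrd_one, mul_one] at this
        simpa [eps] using this
    refine ⟨bd g 1, ?_⟩
    rw [one_bd H, one_bd (diagonal x), diagonal_apply_eq]
    exact IsIsom.bd h1 h2 ⟨isUnit_one, by simp⟩
  | succ r ih =>
    obtain ⟨v, hv⟩ := represent hR hx (fun p => (h.fin p).imp fun _ h => h.1) h.real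
    obtain ⟨g, hg⟩ := h.real
    have hx0 : x 0 ≠ 0 := fun h => by
      have := (hx.2.2 0 (Fin.last_pos.ne)).2
      rw [h] at this
      exact lt_irrefl _ this
    obtain ⟨k, M, hk⟩ := exists_bd hR.div_rat (skew_unit hx hg).1 (v := v) (hv ▸ hx0)
    rw [hv] at hk
    obtain ⟨g₁, h1⟩ := ih hx.tail (H := M) (c := c * nrd k) ⟨fun p => by
      obtain ⟨g', hg', hn⟩ := h.fin p
      have h2 := hg'.trans (hk.bc _)
      rw [bc_bd] at h2
      obtain ⟨g₀, h3, h4⟩ := cancel_loc _ hx h2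
      refine ⟨g₀, h3, fun hp => ?_⟩
      rw [h4 ((hR.div p).1 hp), nrd_mul, hn hp, nrd_bc, eq_ratCast, Rat.cast_mul, mul_assoc], by
      have h2 := hg.trans (hk.bc _)
      rw [bc_bd] at h2
      exact (cancel_loc _ hx h2).imp fun _ h => h.1⟩
    obtain ⟨k', -, -, hk'⟩ := hk.symm
    rw [diagonal_cons]
    exact ⟨_, (IsIsom.bd isUnit_one (by simp) h1).trans hk'⟩

end Pool.Agent.P.MP_3c2f8c_gt
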