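import Pool.Agent.P.MP_3c2f8c_gt.Qu.Basic
import Pool.Agent.P.MP_3c2f8c_gt.NT.Etale

/-! QU-12: the partner form. -/

namespace Pool.Agent.P.MP_3c2f8c_gt

open Matrix

variable {a b b' : ℤ} [NeZero a] [NeZero b] {T' : Finset Nat.Primes}

namespace PartnerAux

theorem sqp_eq {R : Type} [CommRing R] {c : ℤ} {z : Q a c R} (hz : z.re = 0) :
    sqp z = a * z.imI ^ 2 + c * z.imJ ^ 2 - a * c * z.imK ^ 2 := by
  simp [sqp, hz]
  ring

theorem nm_map {R S : Type} [CommRing R] [CommRing S] (φ : R →+* S) {c : ℤ}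
    (h : IsNm (a : R) (c : R)) : IsNm (a : S) (c : S) := by
  simpa only [map_intCast] using h.map φ

theorem iso_off {K : Type} [Field K] [CharZero K] (hb : b' ≠ 0) (h : IsNm (a : K) (b' : K))
    (d : K) : Iso ![-d, (a : K), (b' : K), -((a : K) * b')] := by
  obtain ⟨s, t, h⟩ := h
  exact AlgAux.iso_iff4.2 ⟨0, b', a * t, s, Or.inr (Or.inl (Int.cast_ne_zero.2 hb)),
    by linear_combination (a * b' : K) * h⟩

theorem iso_on {K : Type} [Field K] [CharZero K] (hb : b' ≠ 0)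
    (h : IsNm (a : K) ((b : K) * b')) {d x y z : K} (hd : d = a * x ^ 2 + b * y ^ 2 - a * b * z ^ 2) :
    Iso ![-d, (a : K), (b' : K), -((a : K) * b')] := by
  obtain ⟨s, t, h⟩ := h
  exact AlgAux.iso_iff4.2 ⟨b', b' * x, s * y + a * t * z, s * z + t * y,
    Or.inl (Int.cast_ne_zero.2 hb),
    by linear_combination (-(b' : K) ^ 2) * hd - (b' * (y ^ 2 - a * z ^ 2) : K) * h⟩

theorem nm_real (ha : 0 < a) (c : ℤ) : IsNm (a : ℝ) (c : ℝ) :=
  isNm_of_isSquare (by exact_mod_cast ha.ne')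
    ⟨√a, (Real.mul_self_sqrt (by exact_mod_cast ha.le)).symm⟩ _

theorem iso_loc (hT : Twist a b b' T') {K : Type} [Field K] [CharZero K] (p : Nat.Primes)
    (χ : ℚ_[p] →+* K) {d x y z : K} (hd : d = a * x ^ 2 + b * y ^ 2 - a * b * z ^ 2) :
    Iso ![-d, (a : K), (b' : K), -((a : K) * b')] := by
  by_cases h : p ∈ T'
  · exact iso_on hT.ne (by simpa only [map_mul, map_intCast] using (hT.on p h).map χ) hd
  · exact iso_off hT.ne (nm_map χ (hT.off p h)) _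

theorem rep_field (ha : 0 < a) (hT : Twist a b b' T') {F : Type} [Field F] [NumberField F]
    {d x y z : F} (hd0 : d ≠ 0) (hd : d = a * x ^ 2 + b * y ^ 2 - a * b * z ^ 2) :
    ∃ u v w : F, d = a * u ^ 2 + b' * v ^ 2 - a * b' * w ^ 2 := by
  have h1 : Iso ![-d, (a : F), (b' : F), -((a : F) * b')] := by
    refine hm4 ⟨fun p hp K _ φ χ => ?_, fun φ => ?_⟩
    · have : CharZero K := (RingHom.charZero_iff φ.injective).1 inferInstance
      simp only [map_neg, map_mul, map_intCast]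
      exact iso_loc hT ⟨p, hp.out⟩ χ (x := φ x) (y := φ y) (z := φ z) (by simp [hd])
    · simp only [map_neg, map_mul, map_intCast]
      exact iso_off hT.ne (nm_real ha _) _
  have ha0 : (a : F) ≠ 0 := Int.cast_ne_zero.2 ha.ne'
  have hb0 : (b' : F) ≠ 0 := Int.cast_ne_zero.2 hT.ne
  obtain ⟨v, hv⟩ := represents_of_iso (a := ![(a : F), (b' : F), -((a : F) * b')])
    (fun i => by fin_cases i <;> simp [ha0, hb0]) hd0 h1
  refine ⟨v 0, v 1, v 2, ?_⟩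
  rw [← hv, Fin.sum_univ_three]
  simp [sub_eq_add_neg]

theorem exists_pure (ha : 0 < a) (hT : Twist a b b' T') {R₀ : Type} [CommRing R₀]
    [Algebra ℚ R₀] [Module.Finite ℚ R₀] [IsReduced R₀] {ζ : Q a b R₀} (hζ : ζ.re = 0)
    (hd : IsUnit (sqp ζ)) : ∃ ζ' : Q a b' R₀, ζ'.re = 0 ∧ sqp ζ' = sqp ζ := by
  have : IsArtinianRing R₀ := IsArtinianRing.of_finite ℚ R₀
  have key : ∀ (L : Type) [Field L] (ψ : R₀ →+* L), Function.Surjective ψ →
      ∃ u v w : L, ψ (sqp ζ) = a * u ^ 2 + b' * v ^ 2 - a * b' * w ^ 2 := by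
    intro L _ ψ hψ
    have : CharZero L :=
      (RingHom.charZero_iff (ψ.comp (algebraMap ℚ R₀)).injective).1 inferInstance
    have : Module.Finite ℚ L := Module.Finite.of_surjective ψ.toRatAlgHom.toLinearMap hψ
    have : NumberField L := {}
    exact rep_field ha hT (hd.map ψ).ne_zero (x := ψ ζ.imI) (y := ψ ζ.imJ) (z := ψ ζ.imK)
      (by simp [sqp_eq hζ])
  have key2 : ∀ m : MaximalSpectrum R₀, ∃ u v w : R₀ ⧸ m.asIdeal,
      Ideal.Quotient.mk m.asIdeal (sqp ζ) = a * u ^ 2 + b' * v ^ 2 - a * b' * w ^ 2 := by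
    intro m
    have := m.isMaximal
    let : Field (R₀ ⧸ m.asIdeal) := Ideal.Quotient.field m.asIdeal
    exact key (R₀ ⧸ m.asIdeal) (Ideal.Quotient.mk m.asIdeal) Ideal.Quotient.mk_surjective
  choose u v w h using key2
  refine ⟨⟨0, (IsArtinianRing.equivPi R₀).symm u, (IsArtinianRing.equivPi R₀).symm v,
    (IsArtinianRing.equivPi R₀).symm w⟩, rfl, ?_⟩
  rw [sqp_eq rfl]
  apply (IsArtinianRing.equivPi R₀).injective
  simp only [map_sub, map_add, map_mul, map_pow, map_intCast, AlgEquiv.apply_symm_apply]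
  funext m
  exact (h m).symm

theorem split_case [NeZero b'] {R₀ R : Type} [CommRing R₀] [CommRing R] [Algebra ℚ R]
    [IsReduced R] [IsArtinianRing R] (ψ : R₀ →+* R) (hn : IsNm (a : R) (b' : R))
    {ζ : Q a b R₀} (hζ : ζ.re = 0) (hd : IsUnit (sqp ζ)) {ζ' η : Q a b' R₀} (h1 : ζ'.re = 0)
    (h2 : sqp ζ' = sqp ζ) (h3 : η.re = 0) (h4 : η * ζ' = -(ζ' * η)) (h5 : IsUnit (sqp η)) :
    ∃ y : Q a b R, y * qmap a b ψ ζ = qmap a b ψ ζ * y ∧ nr y = ψ (sqp η) := by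
  have key : IsNm (ψ (sqp ζ)) (ψ (sqp η)) := by
    refine isNm_of_quot fun L _ χ _ => ?_
    have : CharZero L :=
      (RingHom.charZero_iff (χ.comp (algebraMap ℚ R)).injective).1 inferInstance
    have e1 : χ (ψ (sqp ζ)) = sqp (qmap a b' (χ.comp ψ) ζ') := by rw [sqp_qmap, h2]; rfl
    have e2 : χ (ψ (sqp η)) = sqp (qmap a b' (χ.comp ψ) η) := by rw [sqp_qmap]; rfl
    rw [e1, e2]
    refine (isNm_iff_of_anti ?_ ?_ ?_ ?_ ?_).2 (nm_map χ hn)
    · exact (congrArg (χ.comp ψ) h1).trans (map_zero _)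
    · exact (congrArg (χ.comp ψ) h3).trans (map_zero _)
    · rw [← e1]; exact ((hd.map ψ).map χ).ne_zero
    · rw [← e2]; exact ((h5.map ψ).map χ).ne_zero
    · rw [← map_mul, h4, map_neg, map_mul]
  obtain ⟨s, t, h⟩ := key
  refine ⟨algebraMap R (Q a b R) s + t • qmap a b ψ ζ, ?_, ?_⟩
  · rw [add_mul, mul_add, Algebra.commutes, smul_mul_assoc, mul_smul_comm]
  · rw [nr_add_smul ((congrArg ψ hζ).trans (map_zero _)), sqp_qmap, h]

theorem twist_case {R₀ R : Type} [CommRing R₀] [CommRing R] [Algebra ℚ R]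
    [IsReduced R] [IsArtinianRing R] (ψ : R₀ →+* R) (hn : IsNm (a : R) ((b : R) * b'))
    {ζ : Q a b R₀} (hζ : ζ.re = 0) (hd : IsUnit (sqp ζ)) {ζ' η : Q a b' R₀} (h1 : ζ'.re = 0)
    (h2 : sqp ζ' = sqp ζ) (h3 : η.re = 0) (h4 : η * ζ' = -(ζ' * η)) :
    ∃ y : Q a b R, y * qmap a b ψ ζ = -(qmap a b ψ ζ * y) ∧ nr y = -ψ (sqp η) := by
  obtain ⟨f, hf⟩ := exists_twist_hom hn
  have hs : ∀ z, sqp (f z) = sqp z := fun z => by rw [sqp, ← map_mul, hf, sqp]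
  have p1 : (f (qmap a b' ψ ζ')).re = 0 := (hf _).trans ((congrArg ψ h1).trans (map_zero _))
  have p3 : (f (qmap a b' ψ η)).re = 0 := (hf _).trans ((congrArg ψ h3).trans (map_zero _))
  have p4 : f (qmap a b' ψ η) * f (qmap a b' ψ ζ') = -(f (qmap a b' ψ ζ') * f (qmap a b' ψ η)) := by
    rw [← map_mul, ← map_mul, h4, map_neg, map_neg, map_mul, map_mul]
  obtain ⟨_, ⟨u, rfl⟩, hu⟩ := exists_conj_red (x := qmap a b ψ ζ)
    ((congrArg ψ hζ).trans (map_zero _)) p1 (by rw [hs, sqp_qmap, sqp_qmap, h2])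
    (by rw [sqp_qmap]; exact hd.map ψ)
  have hu' : (↑u⁻¹ : Q a b R) * qmap a b ψ ζ = f (qmap a b' ψ ζ') * ↑u⁻¹ := by
    rw [Units.inv_mul_eq_iff_eq_mul, ← mul_assoc, ← hu, Units.mul_inv_cancel_right]
  refine ⟨u * f (qmap a b' ψ η) * ↑u⁻¹, ?_, ?_⟩
  · rw [mul_assoc, hu', ← mul_assoc, mul_assoc (u : Q a b R), p4, mul_neg, neg_mul, ← mul_assoc,
      ← hu]
    simp only [mul_assoc]
  · have e : nr (u : Q a b R) * nr (↑u⁻¹ : Q a b R) = 1 := by rw [← nr_mul, Units.mul_inv, nr_one]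
    have e2 := sqp_of_pure p3
    rw [hs, sqp_qmap] at e2
    rw [nr_mul, nr_mul, e2]
    linear_combination nr (f (qmap a b' ψ η)) * e

end PartnerAux

open PartnerAux in
theorem exists_partner (ha : 0 < a) (hT : Twist a b b' T') {R₀ : Type} [CommRing R₀]
    [Algebra ℚ R₀] [Module.Finite ℚ R₀] [IsReduced R₀] {ζ : Q a b R₀} (hζ : ζ.re = 0)
    (hd : IsUnit (sqp ζ)) :
    ∃ α : R₀, IsUnit α ∧
      (∀ (p : Nat.Primes) (R : Type) [CommRing R] [Algebra ℚ R] [IsReduced R] [IsArtinianRing R]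
        (ψ : R₀ →+* R), (ℚ_[p] →+* R) → ∃ y : Q a b R,
          y * qmap a b ψ ζ = eps T' p • (qmap a b ψ ζ * y) ∧ nr y = eps T' p * ψ α) ∧
      ∀ (R : Type) [CommRing R] [Algebra ℚ R] [IsReduced R] [IsArtinianRing R] (ψ : R₀ →+* R),
        (ℝ →+* R) → ∃ y : Q a b R,
          y * qmap a b ψ ζ = qmap a b ψ ζ * y ∧ nr y = ψ α := by
  have : IsArtinianRing R₀ := IsArtinianRing.of_finite ℚ R₀
  have : NeZero b' := ⟨hT.ne⟩
  obtain ⟨ζ', h1, h2⟩ := exists_pure ha hT hζ hd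
  obtain ⟨η, h3, h4, h5⟩ := exists_anti_red h1 (h2 ▸ hd)
  refine ⟨sqp η, h5, fun p R _ _ _ _ ψ χ => ?_, fun R _ _ _ _ ψ χ =>
    split_case ψ (nm_map χ (nm_real ha _)) hζ hd h1 h2 h3 h4 h5⟩
  by_cases hp : p ∈ T'
  · obtain ⟨y, hy⟩ := twist_case ψ
      (by simpa only [map_mul, map_intCast] using (hT.on p hp).map χ) hζ hd h1 h2 h3 h4
    exact ⟨y, by simpa [eps, hp] using hy⟩
  · obtain ⟨y, hy⟩ := split_case ψ (nm_map χ (hT.off p hp)) hζ hd h1 h2 h3 h4 h5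
    exact ⟨y, by simpa [eps, hp] using hy⟩

end Pool.Agent.P.MP_3c2f8c_gt
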