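import Pool.Agent.P.MP_3c2f8c_gt.Qu.Model
import Pool.Agent.P.MP_3c2f8c_gt.Qu.Partner
import Pool.Agent.P.MP_3c2f8c_gt.Qu.HP3
import Pool.Agent.P.MP_3c2f8c_gt.Gl.Fin

/-! QU-13: matching of regular elements. -/

namespace Pool.Agent.P.MP_3c2f8c_gt

open Matrix

namespace MatchAux

section General

variable {ι A : Type} [Fintype ι] [DecidableEq ι] [Ring A] [StarRing A]

theorem isom_inv {H M : Matrix ι ι A} {P : (Matrix ι ι A)ˣ} (hP : P.1ᴴ * H * P.1 = M) :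
    (P⁻¹).1ᴴ * M * (P⁻¹).1 = H := by
  rw [← hP]
  calc (P⁻¹).1ᴴ * (P.1ᴴ * H * P.1) * (P⁻¹).1
      = (P.1 * (P⁻¹).1)ᴴ * H * (P.1 * (P⁻¹).1) := by
        simp only [conjTranspose_mul, Matrix.mul_assoc]
    _ = H := by rw [Units.mul_inv, conjTranspose_one, Matrix.one_mul, Matrix.mul_one]

theorem isom_mul {H M N : Matrix ι ι A} {P Q : (Matrix ι ι A)ˣ} (hP : P.1ᴴ * H * P.1 = M)
    (hQ : Q.1ᴴ * M * Q.1 = N) : (P * Q).1ᴴ * H * (P * Q).1 = N := by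
  rw [← hQ, ← hP]
  simp only [Units.val_mul, conjTranspose_mul, Matrix.mul_assoc]

theorem conj_mem_Un {H M : Matrix ι ι A} {P : (Matrix ι ι A)ˣ} (hP : P.1ᴴ * H * P.1 = M)
    (t : (Matrix ι ι A)ˣ) : P * t * P⁻¹ ∈ Un H ↔ t ∈ Un M := by
  constructor
  · intro h
    have h2 := isom_mul (isom_mul (isom_inv hP) h) hP
    rwa [show P⁻¹ * (P * t * P⁻¹) * P = t by group] at h2
  · intro h
    exact isom_mul (isom_mul hP h) (isom_inv hP)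

end General

section Quat

variable {a b : ℤ} {F : Type} [CommRing F]

theorem star_mul_mul {ζ y : Q a b F} {ε : ℤ} (hε : ε * ε = 1) {α : F} (f : F)
    (h1 : y * ζ = ε • (ζ * y)) (h2 : nr y = ε * α) : star y * (f • ζ) * y = (α * f) • ζ := by
  have h3 : ζ * y = ε • (y * ζ) := by rw [h1, smul_smul, hε, one_smul]
  have h4 : (ε : F) * ε = 1 := by exact_mod_cast congrArg (Int.cast : ℤ → F) hε
  rw [mul_smul_comm, smul_mul_assoc, mul_assoc, h3, mul_smul_comm, ← mul_assoc, star_mul_eq_nr,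
    ← Algebra.smul_def, h2, ← Int.cast_smul_eq_zsmul F, smul_smul, smul_smul]
  congr 1
  linear_combination (f * α) * h4

theorem nr_eq_one {ζ t : Q a b F} {f : F} (hf : IsUnit f) (hd : IsUnit (sqp ζ))
    (h1 : t * ζ = ζ * t) (h2 : star t * (f • ζ) * t = f • ζ) : nr t = 1 := by
  rw [star_mul_mul (ε := 1) (α := nr t) rfl f (by rw [one_smul, h1]) (by simp)] at h2
  have h3 := congrArg (fun z : Q a b F => (z * ζ).re) h2
  simp only [smul_mul_assoc, QuaternionAlgebra.re_smul, smul_eq_mul] at h3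
  exact (hf.mul hd).mul_right_cancel (by rw [one_mul, ← mul_assoc]; exact h3)

theorem mul_comm_of {ζ y : Q a b F} (s u : F) (h : y * ζ = ζ * y) :
    y * (algebraMap F (Q a b F) s + u • ζ) = (algebraMap F (Q a b F) s + u • ζ) * y := by
  rw [mul_add, add_mul, mul_smul_comm, smul_mul_assoc, h, Algebra.commutes]

theorem mul_anti_of {ζ y : Q a b F} (hζ : ζ.re = 0) (s u : F) (h : y * ζ = -(ζ * y)) :
    y * (algebraMap F (Q a b F) s + u • ζ) = star (algebraMap F (Q a b F) s + u • ζ) * y := by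
  have e : star (algebraMap F (Q a b F) s + u • ζ) = algebraMap F (Q a b F) s - u • ζ := by
    ext <;> simp [hζ]
  rw [e, mul_add, sub_mul, mul_smul_comm, smul_mul_assoc, h, Algebra.commutes, smul_neg,
    sub_eq_add_neg]

end Quat

section Model

open Polynomial

variable {a b : ℤ} [NeZero a] [NeZero b] {r : ℕ} {C W : Matrix (Fin (r + 1)) (Fin (r + 1)) ℚ}
  {m : ℚ[X]}

/-- Base change of invertible matrices. -/
def bcU (a b : ℤ) (r : ℕ) (E : Type) [Field E] [Algebra ℚ E] :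
    (Matrix (Fin (r + 1)) (Fin (r + 1)) (Q a b ℚ))ˣ →*
      (Matrix (Fin (r + 1)) (Fin (r + 1)) (Q a b E))ˣ :=
  Units.map (qmap a b (ra E)).mapMatrix.toMonoidHom

/-- Invertible quaternions over the commutative algebra as invertible matrices. -/
def jmU (a b : ℤ) (E : Type) [Field E] [Algebra ℚ E] (C : Matrix (Fin (r + 1)) (Fin (r + 1)) ℚ) :
    (Q a b (FF E C))ˣ →* (Matrix (Fin (r + 1)) (Fin (r + 1)) (Q a b E))ˣ :=
  Units.map (jm a b (ffV E C)).toMonoidHom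

/-- The form attached to `ξ`. -/
abbrev frm (W C : Matrix (Fin (r + 1)) (Fin (r + 1)) ℚ) (ξ : Q a b (FF ℚ C)) :
    Matrix (Fin (r + 1)) (Fin (r + 1)) (Q a b ℚ) := cst a b (W.map (ra ℚ)) * jm a b (ffV ℚ C) ξ

variable {E : Type} [Field E] [Algebra ℚ E]

omit [NeZero a] [NeZero b] in
theorem bcU_val (u : (Matrix (Fin (r + 1)) (Fin (r + 1)) (Q a b ℚ))ˣ) :
    (bcU a b r E u).1 = bc (ra E) u.1 := rfl

omit [NeZero a] [NeZero b] in
theorem jmU_val (y : (Q a b (FF E C))ˣ) : (jmU a b E C y).1 = jm a b (ffV E C) y.1 := rfl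

omit [NeZero a] [NeZero b] in
theorem isom_bcU {H M : Matrix (Fin (r + 1)) (Fin (r + 1)) (Q a b ℚ)}
    {P : (Matrix (Fin (r + 1)) (Fin (r + 1)) (Q a b ℚ))ˣ} (hP : P.1ᴴ * H * P.1 = M) :
    (bcU a b r E P).1ᴴ * bc (ra E) H * (bcU a b r E P).1 = bc (ra E) M :=
  (IsIsom.bc (ra E) ⟨P.isUnit, hP⟩).2

theorem isom_jmU (h : Cyc C W m) {ζ : Q a b (FF ℚ C)} {α f : FF ℚ C} {ε : ℤ} (hε : ε * ε = 1)
    {y : (Q a b (FF E C))ˣ}
    (h1 : y.1 * qmap a b (ffM E C) ζ = ε • (qmap a b (ffM E C) ζ * y.1))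
    (h2 : nr y.1 = ε * ffM E C α) :
    (jmU a b E C y).1ᴴ * bc (ra E) (frm W C (f • ζ)) * (jmU a b E C y).1 =
      bc (ra E) (frm W C ((α * f) • ζ)) := by
  rw [jmU_val, bc_model, bc_model, h.isom_jm, qmap_smul, qmap_smul, star_mul_mul hε _ h1 h2,
    map_mul]

theorem mem_Un_frm (h : Cyc C W m) {ζ t : Q a b (FF ℚ C)} (hd : IsUnit (sqp ζ)) {f : FF ℚ C}
    (hf : IsUnit f) {X : (Matrix (Fin (r + 1)) (Fin (r + 1)) (Q a b ℚ))ˣ}
    (hX : jm a b (ffV ℚ C) t = X.1) (ht : t * ζ = ζ * t) :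
    X ∈ Un (frm W C (f • ζ)) ↔ nr t = 1 := by
  show X.1ᴴ * frm W C (f • ζ) * X.1 = frm W C (f • ζ) ↔ _
  rw [← hX, h.isom_jm]
  constructor
  · intro h1
    exact nr_eq_one hf hd ht (h.cst_mul_injective h1)
  · intro h1
    rw [star_mul_mul (ε := 1) (α := 1) rfl f (by rw [one_smul, ht]) (by simp [h1]), one_mul]

omit [NeZero a] [NeZero b] in
theorem jmU_mul {ζ t : Q a b (FF ℚ C)} (hζ : ζ.re = 0) (hd : IsUnit (sqp ζ))
    {X : (Matrix (Fin (r + 1)) (Fin (r + 1)) (Q a b ℚ))ˣ} (hX : jm a b (ffV ℚ C) t = X.1)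
    (ht : t * ζ = ζ * t) (hn : nr t = 1) {ε : ℤ} (hε : ε = 1 ∨ ε = -1) {y : (Q a b (FF E C))ˣ}
    (h1 : y.1 * qmap a b (ffM E C) ζ = ε • (qmap a b (ffM E C) ζ * y.1)) :
    jmU a b E C y * bcU a b r E X = bcU a b r E (X ^ ε) * jmU a b E C y := by
  obtain ⟨s, u, rfl⟩ := comm_pure hζ hd ht
  ext1
  rcases hε with rfl | rfl
  · rw [zpow_one, Units.val_mul, Units.val_mul, bcU_val, jmU_val, ← hX, ← jm_ffM, ← map_mul,
      ← map_mul, map_add, qmap_algebraMap, qmap_smul, mul_comm_of _ _ (by rw [h1, one_smul])]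
  · have e : (X⁻¹).1 = jm a b (ffV ℚ C) (star (algebraMap _ _ s + u • ζ)) := by
      refine Units.inv_eq_of_mul_eq_one_right ?_
      rw [← hX, ← map_mul, mul_star_eq_nr, hn, map_one, map_one]
    rw [_root_.zpow_neg_one, Units.val_mul, Units.val_mul, bcU_val, bcU_val, jmU_val, ← hX, e, ← jm_ffM,
      ← jm_ffM, ← map_mul, ← map_mul, qmap_star, map_add, qmap_algebraMap, qmap_smul,
      mul_anti_of (by simp [qmap, hζ]) _ _ (by rw [h1, neg_one_zsmul])]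

theorem exists_jm (h : Cyc C W m) {ζ : Q a b (FF ℚ C)} (hζ : ζ.re = 0)
    (hd : sqp ζ = ffT ℚ C ^ 2 - 4) {γ P t : (Matrix (Fin (r + 1)) (Fin (r + 1)) (Q a b ℚ))ˣ}
    (hγ : (2 : ℚ) • γ.1 * P.1 = P.1 * jm a b (ffV ℚ C) (algebraMap _ _ (ffT ℚ C) + ζ))
    (ht : t * γ = γ * t) : ∃ t₀, jm a b (ffV ℚ C) t₀ = (P⁻¹ * t * P).1 ∧ t₀ * ζ = ζ * t₀ := by
  refine h.intertwine hζ hζ hd hd ?_
  have e : jm a b (ffV ℚ C) (algebraMap _ _ (ffT ℚ C) + ζ) = (2 : ℚ) • (P⁻¹ * γ * P).1 := by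
    rw [Units.val_mul, Units.val_mul, mul_assoc, ← mul_smul_comm, ← smul_mul_assoc, hγ,
      Units.inv_mul_cancel_left]
  rw [e, mul_smul_comm, smul_mul_assoc, ← Units.val_mul, ← Units.val_mul,
    show P⁻¹ * t * P * (P⁻¹ * γ * P) = P⁻¹ * (t * γ) * P by group, ht,
    show P⁻¹ * γ * P * (P⁻¹ * t * P) = P⁻¹ * (γ * t) * P by group]

omit [NeZero a] [NeZero b] in
theorem nrd_jmU {α : FF ℚ C} {ε : ℤ} (hε : ε = 1 ∨ ε = -1) (hr : Even r) {y : (Q a b (FF E C))ˣ}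
    (h2 : nr y.1 = ε * ffM E C α) : nrd (jmU a b E C y).1 = ε * ra E (ffV ℚ C α).det := by
  rw [jmU_val, nrd_jm, h2, RingHom.map_det, RingHom.mapMatrix_apply, ← ffV_ffM, map_mul,
    map_intCast]
  rcases hε with rfl | rfl
  · simp
  · rw [Int.cast_neg, Int.cast_one, neg_one_mul, det_neg, Fintype.card_fin,
      hr.add_one.neg_one_pow]
    simp

theorem isom_loc (h : Cyc C W m) (hr : Even r) {ζ : Q a b (FF ℚ C)} {α f : FF ℚ C} {ε : ℤ}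
    (hε : ε = 1 ∨ ε = -1) {y : (Q a b (FF E C))ˣ}
    (h1 : y.1 * qmap a b (ffM E C) ζ = ε • (qmap a b (ffM E C) ζ * y.1))
    (h2 : nr y.1 = ε * ffM E C α) {H H' : Matrix (Fin (r + 1)) (Fin (r + 1)) (Q a b ℚ)}
    {P : (Matrix (Fin (r + 1)) (Fin (r + 1)) (Q a b ℚ))ˣ} (hP : P.1ᴴ * H * P.1 = frm W C (f • ζ))
    {φ} (hφ : IsIsom (bc (ra E) H) (bc (ra E) H') φ) (c : ℚ) :
    ∃ g, IsIsom (bc (ra E) H') (bc (ra E) (frm W C ((α * f) • ζ))) g ∧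
      (nrd φ = ε * c → nrd g = (nrd P.1 * (ffV ℚ C α).det / c : ℚ)) := by
  have hε2 : ε * ε = 1 := by rcases hε with rfl | rfl <;> rfl
  obtain ⟨⟨φ, rfl⟩, hφ⟩ := hφ
  refine ⟨(φ⁻¹ * bcU a b r E P * jmU a b E C y).1, ⟨Units.isUnit _,
    isom_mul (isom_mul (isom_inv hφ) (isom_bcU hP)) (isom_jmU h hε2 h1 h2)⟩, fun hc => ?_⟩
  have h3 : nrd (φ⁻¹).1 * nrd φ.1 = 1 := by rw [← nrd_mul, Units.inv_mul, nrd_one]
  have hc0 : (c : E) ≠ 0 := by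
    intro h0
    rw [hc, h0, mul_zero, mul_zero] at h3
    exact zero_ne_one h3
  have : CharZero E := algebraRat.charZero E
  rw [Units.val_mul, Units.val_mul, nrd_mul, nrd_mul, nrd_jmU hε hr h2, bcU_val, nrd_bc,
    Rat.cast_div, Rat.cast_mul, eq_div_iff hc0, eq_ratCast, eq_ratCast]
  rw [hc] at h3
  linear_combination ((nrd P.1 : ℚ) : E) * (((ffV ℚ C α).det : ℚ) : E) * h3

end Model

end MatchAux

open MatchAux

variable {a b b' : ℤ} [NeZero a] [NeZero b] {T T' : Finset Nat.Primes}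

theorem matching (hR : Ram a b T) (hT : Twist a b b' T') {m : ℕ}
    {x x' : Fin (2 * m + 1) → Q a b ℚ} (hx : LorData x) (hx' : LorData x') {c : ℚ}
    (hl : LocIso T T' (diagonal x) (diagonal x') c) (γ : Un (diagonal x))
    (hr : RegP (rchar γ.1.1)) :
    ∃ (Θ : (Matrix (Fin (2 * m + 1)) (Fin (2 * m + 1)) (Q a b ℚ))ˣ)
      (g : ∀ p : Nat.Primes, (Matrix (Fin (2 * m + 1)) (Fin (2 * m + 1)) (Q a b ℚ_[p]))ˣ)
      (g' : (Matrix (Fin (2 * m + 1)) (Fin (2 * m + 1)) (Q a b ℝ))ˣ),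
      (∀ t, t * γ.1 = γ.1 * t → (t ∈ Un (diagonal x) ↔ Θ * t * Θ⁻¹ ∈ Un (diagonal x'))) ∧
      (∀ t t', t * γ.1 = γ.1 * t → t' * γ.1 = γ.1 * t' → t * t' = t' * t) ∧
      (∀ p, (g p).1ᴴ * bc (ra ℚ_[p]) (diagonal x') * (g p).1 = bc (ra ℚ_[p]) (diagonal x)) ∧
      {p | ¬ IntU (g p)}.Finite ∧
      (∀ p : Nat.Primes, ∀ t ∈ Un (diagonal x), t * γ.1 = γ.1 * t →
        bc (ra ℚ_[p]) (Θ * t * Θ⁻¹).1 * (g p).1 = (g p).1 * bc (ra ℚ_[p]) (t ^ eps T' p).1) ∧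
      g'.1ᴴ * bc (ra ℝ) (diagonal x') * g'.1 = bc (ra ℝ) (diagonal x) ∧
      ∀ t ∈ Un (diagonal x), t * γ.1 = γ.1 * t →
        bc (ra ℝ) (Θ * t * Θ⁻¹).1 * g'.1 = g'.1 * bc (ra ℝ) t.1 := by
  obtain ⟨hH, hu⟩ := hx.skew
  obtain ⟨μ, hp0⟩ := exists_pal hu γ (nrd_eq_one_of_div hR.div_rat hH hu γ)
  rw [Fintype.card_fin] at hp0
  obtain ⟨hsep, h2, h2'⟩ := hp0.separable hr
  obtain ⟨C, W, h⟩ := exists_cyc hp0.1 hp0.2.1
  obtain ⟨P, ζ, f, hζ, hd, hf, ⟨⟨P, rfl⟩, hP⟩, hγ⟩ := exists_model hH hu γ hp0 hr h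
  have hdu : IsUnit (sqp ζ) := hd ▸ h.isUnit_disc h2 h2'
  have : Module.Finite ℚ (FF ℚ C) := ff_finite
  have : IsReduced (FF ℚ C) := h.isReduced hsep
  obtain ⟨α, hα, hloc, hre⟩ := exists_partner hR.a_pos hT hζ hdu
  have heps : ∀ p, eps T' p = 1 ∨ eps T' p = -1 := fun p => by
    unfold eps
    split_ifs
    exacts [Or.inr rfl, Or.inl rfl]
  have hfin := integral_norm hζ hdu hα
  have hy : ∀ p : Nat.Primes, ∃ y : (Q a b (FF ℚ_[p] C))ˣ,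
      y.1 * qmap a b (ffM ℚ_[p] C) ζ = eps T' p • (qmap a b (ffM ℚ_[p] C) ζ * y.1) ∧
      nr y.1 = eps T' p * ffM ℚ_[p] C α ∧
      (p ∉ T' → p ∉ hfin.toFinset → IntU (jmU a b ℚ_[p] C y)) := by
    intro p
    by_cases hp : p ∉ T' ∧ p ∉ hfin.toFinset
    · obtain ⟨hp1, hp2⟩ := hp
      rw [Set.Finite.mem_toFinset, Set.mem_ofPred_eq, not_not] at hp2
      obtain ⟨y, y', e1, e2, e3, e4, e5, e6⟩ := hp2
      refine ⟨⟨y, y', e1, e2⟩, ?_, ?_, fun _ _ => ⟨e5, e6⟩⟩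
      · rw [eps, if_neg hp1, one_smul, e3]
      · rw [eps, if_neg hp1, e4, Int.cast_one, one_mul]
    · have : Module.Finite ℚ_[p] (FF ℚ_[p] C) := ff_finite
      have : IsReduced (FF ℚ_[p] C) := h.isReduced hsep
      have : IsArtinianRing (FF ℚ_[p] C) := IsArtinianRing.of_finite ℚ_[p] _
      obtain ⟨y, e1, e2⟩ := hloc p (FF ℚ_[p] C) (ffM ℚ_[p] C) (algebraMap _ _)
      have hyu : IsUnit y := by
        rw [isUnit_iff_nr, e2]
        exact ((Int.isUnit_iff.2 (heps p)).map (Int.castRingHom (FF ℚ_[p] C))).mul (hα.map _)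
      obtain ⟨y, rfl⟩ := hyu
      exact ⟨y, e1, e2, fun h1 h2 => absurd ⟨h1, h2⟩ hp⟩
  have hy' : ∃ y : (Q a b (FF ℝ C))ˣ,
      y.1 * qmap a b (ffM ℝ C) ζ = (1 : ℤ) • (qmap a b (ffM ℝ C) ζ * y.1) ∧
      nr y.1 = (1 : ℤ) * ffM ℝ C α := by
    have : Module.Finite ℝ (FF ℝ C) := ff_finite
    have : IsReduced (FF ℝ C) := h.isReduced hsep
    have : IsArtinianRing (FF ℝ C) := IsArtinianRing.of_finite ℝ _
    obtain ⟨y, e1, e2⟩ := hre (FF ℝ C) (ffM ℝ C) (algebraMap _ _)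
    have hyu : IsUnit y := by
      rw [isUnit_iff_nr, e2]
      exact hα.map _
    obtain ⟨y, rfl⟩ := hyu
    exact ⟨y, by rw [one_smul, e1], by rw [Int.cast_one, one_mul, e2]⟩
  choose y hy1 hy2 hy3 using hy
  obtain ⟨y', hy1', hy2'⟩ := hy'
  have hev : Even (2 * m) := even_two_mul m
  have hL : LocIso T ∅ (diagonal x') (frm W C ((α * f) • ζ))
      (nrd P.1 * (ffV ℚ C α).det / c) := by
    refine ⟨fun p => ?_, ?_⟩
    · obtain ⟨φ, hφ, hn⟩ := hl.fin p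
      obtain ⟨g, hg, hg'⟩ := isom_loc h hev (heps p) (hy1 p) (hy2 p) hP hφ c
      refine ⟨g, hg, fun hp => ?_⟩
      rw [hg' (hn hp), eps, if_neg (Finset.notMem_empty p), Int.cast_one, one_mul]
    · obtain ⟨φ, hφ⟩ := hl.real
      obtain ⟨g, hg, -⟩ := isom_loc h hev (Or.inl rfl) hy1' hy2' hP hφ c
      exact ⟨g, hg⟩
  obtain ⟨ψ, ⟨ψ, rfl⟩, hψ⟩ := hp hR hx' hL
  have key : ∀ t, t * γ.1 = γ.1 * t → ∃ t₀, jm a b (ffV ℚ C) t₀ = (P⁻¹ * t * P).1 ∧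
      t₀ * ζ = ζ * t₀ ∧ (t ∈ Un (diagonal x) ↔ nr t₀ = 1) := by
    intro t ht
    obtain ⟨t₀, e1, e2⟩ := exists_jm h hζ hd hγ ht
    refine ⟨t₀, e1, e2, ?_⟩
    rw [← mem_Un_frm h hdu hf e1 e2, ← conj_mem_Un hP,
      show P * (P⁻¹ * t * P) * P⁻¹ = t by group]
  have hiso : ∀ (E : Type) [Field E] [Algebra ℚ E] (ε : ℤ), ε = 1 ∨ ε = -1 →
      ∀ z : (Q a b (FF E C))ˣ,
      z.1 * qmap a b (ffM E C) ζ = ε • (qmap a b (ffM E C) ζ * z.1) → nr z.1 = ε * ffM E C α →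
      ((bcU a b _ E ψ * (jmU a b E C z)⁻¹ * (bcU a b _ E P)⁻¹).1ᴴ * bc (ra E) (diagonal x') *
        (bcU a b _ E ψ * (jmU a b E C z)⁻¹ * (bcU a b _ E P)⁻¹).1 = bc (ra E) (diagonal x)) ∧
      ∀ t ∈ Un (diagonal x), t * γ.1 = γ.1 * t →
        bc (ra E) (ψ * P⁻¹ * t * (ψ * P⁻¹)⁻¹).1 *
          (bcU a b _ E ψ * (jmU a b E C z)⁻¹ * (bcU a b _ E P)⁻¹).1 =
        (bcU a b _ E ψ * (jmU a b E C z)⁻¹ * (bcU a b _ E P)⁻¹).1 * bc (ra E) (t ^ ε).1 := by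
    intro E _ _ ε hε z e1 e2
    have hε2 : ε * ε = 1 := by rcases hε with rfl | rfl <;> rfl
    refine ⟨isom_mul (isom_mul (isom_bcU hψ) (isom_inv (isom_jmU h hε2 e1 e2)))
      (isom_inv (isom_bcU hP)), fun t ht hc => ?_⟩
    obtain ⟨t₀, e3, e4, e5⟩ := key t hc
    have e6 := jmU_mul hζ hdu e3 e4 (e5.1 ht) hε e1
    rw [show P⁻¹ * t * P = P⁻¹ * t * P⁻¹⁻¹ by rw [inv_inv], conj_zpow, inv_inv] at e6
    simp only [map_mul, map_inv] at e6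
    rw [← bcU_val, ← bcU_val, ← Units.val_mul, ← Units.val_mul]
    congr 1
    simp only [map_mul, map_inv]
    calc _ = bcU a b _ E ψ * (jmU a b E C z)⁻¹ * (jmU a b E C z *
          ((bcU a b _ E P)⁻¹ * bcU a b _ E t * bcU a b _ E P)) * (jmU a b E C z)⁻¹ *
          (bcU a b _ E P)⁻¹ := by group
      _ = _ := by rw [e6]; group
  refine ⟨ψ * P⁻¹, fun p => bcU a b _ ℚ_[p] ψ * (jmU a b ℚ_[p] C (y p))⁻¹ * (bcU a b _ ℚ_[p] P)⁻¹,
    bcU a b _ ℝ ψ * (jmU a b ℝ C y')⁻¹ * (bcU a b _ ℝ P)⁻¹, fun t ht => ?_, fun t t' ht ht' => ?_,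
    fun p => (hiso _ _ (heps p) _ (hy1 p) (hy2 p)).1, ?_,
    fun p => (hiso _ _ (heps p) _ (hy1 p) (hy2 p)).2, (hiso _ _ (Or.inl rfl) _ hy1' hy2').1,
    fun t ht hc => ?_⟩
  · obtain ⟨t₀, e1, e2, e3⟩ := key t ht
    rw [e3, show ψ * P⁻¹ * t * (ψ * P⁻¹)⁻¹ = ψ * (P⁻¹ * t * P) * ψ⁻¹ by group, conj_mem_Un hψ,
      mem_Un_frm h hdu (hα.mul hf) e1 e2]
  · obtain ⟨t₀, e1, e2, -⟩ := key t ht
    obtain ⟨t₁, e3, e4, -⟩ := key t' ht'
    obtain ⟨s, u, rfl⟩ := comm_pure hζ hdu e4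
    have e5 : P⁻¹ * t * P * (P⁻¹ * t' * P) = P⁻¹ * t' * P * (P⁻¹ * t * P) := by
      ext1
      rw [Units.val_mul, Units.val_mul (P⁻¹ * t' * P), ← e1, ← e3, ← map_mul, ← map_mul,
        mul_comm_of s u e2]
    calc t * t' = P * (P⁻¹ * t * P * (P⁻¹ * t' * P)) * P⁻¹ := by group
      _ = t' * t := by rw [e5]; group
  · refine (((((T'.finite_toSet.union hfin.toFinset.finite_toSet).union (finite_not_intM ψ.1)).union
      (finite_not_intM (ψ⁻¹).1)).union (finite_not_intM P.1)).union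
      (finite_not_intM (P⁻¹).1)).subset fun p hp => ?_
    by_contra hc
    simp only [Set.mem_union, Set.mem_ofPred_eq, not_or, not_not, Finset.mem_coe] at hc
    obtain ⟨⟨⟨⟨⟨c1, c2⟩, c3⟩, c4⟩, c5⟩, c6⟩ := hc
    obtain ⟨d1, d2⟩ := hy3 p c1 c2
    refine hp ⟨(c3.mul d2).mul c6, ?_⟩
    rw [_root_.mul_inv_rev, _root_.mul_inv_rev, inv_inv, inv_inv]
    exact c5.mul (d1.mul c4)
  · simpa only [zpow_one] using (hiso _ _ (Or.inl rfl) _ hy1' hy2').2 t ht hc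

end Pool.Agent.P.MP_3c2f8c_gt
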