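import Pool.Agent.P.MP_3c2f8c_gt.Qu.Basic

/-! QU-2: base change and the reduced norm of matrices. -/

namespace Pool.Agent.P.MP_3c2f8c_gt

open Matrix Polynomial

set_option linter.unusedSectionVars false
set_option linter.unusedVariables false

variable {a b : ℤ} {R S : Type} [CommRing R] [CommRing S] {E : Type} [Field E] [CharZero E]
  {ι κ μ : Type} [Fintype ι] [DecidableEq ι] [Fintype κ] [DecidableEq κ]

namespace NrdAux

theorem mor_apply (f : Q a b R →+* Matrix (Fin 2) (Fin 2) S) {ν : Type}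
    (g : Matrix μ ν (Q a b R)) (i : μ) (k : Fin 2) (j : ν) (l : Fin 2) :
    mor f g (i, k) (j, l) = f (g i j) k l := rfl

/-- Change of the base ring for `R[√a]`. -/
def qa (a : ℤ) (φ : R →+* S) :
    QuadraticAlgebra R (a : R) 0 →+* QuadraticAlgebra S (a : S) 0 where
  toFun z := ⟨φ z.re, φ z.im⟩
  map_one' := by ext <;> simp [QuadraticAlgebra.re_one, QuadraticAlgebra.im_one]
  map_mul' x y := by ext <;> simp
  map_zero' := by ext <;> simp
  map_add' x y := by ext <;> simp

/-- The block diagonal matrix with given blocks. -/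
def blk (d : ι → Matrix (Fin 2) (Fin 2) S) : Matrix (ι × Fin 2) (ι × Fin 2) S :=
  Matrix.comp ι ι (Fin 2) (Fin 2) S (diagonal d)

theorem det_blk (d : ι → Matrix (Fin 2) (Fin 2) S) : (blk d).det = ∏ i, (d i).det := by
  rw [← Matrix.det_blockDiagonal, ← Matrix.det_submatrix_equiv_self (Equiv.prodComm (Fin 2) ι)]
  congr 1
  ext ⟨k, i⟩ ⟨l, j⟩
  by_cases h : i = j
  · subst h
    simp [blk, Matrix.blockDiagonal_apply]
  · simp [blk, Matrix.blockDiagonal_apply, h]

theorem blk_mul (d : ι → Matrix (Fin 2) (Fin 2) S) {ν : Type}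
    (M : Matrix ι ν (Matrix (Fin 2) (Fin 2) S)) :
    blk d * Matrix.comp ι ν (Fin 2) (Fin 2) S M =
      Matrix.comp ι ν (Fin 2) (Fin 2) S (Matrix.of fun i j => d i * M i j) := by
  ext ⟨i, k⟩ ⟨j, l⟩
  simp only [blk, Matrix.mul_apply, Fintype.sum_prod_type, Matrix.comp_apply, Matrix.of_apply]
  rw [Finset.sum_eq_single i]
  · simp
  · intro i' _ hi
    simp [Matrix.diagonal_apply_ne' _ hi]
  · simp

theorem mul_blk (d : ι → Matrix (Fin 2) (Fin 2) S) {ν : Type}
    (M : Matrix ν ι (Matrix (Fin 2) (Fin 2) S)) :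
    Matrix.comp ν ι (Fin 2) (Fin 2) S M * blk d =
      Matrix.comp ν ι (Fin 2) (Fin 2) S (Matrix.of fun i j => M i j * d j) := by
  ext ⟨i, k⟩ ⟨j, l⟩
  simp only [blk, Matrix.mul_apply, Fintype.sum_prod_type, Matrix.comp_apply, Matrix.of_apply]
  rw [Finset.sum_eq_single j]
  · simp
  · intro j' _ hj
    simp [Matrix.diagonal_apply_ne _ hj]
  · simp

theorem det_stdEmb (z : Q a b R) :
    (stdEmb a b R z).det = algebraMap R _ (nr z) := by
  rw [Matrix.det_fin_two]
  ext
  · rw [QuadraticAlgebra.algebraMap_re]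
    simp [stdEmb, nr]
    ring
  · rw [QuadraticAlgebra.algebraMap_im]
    simp [stdEmb]
    ring

/-- A determinant identity from a blockwise intertwining relation. -/
theorem det_eq_of_intertwine {D : Matrix (Fin 2) (Fin 2) S} (hD : IsUnit D.det)
    (M N : Matrix ι ι (Matrix (Fin 2) (Fin 2) S)) (h : ∀ i j, D * M i j = N i j * D) :
    (Matrix.comp ι ι (Fin 2) (Fin 2) S M).det = (Matrix.comp ι ι (Fin 2) (Fin 2) S N).det := by
  have h1 : blk (fun _ : ι => D) * Matrix.comp ι ι (Fin 2) (Fin 2) S M =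
      Matrix.comp ι ι (Fin 2) (Fin 2) S N * blk (fun _ : ι => D) := by
    rw [blk_mul, mul_blk]
    congr 1
    ext i j : 1
    exact h i j
  have h2 := congrArg Matrix.det h1
  rw [Matrix.det_mul, Matrix.det_mul, mul_comm] at h2
  have hu : IsUnit (blk (fun _ : ι => D)).det := by
    rw [det_blk, Finset.prod_const]
    exact hD.pow _
  exact hu.mul_right_cancel h2

theorem bd_mul {A : Type} [Ring A] {r : ℕ} (x y : A) (M N : Matrix (Fin r) (Fin r) A) :
    bd x M * bd y N = bd (x * y) (M * N) := by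
  ext i j
  refine Fin.cases ?_ (fun i => ?_) i <;> refine Fin.cases ?_ (fun j => ?_) j <;>
    simp [bd, Matrix.mul_apply, Fin.sum_univ_succ]

theorem bd_one {A : Type} [Ring A] {r : ℕ} :
    bd (1 : A) (1 : Matrix (Fin r) (Fin r) A) = 1 := by
  ext i j
  refine Fin.cases ?_ (fun i => ?_) i <;> refine Fin.cases ?_ (fun j => ?_) j <;>
    simp [bd, Matrix.one_apply, Fin.succ_ne_zero, (Fin.succ_ne_zero _).symm]

theorem bd_conjTranspose {A : Type} [Ring A] [StarRing A] {r : ℕ} (x : A)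
    (M : Matrix (Fin r) (Fin r) A) : (bd x M)ᴴ = bd (star x) Mᴴ := by
  ext i j
  refine Fin.cases ?_ (fun i => ?_) i <;> refine Fin.cases ?_ (fun j => ?_) j <;>
    simp [bd, Matrix.conjTranspose_apply]

/-- A ring hom into matrices extends to `R[√a]`. -/
def lq (a : ℤ) {F : Type} [CommRing F] (l : F →+* Matrix ι ι R) :
    QuadraticAlgebra F (a : F) 0 →+* Matrix ι ι (QuadraticAlgebra R (a : R) 0) where
  toFun z := Matrix.of fun i j => ⟨l z.re i j, l z.im i j⟩
  map_one' := by
    ext i j <;> by_cases h : i = j <;>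
      simp [h, Matrix.one_apply, QuadraticAlgebra.re_one, QuadraticAlgebra.im_one]
  map_mul' x y := by
    have hs : ∀ (f : ι → QuadraticAlgebra R (a : R) 0), (∑ j, f j).re = ∑ j, (f j).re ∧
        (∑ j, f j).im = ∑ j, (f j).im := fun f =>
      ⟨map_sum (QuadraticAlgebra.reₗ (a := (a : R)) (b := 0)) f _,
        map_sum (QuadraticAlgebra.imₗ (a := (a : R)) (b := 0)) f _⟩
    have hc : ∀ (u v : F) (i k : ι), l (a * u * v) i k = ∑ j, a * l u i j * l v j k := by
      intro u v i k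
      rw [mul_assoc, ← zsmul_eq_mul, map_zsmul, map_mul, Matrix.smul_apply, Matrix.mul_apply,
        Finset.smul_sum]
      exact Finset.sum_congr rfl fun j _ => by rw [zsmul_eq_mul, mul_assoc]
    have h1 : ∀ (u v : F) (i k : ι), l (u * v) i k = ∑ j, l u i j * l v j k := by
      intro u v i k
      rw [map_mul, Matrix.mul_apply]
    ext i k <;>
      simp only [Matrix.mul_apply, (hs _).1, (hs _).2, of_apply, QuadraticAlgebra.re_mul,
        QuadraticAlgebra.im_mul, zero_mul, add_zero, map_add, Matrix.add_apply, hc, h1,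
        Finset.sum_add_distrib]
  map_zero' := by ext i k <;> simp
  map_add' x y := by ext i k <;> simp

theorem stdEmb_injective : Function.Injective (stdEmb a b R) := by
  intro x y h
  have h0 := congrFun (congrFun h 0) 0
  have h1 := congrFun (congrFun h 0) 1
  simp only [stdEmb, RingHom.coe_mk, MonoidHom.coe_mk, OneHom.coe_mk, of_apply, cons_val',
    cons_val_zero, cons_val_one, cons_val_fin_one, QuadraticAlgebra.mk.injEq] at h0 h1
  ext
  exacts [h0.1, h0.2, h1.1, h1.2]

theorem mor_injective {ν : Type} :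
    Function.Injective (mor (stdEmb a b R) : Matrix μ ν (Q a b R) → _) := by
  intro g h hgh
  ext i j : 1
  apply stdEmb_injective
  ext k l : 1
  exact congrFun (congrFun hgh (i, k)) (j, l)

theorem isUnit_intCast [Algebra ℚ R] {c : ℤ} (hc : c ≠ 0) : IsUnit (c : R) := by
  have h : IsUnit (c : ℚ) := isUnit_iff_ne_zero.2 (by exact_mod_cast hc)
  simpa using h.map (algebraMap ℚ R)

end NrdAux

open NrdAux

theorem mor_mul (f : Q a b R →+* Matrix (Fin 2) (Fin 2) S) (g : Matrix μ ι (Q a b R))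
    {ν : Type} (h : Matrix ι ν (Q a b R)) : mor f (g * h) = mor f g * mor f h := by
  ext ⟨i, k⟩ ⟨j, l⟩
  simp only [mor_apply, Matrix.mul_apply, Fintype.sum_prod_type, map_sum, map_mul,
    Matrix.sum_apply]

theorem mor_one (f : Q a b R →+* Matrix (Fin 2) (Fin 2) S) :
    mor f (1 : Matrix ι ι (Q a b R)) = 1 := by
  rw [mor, Matrix.map_one _ (map_zero f) (map_one f), Matrix.comp_one]

theorem mor_add (f : Q a b R →+* Matrix (Fin 2) (Fin 2) S) {ν : Type}
    (g h : Matrix μ ν (Q a b R)) : mor f (g + h) = mor f g + mor f h := by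
  ext ⟨i, k⟩ ⟨j, l⟩
  simp [mor_apply]

theorem mor_sub (f : Q a b R →+* Matrix (Fin 2) (Fin 2) S) {ν : Type}
    (g h : Matrix μ ν (Q a b R)) : mor f (g - h) = mor f g - mor f h := by
  ext ⟨i, k⟩ ⟨j, l⟩
  simp [mor_apply]

theorem bc_conjTranspose (φ : R →+* S) {ν : Type} (g : Matrix μ ν (Q a b R)) :
    bc φ gᴴ = (bc φ g)ᴴ :=
  conjTranspose_map (qmap a b φ) (qmap_star φ)

theorem bc_diagonal (φ : R →+* S) (x : ι → Q a b R) :
    bc φ (diagonal x) = diagonal fun i => qmap a b φ (x i) :=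
  Matrix.diagonal_map (map_zero _)

theorem bc_bc {T : Type} [CommRing T] (φ : R →+* S) (ψ : S →+* T) {ν : Type}
    (g : Matrix μ ν (Q a b R)) : bc ψ (bc φ g) = bc (ψ.comp φ) g := by
  ext i j : 1
  exact qmap_qmap φ ψ _

theorem bc_injective {φ : R →+* S} (hφ : Function.Injective φ) {ν : Type} :
    Function.Injective (bc φ : Matrix μ ν (Q a b R) → Matrix μ ν (Q a b S)) :=
  Matrix.map_injective (qmap_injective hφ)

theorem bc_smul (φ : R →+* S) (c : R) {ν : Type} (g : Matrix μ ν (Q a b R)) :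
    bc φ (c • g) = φ c • bc φ g := by
  ext i j : 1
  exact qmap_smul φ c _

theorem IsIsom.bc (φ : R →+* S) {H H' g : Matrix ι ι (Q a b R)} (h : IsIsom H H' g) :
    IsIsom (bc φ H) (bc φ H') (bc φ g) := by
  refine ⟨h.1.map (qmap a b φ).mapMatrix, ?_⟩
  rw [← bc_conjTranspose, ← Matrix.map_mul, ← Matrix.map_mul, h.2]

theorem IsIsom.trans {A : Type} [Ring A] [StarRing A] {H H' H'' g g' : Matrix ι ι A}
    (h : IsIsom H H' g) (h' : IsIsom H' H'' g') : IsIsom H H'' (g * g') := by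
  refine ⟨h.1.mul h'.1, ?_⟩
  rw [← h'.2, ← h.2]
  simp only [conjTranspose_mul, Matrix.mul_assoc]

theorem IsIsom.symm {A : Type} [Ring A] [StarRing A] {H H' g : Matrix ι ι A}
    (h : IsIsom H H' g) : ∃ g', g * g' = 1 ∧ g' * g = 1 ∧ IsIsom H' H g' := by
  obtain ⟨⟨u, rfl⟩, h2⟩ := h
  refine ⟨(u⁻¹).1, u.mul_inv, u.inv_mul, (u⁻¹).isUnit, ?_⟩
  rw [← h2]
  calc (u⁻¹).1ᴴ * (u.1ᴴ * H * u.1) * (u⁻¹).1
      = (u.1 * (u⁻¹).1)ᴴ * H * (u.1 * (u⁻¹).1) := by
        simp only [conjTranspose_mul, Matrix.mul_assoc]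
    _ = H := by rw [u.mul_inv]; simp

theorem hf_bc (φ : R →+* S) (H : Matrix ι ι (Q a b R)) (u v : ι → Q a b R) :
    hf (bc φ H) (fun i => qmap a b φ (u i)) (fun i => qmap a b φ (v i)) =
      qmap a b φ (hf H u v) := by
  simp only [hf, dotProduct, Matrix.mulVec, Pi.star_apply, Matrix.map_apply, map_sum, map_mul,
    qmap_star]

theorem hf_mulVec {A : Type} [Ring A] [StarRing A] (H : Matrix ι ι A) (g : Matrix ι κ A)
    (u v : κ → A) : hf H (g *ᵥ u) (g *ᵥ v) = hf (gᴴ * H * g) u v := by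
  simp only [hf, star_mulVec, ← mulVec_mulVec, dotProduct_mulVec, vecMul_vecMul]

theorem nrd_bc (φ : R →+* S) (g : Matrix ι ι (Q a b R)) : nrd (bc φ g) = φ (nrd g) := by
  have h : mor (stdEmb a b S) (bc φ g) = (qa a φ).mapMatrix (mor (stdEmb a b R) g) := by
    ext ⟨i, k⟩ ⟨j, l⟩ <;> fin_cases k <;> fin_cases l <;>
      simp [mor_apply, stdEmb, qa, qmap]
  rw [nrd, h, ← RingHom.map_det]
  rfl

theorem nrd_one : nrd (1 : Matrix ι ι (Q a b R)) = 1 := by
  rw [nrd, mor_one, Matrix.det_one]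
  rfl

theorem nrd_diagonal (x : ι → Q a b R) : nrd (diagonal x) = ∏ i, nr (x i) := by
  have h : mor (stdEmb a b R) (diagonal x) = blk fun i => stdEmb a b R (x i) := by
    rw [mor, Matrix.diagonal_map (map_zero _)]
    rfl
  rw [nrd, h, det_blk]
  simp only [det_stdEmb]
  rw [← map_prod]
  rfl

theorem nrd_bd {r : ℕ} (x : Q a b R) [Algebra ℚ R] [NeZero b]
    (M : Matrix (Fin r) (Fin r) (Q a b R)) : nrd (bd x M) = nr x * nrd M := by
  let e : Fin (r + 1) × Fin 2 ≃ Fin 2 ⊕ Fin r × Fin 2 :=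
    ((finSuccEquiv r).prodCongr (Equiv.refl _)).trans optionProdEquiv
  have h : (mor (stdEmb a b R) (bd x M)).submatrix e.symm e.symm =
      Matrix.fromBlocks (stdEmb a b R x) 0 0 (mor (stdEmb a b R) M) := by
    ext i j : 1
    rcases i with k | ⟨i, k⟩ <;> rcases j with l | ⟨j, l⟩ <;>
      simp [e, mor_apply, bd]
  rw [nrd, ← Matrix.det_submatrix_equiv_self e.symm, h, Matrix.det_fromBlocks_zero₂₁, det_stdEmb,
    nrd]
  simp

theorem nrd_jm {F : Type} [CommRing F] (l : F →+* Matrix ι ι R) (y : Q a b F) :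
    nrd (jm a b l y) = (l (nr y)).det := by
  have h : (mor (stdEmb a b R) (jm a b l y)).submatrix (Equiv.prodComm (Fin 2) ι)
      (Equiv.prodComm (Fin 2) ι) =
      Matrix.comp _ _ _ _ _ ((stdEmb a b F y).map (lq a l)) := by
    have hb : ∀ (u : F) (i j : ι), l (b * u) i j = b * l u i j := by
      intro u i j
      rw [← zsmul_eq_mul, map_zsmul, Matrix.smul_apply, zsmul_eq_mul]
    ext ⟨k, i⟩ ⟨m, j⟩ <;> fin_cases k <;> fin_cases m <;>
      simp [mor_apply, stdEmb, jm, lq, hb, -map_mul]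
  have h2 : lq a l (algebraMap F _ (nr y)) =
      (algebraMap R (QuadraticAlgebra R (a : R) 0)).mapMatrix (l (nr y)) := by
    ext i j <;> simp [lq]
  rw [nrd, ← Matrix.det_submatrix_equiv_self (Equiv.prodComm (Fin 2) ι), h, ← Matrix.det_det,
    det_stdEmb, h2, ← RingHom.map_det]
  rfl

theorem diagonal_cons {A : Type} [Zero A] {r : ℕ} (x : Fin (r + 1) → A) :
    diagonal x = bd (x 0) (diagonal fun i => x i.succ) := by
  ext i j
  refine Fin.cases ?_ (fun i => ?_) i <;> refine Fin.cases ?_ (fun j => ?_) j <;>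
    simp [bd, Matrix.diagonal_apply, Fin.succ_ne_zero, (Fin.succ_ne_zero _).symm]

theorem bc_bd (φ : R →+* S) {r : ℕ} (x : Q a b R) (M : Matrix (Fin r) (Fin r) (Q a b R)) :
    bc φ (bd x M) = bd (qmap a b φ x) (bc φ M) := by
  ext i j : 1
  refine Fin.cases ?_ (fun i => ?_) i <;> refine Fin.cases ?_ (fun j => ?_) j <;>
    simp [bd]

theorem IsIsom.bd {A : Type} [Ring A] [StarRing A] {r : ℕ} {x x' u : A} (hu : IsUnit u)
    (hx : star u * x * u = x') {M M' g : Matrix (Fin r) (Fin r) A} (h : IsIsom M M' g) :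
    IsIsom (bd x M) (bd x' M') (bd u g) := by
  obtain ⟨u, rfl⟩ := hu
  obtain ⟨⟨g, rfl⟩, h2⟩ := h
  refine ⟨⟨⟨MP_3c2f8c_gt.bd u.1 g.1, MP_3c2f8c_gt.bd (u⁻¹).1 (g⁻¹).1, ?_, ?_⟩, rfl⟩, ?_⟩
  · rw [bd_mul, u.mul_inv, g.mul_inv, bd_one]
  · rw [bd_mul, u.inv_mul, g.inv_mul, bd_one]
  · rw [bd_conjTranspose, bd_mul, bd_mul, hx, h2]

variable [NeZero a] [NeZero b] [Algebra ℚ R]

theorem det_mor_std (g : Matrix ι ι (Q a b R)) :
    (mor (stdEmb a b R) g).det = algebraMap R _ (nrd g) := by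
  have hb : IsUnit (b : R) := isUnit_intCast (NeZero.ne b)
  have h2 : IsUnit ((2 : ℤ) : R) := isUnit_intCast (by norm_num)
  let D : Matrix (Fin 2) (Fin 2) (QuadraticAlgebra R (a : R) 0) :=
    !![0, 1; algebraMap R _ (b : R), 0]
  have hD : IsUnit D.det := by
    have : D.det = algebraMap R _ (-(b : R)) := by simp [D, Matrix.det_fin_two]
    rw [this]
    exact hb.neg.map _
  have h := det_eq_of_intertwine hD (g.map fun z => (stdEmb a b R z).map (starRingEnd _))
    (g.map (stdEmb a b R)) (fun i j => by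
      ext k l <;> fin_cases k <;> fin_cases l <;>
        simp [D, stdEmb, Matrix.mul_apply, Fin.sum_univ_two, starRingEnd_apply] <;> ring)
  have h3 : Matrix.comp ι ι (Fin 2) (Fin 2) _
      (g.map fun z => (stdEmb a b R z).map (starRingEnd _)) =
      (starRingEnd _).mapMatrix (mor (stdEmb a b R) g) := rfl
  rw [h3, ← RingHom.map_det] at h
  have h4 := congrArg QuadraticAlgebra.im h
  rw [starRingEnd_apply, QuadraticAlgebra.im_star] at h4
  ext
  · rfl
  · rw [QuadraticAlgebra.algebraMap_im]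
    apply h2.mul_left_cancel
    change _ = (mor (stdEmb a b R) g).det.im at h4
    push_cast
    linear_combination -h4

theorem nrd_mul (g h : Matrix ι ι (Q a b R)) : nrd (g * h) = nrd g * nrd h := by
  apply QuadraticAlgebra.algebraMap_injective (a := (a : R)) (b := 0)
  rw [map_mul, ← det_mor_std, ← det_mor_std, ← det_mor_std, mor_mul, Matrix.det_mul]

theorem nrd_conjTranspose (g : Matrix ι ι (Q a b R)) : nrd gᴴ = nrd g := by
  let J : Matrix (Fin 2) (Fin 2) (QuadraticAlgebra R (a : R) 0) := !![0, 1; -1, 0]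
  have hJ : IsUnit J.det := by
    have : J.det = 1 := by simp [J, Matrix.det_fin_two]
    rw [this]
    exact isUnit_one
  have h := det_eq_of_intertwine hJ (gᴴ.map (stdEmb a b R))
    (gᵀ.map fun z => (stdEmb a b R z)ᵀ) (fun i j => by
      ext k l <;> fin_cases k <;> fin_cases l <;>
        simp [J, stdEmb, Matrix.mul_apply, Fin.sum_univ_two, Matrix.conjTranspose_apply])
  have h3 : Matrix.comp ι ι (Fin 2) (Fin 2) _ (gᵀ.map fun z => (stdEmb a b R z)ᵀ) =
      (mor (stdEmb a b R) g)ᵀ := rfl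
  rw [h3, Matrix.det_transpose] at h
  rw [nrd, nrd, ← h, mor]

theorem nrd_smul (c : R) (g : Matrix ι ι (Q a b R)) :
    nrd (c • g) = c ^ (2 * Fintype.card ι) * nrd g := by
  have h : mor (stdEmb a b R) (c • g) =
      algebraMap R (QuadraticAlgebra R (a : R) 0) c • mor (stdEmb a b R) g := by
    ext ⟨i, k⟩ ⟨j, l⟩ <;> fin_cases k <;> fin_cases l <;>
      simp [mor_apply, stdEmb] <;> ring
  rw [nrd, h, Matrix.det_smul, ← map_pow, Fintype.card_prod, Fintype.card_fin, mul_comm _ 2, nrd]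
  simp [-map_pow]

theorem nrd_eq_det {s t : R} (h : (b : R) = s ^ 2 - a * t ^ 2) (g : Matrix ι ι (Q a b R)) :
    nrd g = (mor (spEmb a b h) g).det := by
  have ha : IsUnit (a : R) := isUnit_intCast (NeZero.ne a)
  have hb : IsUnit (b : R) := isUnit_intCast (NeZero.ne b)
  have h2 : IsUnit ((2 : ℤ) : R) := isUnit_intCast (by norm_num)
  let M : Matrix (Fin 2) (Fin 2) (QuadraticAlgebra R (a : R) 0) :=
    !![1, ⟨0, 1⟩; ⟨s, t⟩, ⟨-(a * t), -s⟩]
  have hM : IsUnit M.det := by
    rw [QuadraticAlgebra.isUnit_iff_norm_isUnit]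
    have : QuadraticAlgebra.norm M.det = -((2 : ℤ) * (2 : ℤ) * a * b : R) := by
      simp [M, Matrix.det_fin_two, QuadraticAlgebra.norm_def]
      linear_combination (4 * a : R) * h
    rw [this]
    exact (((h2.mul h2).mul ha).mul hb).neg
  have h1 := det_eq_of_intertwine hM
    (g.map fun z => (spEmb a b h z).map (algebraMap R (QuadraticAlgebra R (a : R) 0)))
    (g.map (stdEmb a b R)) (fun i j => by
      ext k l <;> fin_cases k <;> fin_cases l <;>
        simp [M, stdEmb, spEmb, Matrix.mul_apply, Fin.sum_univ_two]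
      · ring
      · ring
      · linear_combination (-(g i j).imJ) * h
      · linear_combination (a * (g i j).imK) * h
      · ring
      · ring
      · linear_combination ((g i j).imK) * h
      · linear_combination (-(g i j).imJ) * h)
  have h3 : Matrix.comp ι ι (Fin 2) (Fin 2) _
      (g.map fun z => (spEmb a b h z).map (algebraMap R (QuadraticAlgebra R (a : R) 0))) =
      (algebraMap R (QuadraticAlgebra R (a : R) 0)).mapMatrix (mor (spEmb a b h) g) := rfl
  rw [h3, ← RingHom.map_det] at h1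
  rw [nrd, mor, ← h1]
  rfl

theorem isUnit_iff_nrd (g : Matrix ι ι (Q a b E)) : IsUnit g ↔ nrd g ≠ 0 := by
  constructor
  · rintro ⟨u, rfl⟩ h0
    have := nrd_mul u.1 (u⁻¹).1
    rw [u.mul_inv, nrd_one, h0, zero_mul] at this
    exact one_ne_zero this
  · intro h
    have hu : IsUnit (mor (stdEmb a b E) g) := by
      rw [Matrix.isUnit_iff_isUnit_det, det_mor_std]
      exact (isUnit_iff_ne_zero.2 h).map _
    have hinj : Function.Injective (LinearMap.mulLeft E g) := by
      intro X Y hXY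
      apply mor_injective
      apply hu.mul_left_cancel
      rw [← mor_mul, ← mor_mul]
      exact congrArg _ hXY
    obtain ⟨X, hX⟩ := LinearMap.injective_iff_surjective.1 hinj 1
    have hX' : g * X = 1 := hX
    refine ⟨⟨g, X, hX', hinj ?_⟩, rfl⟩
    show g * (X * g) = g * 1
    rw [← Matrix.mul_assoc, hX', Matrix.one_mul, Matrix.mul_one]

theorem nrd_sig (H : Matrix ι ι (Q a b R)) (y : ι → Q a b R) {s s' : Q a b R} (h1 : s * s' = 1)
    (h2 : s' * s = 1) (h3 : s - star s = hf H y y) : nrd (sig H y s') = 1 := by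
  let A : Matrix ι Unit (Q a b R) := Matrix.of fun i _ => y i * s'
  let B : Matrix Unit ι (Q a b R) := Matrix.of fun _ j => (star y ᵥ* H) j
  have e1 : sig H y s' = 1 - A * B := by
    ext i j : 1
    simp [sig, A, B, Matrix.mul_apply, Matrix.vecMulVec_apply]
  have e2 : (1 : Matrix Unit Unit (Q a b R)) - B * A = diagonal fun _ => star s * s' := by
    ext i j : 1
    have : ∑ k, (star y ᵥ* H) k * (y k * s') = hf H y y * s' := by
      rw [hf, dotProduct_mulVec, dotProduct, Finset.sum_mul]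
      exact Finset.sum_congr rfl fun k _ => (mul_assoc _ _ _).symm
    simp only [A, B, Matrix.sub_apply, Matrix.mul_apply, of_apply, this, ← h3, sub_mul, h1]
    simp
  have e3 : nrd (sig H y s') = nrd ((1 : Matrix Unit Unit (Q a b R)) - B * A) := by
    rw [nrd, nrd, e1, mor_sub, mor_sub, mor_mul, mor_mul, mor_one, mor_one,
      Matrix.det_one_sub_mul_comm]
  rw [e3, e2, nrd_diagonal, Finset.prod_const, nr_mul, nr_star, ← nr_mul, h1, nr_one, one_pow]

end Pool.Agent.P.MP_3c2f8c_gt
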