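import Pool.Agent.P.MP_3c2f8c_gt.Qu.Partner
import Pool.Agent.P.MP_3c2f8c_gt.Qu.Nrd
import Pool.Agent.P.MP_3c2f8c_gt.NT.Compl
import Pool.Agent.P.MP_3c2f8c_gt.Gl.Fin

/-! QU-16: the explicit data. -/

namespace Pool.Agent.P.MP_3c2f8c_gt

open Matrix

namespace DataAux

section Padic

variable {p : ℕ} [Fact p.Prime]

theorem norm_one {n : ℤ} (h : ¬ (p : ℤ) ∣ n) : ‖(n : ℚ_[p])‖ = 1 :=
  le_antisymm (Padic.norm_int_le_one n)
    (not_lt.1 fun h' => h (Padic.norm_intCast_lt_one_iff.1 h'))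

theorem not_dvd_four (hp : p ≠ 2) : ¬ (p : ℤ) ∣ 4 := by
  intro h
  have h1 : p ∣ 2 ^ 2 := by exact_mod_cast h
  exact hp ((Nat.prime_dvd_prime_iff_eq Fact.out Nat.prime_two).1
    ((Fact.out : p.Prime).dvd_of_dvd_pow h1))

theorem sq_of_mod (hp : p ≠ 2) {n s : ℤ} (hs : ¬ (p : ℤ) ∣ s) (h : (p : ℤ) ∣ n - s ^ 2) :
    IsSquare (n : ℚ_[p]) := by
  obtain ⟨L, -, h2, h3, -⟩ := exists_padicLF p
  refine Local1Aux.sq_of_close L (x := (s : ℚ_[p])) ((h3 _).2 (norm_one hs)) ?_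
  have h4 : L.v 4 = 1 := (h3 _).2 (by exact_mod_cast norm_one (not_dvd_four hp))
  rw [h4, h2]
  exact_mod_cast Padic.norm_intCast_lt_one_iff.2 h

theorem sq_17 : IsSquare ((17 : ℤ) : ℚ_[2]) := by
  obtain ⟨L, -, -, -, h⟩ := exists_padicLF 2
  refine L.isSquare_of_lt ?_
  have e1 : ((17 : ℤ) : ℚ_[2]) - 1 = ((2 : ℕ) : ℚ_[2]) ^ 4 := by norm_num
  have e2 : (4 : ℚ_[2]) = ((2 : ℕ) : ℚ_[2]) ^ 2 := by norm_num
  rw [e1, e2, map_pow, map_pow, h, ← WithZero.exp_nsmul, ← WithZero.exp_nsmul, WithZero.exp_lt_exp]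
  norm_num

theorem unit_int {n : ℤ} (h : ¬ (p : ℤ) ∣ n) : IsUnit (n : ℤ_[p]) := by
  rw [PadicInt.isUnit_iff]
  exact norm_one h

theorem unit_nm (hp : p ≠ 2) {c d : ℤ} (hc : ¬ (p : ℤ) ∣ c) (hd : ¬ (p : ℤ) ∣ d) :
    IsNm (c : ℚ_[p]) (d : ℚ_[p]) := by
  have h := (isNm_of_finite p hp (unit_int hc) (unit_int hd)).map (PadicInt.Coe.ringHom (p := p))
  rwa [map_intCast, map_intCast] at h

theorem not_sq {c : ℤ} (hc : ¬ IsSquare (c : ZMod p)) : ¬ IsSquare (c : ℚ_[p]) := by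
  rintro ⟨r, hr⟩
  have h1 : ‖r‖ ≤ 1 := by
    have h := Padic.norm_int_le_one (p := p) c
    rw [hr, norm_mul] at h
    nlinarith [norm_nonneg r]
  have h2 : (c : ℤ_[p]) = ⟨r, h1⟩ * ⟨r, h1⟩ := Subtype.ext (by simpa using hr)
  exact hc ⟨PadicInt.toZMod (⟨r, h1⟩ : ℤ_[p]), by rw [← map_mul, ← h2, map_intCast]⟩

theorem not_nm (hp : p ≠ 2) {c d : ℤ} (hc : ¬ IsSquare (c : ZMod p)) (hd : ¬ (p : ℤ) ∣ d) :
    ¬ IsNm (c : ℚ_[p]) (((p : ℤ) * d : ℤ) : ℚ_[p]) := by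
  obtain ⟨L, -, -, h3, h4⟩ := exists_padicLF p
  obtain ⟨Δ, hΔ⟩ := Local2Aux.exists_del L
  have hc' : ¬ (p : ℤ) ∣ c := fun h =>
    hc (by rw [(ZMod.intCast_zmod_eq_zero_iff_dvd c p).2 h]; exact IsSquare.zero)
  have hu := (h3 _).2 (norm_one hc')
  have hv : L.v (((p : ℤ) * d : ℤ) : ℚ_[p]) = WithZero.exp (2 * (-1) + 1) := by
    rw [Int.cast_mul, map_mul, (h3 _).2 (norm_one hd), Int.cast_natCast, h4, mul_one]
    norm_num
  rcases hΔ.tri _ hu with h | h | ⟨_, k, -, hk, -, h⟩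
  · exact absurd h (not_sq hc)
  · rw [hΔ.nm_iff (Local2Aux.ne_of_unit hu) h]
    exact hΔ.not_odd hv
  · have h4 : L.v 4 = 1 := (h3 _).2 (by exact_mod_cast norm_one (not_dvd_four hp))
    rw [h4, ← WithZero.exp_zero, WithZero.exp_lt_exp] at h
    omega

/-- The symbol `(17, d)` is trivial at `p` when `p` does not divide `d`, if `d` is a square
modulo `17`. -/
theorem nm_17 {d s : ℤ} (hd : ¬ (p : ℤ) ∣ d) (hs : ¬ (17 : ℤ) ∣ s) (h : (17 : ℤ) ∣ d - s ^ 2) :
    IsNm ((17 : ℤ) : ℚ_[p]) (d : ℚ_[p]) := by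
  by_cases h2 : p = 2
  · subst h2
    exact isNm_of_isSquare (by norm_num) sq_17 _
  by_cases h17 : p = 17
  · subst h17
    exact Local2Aux.isNm_sq' _ (sq_of_mod h2 hs h)
  refine unit_nm h2 (fun h' => h17 ?_) hd
  have h1 : p ∣ 17 := by exact_mod_cast h'
  exact (Nat.prime_dvd_prime_iff_eq Fact.out (by norm_num)).1 h1

end Padic

theorem eq_of_dvd {p q : Nat.Primes} (h : p.1 ∣ q.1) : p = q :=
  Subtype.ext ((Nat.prime_dvd_prime_iff_eq p.2 q.2).1 h)

section Second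

variable {a b b' : ℤ} {T' : Finset Nat.Primes}

theorem conj {R : Type} [CommRing R] {ζ y : Q a b R} {ε : ℤ} {α : R} (hε : ε * ε = 1)
    (h : y * ζ = ε • (ζ * y)) (hn : nr y = ε * α) : star y * ζ * y = α • ζ := by
  have h1 : ζ * y = ε • (y * ζ) := by rw [h, smul_smul, hε, one_smul]
  have h2 : (ε : R) * (ε * α) = α := by rw [← mul_assoc, ← Int.cast_mul, hε, Int.cast_one, one_mul]
  rw [mul_assoc, h1, mul_smul_comm, ← mul_assoc, star_mul_eq_nr, hn, ← Algebra.smul_def,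
    ← Int.cast_smul_eq_zsmul R, smul_smul, h2]

theorem eps_sq (p : Nat.Primes) : eps T' p * eps T' p = 1 := by
  unfold eps
  split_ifs <;> norm_num

theorem qmap_int {R S : Type} [CommRing R] [CommRing S] (φ : R →+* S) (x : Q a b ℤ) :
    qmap a b φ (qmap a b (Int.castRingHom R) x) = qmap a b (Int.castRingHom S) x := by
  rw [qmap_qmap, RingHom.ext_int (φ.comp (Int.castRingHom R)) (Int.castRingHom S)]

/-- An integral solution at the good primes. -/
theorem good (p : ℕ) [Fact p.Prime] (hp : p ≠ 2) {x : Q a b ℤ} (hx : x.re = 0) {α : ℤ}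
    (h1 : ¬ (p : ℤ) ∣ sqp x) (h2 : ¬ (p : ℤ) ∣ α) : ∃ y : (Q a b ℚ_[p])ˣ,
      star y.1 * qmap a b (Int.castRingHom ℚ_[p]) x * y.1 =
        qmap a b (Int.castRingHom ℚ_[p]) (α • x) ∧ nr y.1 = α ∧
      y.1 ∈ intQ a b p ∧ (y⁻¹).1 ∈ intQ a b p := by
  obtain ⟨s, t, h⟩ := isNm_of_finite p hp (unit_int h1) (unit_int h2)
  have hz : (qmap a b (Int.castRingHom ℤ_[p]) x).re = 0 := BasicAux.qmap_pure _ hx
  have hn : nr (algebraMap ℤ_[p] (Q a b ℤ_[p]) s + t • qmap a b (Int.castRingHom ℤ_[p]) x) =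
      (α : ℤ_[p]) := by
    rw [nr_add_smul hz, sqp_qmap, h]
    rfl
  obtain ⟨u, hu⟩ := (isUnit_iff_nr _).2 (hn ▸ unit_int h2)
  have hc : star u.1 * qmap a b (Int.castRingHom ℤ_[p]) x * u.1 =
      (α : ℤ_[p]) • qmap a b (Int.castRingHom ℤ_[p]) x := by
    refine conj (ε := 1) (one_mul 1) ?_ (by rw [hu, hn, Int.cast_one, one_mul])
    rw [hu, one_smul, add_mul, mul_add, Algebra.commutes, smul_mul_assoc, mul_smul_comm]
  refine ⟨Units.map (qmap a b (PadicInt.Coe.ringHom (p := p))).toMonoidHom u, ?_, ?_,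
    ⟨u.1, rfl⟩, ⟨(u⁻¹).1, rfl⟩⟩
  · have h3 := congrArg (qmap a b (PadicInt.Coe.ringHom (p := p))) hc
    rw [map_mul, map_mul, qmap_star, qmap_smul, qmap_int, map_intCast] at h3
    rw [qmap_smul]
    exact h3
  · show nr (qmap a b (PadicInt.Coe.ringHom (p := p)) u.1) = _
    rw [nr_qmap, hu, hn, map_intCast]

theorem partner [NeZero a] [NeZero b] (ha : 0 < a) (hT : Twist a b b' T') {x : Q a b ℤ}
    (hx : x.re = 0) (h0 : sqp x ≠ 0) :
    ∃ (α : ℤ) (y : ∀ p : Nat.Primes, (Q a b ℚ_[p])ˣ) (y' : (Q a b ℝ)ˣ),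
      α ≠ 0 ∧ (sqp x < 0 → 0 < α) ∧
      (∀ p, star (y p).1 * qmap a b (Int.castRingHom ℚ_[p]) x * (y p).1 =
        qmap a b (Int.castRingHom ℚ_[p]) (α • x) ∧ nr (y p).1 = eps T' p * (α : ℚ_[p])) ∧
      {p : Nat.Primes | ¬ ((y p).1 ∈ intQ a b p ∧ ((y p)⁻¹).1 ∈ intQ a b p)}.Finite ∧
      star y'.1 * qmap a b (Int.castRingHom ℝ) x * y'.1 =
        qmap a b (Int.castRingHom ℝ) (α • x) := by
  obtain ⟨β, hβ, hfin, hre⟩ := exists_partner ha hT (R₀ := ℚ)
    (ζ := qmap a b (Int.castRingHom ℚ) x) (BasicAux.qmap_pure _ hx)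
    (by rw [sqp_qmap]; exact isUnit_iff_ne_zero.2 (Int.cast_ne_zero.2 h0))
  have hα : β.num * β.den ≠ 0 :=
    mul_ne_zero (Rat.num_ne_zero.2 hβ.ne_zero) (Int.natCast_ne_zero.2 β.den_nz)
  have hαβ : ((β.num * β.den : ℤ) : ℚ) = (β.den : ℚ) ^ 2 * β := by
    rw [Int.cast_mul, Int.cast_natCast, ← Rat.mul_den_eq_num]
    ring
  generalize β.num * β.den = α at hα hαβ
  have key : ∀ (K : Type) [Field K] [CharZero K] (ψ : ℚ →+* K) (ε : ℤ), ε * ε = 1 →
      (∃ y : Q a b K, y * qmap a b ψ (qmap a b (Int.castRingHom ℚ) x) =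
        ε • (qmap a b ψ (qmap a b (Int.castRingHom ℚ) x) * y) ∧ nr y = ε * ψ β) →
      ∃ y : (Q a b K)ˣ, y.1 * qmap a b (Int.castRingHom K) x =
        ε • (qmap a b (Int.castRingHom K) x * y.1) ∧
        star y.1 * qmap a b (Int.castRingHom K) x * y.1 =
          qmap a b (Int.castRingHom K) (α • x) ∧ nr y.1 = ε * (α : K) := by
    rintro K _ _ ψ ε hε ⟨y, h1, h2⟩
    rw [qmap_int] at h1
    have h3 : nr ((β.den : K) • y) = ε * (α : K) := by
      rw [nr_smul, h2, ← map_intCast ψ α, hαβ, map_mul, map_pow, map_natCast]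
      ring
    have h4 : ((β.den : K) • y) * qmap a b (Int.castRingHom K) x =
        ε • (qmap a b (Int.castRingHom K) x * (β.den : K) • y) := by
      rw [smul_mul_assoc, h1, mul_smul_comm, smul_comm]
    obtain ⟨u, hu⟩ := (isUnit_iff_nr ((β.den : K) • y)).2 (by
      rw [h3]
      exact isUnit_iff_ne_zero.2 (mul_ne_zero (Int.cast_ne_zero.2 (left_ne_zero_of_mul_eq_one hε))
        (Int.cast_ne_zero.2 hα)))
    refine ⟨u, by rw [hu, h4], ?_, by rw [hu, h3]⟩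
    rw [qmap_smul, hu]
    exact conj hε h4 h3
  have hloc : ∀ p : Nat.Primes, ∃ y : (Q a b ℚ_[p])ˣ,
      (star y.1 * qmap a b (Int.castRingHom ℚ_[p]) x * y.1 =
        qmap a b (Int.castRingHom ℚ_[p]) (α • x) ∧ nr y.1 = eps T' p * (α : ℚ_[p])) ∧
      (p ∉ T' ∧ ¬ (p.1 : ℤ) ∣ 2 * sqp x * α → y.1 ∈ intQ a b p ∧ (y⁻¹).1 ∈ intQ a b p) := by
    intro p
    by_cases hp : p ∉ T' ∧ ¬ (p.1 : ℤ) ∣ 2 * sqp x * α
    · obtain ⟨y, h1, h2, h3⟩ := good p.1 (x := x) (α := α)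
        (fun h => hp.2 (by rw [h]; exact Dvd.intro _ (mul_assoc _ _ _).symm)) hx
        (fun h => hp.2 ((h.mul_left 2).mul_right α)) fun h => hp.2 (h.mul_left _)
      refine ⟨y, ⟨h1, ?_⟩, fun _ => h3⟩
      rw [h2, eps, if_neg hp.1, Int.cast_one, one_mul]
    · obtain ⟨y, -, h⟩ := key ℚ_[p] (ra ℚ_[p]) (eps T' p) (eps_sq p)
        (hfin p ℚ_[p] (ra ℚ_[p]) (RingHom.id _))
      exact ⟨y, h, fun h' => absurd h' hp⟩
  choose y hy hy' using hloc
  obtain ⟨y', h1, h2, h3⟩ := key ℝ (ra ℝ) 1 (one_mul 1) (by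
    simpa only [one_smul, Int.cast_one, one_mul] using hre ℝ (ra ℝ) (RingHom.id _))
  refine ⟨α, y, y', hα, fun hs => ?_, hy, ?_, h2⟩
  · have hz : (qmap a b (Int.castRingHom ℝ) x).re = 0 := BasicAux.qmap_pure _ hx
    have hs' : sqp (qmap a b (Int.castRingHom ℝ) x) < 0 := by
      rw [sqp_qmap]
      exact Int.cast_lt_zero.2 hs
    obtain ⟨s, t, hst⟩ := comm_pure hz (isUnit_iff_ne_zero.2 hs'.ne) (h1.trans (one_smul _ _))
    rw [hst, nr_add_smul hz, Int.cast_one, one_mul] at h3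
    have h4 : (0 : ℝ) ≤ α := by nlinarith [sq_nonneg s, sq_nonneg t]
    exact lt_of_le_of_ne (Int.cast_nonneg_iff.1 h4) hα.symm
  · have hN : 2 * sqp x * α ≠ 0 := mul_ne_zero (mul_ne_zero two_ne_zero h0) hα
    refine (T'.finite_toSet.union ((Set.finite_Iic (2 * sqp x * α).natAbs).preimage
      Subtype.val_injective.injOn)).subset fun p hp => ?_
    by_contra h
    simp only [Set.mem_union, Finset.mem_coe, Set.mem_preimage, Set.mem_Iic, not_or] at h
    exact hp (hy' p ⟨h.1, fun hd => h.2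
      (Nat.le_of_dvd (Int.natAbs_pos.2 hN) (Int.natCast_dvd.1 hd))⟩)

/-- The diagonal matrix of a family of units. -/
def dU {A ι : Type} [Ring A] [Fintype ι] [DecidableEq ι] (u : ι → Aˣ) : (Matrix ι ι A)ˣ where
  val := diagonal fun j => (u j).1
  inv := diagonal fun j => ((u j)⁻¹).1
  val_inv := by simp [diagonal_mul_diagonal]
  inv_val := by simp [diagonal_mul_diagonal]

theorem dU_conj {ι R : Type} [CommRing R] [Fintype ι] [DecidableEq ι] (φ : ℤ →+* R)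
    {u : ι → (Q a b R)ˣ} {x x' : ι → Q a b ℤ}
    (h : ∀ j, star (u j).1 * qmap a b φ (x j) * (u j).1 = qmap a b φ (x' j)) :
    (dU u).1ᴴ * bc φ (diagonal x) * (dU u).1 = bc φ (diagonal x') := by
  show (diagonal fun j => (u j).1)ᴴ * _ * (diagonal fun j => (u j).1) = _
  rw [bc_diagonal, bc_diagonal, diagonal_conjTranspose, diagonal_mul_diagonal,
    diagonal_mul_diagonal]
  exact congrArg diagonal (funext h)

theorem intM_diagonal {ι : Type} [DecidableEq ι] {p : ℕ} [Fact p.Prime] {u : ι → Q a b ℚ_[p]}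
    (h : ∀ j, u j ∈ intQ a b p) : IntM (diagonal u) := fun i j => by
  rw [diagonal_apply]
  split_ifs
  exacts [h i, zero_mem _]

end Second

end DataAux

open DataAux

theorem ram_B : Ram 17 1155 {p3, p5, p7, p11} where
  a_pos := by norm_num
  b_pos := by norm_num
  div p := by
    constructor
    · intro hp
      simp only [Finset.mem_insert, Finset.mem_singleton] at hp
      rcases hp with rfl | rfl | rfl | rfl
      · exact not_nm (p := p3.1) (d := 385) (by decide)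
          (show ¬ IsSquare ((17 : ℤ) : ZMod 3) by decide) (by decide)
      · exact not_nm (p := p5.1) (d := 231) (by decide)
          (show ¬ IsSquare ((17 : ℤ) : ZMod 5) by decide) (by decide)
      · exact not_nm (p := p7.1) (d := 165) (by decide)
          (show ¬ IsSquare ((17 : ℤ) : ZMod 7) by decide) (by decide)
      · exact not_nm (p := p11.1) (d := 105) (by decide)
          (show ¬ IsSquare ((17 : ℤ) : ZMod 11) by decide) (by decide)
    · intro h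
      by_contra hp
      refine h (nm_17 (s := 4) (fun hd => hp ?_) (by norm_num) (by norm_num))
      have h1 : p.1 ∣ p3.1 * (p5.1 * (p7.1 * p11.1)) := by exact_mod_cast hd
      simp only [p.2.dvd_mul] at h1
      simp only [Finset.mem_insert, Finset.mem_singleton]
      exact h1.imp eq_of_dvd (Or.imp eq_of_dvd (Or.imp eq_of_dvd eq_of_dvd))
  ne := ⟨p3, by simp⟩

theorem twist_B : Twist 17 1155 15 {p3, p5} where
  ne := by norm_num
  off p hp := by
    refine nm_17 (s := 7) (fun hd => hp ?_) (by norm_num) (by norm_num)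
    have h1 : p.1 ∣ p3.1 * p5.1 := by exact_mod_cast hd
    simp only [p.2.dvd_mul] at h1
    simp only [Finset.mem_insert, Finset.mem_singleton]
    exact h1.imp eq_of_dvd eq_of_dvd
  on p hp := by
    have e : ((1155 : ℤ) : ℚ_[p]) * (15 : ℤ) = ((77 : ℤ) : ℚ_[p]) * 15 ^ 2 := by norm_num
    rw [e, isNm_mul_sq (by norm_num)]
    simp only [Finset.mem_insert, Finset.mem_singleton] at hp
    rcases hp with rfl | rfl
    · exact unit_nm (p := p3.1) (by decide) (by decide) (by decide)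
    · exact unit_nm (p := p5.1) (by decide) (by decide) (by decide)

/-- The first form: `k`, then `j + k` repeated, then `2 i + j`. -/
theorem exists_first {m : ℕ} (hm : 1 ≤ m) : ∃ x : Fin (2 * m + 1) → Q 17 1155 ℤ,
    (LorData fun j => qmap 17 1155 (Int.castRingHom ℚ) (x j)) ∧
    ¬ IsSquare ((∏ j, sqp (x j) : ℤ) : ℚ) ∧
    IsSquare ((∏ j, sqp (x j) : ℤ) : ℚ_[p3]) ∧
    IsSquare ((∏ j, sqp (x j) : ℤ) : ℚ_[p7]) ∧
    ∀ j, IsSquare ((sqp (x j) : ℤ) : ℚ_[p19]) := by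
  obtain ⟨n, rfl⟩ : ∃ n, m = n + 1 := ⟨m - 1, by omega⟩
  let x : Fin (2 * (n + 1) + 1) → Q 17 1155 ℤ := fun j =>
    if j = Fin.last _ then ⟨0, 2, 1, 0⟩ else if j = 0 then ⟨0, 0, 0, 1⟩ else ⟨0, 0, 1, 1⟩
  have h0 : (0 : Fin (2 * (n + 1) + 1)) ≠ Fin.last _ := by
    simp [Fin.ext_iff]
  have s1 : sqp (x (Fin.last _)) = 1223 := by
    simp [x, BasicAux.sqp_eq]
  have s2 : sqp (x 0) = -19635 := by
    simp only [x, if_neg h0]
    simp [BasicAux.sqp_eq]
  have s3 : ∀ j, j ≠ Fin.last _ → j ≠ 0 → sqp (x j) = -18480 := by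
    intro j h1 h2
    simp only [x, if_neg h1, if_neg h2]
    simp [BasicAux.sqp_eq]
  have hP : ∏ j, sqp (x j) = 20791 * (4620 * 18480 ^ n) ^ 2 := by
    rw [← Finset.mul_prod_erase _ _ (Finset.mem_univ (Fin.last _)),
      ← Finset.mul_prod_erase _ _ (Finset.mem_erase.2 ⟨h0, Finset.mem_univ _⟩), s1, s2,
      Finset.prod_congr rfl fun j hj => s3 j (Finset.ne_of_mem_erase (Finset.mem_of_mem_erase hj))
        (Finset.ne_of_mem_erase hj), Finset.prod_const,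
      Finset.card_erase_of_mem (Finset.mem_erase.2 ⟨h0, Finset.mem_univ _⟩),
      Finset.card_erase_of_mem (Finset.mem_univ _), Finset.card_univ, Fintype.card_fin,
      show 2 * (n + 1) + 1 - 1 - 1 = 2 * n + 1 by omega, pow_succ, pow_mul, neg_sq, ← pow_mul,
      mul_comm 2 n, pow_mul]
    ring
  have hsq : ∀ (K : Type) [Field K], IsSquare ((20791 : ℤ) : K) →
      IsSquare ((∏ j, sqp (x j) : ℤ) : K) := by
    intro K _ h
    rw [hP, Int.cast_mul, Int.cast_pow]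
    exact h.mul (IsSquare.sq _)
  refine ⟨x, ⟨fun j => ?_, ?_, fun j hj => ⟨?_, ?_⟩⟩, ?_, hsq _ ?_, hsq _ ?_, fun j => ?_⟩
  · refine BasicAux.qmap_pure _ ?_
    simp only [x]
    split_ifs <;> rfl
  · rw [sqp_qmap, s1]
    norm_num
  · rw [sqp_qmap]
    by_cases h : j = 0
    · rw [h, s2]
      norm_num
    · rw [s3 j hj h]
      norm_num
  · show 0 < (Int.castRingHom ℚ) (x j).imK
    simp only [x, if_neg hj]
    split_ifs <;> norm_num
  · rw [hP]
    rintro ⟨r, hr⟩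
    have h1 : IsSquare ((20791 : ℕ) : ℚ) := by
      refine ⟨r / (4620 * 18480 ^ n), ?_⟩
      push_cast at hr ⊢
      field_simp
      linear_combination hr
    obtain ⟨k, hk⟩ := Rat.isSquare_natCast_iff.1 h1
    have h2 : k ≤ 144 ∨ 145 ≤ k := by omega
    rcases h2 with h2 | h2 <;> nlinarith
  · exact sq_of_mod (p := p3.1) (s := 1) (by decide) (by decide) (by decide)
  · exact sq_of_mod (p := p7.1) (s := 1) (by decide) (by decide) (by decide)
  · by_cases h1 : j = Fin.last _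
    · rw [h1, s1]
      exact sq_of_mod (p := p19.1) (s := 8) (by decide) (by decide) (by decide)
    by_cases h2 : j = 0
    · rw [h2, s2]
      exact sq_of_mod (p := p19.1) (s := 7) (by decide) (by decide) (by decide)
    · rw [s3 j h1 h2]
      exact sq_of_mod (p := p19.1) (s := 8) (by decide) (by decide) (by decide)

/-- The second form. -/
theorem exists_second {a b b' : ℤ} [NeZero a] [NeZero b] {T' : Finset Nat.Primes} (ha : 0 < a)
    (hT : Twist a b b' T') {m : ℕ} (x : Fin (2 * m + 1) → Q a b ℤ)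
    (hx : LorData fun j => qmap a b (Int.castRingHom ℚ) (x j)) :
    ∃ (α : Fin (2 * m + 1) → ℤ)
      (φ : ∀ p : Nat.Primes, (Matrix (Fin (2 * m + 1)) (Fin (2 * m + 1)) (Q a b ℚ_[p]))ˣ)
      (φ' : (Matrix (Fin (2 * m + 1)) (Fin (2 * m + 1)) (Q a b ℝ))ˣ),
      (∀ j, α j ≠ 0) ∧ (LorData fun j => qmap a b (Int.castRingHom ℚ) (α j • x j)) ∧
      (∀ p, (φ p).1ᴴ * bc (Int.castRingHom ℚ_[p]) (diagonal x) * (φ p).1 =
        bc (Int.castRingHom ℚ_[p]) (diagonal fun j => α j • x j) ∧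
        nrd (φ p).1 = eps T' p * ((∏ j, α j : ℤ) : ℚ_[p])) ∧
      {p | ¬ IntU (φ p)}.Finite ∧
      φ'.1ᴴ * bc (Int.castRingHom ℝ) (diagonal x) * φ'.1 =
        bc (Int.castRingHom ℝ) (diagonal fun j => α j • x j) := by
  obtain ⟨h1, h2, h3⟩ := hx
  have hre : ∀ j, (x j).re = 0 := fun j => Int.cast_eq_zero (α := ℚ).1 (h1 j)
  have hlt : ∀ j, j ≠ Fin.last _ → sqp (x j) < 0 := fun j hj => by
    have h := (h3 j hj).1
    rw [sqp_qmap] at h
    exact Int.cast_lt_zero.1 h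
  have hne : ∀ j, sqp (x j) ≠ 0 := fun j => by
    by_cases hj : j = Fin.last _
    · rw [sqp_qmap] at h2
      rw [hj]
      exact (Int.cast_pos.1 h2).ne'
    · exact (hlt j hj).ne
  choose α y y' hα hpos hy hfin hy' using fun j => partner ha hT (hre j) (hne j)
  have hα' : ∀ j, 0 < (Int.castRingHom ℚ (α j)) ^ 2 := fun j =>
    pow_pos (abs_pos.2 (Int.cast_ne_zero (α := ℚ).2 (hα j))) 2 |>.trans_eq (sq_abs _)
  refine ⟨α, fun p => dU fun j => y j p, dU y', hα, ⟨fun j => ?_, ?_, fun j hj => ⟨?_, ?_⟩⟩,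
    fun p => ⟨dU_conj _ fun j => (hy j p).1, ?_⟩, ?_, dU_conj _ hy'⟩
  · refine BasicAux.qmap_pure _ ?_
    show α j * (x j).re = 0
    rw [hre, mul_zero]
  · beta_reduce
    rw [qmap_smul, sqp_smul]
    exact mul_pos (hα' _) h2
  · beta_reduce
    rw [qmap_smul, sqp_smul]
    exact mul_neg_of_pos_of_neg (hα' _) (h3 j hj).1
  · beta_reduce
    rw [qmap_smul]
    exact mul_pos (Int.cast_pos.2 (hpos j (hlt j hj))) (h3 j hj).2
  · show nrd (diagonal fun j => (y j p).1) = _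
    rw [nrd_diagonal, Finset.prod_congr rfl fun j _ => (hy j p).2, Finset.prod_mul_distrib,
      Finset.prod_const, Finset.card_univ, Fintype.card_fin, pow_succ, pow_mul, sq,
      ← Int.cast_mul, eps_sq, Int.cast_one, one_pow, one_mul, Int.cast_prod]
  · refine (Set.finite_iUnion hfin).subset fun p hp => ?_
    by_contra h
    simp only [Set.mem_iUnion, Set.mem_ofPred_eq, not_exists, not_not] at h
    exact hp ⟨intM_diagonal fun j => (h j).1, intM_diagonal fun j => (h j).2⟩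

end Pool.Agent.P.MP_3c2f8c_gt
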