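import Pool.Agent.P.MP_3c2f8c_gt.Qu.Witt
import Pool.Agent.P.MP_3c2f8c_gt.NT.Local2
import Pool.Agent.P.MP_3c2f8c_gt.NT.Compl

/-! QU-15: the two forms are not similar. -/

namespace Pool.Agent.P.MP_3c2f8c_gt

open Matrix

variable {a b : ℤ} [NeZero a] [NeZero b] {T T' : Finset Nat.Primes} {ι : Type} [Fintype ι]
  [DecidableEq ι]

namespace NonSimAux

variable {E : Type} [Field E] [CharZero E]

open Classical in
/-- The Hilbert symbol as a sign. -/
noncomputable def sg (μ δ : E) : E := if IsNm μ δ then 1 else -1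

theorem sg_mul (L : LF E) {μ δ δ' : E} (hμ : μ ≠ 0) (h : δ ≠ 0) (h' : δ' ≠ 0) :
    sg μ (δ * δ') = sg μ δ * sg μ δ' := by
  unfold sg
  by_cases h1 : IsNm μ δ <;> by_cases h2 : IsNm μ δ'
  · rw [if_pos h1, if_pos h2, if_pos (h1.mul h2), one_mul]
  · rw [if_pos h1, if_neg h2, if_neg fun h3 => h2 (IsNm.of_mul h h1 h3), one_mul]
  · rw [if_neg h1, if_pos h2, if_neg fun h3 => h1 (IsNm.of_mul h' h2 (mul_comm δ δ' ▸ h3)),
      mul_one]
  · rw [if_neg h1, if_neg h2, if_pos (L.nonnorm_mul hμ h1 h2)]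
    ring

omit [CharZero E] in
theorem sg_sq {μ δ : E} (h : IsSquare δ) : sg μ δ = 1 := by
  obtain ⟨r, rfl⟩ := h
  unfold sg
  rw [if_pos ⟨r, 0, by ring⟩]

theorem sg_prod (L : LF E) {μ : E} (hμ : μ ≠ 0) {κ : Type} (t : Finset κ) (δ : κ → E)
    (h : ∀ j, δ j ≠ 0) : ∏ j ∈ t, sg μ (δ j) = sg μ (∏ j ∈ t, δ j) := by
  classical
  induction t using Finset.induction_on with
  | empty => rw [Finset.prod_empty, Finset.prod_empty, sg_sq IsSquare.one]
  | insert j t hj ih =>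
    rw [Finset.prod_insert hj, Finset.prod_insert hj, ih,
      sg_mul L hμ (h j) (Finset.prod_ne_zero_iff.2 fun i _ => h i)]

theorem sqp_ne (hdiv : ¬ IsNm (a : E) (b : E)) {x : Q a b E} (hx : x.re = 0) (h0 : x ≠ 0) :
    sqp x ≠ 0 := by
  rw [sqp_of_pure hx]
  exact neg_ne_zero.2 ((isUnit_iff_nr x).1 (isUnit_of_div hdiv h0)).ne_zero

omit [NeZero a] [NeZero b] [CharZero E] in
theorem comm_add (x : Q a b E) (s t : E) :
    x * (algebraMap E (Q a b E) s + t • x) = (algebraMap E (Q a b E) s + t • x) * x := by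
  rw [mul_add, add_mul, Algebra.commutes, mul_smul_comm, smul_mul_assoc]

theorem exists_scale (L : LF E) (hdiv : ¬ IsNm (a : E) (b : E)) {x : Q a b E} (hx : x.re = 0)
    (h0 : x ≠ 0) {μ : E} (hμ : μ ≠ 0) :
    ∃ y : Q a b E, IsUnit y ∧ star y * x * y = μ • x ∧ nr y = sg μ (sqp x) * μ := by
  have hδ := sqp_ne hdiv hx h0
  by_cases h : IsNm (sqp x) μ
  · have h' : IsNm μ (sqp x) := h.comm hδ hμ
    obtain ⟨s, t, hst⟩ := h
    have hn : nr (algebraMap E (Q a b E) s + t • x) = μ := by rw [nr_add_smul hx, hst]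
    refine ⟨algebraMap E (Q a b E) s + t • x, ?_, ?_, ?_⟩
    · rw [isUnit_iff_nr, hn]
      exact hμ.isUnit
    · rw [mul_assoc, comm_add, ← mul_assoc, star_mul_eq_nr, hn, Algebra.smul_def]
    · rw [hn, sg, if_pos h', one_mul]
  · have h' : ¬ IsNm μ (sqp x) := fun h' => h (h'.comm hμ hδ)
    obtain ⟨θ, hθ, hanti, hθ0⟩ := exists_anti hx hδ
    have hnn : ¬ IsNm (sqp x) (sqp θ) := fun h2 =>
      hdiv ((isNm_iff_of_anti hx hθ hδ hθ0 hanti).1 h2)
    obtain ⟨s, t, hst⟩ := L.nonnorm_mul hδ h hnn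
    have hw : nr (algebraMap E (Q a b E) s + t • x) = μ * sqp θ := by rw [nr_add_smul hx, hst]
    have hθn : nr θ = -sqp θ := by rw [sqp_of_pure hθ, neg_neg]
    have hn : nr ((sqp θ)⁻¹ • (θ * (algebraMap E (Q a b E) s + t • x))) = -μ := by
      rw [nr_smul, nr_mul, hw, hθn]
      field_simp
    have hxθ : x * θ = -(θ * x) := by rw [hanti, neg_neg]
    have hc : x * ((sqp θ)⁻¹ • (θ * (algebraMap E (Q a b E) s + t • x))) =
        -(((sqp θ)⁻¹ • (θ * (algebraMap E (Q a b E) s + t • x))) * x) := by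
      rw [mul_smul_comm, smul_mul_assoc, ← smul_neg, ← mul_assoc, hxθ, neg_mul, mul_assoc,
        comm_add, mul_assoc]
    refine ⟨(sqp θ)⁻¹ • (θ * (algebraMap E (Q a b E) s + t • x)), ?_, ?_, ?_⟩
    · rw [isUnit_iff_nr, hn]
      exact (neg_ne_zero.2 hμ).isUnit
    · rw [mul_assoc, hc, mul_neg, ← mul_assoc, star_mul_eq_nr, hn, map_neg, neg_mul, neg_neg,
        Algebra.smul_def]
    · rw [hn, sg, if_neg h', neg_one_mul]

omit [NeZero a] [NeZero b] in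
theorem isUnit_diag {A : Type} [Ring A] {y : ι → A} (h : ∀ j, IsUnit (y j)) :
    IsUnit (diagonal y) := by
  choose u hu using h
  refine ⟨⟨diagonal y, diagonal fun j => ((u j)⁻¹ : Aˣ), ?_, ?_⟩, rfl⟩
  · rw [diagonal_mul_diagonal, ← diagonal_one]
    exact congrArg diagonal (funext fun j => by rw [← hu j, Units.mul_inv])
  · rw [diagonal_mul_diagonal, ← diagonal_one]
    exact congrArg diagonal (funext fun j => by rw [← hu j, Units.inv_mul])

end NonSimAux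

open NonSimAux

theorem nrd_of_similitude {E : Type} [Field E] [CharZero E] (L : LF E)
    (hdiv : ¬ IsNm (a : E) (b : E)) {x : ι → Q a b E} (hx : ∀ j, (x j).re = 0 ∧ x j ≠ 0)
    (hs : IsSquare (∏ j, sqp (x j))) {g : Matrix ι ι (Q a b E)} {μ : E}
    (hg : IsIsom (diagonal x) (μ • diagonal x) g) : nrd g = μ ^ Fintype.card ι := by
  rcases isEmpty_or_nonempty ι with hι | ⟨⟨j₀⟩⟩
  · rw [Subsingleton.elim g 1, nrd_one, Fintype.card_eq_zero, pow_zero]
  have hD : IsUnit (diagonal x) := isUnit_diag fun j => isUnit_of_div hdiv (hx j).2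
  have hsk : (diagonal x)ᴴ = -diagonal x := by
    rw [diagonal_conjTranspose, diagonal_neg]
    exact congrArg diagonal (funext fun j => star_of_pure (hx j).1)
  have hμ : μ ≠ 0 := by
    rintro rfl
    obtain ⟨g', -, -, -, h⟩ := hg.symm
    rw [zero_smul, Matrix.mul_zero, Matrix.zero_mul] at h
    have h1 := congrFun (congrFun h j₀) j₀
    rw [diagonal_apply_eq, Matrix.zero_apply] at h1
    exact (hx j₀).2 h1.symm
  choose y hy1 hy2 hy3 using fun j => exists_scale L hdiv (hx j).1 (hx j).2 hμ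
  have hY : IsIsom (diagonal x) (μ • diagonal x) (diagonal y) := by
    refine ⟨isUnit_diag hy1, ?_⟩
    rw [diagonal_conjTranspose, diagonal_mul_diagonal, diagonal_mul_diagonal, ← diagonal_smul]
    exact congrArg diagonal (funext fun j => hy2 j)
  obtain ⟨Y', -, h2, h3⟩ := hY.symm
  obtain ⟨⟨u, hu⟩, h4⟩ := hg.trans h3
  have h5 : nrd (g * Y') = 1 := by
    have := nrd_eq_one_of_div hdiv hsk hD ⟨u, by
      show u.1ᴴ * diagonal x * u.1 = diagonal x
      rw [hu, h4]⟩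
    rwa [← hu]
  have h6 : nrd g = nrd (diagonal y) := by
    rw [← Matrix.mul_one g, ← h2, ← Matrix.mul_assoc, nrd_mul, h5, one_mul]
  rw [h6, nrd_diagonal, Finset.prod_congr rfl fun j _ => hy3 j, Finset.prod_mul_distrib,
    sg_prod L hμ _ _ fun j => sqp_ne hdiv (hx j).1 (hx j).2, sg_sq hs, one_mul,
    Finset.prod_const, Finset.card_univ]

namespace NonSimAux

theorem local_eq (hR : Ram a b T) {x : ι → Q a b ℚ} (hx : ∀ j, (x j).re = 0 ∧ x j ≠ 0)
    {H : Matrix ι ι (Q a b ℚ)} {c : ℚ} (hl : LocIso T T' (diagonal x) H c) {p : Nat.Primes}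
    (h1 : p ∈ T) (s1 : IsSquare ((∏ j, sqp (x j) : ℚ) : ℚ_[p]))
    {g : Matrix ι ι (Q a b ℚ)} {μ : ℚ} (hg : IsIsom H (μ • diagonal x) g) :
    (eps T' p : ℚ) * c * nrd g = μ ^ Fintype.card ι ∧ (eps T' p : ℚ) * c * nrd g ≠ 0 := by
  obtain ⟨L, -⟩ := exists_padicLF p
  obtain ⟨k, hk, hn⟩ := hl.fin p
  have hinj : Function.Injective (ra ℚ_[p]) := (ra ℚ_[p]).injective
  have h2 := hk.trans (hg.bc (ra ℚ_[p]))
  rw [bc_smul, bc_diagonal] at h2
  have hx' : ∀ j, (qmap a b (ra ℚ_[p]) (x j)).re = 0 ∧ qmap a b (ra ℚ_[p]) (x j) ≠ 0 := by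
    intro j
    refine ⟨?_, fun h => (hx j).2 (qmap_injective hinj (h.trans (map_zero _).symm))⟩
    show ra ℚ_[p] (x j).re = 0
    rw [(hx j).1, map_zero]
  have hs : IsSquare (∏ j, sqp (qmap a b (ra ℚ_[p]) (x j))) := by
    rw [Finset.prod_congr rfl fun j _ => sqp_qmap (ra ℚ_[p]) (x j), ← map_prod]
    exact s1
  have h3 := nrd_of_similitude L ((hR.div p).1 h1) hx' hs h2
  have h4 := (isUnit_iff_nrd _).1 h2.1
  have h5 : nrd (k * bc (ra ℚ_[p]) g) = ra ℚ_[p] ((eps T' p : ℚ) * c * nrd g) := by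
    rw [nrd_mul, hn h1, nrd_bc, map_mul, map_mul, map_intCast]
    rfl
  rw [h5] at h3 h4
  refine ⟨hinj ?_, fun h => h4 (by rw [h, map_zero])⟩
  rw [h3, map_pow]

end NonSimAux

theorem not_similar (hR : Ram a b T) {x : ι → Q a b ℚ} (hx : ∀ j, (x j).re = 0 ∧ x j ≠ 0)
    {H : Matrix ι ι (Q a b ℚ)} {c : ℚ} (hl : LocIso T T' (diagonal x) H c) {p₁ p₂ : Nat.Primes}
    (h1 : p₁ ∈ T) (h1' : p₁ ∈ T') (h2 : p₂ ∈ T) (h2' : p₂ ∉ T')
    (s1 : IsSquare ((∏ j, sqp (x j) : ℚ) : ℚ_[p₁])) (s2 : IsSquare ((∏ j, sqp (x j) : ℚ) : ℚ_[p₂]))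
    (g : Matrix ι ι (Q a b ℚ)) (μ : ℚ) : ¬ IsIsom H (μ • diagonal x) g := by
  intro hg
  obtain ⟨e1, -⟩ := local_eq hR hx hl h1 s1 hg
  obtain ⟨e2, n2⟩ := local_eq hR hx hl h2 s2 hg
  rw [eps, if_pos h1'] at e1
  rw [eps, if_neg h2'] at e2 n2
  push_cast at e1 e2 n2
  apply n2
  linarith

theorem LocIso.symm {H H' : Matrix ι ι (Q a b ℚ)} {c : ℚ} (hl : LocIso T T' H H' c) :
    LocIso T T' H' H c⁻¹ := by
  refine ⟨fun p => ?_, ?_⟩
  · obtain ⟨g, hg, hn⟩ := hl.fin p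
    obtain ⟨g', h1, -, h3⟩ := hg.symm
    refine ⟨g', h3, fun hp => ?_⟩
    have h4 : nrd g * nrd g' = 1 := by rw [← nrd_mul, h1, nrd_one]
    rw [eq_inv_of_mul_eq_one_right h4, hn hp, mul_inv, Rat.cast_inv]
    congr 1
    unfold eps
    split_ifs <;> simp
  · obtain ⟨g, hg⟩ := hl.real
    obtain ⟨g', -, -, h3⟩ := hg.symm
    exact ⟨g', h3⟩

end Pool.Agent.P.MP_3c2f8c_gt
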