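import Pool.Agent.P.MP_3c2f8c_gt.Qu.Defs
import Pool.Agent.P.MP_3c2f8c_gt.NT.Alg

/-! QU-1: quaternions. -/

namespace Pool.Agent.P.MP_3c2f8c_gt

open Matrix Polynomial

variable {a b : ℤ} {R S : Type} [CommRing R] [CommRing S] {E : Type} [Field E] [CharZero E]

namespace BasicAux

theorem sqp_eq (x : Q a b R) :
    sqp x = x.re ^ 2 + a * x.imI ^ 2 + b * x.imJ ^ 2 - a * b * x.imK ^ 2 := by
  simp only [sqp, QuaternionAlgebra.re_mul]
  ring

theorem exists_half [Algebra ℚ R] : ∃ w : R, 2 * w = 1 :=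
  ⟨algebraMap ℚ R (1 / 2), by
    rw [← map_ofNat (algebraMap ℚ R) 2, ← map_mul]
    norm_num⟩

theorem anti_of_orth {x θ : Q a b R} (hx : x.re = 0) (hθ : θ.re = 0)
    (h : a * x.imI * θ.imI + b * x.imJ * θ.imJ - a * b * x.imK * θ.imK = 0) :
    θ * x = -(x * θ) := by
  ext
  · simp [hx, hθ]
    linear_combination 2 * h
  all_goals
    simp [hx, hθ]
    ring

theorem orth_of_anti [Algebra ℚ R] {x θ : Q a b R} (hx : x.re = 0)
    (h : θ * x = -(x * θ)) :
    a * x.imI * θ.imI + b * x.imJ * θ.imJ - a * b * x.imK * θ.imK = 0 := by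
  obtain ⟨w, hw⟩ := exists_half (R := R)
  have h0 := congrArg QuaternionAlgebra.re h
  simp only [QuaternionAlgebra.re_mul, QuaternionAlgebra.re_neg, hx] at h0
  linear_combination w * h0 -
    (a * x.imI * θ.imI + b * x.imJ * θ.imJ - a * b * x.imK * θ.imK) * hw

theorem qmap_pure (φ : R →+* S) {x : Q a b R} (hx : x.re = 0) : (qmap a b φ x).re = 0 :=
  (congrArg φ hx).trans (map_zero φ)

end BasicAux

open BasicAux

theorem nr_mul (x y : Q a b R) : nr (x * y) = nr x * nr y := by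
  simp only [nr, QuaternionAlgebra.re_mul, QuaternionAlgebra.imI_mul, QuaternionAlgebra.imJ_mul,
    QuaternionAlgebra.imK_mul]
  ring

theorem nr_one : nr (1 : Q a b R) = 1 := by simp [nr]

theorem mul_star_eq_nr (x : Q a b R) : x * star x = algebraMap R (Q a b R) (nr x) := by
  ext
  · show _ = nr x
    simp [nr]
    ring
  all_goals
    show _ = (0 : R)
    simp
    ring

theorem star_mul_eq_nr (x : Q a b R) : star x * x = algebraMap R (Q a b R) (nr x) := by
  ext
  · show _ = nr x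
    simp [nr]
    ring
  all_goals
    show _ = (0 : R)
    simp
    ring

theorem nr_star (x : Q a b R) : nr (star x) = nr x := by simp [nr]

theorem nr_smul (c : R) (x : Q a b R) : nr (c • x) = c ^ 2 * nr x := by
  simp only [nr, QuaternionAlgebra.re_smul, QuaternionAlgebra.imI_smul, QuaternionAlgebra.imJ_smul,
    QuaternionAlgebra.imK_smul, smul_eq_mul]
  ring

theorem nr_qmap (φ : R →+* S) (x : Q a b R) : nr (qmap a b φ x) = φ (nr x) := by simp [nr, qmap]

theorem sqp_qmap (φ : R →+* S) (x : Q a b R) : sqp (qmap a b φ x) = φ (sqp x) := by simp [sqp_eq, qmap]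

theorem qmap_star (φ : R →+* S) (x : Q a b R) :
    qmap a b φ (star x) = star (qmap a b φ x) := by
  ext <;> simp [qmap]

theorem qmap_smul (φ : R →+* S) (c : R) (x : Q a b R) :
    qmap a b φ (c • x) = φ c • qmap a b φ x := by
  ext <;> simp [qmap]

theorem qmap_algebraMap (φ : R →+* S) (c : R) :
    qmap a b φ (algebraMap R (Q a b R) c) = algebraMap S (Q a b S) (φ c) := by
  ext <;> simp [qmap]

theorem qmap_qmap {T : Type} [CommRing T] (φ : R →+* S) (ψ : S →+* T) (x : Q a b R) :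
    qmap a b ψ (qmap a b φ x) = qmap a b (ψ.comp φ) x := rfl

theorem qmap_injective {φ : R →+* S} (hφ : Function.Injective φ) :
    Function.Injective (qmap a b φ) := fun _ _ h =>
  QuaternionAlgebra.ext (hφ (congrArg QuaternionAlgebra.re h))
    (hφ (congrArg QuaternionAlgebra.imI h)) (hφ (congrArg QuaternionAlgebra.imJ h))
    (hφ (congrArg QuaternionAlgebra.imK h))

theorem isUnit_iff_nr (x : Q a b R) : IsUnit x ↔ IsUnit (nr x) := by
  constructor
  · intro h
    obtain ⟨y, hy⟩ := h.exists_right_inv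
    exact IsUnit.of_mul_eq_one (nr y) (by rw [← nr_mul, hy, nr_one])
  · intro h
    obtain ⟨c, hc⟩ := h.exists_left_inv
    refine ⟨⟨x, c • star x, ?_, ?_⟩, rfl⟩
    · rw [mul_smul_comm, mul_star_eq_nr, Algebra.smul_def, ← map_mul, hc, map_one]
    · rw [smul_mul_assoc, star_mul_eq_nr, Algebra.smul_def, ← map_mul, hc, map_one]

theorem star_of_pure {x : Q a b R} (hx : x.re = 0) : star x = -x := by
  ext <;> simp [hx]

theorem pure_of_star [Algebra ℚ R] {x : Q a b R} (hx : star x = -x) : x.re = 0 := by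
  obtain ⟨w, hw⟩ := exists_half (R := R)
  have h0 := congrArg QuaternionAlgebra.re hx
  simp only [QuaternionAlgebra.re_star, QuaternionAlgebra.re_neg] at h0
  linear_combination w * h0 - x.re * hw

theorem mul_self_of_pure {x : Q a b R} (hx : x.re = 0) :
    x * x = algebraMap R (Q a b R) (sqp x) := by
  ext
  · rfl
  all_goals
    show _ = (0 : R)
    simp [hx]
    ring

theorem sqp_of_pure {x : Q a b R} (hx : x.re = 0) : sqp x = -nr x := by
  rw [sqp_eq, nr, hx]
  ring

theorem sqp_smul (c : R) (x : Q a b R) : sqp (c • x) = c ^ 2 * sqp x := by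
  simp only [sqp_eq, QuaternionAlgebra.re_smul, QuaternionAlgebra.imI_smul,
    QuaternionAlgebra.imJ_smul, QuaternionAlgebra.imK_smul, smul_eq_mul]
  ring

theorem nr_add_smul {ζ : Q a b R} (hζ : ζ.re = 0) (s t : R) :
    nr (algebraMap R (Q a b R) s + t • ζ) = s ^ 2 - sqp ζ * t ^ 2 := by
  simp [nr, sqp_eq, hζ]
  ring

theorem comm_pure [Algebra ℚ R] {ζ y : Q a b R} (hζ : ζ.re = 0) (hu : IsUnit (sqp ζ))
    (h : y * ζ = ζ * y) : ∃ s t : R, y = algebraMap R (Q a b R) s + t • ζ := by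
  obtain ⟨w, hw⟩ := exists_half (R := R)
  obtain ⟨c, hc⟩ := hu.exists_left_inv
  rw [sqp_eq, hζ] at hc
  have h1 := congrArg QuaternionAlgebra.imI h
  have h2 := congrArg QuaternionAlgebra.imJ h
  have h3 := congrArg QuaternionAlgebra.imK h
  simp only [QuaternionAlgebra.imI_mul, QuaternionAlgebra.imJ_mul, QuaternionAlgebra.imK_mul,
    hζ] at h1 h2 h3
  have e1 : b * (y.imK * ζ.imJ - y.imJ * ζ.imK) = 0 := by
    linear_combination w * h1 - b * (y.imK * ζ.imJ - y.imJ * ζ.imK) * hw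
  have e2 : a * (y.imI * ζ.imK - y.imK * ζ.imI) = 0 := by
    linear_combination w * h2 - a * (y.imI * ζ.imK - y.imK * ζ.imI) * hw
  have e3 : y.imI * ζ.imJ - y.imJ * ζ.imI = 0 := by
    linear_combination w * h3 - (y.imI * ζ.imJ - y.imJ * ζ.imI) * hw
  refine ⟨y.re, c * (a * y.imI * ζ.imI + b * y.imJ * ζ.imJ - a * b * y.imK * ζ.imK), ?_⟩
  ext
  · simp [hζ]
  · simp
    linear_combination c * b * ζ.imJ * e3 - c * b * ζ.imK * e2 - y.imI * hc
  · simp
    linear_combination -c * a * ζ.imI * e3 + c * a * ζ.imK * e1 - y.imJ * hc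
  · simp
    linear_combination -c * ζ.imI * e2 + c * ζ.imJ * e1 - y.imK * hc

theorem pure_of_anti [Algebra ℚ R] {ζ y : Q a b R} (hζ : ζ.re = 0) (hu : IsUnit (sqp ζ))
    (h : y * ζ = -(ζ * y)) : y.re = 0 := by
  obtain ⟨w, hw⟩ := exists_half (R := R)
  obtain ⟨c, hc⟩ := hu.exists_left_inv
  rw [sqp_eq, hζ] at hc
  have h1 := congrArg QuaternionAlgebra.imI h
  have h2 := congrArg QuaternionAlgebra.imJ h
  have h3 := congrArg QuaternionAlgebra.imK h
  simp only [QuaternionAlgebra.imI_mul, QuaternionAlgebra.imJ_mul, QuaternionAlgebra.imK_mul,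
    QuaternionAlgebra.imI_neg, QuaternionAlgebra.imJ_neg, QuaternionAlgebra.imK_neg,
    hζ] at h1 h2 h3
  have e1 : y.re * ζ.imI = 0 := by linear_combination w * h1 - y.re * ζ.imI * hw
  have e2 : y.re * ζ.imJ = 0 := by linear_combination w * h2 - y.re * ζ.imJ * hw
  have e3 : y.re * ζ.imK = 0 := by linear_combination w * h3 - y.re * ζ.imK * hw
  linear_combination c * a * ζ.imI * e1 + c * b * ζ.imJ * e2 - c * a * b * ζ.imK * e3 -
    y.re * hc

theorem countable_Q [Countable R] : Countable (Q a b R) := (QuaternionAlgebra.equivTuple _ _ _).injective.countable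

variable [NeZero a] [NeZero b]

theorem isNm_of_nr_eq_zero {x : Q a b E} (hx : x ≠ 0) (h : nr x = 0) :
    IsNm (a : E) (b : E) := by
  refine isNm_of_iso4 (Int.cast_ne_zero.2 (NeZero.ne a))
    (AlgAux.iso_iff4.2 ⟨x.re, x.imI, x.imJ, x.imK, ?_, ?_⟩)
  · by_contra hc
    push Not at hc
    exact hx (QuaternionAlgebra.ext hc.1 hc.2.1 hc.2.2.1 hc.2.2.2)
  · rw [nr] at h
    linear_combination h

theorem isUnit_of_div (hdiv : ¬ IsNm (a : E) (b : E)) {x : Q a b E} (hx : x ≠ 0) :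
    IsUnit x :=   (isUnit_iff_nr x).2 (isUnit_iff_ne_zero.2 fun h => hdiv (isNm_of_nr_eq_zero hx h))

theorem isNm_of_isSquare_sqp {x : Q a b E} (hx : x.re = 0) (h0 : x ≠ 0) (h : IsSquare (sqp x)) :
    IsNm (a : E) (b : E) := by
  obtain ⟨r, hr⟩ := h
  refine isNm_of_nr_eq_zero (x := algebraMap E (Q a b E) r + (1 : E) • x) (fun h => h0 ?_) ?_
  · have h1 := congrArg QuaternionAlgebra.imI h
    have h2 := congrArg QuaternionAlgebra.imJ h
    have h3 := congrArg QuaternionAlgebra.imK h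
    simp at h1 h2 h3
    exact QuaternionAlgebra.ext hx h1 h2 h3
  · rw [nr_add_smul hx, hr]
    ring

theorem exists_anti {x : Q a b E} (hx : x.re = 0) (h0 : sqp x ≠ 0) :
    ∃ θ : Q a b E, θ.re = 0 ∧ θ * x = -(x * θ) ∧ sqp θ ≠ 0 := by
  have ha : (a : E) ≠ 0 := Int.cast_ne_zero.2 (NeZero.ne a)
  have hb : (b : E) ≠ 0 := Int.cast_ne_zero.2 (NeZero.ne b)
  by_contra hc
  push Not at hc
  have h1 := hc ⟨0, 0, a * x.imK, x.imJ⟩ rfl (anti_of_orth hx rfl (by ring))
  have h2 := hc ⟨0, b * x.imK, 0, x.imI⟩ rfl (anti_of_orth hx rfl (by ring))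
  have h3 := hc ⟨0, b * x.imJ, -(a * x.imI), 0⟩ rfl (anti_of_orth hx rfl (by ring))
  rw [sqp_eq] at h0 h1 h2 h3
  dsimp only at h1 h2 h3
  refine h0 (mul_left_cancel₀ (mul_ne_zero two_ne_zero (mul_ne_zero ha hb)) ?_)
  rw [hx]
  linear_combination -b * h1 - a * h2 + h3

theorem isNm_iff_of_anti {x θ : Q a b E} (hx : x.re = 0) (hθ : θ.re = 0) (h0 : sqp x ≠ 0)
    (h1 : sqp θ ≠ 0) (h : θ * x = -(x * θ)) :
    IsNm (sqp x) (sqp θ) ↔ IsNm (a : E) (b : E) := by
  have hB := orth_of_anti hx h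
  constructor
  · rintro ⟨s, t, hst⟩
    refine isNm_of_nr_eq_zero (x := algebraMap E (Q a b E) s + t • x + θ) (fun hz => h1 ?_) ?_
    · have e1 := congrArg QuaternionAlgebra.imI hz
      have e2 := congrArg QuaternionAlgebra.imJ hz
      have e3 := congrArg QuaternionAlgebra.imK hz
      simp at e1 e2 e3
      rw [sqp_eq, hθ]
      linear_combination a * θ.imI * e1 + b * θ.imJ * e2 - a * b * θ.imK * e3 - t * hB
    · rw [sqp_eq, sqp_eq, hx, hθ] at hst
      simp [nr, hx, hθ]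
      linear_combination -hst - 2 * t * hB
  · rintro ⟨s, t, hst⟩
    refine isNm_of_iso4 h0 (AlgAux.iso_iff4.2 ⟨a * b * (t * (x.imK * θ.imJ - x.imJ * θ.imK) +
      (x.imI * θ.imK - x.imK * θ.imI)), a * t * θ.imI + b * θ.imJ, a * t * x.imI + b * x.imJ, s,
      ?_, ?_⟩)
    · by_contra hc
      push Not at hc
      obtain ⟨hD, hQ, hP, -⟩ := hc
      refine mul_ne_zero h0 h1 ?_
      have key : sqp x * sqp θ =
          sqp θ * (a * t * x.imI + b * x.imJ) * x.imJ + sqp x * (a * t * θ.imI + b * θ.imJ) * θ.imJ -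
          a * b * (t * (x.imK * θ.imJ - x.imJ * θ.imK) + (x.imI * θ.imK - x.imK * θ.imI)) *
            (a * (x.imI * θ.imK - x.imK * θ.imI)) := by
        rw [sqp_eq, sqp_eq, hx, hθ]
        linear_combination ((a * x.imI * θ.imI + b * x.imJ * θ.imJ - a * b * x.imK * θ.imK) -
          (a * t * θ.imI + b * θ.imJ) * x.imJ - (a * t * x.imI + b * x.imJ) * θ.imJ) * hB
      rw [key, hD, hQ, hP]
      ring
    · have e : s ^ 2 = a * t ^ 2 + b := by linear_combination -hst
      rw [e, sqp_eq, sqp_eq, hx, hθ]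
      linear_combination ((a * t ^ 2 + b) *
        (a * x.imI * θ.imI + b * x.imJ * θ.imJ - a * b * x.imK * θ.imK) -
          2 * (a * t * θ.imI + b * θ.imJ) * (a * t * x.imI + b * x.imJ)) * hB

/-- Skolem-Noether for pure quaternions over a field. -/
theorem exists_conj {x y : Q a b E} (hx : x.re = 0) (hy : y.re = 0) (h : sqp x = sqp y)
    (h0 : sqp x ≠ 0) : ∃ u : Q a b E, IsUnit u ∧ x * u = u * y := by
  have hxx := mul_self_of_pure hx
  have hyy := mul_self_of_pure hy
  rw [← h, ← hxx] at hyy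
  by_cases h1 : nr (x + y) = 0
  · obtain ⟨θ, hθ, hθx, hθ0⟩ := exists_anti hx h0
    have h2 : nr (x - y) ≠ 0 := by
      intro h2
      refine h0 (mul_left_cancel₀ (show (4 : E) ≠ 0 by norm_num) ?_)
      rw [sqp_eq, sqp_eq, hx, hy] at h
      simp only [nr, QuaternionAlgebra.re_add, QuaternionAlgebra.imI_add,
        QuaternionAlgebra.imJ_add, QuaternionAlgebra.imK_add, QuaternionAlgebra.re_sub,
        QuaternionAlgebra.imI_sub, QuaternionAlgebra.imJ_sub, QuaternionAlgebra.imK_sub,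
        hx, hy] at h1 h2
      rw [sqp_eq, hx]
      linear_combination 2 * h - h1 - h2
    refine ⟨θ * (x - y), ((isUnit_iff_nr _).2 (isUnit_iff_ne_zero.2 ?_)).mul
      ((isUnit_iff_nr _).2 (isUnit_iff_ne_zero.2 h2)), ?_⟩
    · intro h3
      exact hθ0 (by rw [sqp_of_pure hθ, h3, neg_zero])
    · rw [← mul_assoc, ← neg_neg (x * θ), ← hθx, neg_mul, mul_assoc, mul_assoc, ← mul_neg,
        mul_sub, sub_mul, hyy, neg_sub]
  · refine ⟨x + y, (isUnit_iff_nr _).2 (isUnit_iff_ne_zero.2 h1), ?_⟩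
    rw [mul_add, add_mul, hyy, add_comm]

namespace BasicAux

omit [NeZero a] [NeZero b] in
theorem red_lift [IsReduced R] [IsArtinianRing R]
    (u : ∀ m : MaximalSpectrum R, Q a b (R ⧸ m.asIdeal)) :
    ∃ z : Q a b R, ∀ m, qmap a b (Ideal.Quotient.mk m.asIdeal) z = u m := by
  obtain ⟨z0, h0⟩ := (IsArtinianRing.equivPi R).surjective fun m => (u m).re
  obtain ⟨z1, h1⟩ := (IsArtinianRing.equivPi R).surjective fun m => (u m).imI
  obtain ⟨z2, h2⟩ := (IsArtinianRing.equivPi R).surjective fun m => (u m).imJ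
  obtain ⟨z3, h3⟩ := (IsArtinianRing.equivPi R).surjective fun m => (u m).imK
  exact ⟨⟨z0, z1, z2, z3⟩, fun m => QuaternionAlgebra.ext (congrFun h0 m) (congrFun h1 m)
    (congrFun h2 m) (congrFun h3 m)⟩

theorem red_eq [IsReduced R] [IsArtinianRing R] {r r' : R}
    (h : ∀ m : MaximalSpectrum R, Ideal.Quotient.mk m.asIdeal r = Ideal.Quotient.mk m.asIdeal r') :
    r = r' := (IsArtinianRing.equivPi R).injective (funext h)

omit [NeZero a] [NeZero b] in
theorem red_ext [IsReduced R] [IsArtinianRing R] {z z' : Q a b R}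
    (h : ∀ m : MaximalSpectrum R, qmap a b (Ideal.Quotient.mk m.asIdeal) z =
      qmap a b (Ideal.Quotient.mk m.asIdeal) z') : z = z' :=
  QuaternionAlgebra.ext (red_eq fun m => congrArg QuaternionAlgebra.re (h m))
    (red_eq fun m => congrArg QuaternionAlgebra.imI (h m))
    (red_eq fun m => congrArg QuaternionAlgebra.imJ (h m))
    (red_eq fun m => congrArg QuaternionAlgebra.imK (h m))

theorem red_unit {r : R} (h : ∀ m : MaximalSpectrum R, IsUnit (Ideal.Quotient.mk m.asIdeal r)) :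
    IsUnit r := by
  by_contra hc
  obtain ⟨m, hm, hr⟩ := exists_max_ideal_of_mem_nonunits (mem_nonunits_iff.2 hc)
  have h1 := h ⟨m, hm⟩
  have := Ideal.Quotient.nontrivial_iff.2 hm.ne_top
  exact h1.ne_zero (Ideal.Quotient.eq_zero_iff_mem.2 hr)

end BasicAux

/-- Skolem-Noether for pure quaternions over a finite product of fields. -/
theorem exists_conj_red [Algebra ℚ R] [IsReduced R] [IsArtinianRing R] {x y : Q a b R}
    (hx : x.re = 0) (hy : y.re = 0) (h : sqp x = sqp y) (h0 : IsUnit (sqp x)) :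
    ∃ u : Q a b R, IsUnit u ∧ x * u = u * y := by
  have hm : ∀ m : MaximalSpectrum R, ∃ u : Q a b (R ⧸ m.asIdeal), IsUnit u ∧
      qmap a b (Ideal.Quotient.mk m.asIdeal) x * u =
        u * qmap a b (Ideal.Quotient.mk m.asIdeal) y := by
    intro m
    have := m.isMaximal
    let _ := Ideal.Quotient.field m.asIdeal
    have : CharZero (R ⧸ m.asIdeal) := algebraRat.charZero _
    refine exists_conj (E := R ⧸ m.asIdeal) (qmap_pure _ hx)
      (qmap_pure _ hy) ?_ ?_
    · rw [sqp_qmap, sqp_qmap, h]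
    · rw [sqp_qmap]
      exact (h0.map _).ne_zero
  choose u hu hu' using hm
  obtain ⟨z, hz⟩ := red_lift u
  refine ⟨z, (isUnit_iff_nr _).2 (red_unit fun m => ?_), red_ext fun m => ?_⟩
  · rw [← nr_qmap, hz]
    exact (isUnit_iff_nr _).1 (hu m)
  · rw [map_mul, map_mul, hz, hu']

theorem exists_anti_red [Algebra ℚ R] [IsReduced R] [IsArtinianRing R] {x : Q a b R}
    (hx : x.re = 0) (h0 : IsUnit (sqp x)) :
    ∃ θ : Q a b R, θ.re = 0 ∧ θ * x = -(x * θ) ∧ IsUnit (sqp θ) := by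
  have hm : ∀ m : MaximalSpectrum R, ∃ u : Q a b (R ⧸ m.asIdeal), u.re = 0 ∧
      u * qmap a b (Ideal.Quotient.mk m.asIdeal) x =
        -(qmap a b (Ideal.Quotient.mk m.asIdeal) x * u) ∧ IsUnit (sqp u) := by
    intro m
    have := m.isMaximal
    let _ := Ideal.Quotient.field m.asIdeal
    have : CharZero (R ⧸ m.asIdeal) := algebraRat.charZero _
    obtain ⟨θ, h1, h2, h3⟩ := exists_anti (E := R ⧸ m.asIdeal)
      (x := qmap a b (Ideal.Quotient.mk m.asIdeal) x) (qmap_pure _ hx)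
      (by rw [sqp_qmap]; exact (h0.map _).ne_zero)
    exact ⟨θ, h1, h2, isUnit_iff_ne_zero.2 h3⟩
  choose u hu0 hu hu' using hm
  obtain ⟨z, hz⟩ := red_lift u
  refine ⟨z, red_eq fun m => ?_, red_ext fun m => ?_, red_unit fun m => ?_⟩
  · rw [map_zero, ← hu0 m, ← hz m]
    rfl
  · rw [map_neg, map_mul, map_mul, hz, hu]
  · rw [← sqp_qmap, hz]
    exact hu' m

set_option linter.unusedSectionVars false in
/-- If `b b'` is a norm then the algebras `(a, b')` and `(a, b)` are isomorphic. -/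
theorem exists_twist_hom [Algebra ℚ R] {b' : ℤ} (h : IsNm (a : R) ((b : R) * b')) :
    ∃ f : Q a b' R →ₐ[R] Q a b R, ∀ z, (f z).re = z.re := by
  obtain ⟨s, t, hst⟩ := h
  obtain ⟨c, hc⟩ : ∃ c : R, c * b = 1 := ⟨algebraMap ℚ R (b : ℚ)⁻¹, by
    rw [← map_intCast (algebraMap ℚ R) b, ← map_mul,
      inv_mul_cancel₀ (Int.cast_ne_zero.2 (NeZero.ne b)), map_one]⟩
  let q : QuaternionAlgebra.Basis (Q a b R) (a : R) 0 (b' : R) :=
    { i := ⟨0, 1, 0, 0⟩
      j := ⟨0, 0, c * s, c * t⟩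
      k := ⟨0, 0, a * (c * t), c * s⟩
      i_mul_i := by ext <;> simp
      j_mul_j := by
        ext
        · simp
          linear_combination -(c ^ 2 * b) * hst + b' * (c * b + 1) * hc
        all_goals
          simp
          try ring
      i_mul_j := by ext <;> simp
      j_mul_i := by ext <;> simp }
  exact ⟨q.liftHom, fun z => by simp [q, QuaternionAlgebra.Basis.lift]⟩

end Pool.Agent.P.MP_3c2f8c_gt
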