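import Pool.Agent.P.MP_3c2f8c_gt.Gl.Fin
import Pool.Agent.P.MP_3c2f8c_gt.NT.Etale

/-! QU-10: the commutative algebra generated by a companion matrix. -/

namespace Pool.Agent.P.MP_3c2f8c_gt

open Matrix Polynomial

variable {a b : ℤ} {r : ℕ} {C W : Matrix (Fin (r + 1)) (Fin (r + 1)) ℚ} {m : ℚ[X]}
  {R : Type} [CommRing R] [Algebra ℚ R] {E : Type} [Field E] [Algebra ℚ E]

namespace CycAux

theorem exists_basis (hm : m.Monic) (hd : m.natDegree = r + 1) :
    ∃ B : Module.Basis (Fin (r + 1)) ℚ (AdjoinRoot m),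
      ∀ k, B k = AdjoinRoot.root m ^ (k : ℕ) :=
  ⟨(AdjoinRoot.powerBasis' hm).basis.reindex (finCongr hd), fun k => by
    rw [Module.Basis.reindex_apply, PowerBasis.basis_eq_pow]
    rfl⟩

variable {K : Type} [CommRing K] {D : Matrix (Fin (r + 1)) (Fin (r + 1)) K}

theorem ext_col (hp : ∀ k : Fin (r + 1), (D ^ (k : ℕ)) *ᵥ Pi.single 0 1 = Pi.single k 1)
    {X Y : Matrix (Fin (r + 1)) (Fin (r + 1)) K} (hX : Commute X D) (hY : Commute Y D)
    (h : X *ᵥ Pi.single 0 1 = Y *ᵥ Pi.single 0 1) : X = Y := by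
  have key : ∀ k, X *ᵥ Pi.single k 1 = Y *ᵥ Pi.single k 1 := fun k => by
    rw [← hp k, mulVec_mulVec, mulVec_mulVec, (hX.pow_right k).eq, (hY.pow_right k).eq,
      ← mulVec_mulVec, ← mulVec_mulVec, h]
  ext i k
  simpa using congrFun (key k) i

theorem sum_mulVec0 (hp : ∀ k : Fin (r + 1), (D ^ (k : ℕ)) *ᵥ Pi.single 0 1 = Pi.single k 1)
    (c : Fin (r + 1) → K) : (∑ k : Fin (r + 1), c k • D ^ (k : ℕ)) *ᵥ Pi.single 0 1 = c := by
  rw [sum_mulVec]
  simp only [smul_mulVec, hp]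
  funext i
  simp [Finset.sum_apply, Pi.single_apply]

theorem mem_adjoin (hp : ∀ k : Fin (r + 1), (D ^ (k : ℕ)) *ᵥ Pi.single 0 1 = Pi.single k 1)
    {X : Matrix (Fin (r + 1)) (Fin (r + 1)) K} (hX : Commute X D) :
    X ∈ Algebra.adjoin K {D} := by
  rw [ext_col hp hX (Y := ∑ k : Fin (r + 1), (X *ᵥ Pi.single 0 1) k • D ^ (k : ℕ))
    (Commute.sum_left _ _ _ fun k _ => ((Commute.refl D).pow_left k).smul_left _)
    (sum_mulVec0 hp _).symm]
  exact sum_mem fun k _ => Subalgebra.smul_mem _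
    (pow_mem (Algebra.self_mem_adjoin_singleton K D) _) _

theorem dvd_of_aeval (hp : ∀ k : Fin (r + 1), (D ^ (k : ℕ)) *ᵥ Pi.single 0 1 = Pi.single k 1)
    {n q : K[X]} (hn : n.Monic) (hd : n.natDegree = r + 1) (h0 : aeval D n = 0)
    (hq : aeval D q *ᵥ Pi.single 0 1 = 0) : n ∣ q := by
  have hlt : (q %ₘ n).natDegree < r + 1 := by
    rw [← hd]
    refine natDegree_modByMonic_lt q hn fun h1 => ?_
    rw [h1, natDegree_one] at hd
    omega
  rw [← aeval_modByMonic_eq_self_of_root (p := q) h0, aeval_eq_sum_range' hlt,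
    Finset.sum_range (fun i => (q %ₘ n).coeff i • D ^ i), sum_mulVec0 hp] at hq
  rw [← modByMonic_eq_zero_iff_dvd hn]
  ext i
  by_cases hi : i < r + 1
  · exact congrFun hq ⟨i, hi⟩
  · exact coeff_eq_zero_of_natDegree_lt (by omega)

theorem pow_map (h : Cyc C W m) (k : Fin (r + 1)) :
    (C.map (ra R) ^ (k : ℕ)) *ᵥ Pi.single 0 1 = Pi.single k 1 := by
  funext i
  have := congrArg (ra R) (congrFun (h.pow k) i)
  rw [← RingHom.mapMatrix_apply, ← map_pow]
  simp only [mulVec_single_one, col_apply] at this ⊢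
  rw [RingHom.mapMatrix_apply, Matrix.map_apply, this, Pi.single_apply, Pi.single_apply]
  split_ifs <;> simp

theorem aeval_map (q : ℚ[X]) :
    aeval (C.map (ra R)) (q.map (ra R)) = (aeval C q).map (ra R) :=
  (map_aeval_eq_aeval_map (φ := ra R) (ψ := (ra R).mapMatrix) (Subsingleton.elim _ _) q C).symm

theorem ffV_aeval (q : R[X]) : ffV R C (aeval (ffT R C) q) = aeval (C.map (ra R)) q :=
  (aeval_algHom_apply (Algebra.adjoin R {C.map (ra R)}).val (ffT R C) q).symm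

theorem ffV_inj : Function.Injective (ffV R C) := Subtype.val_injective

theorem aeval_surj : Function.Surjective (aeval (ffT R C) : R[X] →ₐ[R] FF R C) := fun f => by
  obtain ⟨q, hq⟩ := Algebra.adjoin_eq_exists_aeval R _ f
  exact ⟨q, ffV_inj ((ffV_aeval q).trans hq)⟩

theorem aeval_ffT (h : Cyc C W m) : aeval (ffT R C) (m.map (ra R)) = 0 := by
  apply ffV_inj
  rw [ffV_aeval, aeval_map, h.aeval_eq, map_zero]
  exact Matrix.map_zero _ (map_zero _)

theorem aeval_ffT_rat (h : Cyc C W m) : aeval (ffT ℚ C) m = 0 := by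
  have e : m.map (ra ℚ) = m := Polynomial.map_id
  rw [← e]
  exact aeval_ffT h

theorem dvd_of_ffT (h : Cyc C W m) {q : E[X]} (hq : aeval (ffT E C) q = 0) :
    m.map (ra E) ∣ q := by
  refine dvd_of_aeval (pow_map h) (h.monic.map _) ((h.monic.natDegree_map _).trans h.deg) ?_ ?_
  · rw [← ffV_aeval, aeval_ffT h, map_zero]
  · rw [← ffV_aeval, hq, map_zero, zero_mulVec]

theorem map_mul_cst {ι : Type} [Fintype ι] (l : Q a b K →ₗ[K] K) (X : Matrix ι ι (Q a b K))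
    (M : Matrix ι ι K) : (X * cst a b M).map l = X.map l * M := by
  ext i k
  simp only [Matrix.map_apply, Matrix.mul_apply, map_sum]
  refine Finset.sum_congr rfl fun j _ => ?_
  rw [← Algebra.commutes, ← Algebra.smul_def, map_smul, smul_eq_mul, mul_comm]

theorem map_cst_mul {ι : Type} [Fintype ι] (l : Q a b K →ₗ[K] K) (X : Matrix ι ι (Q a b K))
    (M : Matrix ι ι K) : (cst a b M * X).map l = M * X.map l := by
  ext i k
  simp only [Matrix.map_apply, Matrix.mul_apply, map_sum]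
  refine Finset.sum_congr rfl fun j _ => ?_
  rw [← Algebra.smul_def, map_smul, smul_eq_mul]

theorem ext_lin {ι : Type} {X Y : Matrix ι ι (Q a b K)}
    (h1 : X.map (QuaternionAlgebra.reₗ _ _ _) = Y.map (QuaternionAlgebra.reₗ _ _ _))
    (h2 : X.map (QuaternionAlgebra.imIₗ _ _ _) = Y.map (QuaternionAlgebra.imIₗ _ _ _))
    (h3 : X.map (QuaternionAlgebra.imJₗ _ _ _) = Y.map (QuaternionAlgebra.imJₗ _ _ _))
    (h4 : X.map (QuaternionAlgebra.imKₗ _ _ _) = Y.map (QuaternionAlgebra.imKₗ _ _ _)) :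
    X = Y := by
  ext i k
  exacts [congrFun (congrFun h1 i) k, congrFun (congrFun h2 i) k, congrFun (congrFun h3 i) k,
    congrFun (congrFun h4 i) k]

theorem transpose_ffV (h : Cyc C W m) (f : FF R C) :
    (ffV R C f)ᵀ * W.map (ra R) = W.map (ra R) * ffV R C f := by
  obtain ⟨q, rfl⟩ := aeval_surj f
  rw [ffV_aeval]
  have h1 : (C.map (ra R))ᵀ * W.map (ra R) = W.map (ra R) * C.map (ra R) := by
    rw [← transpose_map, ← Matrix.map_mul, ← Matrix.map_mul, h.adj]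
  have h2 : ∀ n : ℕ, (C.map (ra R) ^ n)ᵀ * W.map (ra R) = W.map (ra R) * C.map (ra R) ^ n := by
    intro n
    induction n with
    | zero => simp
    | succ n ih =>
      rw [pow_succ, transpose_mul, Matrix.mul_assoc, ih, ← Matrix.mul_assoc, h1,
        Matrix.mul_assoc, ← pow_succ, ← pow_succ']
  induction q using Polynomial.induction_on' with
  | add p q hp hq => rw [map_add, transpose_add, Matrix.add_mul, Matrix.mul_add, hp, hq]
  | monomial n c =>
    rw [aeval_monomial, ← Algebra.smul_def, transpose_smul, Matrix.smul_mul, Matrix.mul_smul, h2]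

theorem isUnit_sub (h : Cyc C W m) {c : ℚ} (hc : m.eval c ≠ 0) :
    IsUnit (ffT ℚ C - algebraMap ℚ (FF ℚ C) c) := by
  obtain ⟨q, hq⟩ := X_sub_C_dvd_sub_C_eval (p := m) (a := c)
  have h0 := aeval_ffT_rat h
  have h1 := congrArg (aeval (ffT ℚ C)) hq
  rw [map_sub, map_mul, map_sub, h0, aeval_C, aeval_C, aeval_X, zero_sub] at h1
  exact isUnit_of_mul_isUnit_left (h1 ▸ (hc.isUnit.map (algebraMap ℚ (FF ℚ C))).neg)

/-- The elements with integral entries. -/
noncomputable def intF (p : ℕ) [Fact p.Prime] (C : Matrix (Fin (r + 1)) (Fin (r + 1)) ℚ) :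
    Subalgebra ℤ_[p] (FF ℚ_[p] C) :=
  (AlgHom.mapMatrix (Algebra.ofId ℤ_[p] ℚ_[p])).range.comap
    ((Algebra.adjoin ℚ_[p] {C.map (ra ℚ_[p])}).val.restrictScalars ℤ_[p])

theorem mem_intF {p : ℕ} [Fact p.Prime] (f : FF ℚ_[p] C) :
    f ∈ intF p C ↔ ∀ i j, ‖ffV ℚ_[p] C f i j‖ ≤ 1 := by
  constructor
  · rintro ⟨M, hM⟩ i j
    have : ((M i j : ℤ_[p]) : ℚ_[p]) = ffV ℚ_[p] C f i j := congrFun (congrFun hM i) j
    rw [← this]
    exact (M i j).2
  · intro h
    exact ⟨Matrix.of fun i j => ⟨ffV ℚ_[p] C f i j, h i j⟩, rfl⟩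

theorem intF_finite (p : ℕ) [Fact p.Prime] : Module.Finite ℤ_[p] (intF p C) := by
  let l : intF p C →ₗ[ℤ_[p]] Matrix (Fin (r + 1)) (Fin (r + 1)) ℤ_[p] :=
    { toFun := fun f => Matrix.of fun i j => ⟨ffV ℚ_[p] C f.1 i j, (mem_intF f.1).1 f.2 i j⟩
      map_add' := fun _ _ => rfl
      map_smul' := fun _ _ => rfl }
  refine Module.Finite.of_injective l fun f g hfg => Subtype.ext (ffV_inj ?_)
  ext i j
  exact congrArg Subtype.val (congrFun (congrFun hfg i) j)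

theorem intM_jm {p : ℕ} [Fact p.Prime] (y : Q a b (FF ℚ_[p] C)) :
    IntM (jm a b (ffV ℚ_[p] C) y) ↔
      y.re ∈ intF p C ∧ y.imI ∈ intF p C ∧ y.imJ ∈ intF p C ∧ y.imK ∈ intF p C := by
  simp only [mem_intF, IntM, mem_intQ]
  exact ⟨fun h => ⟨fun i j => (h i j).1, fun i j => (h i j).2.1, fun i j => (h i j).2.2.1,
    fun i j => (h i j).2.2.2⟩, fun h i j => ⟨h.1 i j, h.2.1 i j, h.2.2.1 i j, h.2.2.2 i j⟩⟩

theorem norm_sol (S : Subring K) {z : Q a b K} (hz : z.re = 0) {α α' s t : K} (hα : α * α' = 1)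
    (hst : α = s ^ 2 - sqp z * t ^ 2) (z2 : z.imI ∈ S) (z3 : z.imJ ∈ S) (z4 : z.imK ∈ S)
    (hs : s ∈ S) (ht : t ∈ S) (ha : α' ∈ S) : ∃ y y' : Q a b K,
      y * y' = 1 ∧ y' * y = 1 ∧ y * z = z * y ∧ nr y = α ∧
      (y.re ∈ S ∧ y.imI ∈ S ∧ y.imJ ∈ S ∧ y.imK ∈ S) ∧
      y'.re ∈ S ∧ y'.imI ∈ S ∧ y'.imJ ∈ S ∧ y'.imK ∈ S := by
  have hn : nr (algebraMap K (Q a b K) s + t • z) = α := by rw [nr_add_smul hz, hst]
  have h1 : α' • algebraMap K (Q a b K) α = 1 := by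
    rw [Algebra.smul_def, ← map_mul, mul_comm, hα, map_one]
  refine ⟨algebraMap K (Q a b K) s + t • z, α' • star (algebraMap K (Q a b K) s + t • z),
    ?_, ?_, ?_, hn, ?_, ?_⟩
  · rw [mul_smul_comm, mul_star_eq_nr, hn, h1]
  · rw [smul_mul_assoc, star_mul_eq_nr, hn, h1]
  · rw [add_mul, mul_add, Algebra.commutes, smul_mul_assoc, mul_smul_comm]
  · simpa [hz] using ⟨hs, mul_mem ht z2, mul_mem ht z3, mul_mem ht z4⟩
  · simpa [hz] using ⟨mul_mem ha hs, mul_mem ha (mul_mem ht z2), mul_mem ha (mul_mem ht z3),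
      mul_mem ha (mul_mem ht z4)⟩

end CycAux

open CycAux

theorem exists_cyc (hm : m.Monic) (hd : m.natDegree = r + 1) :
    ∃ C W : Matrix (Fin (r + 1)) (Fin (r + 1)) ℚ, Cyc C W m := by
  obtain ⟨B, hB⟩ := exists_basis hm hd
  have key : ∀ x y : AdjoinRoot m, ∑ j, B.repr x j * B.coord (Fin.last r) (B j * y) =
      B.coord (Fin.last r) (x * y) := fun x y => by
    conv_rhs => rw [← B.sum_repr x]
    simp only [Finset.sum_mul, map_sum, smul_mul_assoc, map_smul, smul_eq_mul]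
  refine ⟨Algebra.leftMulMatrix B (AdjoinRoot.root m),
    Matrix.of fun i k => B.coord (Fin.last r) (B i * B k), hm, hd, ?_, fun k => ?_, ?_, ?_, ?_⟩
  · rw [aeval_algHom_apply, AdjoinRoot.aeval_eq, AdjoinRoot.mk_self, map_zero]
  · funext i
    rw [← map_pow, mulVec_single_one, col_apply, Algebra.leftMulMatrix_eq_repr_mul, hB 0,
      ← hB k]
    simp [Finsupp.single_apply, Pi.single_apply, eq_comm]
  · ext i k
    simp only [transpose_apply, of_apply, mul_comm]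
  · rw [← isUnit_submatrix_equiv Fin.revPerm (Equiv.refl _), isUnit_iff_isUnit_det,
      det_of_isUpperTriangular]
    · refine IsUnit.of_mul_eq_one 1 ((mul_one _).trans (Finset.prod_eq_one fun i _ => ?_))
      have e : B (Fin.rev i) * B i = B (Fin.last r) := by
        rw [hB, hB, hB, ← pow_add, Fin.val_rev, Fin.val_last]
        congr 1
        omega
      simp [e]
    · intro i k hik
      have hik' : (k : ℕ) < i := hik
      have hlt : (Fin.rev i : ℕ) + k < r := by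
        rw [Fin.val_rev]
        omega
      have e : B (Fin.rev i) * B k = B ⟨(Fin.rev i : ℕ) + k, by omega⟩ := by
        rw [hB, hB, hB, ← pow_add]
      have hne : (⟨(Fin.rev i : ℕ) + k, by omega⟩ : Fin (r + 1)) ≠ Fin.last r :=
        fun h => hlt.ne (congrArg Fin.val h)
      simp only [submatrix_apply, of_apply, Fin.revPerm_apply, Equiv.refl_apply]
      rw [e, Module.Basis.coord_apply, B.repr_self, Finsupp.single_eq_of_ne hne.symm]
  · ext i k
    simp only [Matrix.mul_apply, transpose_apply, of_apply, Algebra.leftMulMatrix_eq_repr_mul]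
    rw [key]
    simp only [mul_comm (B.coord (Fin.last r) _), mul_comm (B i)]
    rw [key]
    congr 1
    ring

theorem jm_injective : Function.Injective (jm a b (ffV R C)) := fun x y h => by
  ext1 <;> apply ffV_inj <;> ext i k
  exacts [congrArg QuaternionAlgebra.re (congrFun (congrFun h i) k),
    congrArg QuaternionAlgebra.imI (congrFun (congrFun h i) k),
    congrArg QuaternionAlgebra.imJ (congrFun (congrFun h i) k),
    congrArg QuaternionAlgebra.imK (congrFun (congrFun h i) k)]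

theorem jm_algebraMap (f : FF R C) :
    jm a b (ffV R C) (algebraMap _ _ f) = cst a b (ffV R C f) := rfl

theorem jm_ffM (y : Q a b (FF ℚ C)) :
    jm a b (ffV R C) (qmap a b (ffM R C) y) = bc (ra R) (jm a b (ffV ℚ C) y) := rfl

theorem ffV_ffM (f : FF ℚ C) : ffV R C (ffM R C f) = (ffV ℚ C f).map (ra R) := rfl

theorem ffM_ffT : ffM R C (ffT ℚ C) = ffT R C := rfl

theorem Cyc.comm (h : Cyc C W m) {X : Matrix (Fin (r + 1)) (Fin (r + 1)) (Q a b R)}
    (hX : X * cst a b (C.map (ra R)) = cst a b (C.map (ra R)) * X) :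
    ∃ y, jm a b (ffV R C) y = X := by
  have key : ∀ l : Q a b R →ₗ[R] R, X.map l ∈ Algebra.adjoin R {C.map (ra R)} := fun l =>
    mem_adjoin (pow_map h) (by rw [Commute, SemiconjBy, ← map_mul_cst, ← map_cst_mul, hX])
  exact ⟨⟨⟨_, key (QuaternionAlgebra.reₗ _ _ _)⟩, ⟨_, key (QuaternionAlgebra.imIₗ _ _ _)⟩,
    ⟨_, key (QuaternionAlgebra.imJₗ _ _ _)⟩, ⟨_, key (QuaternionAlgebra.imKₗ _ _ _)⟩⟩, rfl⟩

theorem Cyc.isUnit_of_jm (h : Cyc C W m) {y : Q a b (FF R C)}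
    (hy : IsUnit (jm a b (ffV R C) y)) : IsUnit y := by
  obtain ⟨u, hu⟩ := hy
  have hc : Commute (u : Matrix _ _ (Q a b R)) (cst a b (C.map (ra R))) := by
    rw [hu]
    exact (Algebra.commute_algebraMap_right (ffT R C) y).map (jm a b (ffV R C))
  obtain ⟨y', hy'⟩ := h.comm hc.units_inv_left.eq
  refine ⟨⟨y, y', jm_injective ?_, jm_injective ?_⟩, rfl⟩
  · rw [map_mul, map_one, hy', ← hu, Units.mul_inv]
  · rw [map_mul, map_one, hy', ← hu, Units.inv_mul]

theorem Cyc.conjTranspose_jm (h : Cyc C W m) (y : Q a b (FF R C)) :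
    (jm a b (ffV R C) y)ᴴ * cst a b (W.map (ra R)) =
      cst a b (W.map (ra R)) * jm a b (ffV R C) (star y) := by
  have key : ∀ (l : Q a b R →ₗ[R] R) (f : FF R C),
      (jm a b (ffV R C) y)ᴴ.map l = (ffV R C f)ᵀ → (jm a b (ffV R C) (star y)).map l = ffV R C f →
      ((jm a b (ffV R C) y)ᴴ * cst a b (W.map (ra R))).map l =
        (cst a b (W.map (ra R)) * jm a b (ffV R C) (star y)).map l := fun l f h1 h2 => by
    rw [map_mul_cst, map_cst_mul, h1, h2, transpose_ffV h]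
  refine ext_lin (key _ (star y).re ?_ rfl) (key _ (star y).imI ?_ rfl)
    (key _ (star y).imJ ?_ rfl) (key _ (star y).imK ?_ rfl) <;> ext i k <;> simp [jm]

theorem ff_finite : Module.Finite E (FF E C) := inferInstance

theorem Cyc.isReduced (h : Cyc C W m) (hs : m.Separable) : IsReduced (FF E C) := ⟨by
  rintro f ⟨n, hn⟩
  obtain ⟨q, rfl⟩ := aeval_surj f
  rw [← map_pow] at hn
  obtain ⟨s, rfl⟩ := (hs.map (f := ra E)).squarefree.isRadical n q (dvd_of_ffT h hn)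
  rw [map_mul, aeval_ffT h, zero_mul]⟩

theorem Cyc.lift (h : Cyc C W m) {L : Type} [CommRing L] (φ : E →+* L) (ψ : FF ℚ C →+* L) :
    ∃ χ : FF E C →+* L, ∀ f, χ (ffM E C f) = ψ f := by
  let π : E[X] →+* FF E C := (aeval (ffT E C) : E[X] →ₐ[E] FF E C)
  let π₀ : ℚ[X] →+* FF ℚ C := (aeval (ffT ℚ C) : ℚ[X] →ₐ[ℚ] FF ℚ C)
  let g : E[X] →+* L := eval₂RingHom φ (ψ (ffT ℚ C))
  have hπ : Function.Surjective π := aeval_surj
  have e1 : g.comp (mapRingHom (ra E)) = ψ.comp π₀ :=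
    ringHom_ext' (Subsingleton.elim _ _) (by simp [g, π₀])
  have e2 : π.comp (mapRingHom (ra E)) = (ffM E C).comp π₀ :=
    ringHom_ext' (Subsingleton.elim _ _) (by simp [π, π₀, ffM_ffT])
  have h0 : π₀ m = 0 := aeval_ffT_rat h
  have hk : RingHom.ker π ≤ RingHom.ker g := fun q hq => by
    obtain ⟨s, rfl⟩ := dvd_of_ffT h (q := q) hq
    have : g (m.map (ra E)) = ψ (π₀ m) := RingHom.congr_fun e1 m
    rw [RingHom.mem_ker, map_mul, this, h0, map_zero, zero_mul]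
  refine ⟨π.liftOfSurjective hπ ⟨g, hk⟩, fun f => ?_⟩
  obtain ⟨q, rfl⟩ := aeval_surj f
  have e3 : π (q.map (ra E)) = ffM E C (aeval (ffT ℚ C) q) := RingHom.congr_fun e2 q
  rw [← e3, RingHom.liftOfSurjective_comp_apply]
  exact RingHom.congr_fun e1 q

theorem Cyc.isUnit_disc (h : Cyc C W m) (h2 : m.eval 2 ≠ 0) (h2' : m.eval (-2) ≠ 0) :
    IsUnit (ffT ℚ C ^ 2 - 4) := by
  have := (isUnit_sub h h2).mul (isUnit_sub h h2')
  rw [map_neg, map_ofNat] at this
  rwa [show ffT ℚ C ^ 2 - 4 = (ffT ℚ C - 2) * (ffT ℚ C - -2) by ring]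

theorem Cyc.mul_cyclic (h : Cyc C W m) {β : Matrix (Fin (r + 1)) (Fin (r + 1)) (Q a b ℚ)}
    (hβ : aeval β m = 0) (e : Fin (r + 1) → Q a b ℚ) :
    β * (Matrix.of fun i k : Fin (r + 1) => ((β ^ (k : ℕ)) *ᵥ e) i) =
      (Matrix.of fun i k : Fin (r + 1) => ((β ^ (k : ℕ)) *ᵥ e) i) * cst a b C := by
  have key : ∀ k : Fin (r + 1), β ^ ((k : ℕ) + 1) = ∑ j : Fin (r + 1), C j k • β ^ (j : ℕ) := by
    intro k
    have e1 : ∀ {A : Type} [Ring A] [Algebra ℚ A] (x : A),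
        aeval x (X ^ ((k : ℕ) + 1) - ∑ j : Fin (r + 1), C j k • X ^ (j : ℕ) : ℚ[X]) =
          x ^ ((k : ℕ) + 1) - ∑ j : Fin (r + 1), C j k • x ^ (j : ℕ) := fun x => by
      simp [map_sum]
    obtain ⟨s, hs⟩ := dvd_of_aeval h.pow h.monic h.deg h.aeval_eq
      (q := X ^ ((k : ℕ) + 1) - ∑ j : Fin (r + 1), C j k • X ^ (j : ℕ)) (by
        rw [e1, sub_mulVec, sum_mulVec0 h.pow fun j => C j k, pow_succ', ← mulVec_mulVec, h.pow,
          mulVec_single_one]
        exact sub_self _)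
    rw [← sub_eq_zero, ← e1, hs, map_mul, hβ, zero_mul]
  funext i k
  have e2 : (β * (Matrix.of fun i k : Fin (r + 1) => ((β ^ (k : ℕ)) *ᵥ e) i)) i k =
      (β *ᵥ (β ^ (k : ℕ)) *ᵥ e) i := rfl
  rw [e2, mulVec_mulVec, ← pow_succ', key, sum_mulVec, Finset.sum_apply, Matrix.mul_apply]
  refine Finset.sum_congr rfl fun j _ => ?_
  rw [smul_mulVec, Pi.smul_apply, Algebra.smul_def, Algebra.commutes]
  rfl

/-- At almost all primes a unit is a norm from the integral structure. -/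
theorem integral_norm {ζ : Q a b (FF ℚ C)} (hζ : ζ.re = 0) (hd : IsUnit (sqp ζ)) {α : FF ℚ C}
    (hα : IsUnit α) : {p : Nat.Primes | ¬ ∃ y y' : Q a b (FF ℚ_[p] C),
      y * y' = 1 ∧ y' * y = 1 ∧ y * qmap a b (ffM ℚ_[p] C) ζ = qmap a b (ffM ℚ_[p] C) ζ * y ∧
      nr y = ffM ℚ_[p] C α ∧ IntM (jm a b (ffV ℚ_[p] C) y) ∧
      IntM (jm a b (ffV ℚ_[p] C) y')}.Finite := by
  obtain ⟨α', hα'⟩ := hα.exists_right_inv
  obtain ⟨d', hd'⟩ := hd.exists_right_inv
  refine (((finite_not_intM (jm a b (ffV ℚ C) ζ)).union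
    (finite_not_intM (jm a b (ffV ℚ C) ⟨α, α', sqp ζ, d'⟩))).union
    (Set.finite_singleton ⟨2, Nat.prime_two⟩)).subset fun p hp => ?_
  by_contra hn
  simp only [Set.mem_union, Set.mem_ofPred_eq, not_or, not_not, ← jm_ffM, intM_jm] at hn
  obtain ⟨⟨⟨-, z2, z3, z4⟩, a1, a2, a3, a4⟩, hp2⟩ := hn
  have := intF_finite (C := C) p.1
  obtain ⟨s, t, hst⟩ := isNm_of_finite p.1 (fun h => hp2 (Subtype.ext h)) (R := intF p C)
    (d := ⟨ffM ℚ_[p] C (sqp ζ), a3⟩) (b := ⟨ffM ℚ_[p] C α, a1⟩)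
    (IsUnit.of_mul_eq_one ⟨ffM ℚ_[p] C d', a4⟩ (Subtype.ext (by
      show ffM ℚ_[p] C (sqp ζ) * ffM ℚ_[p] C d' = 1
      rw [← map_mul, hd', map_one])))
    (IsUnit.of_mul_eq_one ⟨ffM ℚ_[p] C α', a2⟩ (Subtype.ext (by
      show ffM ℚ_[p] C α * ffM ℚ_[p] C α' = 1
      rw [← map_mul, hα', map_one])))
  have hst' : ffM ℚ_[p] C α = s.1 ^ 2 - ffM ℚ_[p] C (sqp ζ) * t.1 ^ 2 := congrArg Subtype.val hst
  rw [← sqp_qmap] at hst'
  obtain ⟨y, y', h1, h2, h3, h4, h5, h6⟩ := norm_sol (intF p C).toSubring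
    (z := qmap a b (ffM ℚ_[p] C) ζ) ((congrArg (ffM ℚ_[p] C) hζ).trans (map_zero _))
    (α' := ffM ℚ_[p] C α') (by rw [← map_mul, hα', map_one]) hst' z2 z3 z4 s.2 t.2 a2
  exact hp ⟨y, y', h1, h2, h3, h4, (intM_jm y).2 h5, (intM_jm y').2 h6⟩

end Pool.Agent.P.MP_3c2f8c_gt
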