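import Pool.Agent.P.MP_3c2f8c_gt.Qu.Basic
import Pool.Agent.P.MP_3c2f8c_gt.NT.HM

/-! QU-6: the Hasse principle in ranks one and two. -/

set_option linter.unusedSectionVars false

namespace Pool.Agent.P.MP_3c2f8c_gt

open Matrix

namespace HP1Aux

theorem exists_L {D dx dy τ l₁ l₂ : ℚ} (hD : D < 0) (hx : dx ≠ 0) (hy : dy ≠ 0)
    (hl : l₁ ^ 2 - D * l₂ ^ 2 ≠ 0) : ∃ α₁ α₂ β₁ β₂ γ₁ γ₂ ε₁ ε₂ : ℚ,
    l₁ = α₁ ^ 2 + D * α₂ ^ 2 - dx * (β₁ ^ 2 + D * β₂ ^ 2) +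
      2 * (D * (2 * γ₁ * γ₂ - 2 * dy * ε₁ * ε₂) -
        τ * (γ₁ ^ 2 + D * γ₂ ^ 2 - dy * (ε₁ ^ 2 + D * ε₂ ^ 2))) ∧
    l₂ = 2 * α₁ * α₂ - 2 * dx * β₁ * β₂ +
      2 * (γ₁ ^ 2 + D * γ₂ ^ 2 - dy * (ε₁ ^ 2 + D * ε₂ ^ 2) -
        τ * (2 * γ₁ * γ₂ - 2 * dy * ε₁ * ε₂)) := by
  have : Fact (∀ r : ℚ, r ^ 2 ≠ D + 0 * r) := ⟨fun r h => by nlinarith [sq_nonneg r]⟩
  have : NumberField (QuadraticAlgebra ℚ D 0) :=
    { to_charZero := inferInstance, to_finiteDimensional := inferInstance }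
  have hE : IsEmpty (QuadraticAlgebra ℚ D 0 →+* ℝ) := ⟨fun φ => by
    have e : QuadraticAlgebra.omega * QuadraticAlgebra.omega =
        ((D : ℚ) : QuadraticAlgebra ℚ D 0) := QuadraticAlgebra.omega_mul_omega_eq_mk
    have e' := congrArg φ e
    rw [map_mul, map_ratCast] at e'
    have : (D : ℝ) < 0 := by exact_mod_cast hD
    nlinarith [mul_self_nonneg (φ QuadraticAlgebra.omega)]⟩
  let c : Fin 4 → QuadraticAlgebra ℚ D 0 := ![⟨1, 0⟩, ⟨-dx, 0⟩, ⟨-2 * τ, 2⟩, ⟨2 * τ * dy, -2 * dy⟩]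
  have hc : ∀ i, c i ≠ 0 := fun i h => by
    have h1 := congrArg QuadraticAlgebra.re h
    have h2 := congrArg QuadraticAlgebra.im h
    fin_cases i <;> simp [c, hx, hy] at h1 h2
  have ht : (⟨l₁, l₂⟩ : QuadraticAlgebra ℚ D 0) ≠ 0 := fun h => by
    have h1 : l₁ = 0 := congrArg QuadraticAlgebra.re h
    have h2 : l₂ = 0 := congrArg QuadraticAlgebra.im h
    simp [h1, h2] at hl
  obtain ⟨v, hv⟩ := represents_of_iso hc ht (hm5 hE _)
  refine ⟨(v 0).re, (v 0).im, (v 1).re, (v 1).im, (v 2).re, (v 2).im, (v 3).re, (v 3).im, ?_, ?_⟩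
  · have h1 := congrArg QuadraticAlgebra.re hv
    simp [Fin.sum_univ_four, c, sq] at h1
    linear_combination -h1
  · have h1 := congrArg QuadraticAlgebra.im hv
    simp [Fin.sum_univ_four, c, sq] at h1
    linear_combination -h1

variable {a b : ℤ} {R : Type} [CommRing R]

theorem hf_two (x y : Q a b R) (v : Fin 2 → Q a b R) :
    hf (diagonal ![x, y]) v v = star (v 0) * x * v 0 + star (v 1) * y * v 1 := by
  simp [hf, dotProduct, mulVec_diagonal, Fin.sum_univ_two, mul_assoc]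

theorem w_eq {x y : Q a b R} (hx : x.re = 0) (hy : y.re = 0) (q : Q a b R) (A B C E : R) :
    star (A • star q + B • (y * star q) + C • (star q * x) + E • (y * star q * x)) * y *
      (A • star q + B • (y * star q) + C • (star q * x) + E • (y * star q * x)) =
    (A ^ 2 - sqp y * B ^ 2) • (q * y * star q) -
      (C ^ 2 - sqp y * E ^ 2) • (x * (q * y * star q) * x) +
      (A * C - B * E * sqp y) • (q * y * star q * x - x * (q * y * star q)) +
      (2 * (A * E - B * C) * sqp y * nr q) • x := by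
  obtain ⟨x0, x1, x2, x3⟩ := x
  obtain ⟨y0, y1, y2, y3⟩ := y
  obtain ⟨q0, q1, q2, q3⟩ := q
  simp only at hx hy
  subst hx hy
  ext <;> simp [nr, sqp] <;> ring

theorem v_eq {x z : Q a b R} (hx : x.re = 0) (hz : z.re = 0) (N T : R) :
    star (algebraMap R (Q a b R) N + T • x + (z * x - x * z)) * x *
      (algebraMap R (Q a b R) N + T • x + (z * x - x * z)) =
    (N ^ 2 - sqp x * T ^ 2 + 4 * (x * z).re ^ 2 - 4 * sqp x * sqp z + 4 * N * (x * z).re) • x -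
      (4 * N * sqp x) • z - (2 * T * sqp x) • (z * x - x * z) ∧
    x * z * x = (2 * (x * z).re) • x - sqp x • z := by
  obtain ⟨x0, x1, x2, x3⟩ := x
  obtain ⟨z0, z1, z2, z3⟩ := z
  simp only at hx hz
  subst hx hz
  constructor <;> ext <;> simp [sqp] <;> ring

theorem z_eq {y : Q a b R} (hy : y.re = 0) (q : Q a b R) :
    (q * y * star q).re = 0 ∧ sqp (q * y * star q) = nr q ^ 2 * sqp y := by
  have h : (q * y * star q).re = 0 := by
    simp [hy]; ring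
  refine ⟨h, ?_⟩
  rw [sqp_of_pure h, sqp_of_pure hy, nr_mul, nr_mul, nr_star]
  ring

theorem q_eq {x y : Q a b R} (hx : x.re = 0) (hy : y.re = 0) (γ₁ γ₂ ε₁ ε₂ : R) (q : Q a b R)
    (hq : q = algebraMap R (Q a b R) γ₁ - γ₂ • (x * y) + ε₁ • y - (ε₂ * sqp y) • x) :
    nr q = γ₁ ^ 2 + sqp x * sqp y * γ₂ ^ 2 - sqp y * (ε₁ ^ 2 + sqp x * sqp y * ε₂ ^ 2) -
      (x * y).re * (2 * γ₁ * γ₂ - 2 * sqp y * ε₁ * ε₂) ∧
    (x * (q * y * star q)).re =
      (x * y).re * (γ₁ ^ 2 + sqp x * sqp y * γ₂ ^ 2 - sqp y * (ε₁ ^ 2 + sqp x * sqp y * ε₂ ^ 2)) -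
        sqp x * sqp y * (2 * γ₁ * γ₂ - 2 * sqp y * ε₁ * ε₂) := by
  obtain ⟨x0, x1, x2, x3⟩ := x
  obtain ⟨y0, y1, y2, y3⟩ := y
  simp only at hx hy
  subst hx hy hq
  constructor <;> simp [nr, sqp] <;> ring

theorem padic {p : ℕ} [Fact p.Prime] {L : Type} [Field L] (ψ : ℚ →+* L) (φ : ℚ_[p] →+* L)
    (c : ℚ) : ψ c = φ (c : ℚ_[p]) := by
  rw [eq_ratCast, map_ratCast]

theorem loc_nm {E : Type} [Field E] [CharZero E] [NeZero a] [NeZero b] {X X' U g : Q a b E}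
    {c : E} (X0 : X.re = 0) (s0 : sqp X ≠ 0) (c0 : c ≠ 0) (U0 : nr U ≠ 0)
    (eg : star g * X * g = X') (e2 : c • (star U * X) = X' * star U)
    (k : nr X' = c ^ 2 * nr X) (hd : ¬ IsNm (a : E) (b : E) → nr g = c) :
    IsNm (sqp X) (c * nr U) := by
  have e1 : nr g • (X * (g * star U)) = c • (g * star U * X) := by
    rw [mul_assoc g, ← mul_smul_comm c, e2, ← eg, mul_assoc (star g), mul_assoc (star g),
      ← mul_assoc g, mul_star_eq_nr, ← Algebra.smul_def, mul_assoc]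
  have e3 : (nr g - c) * (nr g + c) = 0 := by
    have n0 : nr X ≠ 0 := fun h => s0 (by rw [sqp_of_pure X0, h, neg_zero])
    rw [← eg, nr_mul, nr_mul, nr_star] at k
    exact mul_right_cancel₀ n0 (by linear_combination k)
  rcases mul_eq_zero.1 e3 with h | h
  · rw [sub_eq_zero] at h
    rw [h] at e1
    obtain ⟨s, t, hst⟩ := comm_pure X0 s0.isUnit (smul_right_injective _ c0 e1).symm
    exact ⟨s, t, by rw [← nr_add_smul X0, ← hst, nr_mul, nr_star, h]⟩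
  · have h' : nr g = -c := eq_neg_of_add_eq_zero_left h
    rw [h', neg_smul, ← smul_neg] at e1
    have an := (smul_right_injective _ c0 e1).symm
    have θ0 := pure_of_anti X0 s0.isUnit an
    have sθ : sqp (g * star U) = c * nr U := by
      rw [sqp_of_pure θ0, nr_mul, nr_star, h']; ring
    rw [← sθ]
    refine (isNm_iff_of_anti X0 θ0 s0 (sθ ▸ mul_ne_zero c0 U0) an).2 ?_
    by_contra hn
    exact c0 (by linear_combination (h - hd hn) / 2)

end HP1Aux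

open HP1Aux

variable {a b : ℤ} [NeZero a] [NeZero b] {T : Finset Nat.Primes}

theorem hp_one (hR : Ram a b T) {x x' : Q a b ℚ} (hx : x.re = 0) (hx0 : 0 < sqp x) {c : ℚ}
    (hloc : ∀ p : Nat.Primes, ∃ g : Q a b ℚ_[p], IsUnit g ∧
      star g * qmap a b (ra ℚ_[p]) x * g = qmap a b (ra ℚ_[p]) x' ∧ (p ∈ T → nr g = c)) :
    ∃ g : Q a b ℚ, IsUnit g ∧ star g * x * g = x' := by
  have hn : nr x ≠ 0 := fun h => by
    rw [sqp_of_pure hx, h] at hx0
    simp at hx0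
  have key : ∀ (p : Nat.Primes) (g : Q a b ℚ_[p]),
      star g * qmap a b (ra ℚ_[p]) x * g = qmap a b (ra ℚ_[p]) x' →
      ((nr x' : ℚ) : ℚ_[p]) = nr g ^ 2 * (nr x : ℚ) := fun p g h => by
    have := congrArg nr h
    rw [nr_mul, nr_mul, nr_star, nr_qmap, nr_qmap, eq_ratCast, eq_ratCast] at this
    linear_combination -this
  obtain ⟨p₀, hp₀⟩ := hR.ne
  obtain ⟨g₀, u₀, e₀, n₀⟩ := hloc p₀
  have hc : c ≠ 0 := fun h => by
    have := ((isUnit_iff_nr _).1 u₀).ne_zero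
    rw [n₀ hp₀, h] at this
    simp at this
  have hx' : x'.re = 0 := by
    apply pure_of_star
    apply qmap_injective (ra ℚ_[p₀]).injective
    rw [qmap_star, map_neg, ← e₀, star_mul, star_mul, star_star, ← qmap_star, star_of_pure hx,
      map_neg]
    noncomm_ring
  have hnr : nr x' = c ^ 2 * nr x := by
    have := key p₀ g₀ e₀
    rw [n₀ hp₀] at this
    exact_mod_cast this
  have hy : (c⁻¹ • x').re = 0 := by simp [hx']
  obtain ⟨u, hu, e⟩ := exists_conj hx hy (by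
    rw [sqp_smul, sqp_of_pure hx, sqp_of_pure hx', hnr]; field_simp) hx0.ne'
  have hu0 : nr u ≠ 0 := ((isUnit_iff_nr _).1 hu).ne_zero
  have e' : c • (star u * x) = x' * star u := by
    have := congrArg star e
    rw [star_mul, star_mul, star_of_pure hx, star_of_pure hy, mul_neg, neg_mul, neg_inj] at this
    rw [this, smul_mul_assoc, smul_smul, mul_inv_cancel₀ hc, one_smul]
  have hN : IsNm (sqp x) (c * nr u) := by
    refine hm_norm hx0.ne' (mul_ne_zero hc hu0) ⟨fun p _ L _ ψ φ => ?_, fun ψ => ?_⟩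
    · beta_reduce
      rw [padic ψ φ, padic ψ φ]
      refine IsNm.map φ ?_
      obtain ⟨g, hg, eg, ng⟩ := hloc ⟨p, Fact.out⟩
      have e2 := congrArg (qmap a b (ra ℚ_[p])) e'
      rw [qmap_smul, map_mul, map_mul, qmap_star] at e2
      have := loc_nm (E := ℚ_[p]) (by simp [qmap, hx])
        (by rw [sqp_qmap]; exact (map_ne_zero _).2 hx0.ne') ((map_ne_zero _).2 hc)
        (by rw [nr_qmap]; exact (map_ne_zero _).2 hu0) eg e2
        (by rw [nr_qmap, nr_qmap, hnr, map_mul, map_pow])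
        fun hd => (ng ((hR.div ⟨p, Fact.out⟩).2 hd)).trans (eq_ratCast _ c).symm
      rwa [sqp_qmap, nr_qmap, ← map_mul, eq_ratCast, eq_ratCast] at this
    · have : 0 < ψ (sqp x) := by rw [eq_ratCast]; exact_mod_cast hx0
      exact isNm_of_isSquare this.ne' ⟨√(ψ (sqp x)), (Real.mul_self_sqrt this.le).symm⟩ _
  obtain ⟨s, t, hst⟩ := hN
  rw [← nr_add_smul hx] at hst
  set r := algebraMap ℚ (Q a b ℚ) s + t • x with hr
  have rx : x * r = r * x := by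
    rw [hr, mul_add, add_mul, Algebra.commutes, mul_smul_comm, smul_mul_assoc]
  refine ⟨(nr u)⁻¹ • (r * u), (isUnit_iff_nr _).2 (IsUnit.mk0 _ ?_), ?_⟩
  · rw [nr_smul, nr_mul, ← hst]
    exact mul_ne_zero (pow_ne_zero _ (inv_ne_zero hu0)) (mul_ne_zero (mul_ne_zero hc hu0) hu0)
  · have e4 : star (r * u) * x * (r * u) = (c * nr u) • (star u * x * u) := by
      rw [star_mul, hst, mul_assoc (star u * star r), ← mul_assoc x, rx, mul_assoc r,
        mul_assoc (star u), ← mul_assoc (star r), star_mul_eq_nr, ← Algebra.smul_def,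
        mul_smul_comm, mul_assoc]
    have e5 : c • (star u * x * u) = nr u • x' := by
      rw [← smul_mul_assoc, e', mul_assoc, star_mul_eq_nr, ← Algebra.commutes, ← Algebra.smul_def]
    rw [star_smul, star_trivial, smul_mul_assoc, smul_mul_assoc, mul_smul_comm, e4, mul_comm c,
      mul_smul, e5, smul_smul, smul_smul, smul_smul]
    rw [show (nr u)⁻¹ * (nr u)⁻¹ * nr u * nr u = 1 by field_simp, one_smul]

/-- Multipliers of similitudes in rank two. -/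
theorem mult_two {x y : Q a b ℚ} (hx : x.re = 0) (hy : y.re = 0) (hx0 : sqp x < 0)
    (hy0 : 0 < sqp y) {l₁ l₂ : ℚ} (hl : l₁ ^ 2 - sqp x * sqp y * l₂ ^ 2 ≠ 0) :
    ∃ v : Fin 2 → Q a b ℚ,
      hf (diagonal ![x, y]) v v = (l₁ ^ 2 - sqp x * sqp y * l₂ ^ 2) • x := by
  obtain ⟨α₁, α₂, β₁, β₂, γ₁, γ₂, ε₁, ε₂, h1, h2⟩ :=
    exists_L (τ := (x * y).re) (mul_neg_of_neg_of_pos hx0 hy0) hx0.ne hy0.ne' hl
  obtain ⟨q, hq⟩ : ∃ q, q = algebraMap ℚ (Q a b ℚ) γ₁ - γ₂ • (x * y) + ε₁ • y -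
    (ε₂ * sqp y) • x := ⟨_, rfl⟩
  obtain ⟨q1, q2⟩ := q_eq hx hy γ₁ γ₂ ε₁ ε₂ q hq
  obtain ⟨z1, z2⟩ := z_eq hy q
  have w := w_eq hx hy q (2 * sqp x * β₁) (2 * sqp x * α₂) (2 * α₁) (2 * sqp x * β₂)
  obtain ⟨v1, v2⟩ := v_eq hx z1
    (α₁ ^ 2 - sqp x * sqp y * α₂ ^ 2 + sqp x * (β₁ ^ 2 - sqp x * sqp y * β₂ ^ 2))
    (2 * (α₁ * β₁ - sqp x * sqp y * α₂ * β₂))
  refine ⟨![_, _], (hf_two _ _ _).trans ((congrArg₂ (· + ·) v1 w).trans ?_)⟩
  rw [← q1] at h2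
  have h1' : l₁ = α₁ ^ 2 + sqp x * sqp y * α₂ ^ 2 - sqp x * (β₁ ^ 2 + sqp x * sqp y * β₂ ^ 2) -
      2 * (x * (q * y * star q)).re := by rw [h1, q2]; ring
  rw [v2, z2, h1', h2]
  module

theorem rep_two {x y : Q a b ℚ} (hx : x.re = 0) (hy : y.re = 0) (hx0 : sqp x < 0)
    (hy0 : 0 < sqp y) {c : ℚ} (hc : 0 < c)
    (hloc : ∀ p : Nat.Primes, IsSquare ((sqp y : ℚ) : ℚ_[p]) →
      IsNm ((sqp x : ℚ) : ℚ_[p]) (c : ℚ_[p])) :
    ∃ v : Fin 2 → Q a b ℚ, hf (diagonal ![c • x, y]) v v = x := by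
  have hI : Iso ![c, -(c * sqp x), -1, sqp x * sqp y] := by
    refine hm4 ⟨fun p _ L _ ψ φ => ?_, fun ψ => ?_⟩
    · beta_reduce
      rw [padic ψ φ c, padic ψ φ (-(_ * _)), padic ψ φ (-1), padic ψ φ (_ * _)]
      refine HMAux.map4 φ ?_
      have c0 : (c : ℚ_[p]) ≠ 0 := by exact_mod_cast hc.ne'
      have s0 : ((sqp x : ℚ) : ℚ_[p]) ≠ 0 := by exact_mod_cast hx0.ne
      push_cast
      by_cases hs : IsSquare ((sqp y : ℚ) : ℚ_[p])
      · obtain ⟨s, t, h⟩ := hloc ⟨p, Fact.out⟩ hs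
        exact AlgAux.iso_iff4.2 ⟨s, t, c, 0, Or.inr (Or.inr (Or.inl c0)), by linear_combination -c * h⟩
      · obtain ⟨Λ, -⟩ := exists_padicLF p
        refine Λ.iso_four fun ⟨r, hr⟩ => hs ⟨r / (c * (sqp x : ℚ)), ?_⟩
        field_simp
        linear_combination hr
    · have : 0 < ψ c := by rw [eq_ratCast]; exact_mod_cast hc
      refine AlgAux.iso_iff4.2 ⟨1, 0, √(ψ c), 0, Or.inl one_ne_zero, ?_⟩
      rw [Real.sq_sqrt this.le]
      simp
  obtain ⟨t₁, t₂, l₁, l₂, h0, h⟩ := AlgAux.iso_iff4.1 hI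
  have hD := mul_neg_of_neg_of_pos hx0 hy0
  have hN : t₁ ^ 2 - sqp x * t₂ ^ 2 ≠ 0 := fun e => by
    have e1 : l₁ ^ 2 - sqp x * sqp y * l₂ ^ 2 = 0 := by linear_combination c * e - h
    have a1 : t₂ ^ 2 = 0 := by nlinarith [sq_nonneg t₁, sq_nonneg t₂]
    have a2 : l₂ ^ 2 = 0 := by nlinarith [sq_nonneg l₁, sq_nonneg l₂]
    rw [a1, mul_zero, sub_zero] at e
    rw [a2, mul_zero, sub_zero] at e1
    simp_all
  have e : l₁ ^ 2 - sqp (c • x) * sqp y * (l₂ / c) ^ 2 = c * (t₁ ^ 2 - sqp x * t₂ ^ 2) := by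
    rw [sqp_smul]
    field_simp
    linear_combination -h
  obtain ⟨v, hv⟩ := mult_two (x := c • x) (by simp [hx]) hy
    (by rw [sqp_smul]; exact mul_neg_of_pos_of_neg (by positivity) hx0) hy0
    (e ▸ mul_ne_zero hc.ne' hN)
  rw [e, ← nr_add_smul hx, hf_two] at hv
  rw [← nr_add_smul hx] at hN
  set r := algebraMap ℚ (Q a b ℚ) t₁ + t₂ • x with hr
  have rx : x * r = r * x := by
    rw [hr, mul_add, add_mul, Algebra.commutes, mul_smul_comm, smul_mul_assoc]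
  refine ⟨fun i => v i * ((c * nr r)⁻¹ • r), ?_⟩
  have e2 : ∀ s : Q a b ℚ, hf (diagonal ![c • x, y]) (fun i => v i * s) (fun i => v i * s) =
      star s * ((c * nr r) • c • x) * s := fun s => by
    rw [hf_two, ← hv, star_mul, star_mul]
    noncomm_ring
  rw [e2, star_smul, star_trivial, smul_mul_assoc, smul_mul_assoc, mul_smul_comm, mul_smul_comm,
    mul_smul_comm, smul_mul_assoc, smul_mul_assoc, mul_assoc (star r), rx, ← mul_assoc,
    star_mul_eq_nr, ← Algebra.smul_def, smul_smul, smul_smul, smul_smul, smul_smul]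
  have := hc.ne'
  rw [show (c * nr r)⁻¹ * (c * nr r)⁻¹ * (c * nr r) * c * nr r = 1 by field_simp, one_smul]

end Pool.Agent.P.MP_3c2f8c_gt
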