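import Pool.Agent.P.MP_3c2f8c_gt.Qu.Cyc
import Pool.Agent.P.MP_3c2f8c_gt.Qu.RChar

/-! QU-11: the model of a regular element. -/

namespace Pool.Agent.P.MP_3c2f8c_gt

open Matrix Polynomial

namespace ModelAux

theorem unit_nat (M : Type) [Ring M] [Algebra ℚ M] {n : ℕ} (hn : n ≠ 0) : IsUnit (n : M) := by
  have h : IsUnit (n : ℚ) := (Nat.cast_ne_zero.2 hn).isUnit
  simpa using h.map (algebraMap ℚ M)

theorem unit_two (M : Type) [Ring M] [Algebra ℚ M] : IsUnit (2 : M) := by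
  simpa using unit_nat M (n := 2) (by norm_num)

theorem unit_four (M : Type) [Ring M] [Algebra ℚ M] : IsUnit (4 : M) := by
  simpa using unit_nat M (n := 4) (by norm_num)

variable {a b : ℤ} {F : Type} [CommRing F]

theorem star_alg (c : F) : star (algebraMap F (Q a b F) c) = algebraMap F (Q a b F) c := by
  ext <;> simp [QuaternionAlgebra.algebraMap_eq]

theorem isom_double {g ξ : Q a b F} (h : star g * ξ * g = ξ) :
    star (g + g) * ξ * (g + g) = 4 * ξ := by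
  rw [star_add]
  simp only [mul_add, add_mul, h]
  rw [show (4 : Q a b F) = 1 + 1 + 1 + 1 by norm_num]
  simp only [add_mul, one_mul]
  abel

theorem add_mul_sub {T : F} {ζ : Q a b F} (h : ζ * ζ = algebraMap F (Q a b F) (T ^ 2 - 4)) :
    (algebraMap F (Q a b F) T + ζ) * (algebraMap F (Q a b F) T - ζ) = 4 ∧
      (algebraMap F (Q a b F) T - ζ) * (algebraMap F (Q a b F) T + ζ) = 4 := by
  have hc := Algebra.commutes (A := Q a b F) T ζ
  rw [map_sub, map_pow, map_ofNat, sq] at h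
  constructor
  · rw [add_mul, mul_sub, mul_sub, h, hc]
    abel
  · rw [sub_mul, mul_add, mul_add, h, hc]
    abel

theorem re_eq_zero [Algebra ℚ F] {T : F} {ζ ξ : Q a b F} (hd : IsUnit (T ^ 2 - 4))
    (hζ : ζ * ζ = algebraMap F (Q a b F) (T ^ 2 - 4)) (hξ : IsUnit ξ)
    (h : star (algebraMap F (Q a b F) T + ζ) * ξ * (algebraMap F (Q a b F) T + ζ) = 4 * ξ) :
    ζ.re = 0 := by
  have h2 := unit_two F
  have hI : ζ.re * ζ.imI = 0 := by
    have := congrArg QuaternionAlgebra.imI hζ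
    simp only [QuaternionAlgebra.imI_mul, QuaternionAlgebra.algebraMap_eq] at this
    exact h2.mul_left_cancel (by linear_combination this)
  have hJ : ζ.re * ζ.imJ = 0 := by
    have := congrArg QuaternionAlgebra.imJ hζ
    simp only [QuaternionAlgebra.imJ_mul, QuaternionAlgebra.algebraMap_eq] at this
    exact h2.mul_left_cancel (by linear_combination this)
  have hK : ζ.re * ζ.imK = 0 := by
    have := congrArg QuaternionAlgebra.imK hζ
    simp only [QuaternionAlgebra.imK_mul, QuaternionAlgebra.algebraMap_eq] at this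
    exact h2.mul_left_cancel (by linear_combination this)
  have hR : ζ.re ^ 3 = ζ.re * (T ^ 2 - 4) := by
    have := congrArg QuaternionAlgebra.re hζ
    simp only [QuaternionAlgebra.re_mul, QuaternionAlgebra.algebraMap_eq] at this
    linear_combination ζ.re * this - a * ζ.imI * hI - b * ζ.imJ * hJ + a * b * ζ.imK * hK
  have e1 : ζ.re • (algebraMap F (Q a b F) T + ζ)
      = algebraMap F (Q a b F) (ζ.re * T + ζ.re ^ 2) := by
    ext <;> simp [QuaternionAlgebra.algebraMap_eq, hI, hJ, hK, sq]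
  have e2 : ζ.re • star (algebraMap F (Q a b F) T + ζ)
      = algebraMap F (Q a b F) (ζ.re * T + ζ.re ^ 2) := by
    ext <;> simp [QuaternionAlgebra.algebraMap_eq, hI, hJ, hK, sq]
  have e3 : algebraMap F (Q a b F) ((ζ.re * T + ζ.re ^ 2) ^ 2) * ξ
      = algebraMap F (Q a b F) (ζ.re ^ 2 * 4) * ξ := by
    have h3 := congrArg (fun x => ζ.re • ζ.re • x) h
    rw [← mul_smul_comm, e1, ← smul_mul_assoc, ← smul_mul_assoc, e2, mul_assoc,
      ← Algebra.commutes, ← mul_assoc, ← map_mul, smul_smul, Algebra.smul_def, ← mul_assoc] at h3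
    rw [sq, h3, map_mul _ (ζ.re ^ 2), map_ofNat, sq]
  have e4 : (ζ.re * T + ζ.re ^ 2) ^ 2 = ζ.re ^ 2 * 4 := by
    have := congrArg QuaternionAlgebra.re (hξ.mul_right_cancel e3)
    simpa only [QuaternionAlgebra.algebraMap_eq] using this
  have e5 : ζ.re ^ 2 * (T ^ 2 - 4 + T * ζ.re) = 0 :=
    h2.mul_left_cancel (by linear_combination e4 - ζ.re * hR)
  have e6 : ζ.re ^ 2 = 0 :=
    ((unit_four F).mul hd).mul_left_cancel (by
      linear_combination (-(T ^ 2 - 4 - T * ζ.re)) * e5 - T ^ 2 * ζ.re * hR)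
  exact hd.mul_left_cancel (by linear_combination ζ.re * e6 - hR)

theorem comm_of_isom [Algebra ℚ F] {T : F} {ζ ξ : Q a b F} (h0 : ζ.re = 0)
    (hζ : ζ * ζ = algebraMap F (Q a b F) (T ^ 2 - 4))
    (h : star (algebraMap F (Q a b F) T + ζ) * ξ * (algebraMap F (Q a b F) T + ζ) = 4 * ξ) :
    ξ * ζ = ζ * ξ := by
  have e : star (algebraMap F (Q a b F) T + ζ) = algebraMap F (Q a b F) T - ζ := by
    ext <;> simp [QuaternionAlgebra.algebraMap_eq, h0]
  have h4 : ∀ x : Q a b F, x * 4 = 4 * x := fun x => (Nat.cast_commute 4 x).eq.symm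
  have h1 := congrArg (fun x => (algebraMap F (Q a b F) T + ζ) * x) h
  rw [e, ← mul_assoc, ← mul_assoc, (add_mul_sub hζ).1, ← mul_assoc, h4, mul_assoc, mul_assoc] at h1
  have h2 := (unit_four (Q a b F)).mul_left_cancel h1
  rw [mul_add, add_mul, Algebra.commutes] at h2
  exact add_left_cancel h2

end ModelAux

open ModelAux

variable {a b : ℤ} {r : ℕ} {C W : Matrix (Fin (r + 1)) (Fin (r + 1)) ℚ} {m : ℚ[X]}
  {R : Type} [CommRing R] [Algebra ℚ R] {E : Type} [Field E] [Algebra ℚ E]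
  [NeZero a] [NeZero b]

namespace ModelAux

omit [NeZero a] [NeZero b] in
theorem isUnit_W (h : Cyc C W m) : IsUnit (cst a b (W.map (ra R))) :=
  (h.unit.map (ra R).mapMatrix).map (algebraMap R (Q a b R)).mapMatrix

omit [NeZero a] [NeZero b] in
theorem conjTranspose_W (h : Cyc C W m) : (cst a b (W.map (ra R)))ᴴ = cst a b (W.map (ra R)) := by
  ext1 i j
  have e : W j i = W i j := congrFun (congrFun h.symm i) j
  simp only [conjTranspose_apply, map_apply, e]
  exact star_alg _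

omit [NeZero a] [NeZero b] in
theorem jm_T : jm a b (ffV R C) (algebraMap _ _ (ffT R C)) = cst a b (C.map (ra R)) :=
  jm_algebraMap _

omit [NeZero a] [NeZero b] in
theorem isom (h : Cyc C W m) (ξ y : Q a b (FF R C)) :
    (jm a b (ffV R C) y)ᴴ * (cst a b (W.map (ra R)) * jm a b (ffV R C) ξ) * jm a b (ffV R C) y =
      cst a b (W.map (ra R)) * jm a b (ffV R C) (star y * ξ * y) := by
  rw [← Matrix.mul_assoc, h.conjTranspose_jm, map_mul, map_mul]
  simp only [Matrix.mul_assoc]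

omit [NeZero a] [NeZero b] in
theorem inj (h : Cyc C W m) {ξ ξ' : Q a b (FF R C)}
    (he : cst a b (W.map (ra R)) * jm a b (ffV R C) ξ =
      cst a b (W.map (ra R)) * jm a b (ffV R C) ξ') : ξ = ξ' :=
  jm_injective ((isUnit_W h).mul_left_cancel he)

end ModelAux

theorem exists_model {H : Matrix (Fin (r + 1)) (Fin (r + 1)) (Q a b ℚ)} (hH : Hᴴ = -H)
    (hu : IsUnit H) (γ : Un H) (hp : Pal (r + 1) m (rchar γ.1.1)) (hr : RegP (rchar γ.1.1))
    (h : Cyc C W m) :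
    ∃ (P : Matrix (Fin (r + 1)) (Fin (r + 1)) (Q a b ℚ)) (ζ : Q a b (FF ℚ C)) (f : FF ℚ C),
      ζ.re = 0 ∧ sqp ζ = ffT ℚ C ^ 2 - 4 ∧ IsUnit f ∧
      IsIsom H (cst a b (W.map (ra ℚ)) * jm a b (ffV ℚ C) (f • ζ)) P ∧
      (2 : ℚ) • γ.1.1 * P = P * jm a b (ffV ℚ C) (algebraMap _ _ (ffT ℚ C) + ζ) := by
  have hC : C.map (ra ℚ) = C := by
    ext i j
    simp
  obtain ⟨-, hm2, hm2'⟩ := hp.separable hr
  have hd := h.isUnit_disc hm2 hm2'
  have hβ : aeval (γ.1.1 + (γ.1⁻¹).1) m = 0 :=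
    Pal.aeval_eq_zero (by rw [Fintype.card_fin]; exact hp)
  obtain ⟨e, hP⟩ := exists_cyclic hp hr
  have hPC := h.mul_cyclic hβ e
  rw [← hC] at hPC
  generalize (Matrix.of fun i k : Fin (r + 1) =>
    (((γ.1.1 + (γ.1⁻¹).1) ^ (k : ℕ)) *ᵥ e) i) = P at hP hPC
  obtain ⟨P', hPP', hP'P⟩ := isUnit_iff_exists.1 hP
  have hγ : γ.1.1ᴴ * H * γ.1.1 = H := γ.2
  have hγ' : (γ.1⁻¹).1ᴴ * H * (γ.1⁻¹).1 = H := (γ⁻¹).2
  have h1 : γ.1.1 * (γ.1⁻¹).1 = 1 := γ.1.mul_inv
  have h2 : (γ.1⁻¹).1 * γ.1.1 = 1 := γ.1.inv_mul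
  generalize (γ.1⁻¹).1 = g' at hPC hγ' h1 h2
  generalize γ.1.1 = g at hPC hγ h1 h2
  obtain ⟨G, hG⟩ : ∃ G, G = P' * g * P := ⟨_, rfl⟩
  obtain ⟨G', hG'⟩ : ∃ G', G' = P' * g' * P := ⟨_, rfl⟩
  have hPG : P * G = g * P := by rw [hG, ← mul_assoc, ← mul_assoc, hPP', one_mul]
  have hPG' : P * G' = g' * P := by rw [hG', ← mul_assoc, ← mul_assoc, hPP', one_mul]
  have hGG : G * G' = 1 := by
    rw [hG, mul_assoc, hPG', ← mul_assoc, mul_assoc P', h1, mul_one, hP'P]
  have hG'G : G' * G = 1 := by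
    rw [hG', mul_assoc, hPG, ← mul_assoc, mul_assoc P', h2, mul_one, hP'P]
  have hsum : G + G' = cst a b (C.map (ra ℚ)) := by
    rw [hG, hG', ← add_mul, ← mul_add, mul_assoc, hPC, ← mul_assoc, hP'P, one_mul]
  obtain ⟨g0, hg0⟩ := h.comm (X := G) (by rw [← hsum, mul_add, add_mul, hGG, hG'G])
  have hg1 : jm a b (ffV ℚ C) (algebraMap _ _ (ffT ℚ C) - g0) = G' := by
    rw [map_sub, jm_T, hg0, ← hsum, add_sub_cancel_left]
  have hgg : g0 * (algebraMap _ _ (ffT ℚ C) - g0) = 1 :=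
    jm_injective (by rw [map_mul, hg0, hg1, hGG, map_one])
  obtain ⟨K, hK⟩ : ∃ K, K = Pᴴ * H * P := ⟨_, rfl⟩
  have hKu : IsUnit K := by
    rw [hK]
    exact ((isUnit_conjTranspose P).2 hP).mul hu |>.mul hP
  have hKs : Kᴴ = -K := by
    rw [hK, conjTranspose_mul, conjTranspose_mul, conjTranspose_conjTranspose, hH]
    simp only [Matrix.neg_mul, Matrix.mul_neg, Matrix.mul_assoc]
  have key : ∀ x X : Matrix (Fin (r + 1)) (Fin (r + 1)) (Q a b ℚ), P * X = x * P →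
      xᴴ * H * x = H → Xᴴ * K * X = K := fun x X hx hx' => by
    calc Xᴴ * K * X = (P * X)ᴴ * H * (P * X) := by
          rw [hK, conjTranspose_mul]
          simp only [Matrix.mul_assoc]
      _ = Pᴴ * (xᴴ * H * x) * P := by
          rw [hx, conjTranspose_mul]
          simp only [Matrix.mul_assoc]
      _ = K := by rw [hx', hK]
  have hKG := key g G hPG hγ
  have hKG' := key g' G' hPG' hγ'
  have hKC : (cst a b (C.map (ra ℚ)))ᴴ * K = K * cst a b (C.map (ra ℚ)) := by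
    have e1 : Gᴴ * K = K * G' := by
      conv_rhs => rw [← hKG, mul_assoc, hGG, mul_one]
    have e2 : G'ᴴ * K = K * G := by
      conv_rhs => rw [← hKG', mul_assoc, hG'G, mul_one]
    rw [← hsum, conjTranspose_add, add_mul, mul_add, e1, e2]
    exact add_comm _ _
  have hWC : (cst a b (C.map (ra ℚ)))ᴴ * cst a b (W.map (ra ℚ))
      = cst a b (W.map (ra ℚ)) * cst a b (C.map (ra ℚ)) := by
    have := h.conjTranspose_jm (a := a) (b := b) (R := ℚ) (algebraMap _ _ (ffT ℚ C))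
    rwa [star_alg, jm_T] at this
  have hW := isUnit_W (a := a) (b := b) (R := ℚ) h
  obtain ⟨W', hWW', hW'W⟩ := isUnit_iff_exists.1 hW
  obtain ⟨ξ, hξ⟩ := h.comm (X := W' * K) (hW.mul_left_cancel (by
    rw [← mul_assoc, ← mul_assoc, hWW', one_mul, ← mul_assoc, ← hWC, mul_assoc, ← mul_assoc _ W',
      hWW', one_mul, hKC]))
  have hKξ : K = cst a b (W.map (ra ℚ)) * jm a b (ffV ℚ C) ξ := by
    rw [hξ, ← mul_assoc, hWW', one_mul]
  have hξu : IsUnit ξ :=
    h.isUnit_of_jm (by rw [hξ]; exact (isUnit_iff_exists.2 ⟨_, hW'W, hWW'⟩).mul hKu)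
  have hξ0 : ξ.re = 0 := pure_of_star (inj h (by
    rw [← h.conjTranspose_jm, map_neg, mul_neg, ← hKξ, ← hKs, hKξ, conjTranspose_mul,
      conjTranspose_W h]))
  have hiso : star g0 * ξ * g0 = ξ := inj h (by rw [← isom h, ← hKξ, hg0, hKG])
  obtain ⟨ζ, hζ⟩ : ∃ ζ, ζ = g0 + g0 - algebraMap _ _ (ffT ℚ C) := ⟨_, rfl⟩
  have hTζ : algebraMap _ _ (ffT ℚ C) + ζ = g0 + g0 := by rw [hζ, add_sub_cancel]
  have hζζ : ζ * ζ = algebraMap _ (Q a b (FF ℚ C)) (ffT ℚ C ^ 2 - 4) := by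
    have hc := Algebra.commutes (A := Q a b (FF ℚ C)) (ffT ℚ C) g0
    rw [mul_sub, sub_eq_iff_eq_add] at hgg
    rw [hζ, map_sub, map_pow, map_ofNat, sq]
    simp only [mul_sub, sub_mul, mul_add, add_mul, hc, hgg]
    rw [show (4 : Q a b (FF ℚ C)) = 1 + 1 + 1 + 1 by norm_num]
    abel
  have hiso4 : star (algebraMap _ _ (ffT ℚ C) + ζ) * ξ * (algebraMap _ _ (ffT ℚ C) + ζ)
      = 4 * ξ := by
    rw [hTζ]
    exact isom_double hiso
  have hζ0 := re_eq_zero hd hζζ hξu hiso4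
  have hsq : sqp ζ = ffT ℚ C ^ 2 - 4 := by
    rw [sqp, hζζ, QuaternionAlgebra.algebraMap_eq]
  obtain ⟨s, f, hf⟩ := comm_pure hζ0 (hsq ▸ hd) (comm_of_isom hζ0 hζζ hiso4)
  have hs : s = 0 := by
    have := congrArg QuaternionAlgebra.re hf
    simpa [QuaternionAlgebra.algebraMap_eq, hζ0, hξ0] using this.symm
  rw [hs, map_zero, zero_add] at hf
  refine ⟨P, ζ, f, hζ0, hsq, ?_, ⟨hP, by rw [← hf, ← hKξ, hK]⟩, ?_⟩
  · have := (isUnit_iff_nr ξ).1 hξu
    rw [hf, nr_smul, sq, mul_assoc] at this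
    exact isUnit_of_mul_isUnit_left this
  · rw [hTζ, map_add, hg0, mul_add, hPG, two_smul, add_mul]

/-- Matrices that intertwine two models. -/
theorem Cyc.intertwine (h : Cyc C W m) {ζ ζ' : Q a b (FF R C)} (hζ : ζ.re = 0) (hζ' : ζ'.re = 0)
    (hd : sqp ζ = ffT R C ^ 2 - 4) (hd' : sqp ζ' = ffT R C ^ 2 - 4)
    {X : Matrix (Fin (r + 1)) (Fin (r + 1)) (Q a b R)}
    (hX : X * jm a b (ffV R C) (algebraMap _ _ (ffT R C) + ζ) =
      jm a b (ffV R C) (algebraMap _ _ (ffT R C) + ζ') * X) :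
    ∃ y, jm a b (ffV R C) y = X ∧ y * ζ = ζ' * y := by
  have h1 := congrArg (jm a b (ffV R C)) (add_mul_sub (hd ▸ mul_self_of_pure hζ)).1
  have h2 := congrArg (jm a b (ffV R C)) (add_mul_sub (hd' ▸ mul_self_of_pure hζ')).2
  rw [map_mul, map_ofNat] at h1 h2
  have h4 : ∀ x : Matrix (Fin (r + 1)) (Fin (r + 1)) (Q a b R), x * 4 = 4 * x := fun x =>
    (Nat.cast_commute 4 x).eq.symm
  have h3 : X * jm a b (ffV R C) (algebraMap _ _ (ffT R C) - ζ) =
      jm a b (ffV R C) (algebraMap _ _ (ffT R C) - ζ') * X := by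
    refine (unit_four _).mul_left_cancel ?_
    generalize jm a b (ffV R C) (algebraMap _ _ (ffT R C) + ζ) = A at h1 hX
    generalize jm a b (ffV R C) (algebraMap _ _ (ffT R C) + ζ') = A' at h2 hX
    generalize jm a b (ffV R C) (algebraMap _ _ (ffT R C) - ζ) = B at h1 ⊢
    generalize jm a b (ffV R C) (algebraMap _ _ (ffT R C) - ζ') = B' at h2 ⊢
    calc 4 * (X * B) = B' * (A' * X) * B := by rw [← h2]; simp only [mul_assoc]
      _ = B' * X * (A * B) := by rw [← hX]; simp only [mul_assoc]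
      _ = 4 * (B' * X) := by rw [h1, h4]
  have h5 : X * cst a b (C.map (ra R)) = cst a b (C.map (ra R)) * X := by
    refine (unit_two _).mul_left_cancel ?_
    have h6 := congrArg₂ (· + ·) hX h3
    simp only [map_add, map_sub, jm_T, mul_add, add_mul, mul_sub, sub_mul] at h6
    rw [two_mul, two_mul]
    rw [← sub_eq_zero] at h6 ⊢
    rw [← h6]
    abel
  obtain ⟨y, rfl⟩ := h.comm h5
  refine ⟨y, rfl, ?_⟩
  rw [← map_mul, ← map_mul] at hX
  have h7 := jm_injective hX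
  rw [mul_add, add_mul, Algebra.commutes] at h7
  exact add_left_cancel h7

theorem Cyc.isom_jm (h : Cyc C W m) (ξ y : Q a b (FF R C)) :
    (jm a b (ffV R C) y)ᴴ * (cst a b (W.map (ra R)) * jm a b (ffV R C) ξ) * jm a b (ffV R C) y =
      cst a b (W.map (ra R)) * jm a b (ffV R C) (star y * ξ * y) := isom h ξ y

theorem Cyc.cst_mul_injective (h : Cyc C W m) {ξ ξ' : Q a b (FF R C)}
    (he : cst a b (W.map (ra R)) * jm a b (ffV R C) ξ =
      cst a b (W.map (ra R)) * jm a b (ffV R C) ξ') : ξ = ξ' := inj h he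

theorem bc_model (ξ : Q a b (FF ℚ C)) :
    bc (ra R) (cst a b (W.map (ra ℚ)) * jm a b (ffV ℚ C) ξ) =
      cst a b (W.map (ra R)) * jm a b (ffV R C) (qmap a b (ffM R C) ξ) := by
  have e : bc (ra R) (cst a b (W.map (ra ℚ))) = cst a b (W.map (ra R)) := by
    ext1 i j
    simp only [map_apply, qmap_algebraMap]
    simp
  rw [jm_ffM, ← e]
  exact Matrix.map_mul

end Pool.Agent.P.MP_3c2f8c_gt
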