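import Pool.Agent.P.MP_3c2f8c_gt.Qu.Witt
import Pool.Agent.P.MP_3c2f8c_gt.Lo.CD

/-! QU-4: Morita theory. -/

namespace Pool.Agent.P.MP_3c2f8c_gt

open Matrix Polynomial

variable {a b : ℤ} {R S : Type} [CommRing R] [CommRing S] {E : Type} [Field E] [CharZero E]
  {ι κ μ : Type} [Fintype ι] [DecidableEq ι] [Fintype κ] [DecidableEq κ]
  [NeZero a] [NeZero b]

set_option linter.unusedSectionVars false
set_option linter.unusedVariables false

namespace MoritaAux

theorem comp_mul {ν : Type} (A : Matrix μ ι (Matrix (Fin 2) (Fin 2) S))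
    (B : Matrix ι ν (Matrix (Fin 2) (Fin 2) S)) :
    comp μ ι _ _ S A * comp ι ν _ _ S B = comp μ ν _ _ S (A * B) := by
  ext ⟨i, p⟩ ⟨j, q⟩
  simp only [Matrix.mul_apply, comp_apply, Fintype.sum_prod_type, Matrix.sum_apply]

/-- Block diagonal matrices. -/
def blk (d : ι → Matrix (Fin 2) (Fin 2) S) : Matrix (ι × Fin 2) (ι × Fin 2) S :=
  comp ι ι _ _ S (diagonal d)

theorem blk_mul (d e : ι → Matrix (Fin 2) (Fin 2) S) :
    blk d * blk e = blk fun i => d i * e i := by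
  rw [blk, blk, comp_mul, diagonal_mul_diagonal, blk]

theorem blk_transpose (d : ι → Matrix (Fin 2) (Fin 2) S) : (blk d)ᵀ = blk fun i => (d i)ᵀ := by
  rw [blk, transpose_comp, diagonal_transpose, diagonal_map transpose_zero, blk]

theorem Jm_mul_Jm : Jm ι R * Jm ι R = -1 := by
  have e : (!![0, 1; -1, 0] * !![0, 1; -1, 0] : Matrix (Fin 2) (Fin 2) R) = -1 := by
    ext i j
    fin_cases i <;> fin_cases j <;> simp
  change blk _ * blk _ = _
  rw [blk_mul, e, blk, ← Matrix.comp_one, ← diagonal_one, ← diagonal_neg]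
  rfl

theorem Jm_transpose : (Jm ι R)ᵀ = -Jm ι R := by
  have e : (!![0, 1; -1, 0] : Matrix (Fin 2) (Fin 2) R)ᵀ = -!![0, 1; -1, 0] := by
    ext i j
    fin_cases i <;> fin_cases j <;> simp
  change (blk _)ᵀ = _
  rw [blk_transpose, e, blk, ← diagonal_neg]
  rfl

omit [NeZero a] [NeZero b] in
theorem mor_neg (f : Q a b R →+* Matrix (Fin 2) (Fin 2) S) {ν : Type} (g : Matrix μ ν (Q a b R)) :
    mor f (-g) = -mor f g := by
  ext ⟨i, p⟩ ⟨j, q⟩
  simp [mor]

omit [NeZero a] [NeZero b] in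
theorem gram_diagonal (f : Q a b R →+* Matrix (Fin 2) (Fin 2) S) (x : ι → Q a b R) :
    gram f (diagonal x) = blk fun i => !![0, 1; -1, 0] * f (x i) := by
  rw [← blk_mul, gram, mor, diagonal_map (map_zero f)]
  rfl

theorem inv_int [Algebra ℚ R] (c : ℤ) (hc : c ≠ 0) : ∃ i : R, (c : R) * i = 1 :=
  ⟨algebraMap ℚ R (c : ℚ)⁻¹, by
    rw [← map_intCast (algebraMap ℚ R), ← map_mul, mul_inv_cancel₀ (Int.cast_ne_zero.2 hc),
      map_one]⟩

omit [NeZero a] [NeZero b] in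
theorem pure_block {s t : R} (h : (b : R) = s ^ 2 - a * t ^ 2) {x : Q a b R} (hx : x.re = 0) :
    ∃ p q r : R, !![0, 1; -1, 0] * spEmb a b h x = !![p, q; q, r] ∧ q ^ 2 - p * r = sqp x := by
  refine ⟨x.imI + t * x.imJ + s * x.imK, -(s * x.imJ + a * t * x.imK),
    -(a * x.imI - a * t * x.imJ - a * s * x.imK), ?_, ?_⟩
  · ext i j
    fin_cases i <;> fin_cases j <;> simp [spEmb, hx]
    ring
  · simp only [sqp, QuaternionAlgebra.re_mul, hx]
    linear_combination (a * x.imK ^ 2 - x.imJ ^ 2) * h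

theorem qf_conj {ν : Type} [Fintype ν] (M : Matrix κ κ R) (A : Matrix κ ν R) (u w : ν → R) :
    qf (Aᵀ * M * A) u w = qf M (A *ᵥ u) (A *ᵥ w) := by
  rw [qf, qf, ← mulVec_mulVec, ← mulVec_mulVec, dotProduct_mulVec, vecMul_transpose]

theorem qf_two (p q r : R) (v : Fin 2 → R) :
    qf !![p, q; q, r] v v = p * v 0 ^ 2 + 2 * q * v 0 * v 1 + r * v 1 ^ 2 := by
  simp [qf, dotProduct, mulVec, Fin.sum_univ_two]
  ring

/-- The matrix with two given columns. -/
def col2 (u w : κ → R) : Matrix κ (Unit × Fin 2) R := Matrix.of fun i p => ![u, w] p.2 i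

theorem col2_gram (M : Matrix κ κ R) (u w : κ → R) (p q : Unit × Fin 2) :
    ((col2 u w)ᵀ * M * col2 u w) p q = qf M (![u, w] p.2) (![u, w] q.2) := by
  rw [Matrix.mul_assoc]
  rfl

theorem hf_col {A : Type} [Ring A] [StarRing A] (H : Matrix ι ι A) (Y : Matrix ι Unit A) :
    Yᴴ * H * Y = diagonal fun _ => hf H (fun i => Y i ()) fun i => Y i () := by
  ext ⟨⟩ ⟨⟩
  rw [Matrix.mul_assoc, diagonal_apply_eq]
  rfl

theorem hyp_two {p q r d : E} (hd : d ≠ 0) (h : q ^ 2 - p * r = d * d) :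
    ∃ P : Matrix (Fin 2) (Fin 2) E, Pᵀ * !![p, q; q, r] * P = !![0, 1; 1, 0] := by
  by_cases hp : p = 0
  · subst hp
    have hq : q ≠ 0 := by
      rintro rfl
      exact hd (mul_self_eq_zero.1 (by linear_combination -h))
    refine ⟨!![1, -r / (2 * q ^ 2); 0, 1 / q], ?_⟩
    ext i j
    fin_cases i <;> fin_cases j <;> simp [Matrix.mul_apply, Fin.sum_univ_two, hq]
    all_goals field_simp
    all_goals ring
  · obtain rfl : r = (q ^ 2 - d * d) / p := by
      field_simp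
      linear_combination -h
    refine ⟨!![d - q, (q + d) / (2 * p * d ^ 2); p, -1 / (2 * d ^ 2)], ?_⟩
    ext i j
    fin_cases i <;> fin_cases j <;> simp [Matrix.mul_apply, Fin.sum_univ_two]
    all_goals field_simp
    all_goals ring

theorem nm_two {p q r p' q' r' d c : E} (h0 : q ^ 2 - p * r ≠ 0)
    (h' : q' ^ 2 - p' * r' = d * d) {A B : Matrix (Fin 2) (Fin 2) E}
    (h : c • (Aᵀ * !![p, q; q, r] * A) + Bᵀ * !![p', q'; q', r'] * B = !![p, q; q, r]) :
    IsNm (q ^ 2 - p * r) c := by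
  obtain ⟨α, β, hl⟩ : ∃ α β : E, ∀ v : Fin 2 → E, α * v 0 + β * v 1 = 0 →
      qf !![p', q'; q', r'] v v = 0 := by
    by_cases hp : p' = 0
    · refine ⟨0, 1, fun v hv => ?_⟩
      rw [qf_two]
      linear_combination v 0 ^ 2 * hp + (2 * q' * v 0 + r' * v 1) * hv
    · refine ⟨p', q' - d, fun v hv => mul_left_cancel₀ hp ?_⟩
      rw [qf_two]
      linear_combination (p' * v 0 + (q' + d) * v 1) * hv - v 1 ^ 2 * h'
  obtain ⟨w, hw0, hw⟩ : ∃ w : Fin 2 → E, (w 0 ≠ 0 ∨ w 1 ≠ 0) ∧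
      α * (B *ᵥ w) 0 + β * (B *ᵥ w) 1 = 0 := by
    by_cases hm : α * B 0 0 + β * B 1 0 = 0
    · exact ⟨![1, 0], by simp, by simpa [mulVec, dotProduct, Fin.sum_univ_two] using hm⟩
    · refine ⟨![-(α * B 0 1 + β * B 1 1), α * B 0 0 + β * B 1 0], Or.inr hm, ?_⟩
      simp [mulVec, dotProduct, Fin.sum_univ_two]
      ring
  have h1 : c * qf !![p, q; q, r] (A *ᵥ w) (A *ᵥ w) = qf !![p, q; q, r] w w := by
    have h2 := congrArg (fun M => qf M w w) h
    rw [← h2, ← qf_conj, ← add_zero (c * _), ← hl _ hw, ← qf_conj]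
    simp only [qf, add_mulVec, dotProduct_add, smul_mulVec, dotProduct_smul, smul_eq_mul]
  by_cases hs : IsSquare (q ^ 2 - p * r)
  · exact isNm_of_isSquare h0 hs c
  rw [qf_two, qf_two] at h1
  generalize (A *ᵥ w) 0 = u₀ at h1
  generalize (A *ᵥ w) 1 = u₁ at h1
  have h3 : p * w 0 ^ 2 + 2 * q * w 0 * w 1 + r * w 1 ^ 2 ≠ 0 := by
    intro h3
    rcases hw0 with h4 | h4
    · exact hs (AlgAux.sq_of_norm (x := q * w 0 + r * w 1) (y := w 0)
        (by linear_combination r * h3) (Or.inr h4))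
    · exact hs (AlgAux.sq_of_norm (x := p * w 0 + q * w 1) (y := w 1)
        (by linear_combination p * h3) (Or.inr h4))
  have h4 : p * u₀ ^ 2 + 2 * q * u₀ * u₁ + r * u₁ ^ 2 ≠ 0 := fun h4 => h3 (by rw [← h1, h4, mul_zero])
  refine IsNm.of_mul (mul_ne_zero h4 h3)
    ⟨p * u₀ * w 0 + q * (u₀ * w 1 + u₁ * w 0) + r * u₁ * w 1, u₀ * w 1 - u₁ * w 0, by ring⟩
    ⟨p * w 0 ^ 2 + 2 * q * w 0 * w 1 + r * w 1 ^ 2, 0, ?_⟩
  linear_combination (p * w 0 ^ 2 + 2 * q * w 0 * w 1 + r * w 1 ^ 2) * h1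

theorem not_sq_pi (L : LF E) : ¬ IsSquare L.π := by
  rintro ⟨r, hr⟩
  have h := L.v_π
  rw [hr, map_mul] at h
  have h0 : L.v r ≠ 0 := fun h0 => by
    rw [h0, mul_zero] at h
    exact WithZero.exp_ne_zero h.symm
  rw [← WithZero.exp_log h0, ← WithZero.exp_add, WithZero.exp_inj] at h
  omega

theorem exists_disc (L : LF E) {M : Matrix κ κ E} (hM : Mᵀ = M) (hu : IsUnit M)
    (hκ : 2 < Fintype.card κ) : ∃ u w, ¬ IsSquare (qf M u w ^ 2 - qf M u u * qf M w w) := by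
  obtain ⟨P, d, hP, hd⟩ := exists_diag M hM
  have h0 : ∀ i, d i ≠ 0 := by
    have : IsUnit (diagonal d) := hd ▸ (((isUnit_transpose P).2 hP).mul hu).mul hP
    rw [isUnit_diagonal] at this
    exact fun i => (this.apply i).ne_zero
  obtain ⟨i, j, k, hij, hik, hjk⟩ := Fintype.two_lt_card_iff.1 hκ
  by_cases hs : IsSquare (-(d j * d k))
  · obtain ⟨x, y, e⟩ := isNm_of_isSquare (neg_ne_zero.2 (mul_ne_zero (h0 j) (h0 k))) hs
      (-(d j * L.π / d i))
    refine ⟨P *ᵥ Pi.single i 1, P *ᵥ (Pi.single j (x / d j) + Pi.single k y), ?_⟩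
    have e2 : -(d i * (x / d j * d j * (x * (d j)⁻¹) + y * (y * d k))) = L.π := by
      have hi := h0 i
      have hj := h0 j
      field_simp
      field_simp at e
      linear_combination e
    rw [← qf_conj, ← qf_conj, ← qf_conj, hd]
    have e3 := not_sq_pi L
    rw [← e2] at e3
    simpa [qf, mulVec_add, hij, hik, hjk, hij.symm, hik.symm, hjk.symm] using e3
  · refine ⟨P *ᵥ Pi.single j 1, P *ᵥ Pi.single k 1, ?_⟩
    rw [← qf_conj, ← qf_conj, ← qf_conj, hd]
    simpa [qf, hjk, hjk.symm] using hs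

end MoritaAux

open MoritaAux

section
variable [Algebra ℚ R] {s t : R} (h : (b : R) = s ^ 2 - a * t ^ 2)

theorem spEmb_bijective : Function.Bijective (spEmb a b h) := by
  obtain ⟨ia, ha⟩ := inv_int (R := R) a (NeZero.ne a)
  obtain ⟨ib, hb⟩ := inv_int (R := R) b (NeZero.ne b)
  obtain ⟨i2, h2⟩ := inv_int (R := R) 2 two_ne_zero
  have hb' : ib * (s ^ 2 - a * t ^ 2) = 1 := by linear_combination hb - ib * h
  rw [Int.cast_ofNat] at h2
  refine ⟨(injective_iff_map_eq_zero _).2 fun z hz => ?_, fun M => ?_⟩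
  · have hA : z.re + s * z.imJ + a * t * z.imK = 0 := congrFun (congrFun hz 0) 0
    have hB : a * z.imI - a * t * z.imJ - a * s * z.imK = 0 := congrFun (congrFun hz 0) 1
    have hC : z.imI + t * z.imJ + s * z.imK = 0 := congrFun (congrFun hz 1) 0
    have hD : z.re - s * z.imJ - a * t * z.imK = 0 := congrFun (congrFun hz 1) 1
    have h0 : z.re = 0 := by linear_combination i2 * hA + i2 * hD - z.re * h2
    have h1 : z.imI = 0 := by
      linear_combination i2 * ia * hB + i2 * hC - i2 * (z.imI - t * z.imJ - s * z.imK) * ha -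
        z.imI * h2
    refine QuaternionAlgebra.ext h0 h1 ?_ ?_
    · change z.imJ = 0
      linear_combination ib * s * (hA - h0) - ib * a * t * (hC - h1) - z.imJ * hb'
    · change z.imK = 0
      linear_combination ib * s * (hC - h1) - ib * t * (hA - h0) - z.imK * hb'
  · refine ⟨⟨i2 * (M 0 0 + M 1 1), i2 * (ia * M 0 1 + M 1 0),
      ib * (s * (i2 * (M 0 0 - M 1 1)) - a * t * (i2 * (M 1 0 - ia * M 0 1))),
      ib * (s * (i2 * (M 1 0 - ia * M 0 1)) - t * (i2 * (M 0 0 - M 1 1)))⟩, ?_⟩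
    ext i j
    fin_cases i <;> fin_cases j <;> simp [spEmb]
    · linear_combination i2 * (M 0 0 - M 1 1) * hb' + M 0 0 * h2
    · linear_combination -a * (i2 * (M 1 0 - ia * M 0 1)) * hb' + 2 * i2 * M 0 1 * ha + M 0 1 * h2
    · linear_combination i2 * (M 1 0 - ia * M 0 1) * hb' + M 1 0 * h2
    · linear_combination -(i2 * (M 0 0 - M 1 1)) * hb' + M 1 1 * h2

omit [NeZero a] [NeZero b] [Algebra ℚ R] in
theorem spEmb_smul (c : R) (z : Q a b R) : spEmb a b h (c • z) = c • spEmb a b h z := by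
  ext i j
  fin_cases i <;> fin_cases j <;> simp [spEmb] <;> ring

omit [NeZero a] [NeZero b] [Algebra ℚ R] in
theorem spEmb_star (z : Q a b R) :
    !![0, 1; -1, 0] * spEmb a b h (star z) = (spEmb a b h z)ᵀ * !![0, 1; -1, 0] := by
  ext i j
  fin_cases i <;> fin_cases j <;> simp [spEmb, Matrix.mul_apply, Fin.sum_univ_two] <;> ring

omit [NeZero a] [NeZero b] [Algebra ℚ R] in
theorem spEmb_qmap (φ : R →+* S) (h' : (b : S) = φ s ^ 2 - a * φ t ^ 2) (z : Q a b R) :
    spEmb a b h' (qmap a b φ z) = (spEmb a b h z).map φ := by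
  ext i j
  fin_cases i <;> fin_cases j <;> simp [spEmb, qmap]

theorem mor_bijective {ν : Type} :
    Function.Bijective (mor (spEmb a b h) : Matrix μ ν (Q a b R) → _) := by
  refine (comp μ ν (Fin 2) (Fin 2) R).bijective.comp
    ⟨Matrix.map_injective (spEmb_bijective h).1, fun M => ?_⟩
  choose g hg using fun i j => (spEmb_bijective h).2 (M i j)
  exact ⟨Matrix.of g, Matrix.ext hg⟩

omit [NeZero a] [NeZero b] [Algebra ℚ R] in
theorem Jm_mul_mor_conjTranspose (g : Matrix ι κ (Q a b R)) :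
    Jm κ R * mor (spEmb a b h) gᴴ = (mor (spEmb a b h) g)ᵀ * Jm ι R := by
  rw [Jm, Jm, mor, mor, transpose_comp, comp_mul, comp_mul]
  refine congrArg _ (Matrix.ext fun i j => ?_)
  rw [diagonal_mul, mul_diagonal]
  exact spEmb_star h _

omit [NeZero a] [NeZero b] [Algebra ℚ R] in
theorem isUnit_Jm : IsUnit (Jm ι R) :=
  IsUnit.of_mul_eq_one (-Jm ι R) (by rw [Matrix.mul_neg, Jm_mul_Jm, neg_neg])

omit [NeZero a] [NeZero b] [Algebra ℚ R] in
theorem gram_symm {H : Matrix ι ι (Q a b R)} (hH : Hᴴ = -H) :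
    (gram (spEmb a b h) H)ᵀ = gram (spEmb a b h) H := by
  rw [gram, transpose_mul, Jm_transpose, Matrix.mul_neg, ← Jm_mul_mor_conjTranspose, hH, mor_neg,
    Matrix.mul_neg, neg_neg]

omit [NeZero a] [NeZero b] [Algebra ℚ R] in
theorem gram_isUnit {H : Matrix ι ι (Q a b R)} (hu : IsUnit H) :
    IsUnit (gram (spEmb a b h) H) := by
  obtain ⟨H', e⟩ := hu.exists_right_inv
  exact isUnit_Jm.mul (IsUnit.of_mul_eq_one (mor _ H') (by rw [← mor_mul, e, mor_one]))

omit [NeZero a] [NeZero b] [Algebra ℚ R] in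
theorem gram_conj (H : Matrix ι ι (Q a b R)) (g : Matrix ι κ (Q a b R)) :
    gram (spEmb a b h) (gᴴ * H * g) =
      (mor (spEmb a b h) g)ᵀ * gram (spEmb a b h) H * mor (spEmb a b h) g := by
  rw [gram, gram, mor_mul, mor_mul, ← Matrix.mul_assoc, ← Matrix.mul_assoc,
    Jm_mul_mor_conjTranspose, Matrix.mul_assoc _ (Jm ι R)]

theorem gram_injective :
    Function.Injective (gram (spEmb a b h) : Matrix ι ι (Q a b R) → _) :=
  fun _ _ e => (mor_bijective h).1 (isUnit_Jm.mul_left_cancel e)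

theorem exists_morEquiv (H : Matrix ι ι (Q a b R)) :
    ∃ e : Un H ≃* Ort (gram (spEmb a b h) H), ∀ g, (e g).1.1 = mor (spEmb a b h) g.1.1 := by
  let φ : Matrix ι ι (Q a b R) →* Matrix (ι × Fin 2) (ι × Fin 2) R :=
    { toFun := mor (spEmb a b h), map_one' := mor_one _, map_mul' := fun g g' => mor_mul _ g g' }
  let F : Un H →* Ort (gram (spEmb a b h) H) :=
    ((Units.map φ).comp (Un H).subtype).codRestrict _ fun g =>
      (gram_conj h H g.1.1).symm.trans (congrArg _ g.2)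
  refine ⟨MulEquiv.ofBijective F ⟨fun g g' e => Subtype.ext (Units.ext ((mor_bijective h).1
    (congrArg (fun u : Ort (gram (spEmb a b h) H) => u.1.1) e))), fun u => ?_⟩, fun _ => rfl⟩
  obtain ⟨g, hg⟩ := (mor_bijective h).2 u.1.1
  obtain ⟨g', hg'⟩ := (mor_bijective h).2 u.1⁻¹.1
  refine ⟨⟨⟨g, g', (mor_bijective h).1 ?_, (mor_bijective h).1 ?_⟩, gram_injective h ?_⟩,
    Subtype.ext (Units.ext hg)⟩
  · rw [mor_mul, mor_one, hg, hg', Units.mul_inv]
  · rw [mor_mul, mor_one, hg, hg', Units.inv_mul]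
  · rw [gram_conj, hg]
    exact u.2

end

theorem MoritaAux.sig_pair {s t : E} (h : (b : E) = s ^ 2 - a * t ^ 2) {H : Matrix ι ι (Q a b E)}
    (hH : Hᴴ = -H) {M : Matrix (ι × Fin 2) (ι × Fin 2) E} (hM : gram (spEmb a b h) H = M)
    {u w : ι × Fin 2 → E} (hu0 : qf M u u ≠ 0) (hw0 : qf M w w ≠ 0) (huw : qf M u w = 0) :
    ∃ g ∈ SigSet H, mor (spEmb a b h) g.1.1 = refl M u * refl M w := by
  have hMs : Mᵀ = M := hM ▸ gram_symm h hH
  have hwu : qf M w u = 0 := by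
    rw [← huw, qf, qf, dotProduct_mulVec, ← mulVec_transpose, hMs, dotProduct_comm]
  obtain ⟨Y, hY⟩ := (mor_bijective h (μ := ι) (ν := Unit)).2 (col2 u w)
  let D : Matrix (Unit × Fin 2) (Unit × Fin 2) E :=
    diagonal fun p => ![2 / qf M u u, 2 / qf M w w] p.2
  obtain ⟨σ, hσ⟩ := (mor_bijective h (μ := Unit) (ν := Unit)).2 (D * Jm Unit E)
  have hx := hf_star hH (fun i => Y i ()) fun i => Y i ()
  have hG := gram_conj h H Y
  rw [hY, hf_col, hM] at hG
  obtain ⟨x, hxd⟩ : ∃ x, hf H (fun i => Y i ()) (fun i => Y i ()) = x := ⟨_, rfl⟩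
  rw [hxd] at hx hG
  have h3 : mor (spEmb a b h) σ *
      mor (spEmb a b h) (diagonal fun _ : Unit => (1 / 2 : E) • x) = 1 := by
    have e1 : mor (spEmb a b h) (diagonal fun _ : Unit => (1 / 2 : E) • x) =
        (1 / 2 : E) • mor (spEmb a b h) (diagonal fun _ : Unit => x) := by
      ext ⟨⟨⟩, p⟩ ⟨⟨⟩, q⟩
      simp [mor, spEmb_smul]
    rw [hσ, e1, Matrix.mul_smul, Matrix.mul_assoc, ← gram, hG]
    ext ⟨⟨⟩, p⟩ ⟨⟨⟩, q⟩
    rw [Matrix.smul_apply, diagonal_mul, col2_gram]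
    fin_cases p <;> fin_cases q <;> simp [huw, hwu, hu0, hw0]
  have h4 := mul_eq_one_comm.1 h3
  rw [← mor_mul, ← mor_one (spEmb a b h)] at h3 h4
  have h5 := congrFun (congrFun ((mor_bijective h).1 h3) ()) ()
  have h6 := congrFun (congrFun ((mor_bijective h).1 h4) ()) ()
  rw [mul_diagonal, one_apply_eq] at h5
  rw [diagonal_mul, one_apply_eq] at h6
  obtain ⟨g, hg, e'⟩ := exists_sig hH (fun i => Y i ()) h6 h5 (by
    rw [QuaternionAlgebra.star_smul', hx, hxd]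
    module)
  have h7 : sig H (fun i => Y i ()) (σ () ()) = 1 - Y * σ * (Yᴴ * H) := by
    ext1 i j
    simp [sig, vecMulVec_apply, Matrix.mul_apply, vecMul, dotProduct]
  refine ⟨g, hg, ?_⟩
  rw [e', h7, mor_sub, mor_one, mor_mul, mor_mul, mor_mul, hσ, hY]
  have e2 : col2 u w * (D * Jm Unit E) * (mor (spEmb a b h) Yᴴ * mor (spEmb a b h) H) =
      col2 u w * D * ((col2 u w)ᵀ * M) := by
    rw [← hY, ← hM, gram, ← Matrix.mul_assoc _ (Jm ι E), ← Jm_mul_mor_conjTranspose]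
    simp only [Matrix.mul_assoc]
  have e3 : col2 u w * D * ((col2 u w)ᵀ * M) = (2 / qf M u u) • vecMulVec u (u ᵥ* M) +
      (2 / qf M w w) • vecMulVec w (w ᵥ* M) := by
    ext i j
    rw [Matrix.mul_apply, Fintype.sum_prod_type, Fintype.sum_unique, Fin.sum_univ_two,
      mul_diagonal, mul_diagonal]
    change u i * (2 / qf M u u) * (u ᵥ* M) j + w i * (2 / qf M w w) * (w ᵥ* M) j =
      2 / qf M u u * (u i * (u ᵥ* M) j) + 2 / qf M w w * (w i * (w ᵥ* M) j)
    ring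
  have e4 : (u ᵥ* M) ⬝ᵥ w = 0 := by rw [← dotProduct_mulVec]; exact huw
  rw [e2, e3, refl, refl, sub_mul, mul_sub, mul_sub, Matrix.smul_mul, Matrix.smul_mul,
    Matrix.mul_smul, Matrix.mul_smul, vecMulVec_mul_vecMulVec, e4]
  simp only [Matrix.one_mul, Matrix.mul_one, zero_smul, vecMulVec_zero, smul_zero]
  abel

theorem sig_generate_split (hs : IsNm (a : E) (b : E)) {H : Matrix ι ι (Q a b E)} (hH : Hᴴ = -H)
    (hu : IsUnit H) (hι : 3 ≤ Fintype.card ι) (g : Un H) (hg : nrd g.1.1 = 1) :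
    g ∈ Subgroup.closure (SigSet H) := by
  obtain ⟨s, t, h⟩ := hs
  obtain ⟨e, he⟩ := exists_morEquiv h H
  have h1 := so_generate (gram_symm h hH) (gram_isUnit h hu) (by simp; omega) (e g)
    (by rw [he, ← nrd_eq_det, hg])
  have h2 := Subgroup.mem_map_of_mem e.symm.toMonoidHom h1
  rw [MonoidHom.map_closure] at h2
  refine Subgroup.closure_mono ?_ (by simpa using h2)
  rintro _ ⟨k, ⟨u, hu0, w, hw0, huw, hk⟩, rfl⟩
  obtain ⟨g', hg', e'⟩ := sig_pair h hH rfl hu0 hw0 huw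
  obtain rfl : e g' = k := Subtype.ext (Units.ext (by rw [he, e', hk]))
  simpa using hg'

/-- If all diagonal entries have square squares, the attached quadratic form is split. -/
theorem exists_hyp {N : ℕ} {s t : E} (h : (b : E) = s ^ 2 - a * t ^ 2) (x : Fin N → Q a b E)
    (hx : ∀ j, (x j).re = 0 ∧ sqp (x j) ≠ 0 ∧ IsSquare (sqp (x j))) :
    ∃ P, IsUnit P ∧ Pᵀ * gram (spEmb a b h) (diagonal x) * P = hypW N E := by
  have key : ∀ j, ∃ P : Matrix (Fin 2) (Fin 2) E,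
      Pᵀ * (!![0, 1; -1, 0] * spEmb a b h (x j)) * P = !![0, 1; 1, 0] := fun j => by
    obtain ⟨h1, h2, d, hd⟩ := hx j
    obtain ⟨p, q, r, e, e'⟩ := pure_block h h1
    rw [e]
    exact hyp_two (left_ne_zero_of_mul (hd ▸ h2)) (e'.trans hd)
  choose P hP using key
  have hW : hypW N E = blk fun _ => !![0, 1; 1, 0] := by
    ext ⟨i, p⟩ ⟨j, q⟩
    by_cases hij : i = j
    · subst hij
      fin_cases p <;> fin_cases q <;> simp [hypW, blk]
    · simp [hypW, blk, hij, Ne.symm hij]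
  have e : (blk P)ᵀ * gram (spEmb a b h) (diagonal x) * blk P = hypW N E := by
    rw [gram_diagonal, blk_transpose, blk_mul, blk_mul, hW]
    exact congrArg blk (funext hP)
  refine ⟨blk P, IsUnit.of_mul_eq_one_right
    (hypW N E * ((blk P)ᵀ * gram (spEmb a b h) (diagonal x))) ?_, e⟩
  have e1 : (!![0, 1; 1, 0] * !![0, 1; 1, 0] : Matrix (Fin 2) (Fin 2) E) = 1 := by
    ext i j
    fin_cases i <;> fin_cases j <;> simp
  rw [Matrix.mul_assoc, e, hW, blk_mul, e1, blk, diagonal_one, Matrix.comp_one]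

theorem isNm_of_rep_two {x y : Q a b E} (hx : x.re = 0) (hy : y.re = 0) (hx0 : sqp x ≠ 0)
    (hy0 : sqp y ≠ 0) (hs : IsSquare (sqp y)) {c : E} (hc : c ≠ 0) {e : Fin 2 → Q a b E}
    (he : hf (diagonal ![c • x, y]) e e = x) : IsNm (sqp x) c := by
  have hy1 : y ≠ 0 := by
    rintro rfl
    exact hy0 (by simp [sqp])
  obtain ⟨s, t, h⟩ := isNm_of_isSquare_sqp hy hy1 hs
  obtain ⟨d, hd⟩ := hs
  obtain ⟨p, q, r, e1, e2⟩ := pure_block h hx
  obtain ⟨p', q', r', e3, e4⟩ := pure_block h hy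
  rw [← e2] at hx0 ⊢
  refine nm_two hx0 (e4.trans hd) (A := spEmb a b h (e 0)) (B := spEmb a b h (e 1)) ?_
  have h1 : star (e 0) * (c • x * e 0) + star (e 1) * (y * e 1) = x := by
    rw [← he.symm.trans (show _ = star (e 0) * (c • x * e 0) + star (e 1) * (y * e 1) by
      simp [hf, dotProduct, mulVec_diagonal, Fin.sum_univ_two])]
  have h2 := congrArg (fun z => !![0, 1; -1, 0] * spEmb a b h z) h1
  simp only [map_add, map_mul, spEmb_smul, Matrix.mul_add, ← Matrix.mul_assoc, spEmb_star] at h2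
  rw [← e1, ← e3]
  refine Eq.trans ?_ h2
  simp only [Matrix.mul_smul, Matrix.smul_mul, Matrix.mul_assoc]

/-- In rank at least two there is a value whose square is not a square. -/
theorem exists_nonsquare_value (L : LF E) {H : Matrix ι ι (Q a b E)} (hH : Hᴴ = -H)
    (hu : IsUnit H) (hι : 2 ≤ Fintype.card ι) : ∃ v, ¬ IsSquare (sqp (hf H v v)) := by
  by_cases hs : IsNm (a : E) (b : E)
  · obtain ⟨s, t, h⟩ := hs
    obtain ⟨u, w, huw⟩ := exists_disc L (gram_symm h hH) (gram_isUnit h hu) (by simp; omega)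
    obtain ⟨Y, hY⟩ := (mor_bijective h (μ := ι) (ν := Unit)).2 (col2 u w)
    have hG := gram_conj h H Y
    rw [hY, hf_col, gram_diagonal] at hG
    obtain ⟨p, q, r, e1, e2⟩ :=
      pure_block h (pure_of_star (hf_star hH (fun i => Y i ()) fun i => Y i ()))
    rw [e1] at hG
    have h1 : p = qf _ u u := (congrFun (congrFun hG ((), 0)) ((), 0)).trans (col2_gram _ _ _ _ _)
    have h2 : q = qf _ u w := (congrFun (congrFun hG ((), 0)) ((), 1)).trans (col2_gram _ _ _ _ _)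
    have h3 : r = qf _ w w := (congrFun (congrFun hG ((), 1)) ((), 1)).trans (col2_gram _ _ _ _ _)
    exact ⟨_, by rwa [← e2, h1, h2, h3]⟩
  · have : Nonempty ι := Fintype.card_pos_iff.1 (by omega)
    obtain ⟨v, hv⟩ := exists_hf_ne_zero hH hu.ne_zero
    exact ⟨v, fun h => hs (isNm_of_isSquare_sqp (pure_of_star (hf_star hH v v)) hv h)⟩

end Pool.Agent.P.MP_3c2f8c_gt
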