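import Pool.Agent.P.MP_3c2f8c_gt.Qu.Witt1

/-! QU-3: Witt theory for skew-hermitian forms. -/

set_option linter.unusedSectionVars false

namespace Pool.Agent.P.MP_3c2f8c_gt

open Matrix Polynomial WittAux

variable {a b : ℤ} {R S : Type} [CommRing R] [CommRing S] {E : Type} [Field E] [CharZero E]
  {ι κ μ : Type} [Fintype ι] [DecidableEq ι] [Fintype κ] [DecidableEq κ]
  [NeZero a] [NeZero b]

omit [NeZero a] [NeZero b] in
theorem hf_star {H : Matrix ι ι (Q a b R)} (hH : Hᴴ = -H) (u v : ι → Q a b R) :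
    star (hf H u v) = -hf H v u := hf_skew hH u v

omit [NeZero a] [NeZero b] in
theorem exists_sig {H : Matrix ι ι (Q a b R)} (hH : Hᴴ = -H) (y : ι → Q a b R)
    {s s' : Q a b R} (h1 : s * s' = 1) (h2 : s' * s = 1) (h3 : s - star s = hf H y y) :
    ∃ g ∈ SigSet H, g.1.1 = sig H y s' := exists_sig' hH y h1 h2 h3

omit [NeZero a] [NeZero b] in
theorem WittAux.exists_r {t : Q a b E} (ht : t.re = 0) (h0 : nr t ≠ 0) (n : Q a b E) :
    ∃ r, nr r ≠ 0 ∧ star r * t * r = t ∧ nr (t - n * r) ≠ 0 := by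
  by_contra hc
  have hc' : ∀ r, nr r ≠ 0 → star r * t * r = t → nr (t - n * r) = 0 := fun r h1 h2 => by
    by_contra h3
    exact hc ⟨r, h1, h2, h3⟩
  have h1 : ∀ x y : E, x ^ 2 + nr t * y ^ 2 = 1 →
      nr t + nr n + 2 * x * (t * n).re - 2 * y * nr t * n.re = 0 := fun x y h => by
    have e : nr (algebraMap E (Q a b E) x + y • t) = 1 := by
      rw [nr_add_smul ht, sqp_of_pure ht]
      linear_combination h
    have e2 : t * (algebraMap E (Q a b E) x + y • t) = (algebraMap E (Q a b E) x + y • t) * t := by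
      rw [mul_add, add_mul, Algebra.commutes, mul_smul_comm, smul_mul_assoc]
    have e3 := hc' _ (by rw [e]; exact one_ne_zero)
      (by rw [mul_assoc, e2, ← mul_assoc, star_mul_eq_nr, e, map_one, one_mul])
    have e4 : nr (t - n * (algebraMap E (Q a b E) x + y • t)) =
        nr t + nr n * (x ^ 2 + nr t * y ^ 2) + 2 * x * (t * n).re - 2 * y * nr t * n.re := by
      simp [nr, ht]
      ring
    rw [e4, h, mul_one] at e3
    exact e3
  have h2 := h1 1 0 (by ring)
  have h3 := h1 (-1) 0 (by ring)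
  have h4 : nr n = -nr t := by linear_combination (1 / 2 : E) * h2 + (1 / 2 : E) * h3
  have h5 : (t * n).re = 0 := by linear_combination (1 / 4 : E) * h2 - (1 / 4 : E) * h3
  have h6 : n.re = 0 := by
    obtain ⟨x, y, hy, h⟩ : ∃ x y : E, y ≠ 0 ∧ x ^ 2 + nr t * y ^ 2 = 1 := by
      by_cases h : 1 + nr t = 0
      · exact ⟨5 / 3, 4 / 3, by norm_num, by linear_combination (16 / 9 : E) * h⟩
      · exact ⟨(1 - nr t) / (1 + nr t), 2 / (1 + nr t), div_ne_zero two_ne_zero h, by
          field_simp; ring⟩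
    have h7 : 2 * y * nr t * n.re = 0 := by linear_combination -h1 x y h + h4 + 2 * x * h5
    exact (mul_eq_zero.1 h7).resolve_left (mul_ne_zero (mul_ne_zero two_ne_zero hy) h0)
  have h7 : n * t = -(t * n) := by
    simp [ht, h6] at h5
    ext <;> simp [ht, h6]
    · linear_combination 2 * h5
    all_goals ring
  have h8 : t * t = (-nr t) • (1 : Q a b E) := by
    rw [mul_self_of_pure ht, sqp_of_pure ht, Algebra.algebraMap_eq_smul_one]
  have h9 : n * n = nr t • (1 : Q a b E) := by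
    rw [mul_self_of_pure h6, sqp_of_pure h6, h4, neg_neg, Algebra.algebraMap_eq_smul_one]
  have e1 : star (n * t) * t * (n * t) = (nr t * nr t) • t := by
    rw [star_mul, star_of_pure ht, star_of_pure h6, neg_mul_neg]
    calc t * n * t * (n * t) = -(t * t * (n * n) * t) := by
          linear_combination (norm := noncomm_ring) t * h7 * (n * t)
      _ = (nr t * nr t) • t := by rw [h8, h9]; simp [smul_smul]
  have e2 := hc' ((-nr t)⁻¹ • (n * t))
    (by rw [nr_smul, nr_mul, h4]; exact mul_ne_zero (by simpa using h0) (by simpa using h0))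
    (by
      rw [QuaternionAlgebra.star_smul, smul_mul_assoc, smul_mul_assoc, mul_smul_comm, e1, smul_smul,
        smul_smul]
      have : (-nr t)⁻¹ * (-nr t)⁻¹ * (nr t * nr t) = 1 := by field_simp
      rw [this, one_smul])
  have e3 : t - n * ((-nr t)⁻¹ • (n * t)) = (2 : E) • t := by
    rw [mul_smul_comm, ← mul_assoc, h9, smul_mul_assoc, one_mul, smul_smul]
    have : (-nr t)⁻¹ * nr t = -1 := by field_simp
    rw [this, two_smul, neg_one_smul, sub_neg_eq_add]
  rw [e3, nr_smul] at e2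
  exact mul_ne_zero (by norm_num) h0 e2

/-- Witt's theorem for one vector. -/
theorem witt {H : Matrix ι ι (Q a b E)} (hH : Hᴴ = -H) {e c : ι → Q a b E}
    (ht : IsUnit (hf H e e)) (h : hf H c c = hf H e e) : ∃ u : Un H, u.1.1 *ᵥ e = c := by
  obtain ⟨r, r1, r2, r3⟩ := exists_r (pure_of_star (hf_skew hH e e))
    ((isUnit_iff_nr _).1 ht).ne_zero (hf H e c)
  have u1 := (isUnit_iff_nr _).2 r1.isUnit
  obtain ⟨σ, -, s1, -⟩ := witt_core hH h r2 ((isUnit_iff_nr _).2 r3.isUnit)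
  obtain ⟨ρ, hρ⟩ := exists_rho hH ht u1 r2
  obtain ⟨r', r4, -⟩ := isUnit_iff_exists.1 u1
  have e1 : ρ.1.1 *ᵥ e = rm e r' := by
    conv_rhs => rw [← hρ, rm_rm, r4, rm_one]
  refine ⟨σ * ρ, ?_⟩
  rw [Subgroup.coe_mul, Units.val_mul, ← mulVec_mulVec, e1, mulVec_rm, s1, rm_rm, r4, rm_one]

theorem exists_bd (hdiv : ¬ IsNm (a : E) (b : E)) {r : ℕ}
    {H : Matrix (Fin (r + 1)) (Fin (r + 1)) (Q a b E)} (hH : Hᴴ = -H) {v : Fin (r + 1) → Q a b E}
    (hv : hf H v v ≠ 0) : ∃ g M, IsIsom H (bd (hf H v v) M) g := by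
  have hu := isUnit_of_div hdiv hv
  by_cases h0 : v 0 = 0
  · obtain ⟨i, hi⟩ : ∃ i, v i ≠ 0 := by
      by_contra hc
      have : v = 0 := funext fun i => by
        by_contra h1
        exact hc ⟨i, h1⟩
      exact hv (by simp [hf, this])
    have hne : (0 : Fin (r + 1)) ≠ i := fun h => hi (h ▸ h0)
    refine exists_bd' hH (q := Pi.single 0 1 + Pi.single i 1) hu (by simp [hne]) ?_
    rw [add_dotProduct, single_one_dotProduct, single_one_dotProduct, h0, zero_add]
    exact isUnit_of_div hdiv hi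
  · refine exists_bd' hH (q := Pi.single 0 1) hu (by simp) ?_
    rw [single_one_dotProduct]
    exact isUnit_of_div hdiv h0

theorem exists_hf_ne_zero {H : Matrix ι ι (Q a b E)} (hH : Hᴴ = -H) (h0 : H ≠ 0) :
    ∃ v, hf H v v ≠ 0 := by
  by_contra hc
  have h1 : ∀ v, hf H v v = 0 := fun v => by
    by_contra h
    exact hc ⟨v, h⟩
  have h2 : ∀ u v, star (hf H u v) = hf H u v := fun u v => by
    have := h1 (u + v)
    rw [hf_add_left, hf_add_right, hf_add_right, h1, h1, zero_add, add_zero] at this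
    rw [hf_skew hH]
    exact (eq_neg_of_add_eq_zero_left this).symm
  refine h0 (Matrix.ext fun i j => ?_)
  have h3 := h2 (Pi.single i 1) (Pi.single j 1)
  have h4 := h2 (Pi.single i 1) (rm (Pi.single j 1) ⟨0, 1, 0, 0⟩)
  rw [hf_rm_right] at h4
  rw [hf_single] at h3 h4
  have e1 := congrArg QuaternionAlgebra.imI h3
  have e2 := congrArg QuaternionAlgebra.imJ h3
  have e3 := congrArg QuaternionAlgebra.imK h3
  have e4 := congrArg QuaternionAlgebra.imI h4
  simp [CharZero.neg_eq_self_iff] at e1 e2 e3 e4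
  ext <;> simp [e1, e2, e3, e4]

theorem skew_of_bd {A : Type} [Ring A] [StarRing A] {r : ℕ} {x : A}
    {M : Matrix (Fin r) (Fin r) A} (h : (bd x M)ᴴ = -bd x M) : star x = -x ∧ Mᴴ = -M :=
  ⟨congrFun (congrFun h 0) 0, Matrix.ext fun i j => congrFun (congrFun h i.succ) j.succ⟩

theorem isUnit_of_bd {A : Type} [Ring A] {r : ℕ} {x : A} {M : Matrix (Fin r) (Fin r) A}
    (h : IsUnit (bd x M)) : IsUnit x ∧ IsUnit M := by
  obtain ⟨N, h1, h2⟩ := isUnit_iff_exists.1 h
  refine ⟨isUnit_iff_exists.2 ⟨N 0 0, ?_, ?_⟩,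
    isUnit_iff_exists.2 ⟨N.submatrix Fin.succ Fin.succ, ?_, ?_⟩⟩
  · simpa [Matrix.mul_apply, Fin.sum_univ_succ, bd] using congrFun (congrFun h1 0) 0
  · simpa [Matrix.mul_apply, Fin.sum_univ_succ, bd] using congrFun (congrFun h2 0) 0
  · ext i j
    simpa [Matrix.mul_apply, Fin.sum_univ_succ, bd, Matrix.one_apply] using
      congrFun (congrFun h1 i.succ) j.succ
  · ext i j
    simpa [Matrix.mul_apply, Fin.sum_univ_succ, bd, Matrix.one_apply] using
      congrFun (congrFun h2 i.succ) j.succ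

theorem WittAux.diag_fin (hdiv : ¬ IsNm (a : E) (b : E)) (r : ℕ) :
    ∀ H : Matrix (Fin r) (Fin r) (Q a b E), Hᴴ = -H → IsUnit H →
      ∃ g x, IsIsom H (diagonal x) g ∧ ∀ i, (x i).re = 0 ∧ x i ≠ 0 := by
  induction r with
  | zero => exact fun H _ _ => ⟨1, 0, ⟨isUnit_one, Subsingleton.elim _ _⟩, fun i => i.elim0⟩
  | succ r ih =>
    intro H hH hu
    obtain ⟨v, hv⟩ := exists_hf_ne_zero hH hu.ne_zero
    obtain ⟨g, M, hg⟩ := exists_bd hdiv hH hv
    have h1 : (bd (hf H v v) M)ᴴ = -bd (hf H v v) M := by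
      rw [← hg.2, conjTranspose_mul, conjTranspose_mul, conjTranspose_conjTranspose, hH]
      noncomm_ring
    have h2 : IsUnit (bd (hf H v v) M) :=
      hg.2 ▸ (((isUnit_conjTranspose g).2 hg.1).mul hu).mul hg.1
    obtain ⟨g', x, hx, hx'⟩ := ih M (skew_of_bd h1).2 (isUnit_of_bd h2).2
    refine ⟨g * bd 1 g', Fin.cons (hf H v v) x, ?_, fun i => ?_⟩
    · rw [diagonal_cons]
      exact hg.trans (IsIsom.bd isUnit_one (by simp) hx)
    · exact Fin.cases ⟨pure_of_star (hf_skew hH v v), hv⟩ hx' i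

theorem exists_diagonal (hdiv : ¬ IsNm (a : E) (b : E)) {H : Matrix ι ι (Q a b E)}
    (hH : Hᴴ = -H) (hu : IsUnit H) :
    ∃ g x, IsIsom H (diagonal x) g ∧ ∀ i, (x i).re = 0 ∧ x i ≠ 0 := by
  let e := Fintype.equivFin ι
  obtain ⟨g, x, hg, hx⟩ := diag_fin hdiv _ (H.submatrix e.symm e.symm)
    (by rw [conjTranspose_submatrix, hH]; rfl) (hu.map (reindexRingEquiv (Q a b E) e))
  refine ⟨g.submatrix e e, x ∘ e, ⟨hg.1.map (reindexRingEquiv (Q a b E) e.symm), ?_⟩,
    fun i => hx _⟩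
  have h : H = (H.submatrix e.symm e.symm).submatrix e e := by simp
  rw [← submatrix_diagonal_equiv, ← hg.2, h, conjTranspose_submatrix, submatrix_mul_equiv,
    submatrix_mul_equiv, ← h]

theorem sig_generate_div (hdiv : ¬ IsNm (a : E) (b : E)) {H : Matrix ι ι (Q a b E)}
    (hH : Hᴴ = -H) (hu : IsUnit H) : Subgroup.closure (SigSet H) = ⊤ := by
  obtain ⟨P, x, hP, hx⟩ := exists_diagonal hdiv hH hu
  have ho : ∀ i j, hf H (P *ᵥ Pi.single i 1) (P *ᵥ Pi.single j 1) = diagonal x i j := fun i j => by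
    rw [← conj_apply, hP.2]
  have key : ∀ T : Finset ι, ∀ g : Un H,
      (∀ j, j ∉ T → g.1.1 *ᵥ (P *ᵥ Pi.single j 1) = P *ᵥ Pi.single j 1) →
      g ∈ Subgroup.closure (SigSet H) := by
    intro T
    induction T using Finset.induction_on with
    | empty =>
      intro g hg
      have h1 : g.1.1 * P = 1 * P := by
        ext i j : 1
        have := congrFun (hg j (Finset.notMem_empty j)) i
        rw [mulVec_mulVec, mulVec_single_one, mulVec_single_one] at this
        rw [one_mul]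
        exact this
      have h2 : g = 1 := Subtype.ext (Units.ext (hP.1.mul_right_cancel h1))
      exact h2 ▸ one_mem _
    | insert k T hk ih =>
      intro g hg
      obtain ⟨e, he⟩ : ∃ e, e = P *ᵥ Pi.single k 1 := ⟨_, rfl⟩
      have h0 : hf H e e ≠ 0 := by rw [he, ho, diagonal_apply_eq]; exact (hx k).2
      have h1 : ∀ j, j ∉ insert k T → hf H e (P *ᵥ Pi.single j 1) = 0 := fun j hj => by
        have hkj : k ≠ j := fun h => hj (h ▸ Finset.mem_insert_self _ _)
        rw [he, ho, diagonal_apply_ne _ hkj]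
      have h2 : ∀ j, j ∉ insert k T → hf H (g.1.1 *ᵥ e) (P *ᵥ Pi.single j 1) = 0 := fun j hj => by
        rw [← hg j hj, hf_un, h1 j hj]
      have h3 : IsUnit (hf H e e - hf H e e * -1) := by
        refine isUnit_of_div hdiv ?_
        rw [mul_neg_one, sub_neg_eq_add, ← two_smul E]
        exact smul_ne_zero two_ne_zero h0
      obtain ⟨u, hu, u1, u2⟩ : ∃ u ∈ Subgroup.closure (SigSet H), u.1.1 *ᵥ e = g.1.1 *ᵥ e ∧
          ∀ j, j ∉ insert k T → u.1.1 *ᵥ (P *ᵥ Pi.single j 1) = P *ᵥ Pi.single j 1 := by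
        by_cases hn : hf H e (g.1.1 *ᵥ e) = hf H e e
        · obtain ⟨σ, s0, s1, s2⟩ := witt_core hH (r := -1) (hf_un g e e) (by simp) (hn ▸ h3)
          obtain ⟨ρ, r0, r1, r2⟩ := witt_core hH (r := -1) (c := e) rfl (by simp) h3
          refine ⟨σ * ρ, mul_mem (Subgroup.subset_closure s0) (Subgroup.subset_closure r0), ?_,
            fun j hj => ?_⟩
          · rw [Subgroup.coe_mul, Units.val_mul, ← mulVec_mulVec, r1, mulVec_rm, s1, rm_rm,
              neg_mul_neg, one_mul, rm_one]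
          · rw [Subgroup.coe_mul, Units.val_mul, ← mulVec_mulVec, r2 _ (h1 j hj) (h1 j hj),
              s2 _ (h1 j hj) (h2 j hj)]
        · obtain ⟨σ, s0, s1, s2⟩ := witt_core hH (r := 1) (hf_un g e e) (by simp)
            (isUnit_of_div hdiv (by rw [mul_one]; exact sub_ne_zero.2 (Ne.symm hn)))
          exact ⟨σ, Subgroup.subset_closure s0, by rw [s1, rm_one],
            fun j hj => s2 _ (h1 j hj) (h2 j hj)⟩
      have h4 : ∀ w, u.1.1 *ᵥ w = g.1.1 *ᵥ w → (u⁻¹ * g).1.1 *ᵥ w = w := fun w hw => by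
        rw [Subgroup.coe_mul, Units.val_mul, ← mulVec_mulVec, ← hw, mulVec_mulVec,
          Subgroup.coe_inv, Units.inv_mul, one_mulVec]
      have h5 := ih (u⁻¹ * g) fun j hj => h4 _ (by
        by_cases hjk : j = k
        · rw [hjk, ← he, u1]
        · have : j ∉ insert k T := by simp [hjk, hj]
          rw [u2 j this, hg j this])
      simpa using mul_mem hu h5
  exact eq_top_iff.2 fun g _ => key Finset.univ g fun j hj => absurd (Finset.mem_univ j) hj

theorem nrd_eq_one_of_div (hdiv : ¬ IsNm (a : E) (b : E)) {H : Matrix ι ι (Q a b E)}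
    (hH : Hᴴ = -H) (hu : IsUnit H) (g : Un H) : nrd g.1.1 = 1 := by
  have hg : g ∈ Subgroup.closure (SigSet H) := sig_generate_div hdiv hH hu ▸ Subgroup.mem_top g
  induction hg using Subgroup.closure_induction with
  | mem x hx =>
    obtain ⟨y, s, s', h1, h2, h3, h4⟩ := hx
    rw [h4, nrd_sig H y h1 h2 h3]
  | one => exact nrd_one
  | mul x y _ _ hx hy => rw [Subgroup.coe_mul, Units.val_mul, nrd_mul, hx, hy, one_mul]
  | inv x _ hx =>
    have := nrd_mul (x⁻¹).1.1 x.1.1
    rw [Subgroup.coe_inv, Units.inv_mul, nrd_one, hx, mul_one] at this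
    exact this.symm

/-- Witt cancellation. -/
theorem cancel {r : ℕ} {x : Q a b E} (hx : x.re = 0) (hx' : IsUnit x)
    {M M' : Matrix (Fin r) (Fin r) (Q a b E)} (hM : Mᴴ = -M) (hM' : IsUnit M) {g}
    (h : IsIsom (bd x M) (bd x M') g) :
    ∃ g₀, IsIsom M M' g₀ ∧ (¬ IsNm (a : E) (b : E) → nrd g₀ = nrd g) := by
  have hH : (bd x M)ᴴ = -bd x M := by
    ext i j : 1
    refine Fin.cases ?_ (fun i => ?_) i <;> refine Fin.cases ?_ (fun j => ?_) j
    · exact star_of_pure hx
    · simp [bd]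
    · simp [bd]
    · exact congrFun (congrFun hM i) j
  have hU : IsUnit (bd x M) := (IsIsom.bd (x := x) hx' rfl (M := M) ⟨hM', rfl⟩).1
  have e0 : hf (bd x M) (Pi.single 0 1) (Pi.single 0 1) = x := hf_single _ _ _
  obtain ⟨u, hu⟩ := witt hH (e := Pi.single 0 1) (c := g *ᵥ Pi.single 0 1) (e0.symm ▸ hx')
    (by rw [← conj_apply, h.2, e0]; rfl)
  obtain ⟨k, hk⟩ : ∃ k, k = (u⁻¹).1.1 * g := ⟨_, rfl⟩
  have k1 : IsIsom (bd x M) (bd x M') k :=
    hk ▸ IsIsom.trans (H' := bd x M) ⟨Units.isUnit _, (u⁻¹).2⟩ h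
  have k2 : k *ᵥ Pi.single 0 1 = Pi.single 0 1 := by
    rw [hk, ← mulVec_mulVec, ← hu, mulVec_mulVec, Subgroup.coe_inv, Units.inv_mul, one_mulVec]
  have k3 : k = bd 1 (k.submatrix Fin.succ Fin.succ) := by
    rw [mulVec_single_one] at k2
    ext i j : 1
    refine Fin.cases ?_ (fun i => ?_) i <;> refine Fin.cases ?_ (fun j => ?_) j
    · simpa [bd] using congrFun k2 0
    · have h1 := congrFun (congrFun k1.2 0) j.succ
      rw [conj_apply, mulVec_single_one, k2, hf, Pi.star_single, star_one, single_one_dotProduct,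
        mulVec_single_one] at h1
      have h2 : x * k 0 j.succ = 0 := by
        simpa [bd, mulVec, dotProduct, Fin.sum_univ_succ] using h1
      exact (hx'.mul_right_eq_zero).1 h2
    · simpa [bd] using congrFun k2 i.succ
    · rfl
  have k4 : IsUnit (k.submatrix Fin.succ Fin.succ) := (isUnit_of_bd (k3 ▸ k1.1)).2
  have k5 := (IsIsom.bd (x := x) (x' := x) isUnit_one (by simp) (M := M) ⟨k4, rfl⟩).2
  rw [← k3, k1.2] at k5
  refine ⟨k.submatrix Fin.succ Fin.succ, ⟨k4, ?_⟩, fun hdiv => ?_⟩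
  · exact Matrix.ext fun i j => (congrFun (congrFun k5 i.succ) j.succ).symm
  · have h1 := nrd_mul (u⁻¹).1.1 g
    rw [← hk, k3, nrd_bd, nr_one, one_mul, nrd_eq_one_of_div hdiv hH hU, one_mul] at h1
    exact h1

end Pool.Agent.P.MP_3c2f8c_gt
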