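import Pool.Agent.P.MP_3c2f8c_gt.Qu.Nrd

/-! QU-3, auxiliary lemmas: rank one perturbations of the identity over a ring with involution. -/

namespace Pool.Agent.P.MP_3c2f8c_gt

namespace WittAux

open Matrix

variable {A : Type} [Ring A] {ι : Type} [Fintype ι] [DecidableEq ι]

/-- Right multiplication of a vector by a scalar. -/
def rm (v : ι → A) (r : A) : ι → A := fun i => v i * r

omit [Fintype ι] [DecidableEq ι] in
theorem rm_rm (v : ι → A) (r s : A) : rm (rm v r) s = rm v (r * s) := by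
  funext i; simp [rm, mul_assoc]

omit [Fintype ι] [DecidableEq ι] in
theorem rm_one (v : ι → A) : rm v 1 = v := by
  funext i; simp [rm]

omit [Fintype ι] [DecidableEq ι] in
theorem rm_zero (v : ι → A) : rm v 0 = 0 := by
  funext i; simp [rm]

omit [DecidableEq ι] in
theorem dot_rm (q v : ι → A) (r : A) : q ⬝ᵥ rm v r = q ⬝ᵥ v * r := by
  simp [rm, dotProduct, Finset.sum_mul, mul_assoc]

omit [DecidableEq ι] in
theorem mulVec_rm (g : Matrix ι ι A) (v : ι → A) (r : A) : g *ᵥ rm v r = rm (g *ᵥ v) r := by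
  funext i
  exact dot_rm _ _ _

theorem el_mulVec (p q v : ι → A) : (1 - vecMulVec p q) *ᵥ v = v - rm p (q ⬝ᵥ v) := by
  rw [sub_mulVec, one_mulVec, vecMulVec_mulVec]
  rfl

theorem isUnit_el {p q : ι → A} (h : IsUnit (1 - q ⬝ᵥ p)) : IsUnit (1 - vecMulVec p q) := by
  obtain ⟨m, h1, h2⟩ := isUnit_iff_exists.1 h
  refine isUnit_iff_exists.2 ⟨1 - vecMulVec (rm p (-m)) q, ?_, ?_⟩
  · refine ext_iff_mulVec.2 fun v => ?_
    rw [← mulVec_mulVec, el_mulVec, el_mulVec, one_mulVec, dotProduct_sub, rm_rm, dot_rm]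
    funext i
    simp only [rm, Pi.sub_apply]
    linear_combination (norm := noncomm_ring) p i * h1 * (q ⬝ᵥ v)
  · refine ext_iff_mulVec.2 fun v => ?_
    rw [← mulVec_mulVec, el_mulVec, el_mulVec, one_mulVec, dotProduct_sub, rm_rm, dot_rm]
    funext i
    simp only [rm, Pi.sub_apply]
    linear_combination (norm := noncomm_ring) p i * h2 * (q ⬝ᵥ v)

variable [StarRing A]

omit [DecidableEq ι] in
theorem hf_skew {H : Matrix ι ι A} (hH : Hᴴ = -H) (u v : ι → A) :
    star (hf H u v) = -hf H v u := by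
  rw [hf, hf, star_dotProduct, star_star, star_mulVec, hH, vecMul_neg, neg_dotProduct,
    dotProduct_mulVec]

omit [DecidableEq ι] in
theorem hf_sub_right (H : Matrix ι ι A) (u v w : ι → A) :
    hf H u (v - w) = hf H u v - hf H u w := by
  rw [hf, hf, hf, mulVec_sub, dotProduct_sub]

omit [DecidableEq ι] in
theorem hf_sub_left (H : Matrix ι ι A) (u v w : ι → A) :
    hf H (u - v) w = hf H u w - hf H v w := by
  rw [hf, hf, hf, star_sub, sub_dotProduct]

omit [DecidableEq ι] in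
theorem hf_add_right (H : Matrix ι ι A) (u v w : ι → A) :
    hf H u (v + w) = hf H u v + hf H u w := by
  rw [hf, hf, hf, mulVec_add, dotProduct_add]

omit [DecidableEq ι] in
theorem hf_add_left (H : Matrix ι ι A) (u v w : ι → A) :
    hf H (u + v) w = hf H u w + hf H v w := by
  rw [hf, hf, hf, star_add, add_dotProduct]

omit [DecidableEq ι] in
theorem hf_rm_right (H : Matrix ι ι A) (u v : ι → A) (r : A) :
    hf H u (rm v r) = hf H u v * r := by
  rw [hf, hf, mulVec_rm, dot_rm]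

omit [DecidableEq ι] in
theorem hf_rm_left (H : Matrix ι ι A) (u v : ι → A) (r : A) :
    hf H (rm u r) v = star r * hf H u v := by
  simp [hf, rm, dotProduct, Finset.mul_sum, mul_assoc]

theorem hf_single (H : Matrix ι ι A) (i j : ι) :
    hf H (Pi.single i 1) (Pi.single j 1) = H i j := by
  rw [hf, Pi.star_single, star_one, single_one_dotProduct, mulVec_single_one]
  rfl

theorem conj_apply (H g : Matrix ι ι A) (i j : ι) :
    (gᴴ * H * g) i j = hf H (g *ᵥ Pi.single i 1) (g *ᵥ Pi.single j 1) := by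
  rw [hf_mulVec, hf_single]

theorem sig_mulVec (H : Matrix ι ι A) (y : ι → A) (s' : A) (v : ι → A) :
    sig H y s' *ᵥ v = v - rm y (s' * hf H y v) := by
  rw [sig, el_mulVec, ← dotProduct_mulVec, ← rm_rm]
  rfl

theorem exists_un {H : Matrix ι ι A} (hH : Hᴴ = -H) {y : ι → A} {s' : A}
    (h1 : star s' - s' = star s' * hf H y y * s') (h2 : IsUnit (1 - hf H y y * s')) :
    ∃ g : Un H, g.1.1 = sig H y s' := by
  have hu : IsUnit (sig H y s') := by
    refine isUnit_el ?_
    rw [← hf_rm_right, hf, dotProduct_mulVec] at h2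
    exact h2
  refine ⟨⟨hu.unit, ?_⟩, rfl⟩
  change (sig H y s')ᴴ * H * sig H y s' = H
  ext i j
  rw [conj_apply, ← hf_single H i j, sig_mulVec, sig_mulVec]
  simp only [hf_sub_left, hf_sub_right, hf_rm_left, hf_rm_right, star_mul, hf_skew hH]
  linear_combination (norm := noncomm_ring)
    hf H (Pi.single i 1) y * h1 * hf H y (Pi.single j 1)

theorem exists_sig' {H : Matrix ι ι A} (hH : Hᴴ = -H) (y : ι → A)
    {s s' : A} (h1 : s * s' = 1) (h2 : s' * s = 1) (h3 : s - star s = hf H y y) :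
    ∃ g ∈ SigSet H, g.1.1 = sig H y s' := by
  have h4 : star s' * star s = 1 := by rw [← star_mul, h1, star_one]
  have u1 : IsUnit s := isUnit_iff_exists.2 ⟨s', h1, h2⟩
  have u2 : IsUnit s' := isUnit_iff_exists.2 ⟨s, h2, h1⟩
  obtain ⟨g, hg⟩ := exists_un hH (y := y) (s' := s')
    (by rw [← h3]; linear_combination (norm := noncomm_ring) h4 * s' - star s' * h1)
    (by rw [← h3, sub_mul, h1, sub_sub_cancel]; exact u1.star.mul u2)
  exact ⟨g, ⟨y, s, s', h1, h2, h3, hg⟩, hg⟩

theorem hf_un {H : Matrix ι ι A} (g : Un H) (u v : ι → A) :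
    hf H (g.1.1 *ᵥ u) (g.1.1 *ᵥ v) = hf H u v := by
  have h : g.1.1ᴴ * H * g.1.1 = H := g.2
  rw [hf_mulVec, h]

theorem witt_core {H : Matrix ι ι A} (hH : Hᴴ = -H) {e c : ι → A} {r : A}
    (h : hf H c c = hf H e e) (hr : star r * hf H e e * r = hf H e e)
    (hu : IsUnit (hf H e e - hf H e c * r)) :
    ∃ σ ∈ SigSet H, σ.1.1 *ᵥ e = rm c r ∧
      ∀ w, hf H e w = 0 → hf H c w = 0 → σ.1.1 *ᵥ w = w := by
  have e1 : star (hf H (e - rm c r) e) = -(hf H e e - hf H e c * r) := by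
    rw [hf_skew hH, hf_sub_right, hf_rm_right]
  have u1 : IsUnit (hf H (e - rm c r) e) := isUnit_star.1 (e1 ▸ hu.neg)
  obtain ⟨s', h1, h2⟩ := isUnit_iff_exists.1 u1
  obtain ⟨σ, hσ, e2⟩ := exists_sig' hH (e - rm c r) h1 h2 (by
    rw [e1]
    simp only [hf_sub_left, hf_sub_right, hf_rm_left, hf_rm_right, h]
    linear_combination (norm := noncomm_ring) -hr)
  refine ⟨σ, hσ, ?_, fun w h3 h4 => ?_⟩
  · rw [e2, sig_mulVec, h2, rm_one, sub_sub_cancel]
  · rw [e2, sig_mulVec, hf_sub_left, hf_rm_left, h3, h4, mul_zero, sub_zero, mul_zero, rm_zero,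
      sub_zero]

theorem exists_rho {H : Matrix ι ι A} (hH : Hᴴ = -H) {e : ι → A} {r : A}
    (ht : IsUnit (hf H e e)) (hu : IsUnit r) (hr : star r * hf H e e * r = hf H e e) :
    ∃ ρ : Un H, rm (ρ.1.1 *ᵥ e) r = e := by
  obtain ⟨t', t1, t2⟩ := isUnit_iff_exists.1 ht
  obtain ⟨r', r1, r2⟩ := isUnit_iff_exists.1 hu
  have s0 := hf_skew hH e e
  have u1 : IsUnit t' := isUnit_iff_exists.2 ⟨_, t2, t1⟩
  have u2 : IsUnit r' := isUnit_iff_exists.2 ⟨_, r2, r1⟩
  generalize hte : hf H e e = t at *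
  have s1 : star t' = -t' := by
    have : star t' * star t = 1 := by rw [← star_mul, t1, star_one]
    rw [s0] at this
    linear_combination (norm := noncomm_ring) -star t' * t1 - this * t'
  have s2 : star r' * star r = 1 := by rw [← star_mul, r1, star_one]
  have s3 : star r' * t * r' = t := by
    linear_combination (norm := noncomm_ring) -star r' * hr * r' + s2 * t * r * r' + t * r1
  obtain ⟨ρ, hρ⟩ := exists_un hH (y := e) (s' := (1 - r') * t')
    (by
      rw [hte, star_mul, star_sub, star_one, s1]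
      linear_combination (norm := noncomm_ring) t' * s3 * t' + t2 * (2 * t') - t2 * r' * t' -
        t' * star r' * t1)
    (by
      have : 1 - t * ((1 - r') * t') = t * r' * t' := by
        linear_combination (norm := noncomm_ring) -t1
      rw [hte, this]
      exact (ht.mul u2).mul u1)
  refine ⟨ρ, ?_⟩
  rw [hρ, sig_mulVec, hte]
  funext i
  simp only [rm, Pi.sub_apply]
  linear_combination (norm := noncomm_ring) -e i * (1 - r') * t2 * r + e i * r2

theorem exists_bd' {r : ℕ} {H : Matrix (Fin (r + 1)) (Fin (r + 1)) A} (hH : Hᴴ = -H)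
    {v q : Fin (r + 1) → A} (hv : IsUnit (hf H v v)) (hq : q 0 = 1) (hq' : IsUnit (q ⬝ᵥ v)) :
    ∃ g M, IsIsom H (bd (hf H v v) M) g := by
  obtain ⟨x', x1, -⟩ := isUnit_iff_exists.1 hv
  set g₀ : Matrix (Fin (r + 1)) (Fin (r + 1)) A := 1 - vecMulVec (Pi.single 0 1 - v) q with hg₀
  have u0 : IsUnit g₀ := isUnit_el (by
    rwa [dotProduct_sub, dotProduct_single_one, hq, sub_sub_cancel])
  have e0 : g₀ *ᵥ Pi.single 0 1 = v := by
    rw [hg₀, el_mulVec, dotProduct_single_one, hq, rm_one, sub_sub_cancel]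
  set q' : Fin (r + 1) → A := Fin.cons 0 fun j => x' * hf H v (g₀ *ᵥ Pi.single j.succ 1) with hq₁
  set T : Matrix (Fin (r + 1)) (Fin (r + 1)) A := 1 - vecMulVec (Pi.single 0 1) q' with hT
  have u1 : IsUnit T := isUnit_el (by
    rw [dotProduct_single_one, hq₁, Fin.cons_zero, sub_zero]; exact isUnit_one)
  have e1 : (g₀ * T) *ᵥ Pi.single 0 1 = v := by
    rw [← mulVec_mulVec, hT, el_mulVec _ q', dotProduct_single_one, hq₁, Fin.cons_zero, rm_zero,
      sub_zero, e0]
  have e2 : ∀ j : Fin r, hf H v ((g₀ * T) *ᵥ Pi.single j.succ 1) = 0 := fun j => by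
    rw [← mulVec_mulVec, hT, el_mulVec _ q', dotProduct_single_one, hq₁, Fin.cons_succ, mulVec_sub,
      mulVec_rm, e0, hf_sub_right, hf_rm_right, ← mul_assoc, x1, one_mul, sub_self]
  refine ⟨g₀ * T, ((g₀ * T)ᴴ * H * (g₀ * T)).submatrix Fin.succ Fin.succ, u0.mul u1, ?_⟩
  ext i j
  refine Fin.cases ?_ (fun i => ?_) i <;> refine Fin.cases ?_ (fun j => ?_) j
  · rw [conj_apply, e1]; rfl
  · rw [conj_apply, e1, e2]; rfl
  · rw [conj_apply, e1, ← neg_neg (hf H _ v), ← hf_skew hH, e2, star_zero, neg_zero]; rfl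
  · rfl

end WittAux

end Pool.Agent.P.MP_3c2f8c_gt
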